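import Mathlib
import Pool.Agent.Lib.MP_f60e8a_al.N.NDefs

/-!
# Definitions for the Pansu part: filtered polynomial groups on `ℝ^h`
-/

open scoped BigOperators commutatorElement

namespace Pool.Agent.MPf60e8aP

open Pool.Agent.MPf60e8a (wordLen Bdd)
open Pool.Agent.MPf60e8aN (Alg)

/-! ## Polynomial group laws with weights -/

/-- Every monomial involves variables of both sorts, and has weighted degree at most `d`. -/
def MixedLe {h : ℕ} (w : Fin h → ℕ) (d : ℕ) (q : MvPolynomial (Fin h ⊕ Fin h) ℝ) : Prop :=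
  ∀ m ∈ q.support, (∃ i, m (Sum.inl i) ≠ 0) ∧ (∃ i, m (Sum.inr i) ≠ 0) ∧
    Finsupp.weight (Sum.elim w w) m ≤ d

/-- The product on `ℝ^h` with mixed part `Q`. -/
noncomputable def pmul {h : ℕ} (Q : Fin h → MvPolynomial (Fin h ⊕ Fin h) ℝ)
    (x y : Fin h → ℝ) : Fin h → ℝ :=
  fun k => x k + y k + MvPolynomial.eval (Sum.elim x y) (Q k)

/-- The dilation. -/
def dil {h : ℕ} (w : Fin h → ℕ) (t : ℝ) (x : Fin h → ℝ) : Fin h → ℝ := fun k => t ^ w k * x k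

/-- A polynomial group law on `ℝ^h` in coordinates of the first kind, filtered by weights. -/
structure PGrp {h : ℕ} (w : Fin h → ℕ) where
  Q : Fin h → MvPolynomial (Fin h ⊕ Fin h) ℝ
  one_le_w : ∀ i, 1 ≤ w i
  mixed : ∀ k, MixedLe w (w k) (Q k)
  assoc : ∀ x y z : Fin h → ℝ, pmul Q (pmul Q x y) z = pmul Q x (pmul Q y z)
  smul_smul : ∀ (s t : ℝ) (x : Fin h → ℝ), pmul Q (s • x) (t • x) = (s + t) • x

/-- The points of the group. -/
@[ext] structure PGrp.R {h : ℕ} {w : Fin h → ℕ} (𝒢 : PGrp w) where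
  v : Fin h → ℝ

namespace PGrp

variable {h : ℕ} {w : Fin h → ℕ} (𝒢 : PGrp w)

theorem eval_zero_left {q : MvPolynomial (Fin h ⊕ Fin h) ℝ} {d : ℕ} (hq : MixedLe w d q)
    (y : Fin h → ℝ) : MvPolynomial.eval (Sum.elim 0 y) q = 0 := by
  rw [MvPolynomial.eval_eq]
  refine Finset.sum_eq_zero fun m hm => ?_
  obtain ⟨⟨i, hi⟩, _, _⟩ := hq m hm
  rw [Finset.prod_eq_zero (i := Sum.inl i) (Finsupp.mem_support_iff.mpr hi), mul_zero]
  simp [hi]

theorem eval_zero_right {q : MvPolynomial (Fin h ⊕ Fin h) ℝ} {d : ℕ} (hq : MixedLe w d q)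
    (x : Fin h → ℝ) : MvPolynomial.eval (Sum.elim x 0) q = 0 := by
  rw [MvPolynomial.eval_eq]
  refine Finset.sum_eq_zero fun m hm => ?_
  obtain ⟨_, ⟨i, hi⟩, _⟩ := hq m hm
  rw [Finset.prod_eq_zero (i := Sum.inr i) (Finsupp.mem_support_iff.mpr hi), mul_zero]
  simp [hi]

theorem zero_pmul (x : Fin h → ℝ) : pmul 𝒢.Q 0 x = x := by
  funext k
  simp [pmul, eval_zero_left (𝒢.mixed k)]

theorem pmul_zero (x : Fin h → ℝ) : pmul 𝒢.Q x 0 = x := by
  funext k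
  simp [pmul, eval_zero_right (𝒢.mixed k)]

theorem neg_pmul (x : Fin h → ℝ) : pmul 𝒢.Q (-x) x = 0 := by
  have := 𝒢.smul_smul (-1) 1 x
  simpa using this

variable {𝒢}

noncomputable instance : Group 𝒢.R where
  mul x y := ⟨pmul 𝒢.Q x.v y.v⟩
  one := ⟨0⟩
  inv x := ⟨-x.v⟩
  mul_assoc x y z := PGrp.R.ext (𝒢.assoc x.v y.v z.v)
  one_mul x := PGrp.R.ext (𝒢.zero_pmul x.v)
  mul_one x := PGrp.R.ext (𝒢.pmul_zero x.v)
  inv_mul_cancel x := PGrp.R.ext (𝒢.neg_pmul x.v)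

theorem mul_v (x y : 𝒢.R) : (x * y).v = pmul 𝒢.Q x.v y.v := rfl

theorem mul_v_apply (x y : 𝒢.R) (k : Fin h) :
    (x * y).v k = x.v k + y.v k + MvPolynomial.eval (Sum.elim x.v y.v) (𝒢.Q k) := rfl

@[simp] theorem one_v : (1 : 𝒢.R).v = 0 := rfl
@[simp] theorem inv_v (x : 𝒢.R) : (x⁻¹).v = -x.v := rfl

end PGrp

/-- A vector is supported in weights `≥ a`. -/
def SuppGe {h : ℕ} (w : Fin h → ℕ) (a : ℕ) (x : Fin h → ℝ) : Prop := ∀ k, w k < a → x k = 0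

/-- A horizontal vector: supported in weight one. -/
def Horiz {h : ℕ} (w : Fin h → ℕ) (x : Fin h → ℝ) : Prop := ∀ k, w k ≠ 1 → x k = 0

/-- The group law is homogeneous: the dilations are homomorphisms. -/
def Homog {h : ℕ} {w : Fin h → ℕ} (𝒢 : PGrp w) : Prop :=
  ∀ (t : ℝ) (x y : Fin h → ℝ), pmul 𝒢.Q (dil w t x) (dil w t y) = dil w t (pmul 𝒢.Q x y)

/-- `𝒢'` is the graded group associated to `𝒢`. -/
structure GrLim {h : ℕ} {w : Fin h → ℕ} (𝒢 𝒢' : PGrp w) : Prop where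
  homog : Homog 𝒢'
  tendsto : ∀ (l : Filter ℕ), l ≤ Filter.atTop → ∀ (x y : ℕ → Fin h → ℝ) (a b : Fin h → ℝ),
    Filter.Tendsto x l (nhds a) → Filter.Tendsto y l (nhds b) →
    Filter.Tendsto
      (fun j => dil w ((2 : ℝ) ^ j)⁻¹ (pmul 𝒢.Q (dil w (2 ^ j) (x j)) (dil w (2 ^ j) (y j))))
      l (nhds (pmul 𝒢'.Q a b))

/-! ## Structure constants -/

/-- The structure constants respect the filtration. -/
def Filtered {h : ℕ} (w : Fin h → ℕ) (𝔏 : Alg h) : Prop :=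
  ∀ i j k, 𝔏.c i j k ≠ 0 → w i + w j ≤ w k

/-- The structure constants are graded. -/
def Graded {h : ℕ} (w : Fin h → ℕ) (𝔏 : Alg h) : Prop :=
  ∀ i j k, 𝔏.c i j k ≠ 0 → w k = w i + w j

/-- The graded part of the structure constants. -/
def gr {h : ℕ} (w : Fin h → ℕ) (𝔏 : Alg h) : Alg h :=
  ⟨fun i j k => if w k = w i + w j then 𝔏.c i j k else 0⟩

/-- The (graded) algebra is generated in weight one. -/
def Generated {h : ℕ} (w : Fin h → ℕ) (𝔏 : Alg h) : Prop :=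
  ∀ k, 2 ≤ w k → (Pi.single k 1 : Fin h → ℚ) ∈
    Submodule.span ℚ {z : Fin h → ℚ | ∃ i j, w i = 1 ∧ w j + 1 = w k ∧
      z = fun t => (𝔏.c i j t : ℚ)}

/-- Commutators in `𝒢` are given by the bracket `M • 𝔏.mul` and terms of degree at least
three. -/
def HasComm {h : ℕ} {w : Fin h → ℕ} (𝒢 : PGrp w) (𝔏 : Alg h) (M : ℕ) : Prop :=
  ∃ R : Fin h → MvPolynomial (Fin h ⊕ Fin h) ℝ,
    (∀ k, MixedLe w (w k) (R k)) ∧ (∀ k, ∀ m ∈ (R k).support, 3 ≤ Finsupp.degree m) ∧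
    ∀ (x y : 𝒢.R) (k : Fin h), ⁅x, y⁆.v k =
      M * 𝔏.mul x.v y.v k + MvPolynomial.eval (Sum.elim x.v y.v) (R k)

/-- The elements annihilated by all right multiplications. -/
def center (F : Type*) [Field F] {h : ℕ} (𝔏 : Alg h) : Submodule F (Fin h → F) where
  carrier := {x | ∀ u, 𝔏.mul x u = 0}
  zero_mem' := fun u => by
    funext k
    simp [Alg.mul]
  add_mem' := fun {x y} hx hy u => by
    funext k
    have h1 := congrFun (hx u) k
    have h2 := congrFun (hy u) k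
    simp only [Alg.mul, Pi.zero_apply] at h1 h2 ⊢
    simp only [Pi.add_apply, mul_add, add_mul, Finset.sum_add_distrib, h1, h2, add_zero]
  smul_mem' := fun c x hx u => by
    funext k
    have h1 := congrFun (hx u) k
    simp only [Alg.mul, Pi.zero_apply] at h1 ⊢
    have h2 : ∑ i, ∑ j, (𝔏.c i j k : F) * (c • x) i * u j =
        c * ∑ i, ∑ j, (𝔏.c i j k : F) * x i * u j := by
      simp only [Finset.mul_sum, Pi.smul_apply, smul_eq_mul]
      refine Finset.sum_congr rfl fun i _ => Finset.sum_congr rfl fun j _ => ?_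
      ring
    rw [h2, h1, mul_zero]

/-! ## Maps of groups to the integral points -/

/-- `ξ` gives the coordinates of a homomorphism of `G` to the integral points of `𝒢`, with
finite kernel, and every `n₀`-th power is in the image. -/
structure GMap (G : Type*) [Group G] {h : ℕ} {w : Fin h → ℕ} (𝒢 : PGrp w) where
  ξ : G → Fin h → ℤ
  map_mul : ∀ g g', (fun i => (ξ (g * g') i : ℝ)) =
    pmul 𝒢.Q (fun i => (ξ g i : ℝ)) (fun i => (ξ g' i : ℝ))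
  finite : {g : G | ξ g = 0}.Finite
  n₀ : ℕ
  n₀_pos : 0 < n₀
  expo : ∀ x : Fin h → ℤ, ∃ g : G, ξ g = n₀ • x

/-- The homomorphism of a `GMap`. -/
noncomputable def GMap.hom {G : Type*} [Group G] {h : ℕ} {w : Fin h → ℕ} {𝒢 : PGrp w}
    (γ : GMap G 𝒢) : G →* 𝒢.R where
  toFun g := ⟨fun i => (γ.ξ g i : ℝ)⟩
  map_one' := by
    have h1 : (⟨fun i => (γ.ξ 1 i : ℝ)⟩ : 𝒢.R) = ⟨fun i => (γ.ξ 1 i : ℝ)⟩ *
        ⟨fun i => (γ.ξ 1 i : ℝ)⟩ := by
      refine PGrp.R.ext ?_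
      have := γ.map_mul 1 1
      rw [mul_one] at this
      exact this
    exact left_eq_mul.mp h1
  map_mul' g g' := PGrp.R.ext (γ.map_mul g g')

@[simp] theorem GMap.hom_v {G : Type*} [Group G] {h : ℕ} {w : Fin h → ℕ} {𝒢 : PGrp w}
    (γ : GMap G 𝒢) (g : G) (i : Fin h) : (γ.hom g).v i = (γ.ξ g i : ℝ) := rfl

/-- The coordinates are bounded in terms of the word length. -/
def CoordUp {G : Type*} [Group G] (S : Finset G) {h : ℕ} {w : Fin h → ℕ} {𝒢 : PGrp w}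
    (γ : GMap G 𝒢) : Prop :=
  ∃ C : ℝ, 0 < C ∧ ∀ g k, |(γ.ξ g k : ℝ)| ≤ (C * (1 + wordLen S g)) ^ w k

/-- The word length is bounded in terms of the coordinates. -/
def CoordLow {G : Type*} [Group G] (S : Finset G) {h : ℕ} {w : Fin h → ℕ} {𝒢 : PGrp w}
    (γ : GMap G 𝒢) : Prop :=
  ∃ C : ℝ, 0 < C ∧ ∀ g (r : ℝ), 1 ≤ r → (∀ k, |(γ.ξ g k : ℝ)| ≤ r ^ w k) →
    (wordLen S g : ℝ) ≤ C * r

/-! ## Means and base points -/

/-- There is a right-invariant mean on `G`. -/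
def HasMeanG (G : Type*) [Group G] : Prop :=
  ∃ M : (G → ℝ) → ℝ,
    (∀ φ ψ, Bdd φ → Bdd ψ → M (fun x => φ x + ψ x) = M φ + M ψ) ∧
    (∀ (c : ℝ) φ, Bdd φ → M (fun x => c * φ x) = c * M φ) ∧
    (∀ φ, Bdd φ → (∀ x, 0 ≤ φ x) → 0 ≤ M φ) ∧
    M (fun _ => 1) = 1 ∧
    (∀ φ g, Bdd φ → M (fun x => φ (x * g)) = M φ)

/-- Base points at which `P` is asymptotically midpoint-affine along the powers of the `a i`,
at the points `Y m j`. -/
def HasBaseG (G : Type*) [Group G] (q : ℕ) : Prop :=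
  ∀ (P : G → Fin q → ℝ), (∀ a, ∃ K : ℝ, ∀ x, ‖P (x * a) - P x‖ ≤ K) →
    ∀ (Y : ℕ → ℕ → G) (a : ℕ → G), ∃ g : ℕ → G, ∀ m i l : ℕ,
      Filter.Tendsto (fun j : ℕ =>
        ((2 : ℝ) ^ (j - l))⁻¹ •
          (P (g j * Y m j * a i ^ (2 * 2 ^ (j - l)))
            - (2 : ℝ) • P (g j * Y m j * a i ^ (2 ^ (j - l)))
            + P (g j * Y m j)))
        Filter.atTop (nhds 0)

/-! ## Quasi-isometries and limit maps -/

/-- The inequalities of a quasi-isometric embedding. -/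
def QIE {G H : Type*} [Group G] [Group H] (S : Finset G) (T : Finset H) (f : G → H) (K : ℕ) :
    Prop :=
  (∀ x y, wordLen T ((f x)⁻¹ * f y) ≤ K * wordLen S (x⁻¹ * y) + K) ∧
  (∀ x y, wordLen S (x⁻¹ * y) ≤ K * wordLen T ((f x)⁻¹ * f y) + K)

/-- A biLipschitz embedding which is midpoint-affine on horizontal lines in the coordinates of
weight one. -/
structure LimMap {h₁ h₂ : ℕ} {w₁ : Fin h₁ → ℕ} {w₂ : Fin h₂ → ℕ} (𝒢₁ : PGrp w₁)
    (𝒢₂ : PGrp w₂) (F : 𝒢₁.R → 𝒢₂.R) (K : ℝ) : Prop where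
  one : F 1 = 1
  K_pos : 0 < K
  lip : ∀ x y (r : ℝ), 0 ≤ r → (∀ k, |(x⁻¹ * y).v k| ≤ r ^ w₁ k) →
    ∀ k, |((F x)⁻¹ * F y).v k| ≤ (K * r) ^ w₂ k
  colip : ∀ x y (r : ℝ), 0 ≤ r → (∀ k, |((F x)⁻¹ * F y).v k| ≤ r ^ w₂ k) →
    ∀ k, |(x⁻¹ * y).v k| ≤ (K * r) ^ w₁ k
  aff : ∀ (x : 𝒢₁.R) (v : Fin h₁ → ℝ), Horiz w₁ v → ∀ i, w₂ i = 1 →
    (F (x * ⟨(2 : ℝ) • v⟩)).v i - 2 * (F (x * ⟨v⟩)).v i + (F x).v i = 0

/-! ## Types of groups -/

/-- A group `G` is of Carnot type if some subgroup of finite index has an endomorphism which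
induces multiplication by some `n ≥ 2` on its abelianization modulo torsion. -/
def CarnotType (G : Type*) [Group G] : Prop :=
  ∃ (G' : Subgroup G) (n : ℕ) (ψ : G' →* G'), G'.FiniteIndex ∧ 2 ≤ n ∧
    ∀ x : G', ∃ k : ℕ, 0 < k ∧ (ψ x * (x ^ n)⁻¹) ^ k ∈ commutator G'

/-- The centre of the graded Lie algebra `⊕ (γ_n / γ_{n+1}) ⊗ ℚ` of `G` has dimension at most
one: no element of infinite order modulo `γ_{n+1}` of a nonfinal term `γ_n` is central modulo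
`γ_{n+2}` (up to torsion), and the last infinite term has rank one. -/
def UniCentral (G : Type*) [Group G] : Prop :=
  (∀ (n : ℕ) (g : G), g ∈ (⊤ : Subgroup G).lowerCentralSeries n →
    (∀ x : G, ∃ m : ℕ, 0 < m ∧ ⁅g, x⁆ ^ m ∈ (⊤ : Subgroup G).lowerCentralSeries (n + 2)) →
    (∃ m : ℕ, 0 < m ∧ g ^ m ∈ (⊤ : Subgroup G).lowerCentralSeries (n + 1)) ∨
      Finite ((⊤ : Subgroup G).lowerCentralSeries (n + 1))) ∧
  ∀ n : ℕ, Finite ((⊤ : Subgroup G).lowerCentralSeries (n + 1)) →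
    ∀ g ∈ (⊤ : Subgroup G).lowerCentralSeries n, ∀ g' ∈ (⊤ : Subgroup G).lowerCentralSeries n,
      ∃ a b : ℤ, (a, b) ≠ (0, 0) ∧ g ^ a = g' ^ b

end Pool.Agent.MPf60e8aP
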