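import Mathlib
import Pool.Agent.Lib.MP_f60e8a_al.P.PDefs
import Pool.Agent.Lib.MP_f60e8a_al.N.Lattice

/-!
# A basis of a Lie lattice adapted to the (isolated) lower central series
-/

open scoped BigOperators commutatorElement

namespace Pool.Agent.MPf60e8aP

open Pool.Agent.MPf60e8a (wordLen sepIndex RF)
open Pool.Agent.MPf60e8aN (Alg NilSub LieLattice BchConst Describes upperNil IsUnipotent lg)

namespace Adapt

open Pool.Agent.MPf60e8aN.Lat (cb cb_add_left cb_add_right cb_zero_left cb_zero_right
  cb_smul_left cb_smul_right cb_jacobi pow_bot mem_of_nsmul inv_smul_nsmul nsmul_inv_smul)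

variable {A : Type} [Ring A] [Algebra ℚ A]

/-- The rational lower central series. -/
def V (L : AddSubgroup A) : ℕ → Submodule ℚ A
  | 0 => Submodule.span ℚ (L : Set A)
  | m + 1 => Submodule.span ℚ
      {a | ∃ x ∈ Submodule.span ℚ (L : Set A), ∃ y ∈ V L m, a = cb x y}

theorem V_zero (L : AddSubgroup A) : V L 0 = Submodule.span ℚ (L : Set A) := rfl

theorem V_succ (L : AddSubgroup A) (m : ℕ) : V L (m + 1) = Submodule.span ℚ
    {a | ∃ x ∈ V L 0, ∃ y ∈ V L m, a = cb x y} := rfl

theorem cb_mem (L : AddSubgroup A) (i : ℕ) : ∀ (j : ℕ) (x y : A), x ∈ V L i → y ∈ V L j →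
    cb x y ∈ V L (i + j + 1) := by
  induction i with
  | zero =>
    intro j x y hx hy
    rw [Nat.zero_add, V_succ]
    exact Submodule.subset_span ⟨x, hx, y, hy, rfl⟩
  | succ i ih =>
    intro j x y hx hy
    rw [V_succ] at hx
    induction hx using Submodule.span_induction with
    | mem a ha =>
      obtain ⟨x', hx', b, hb, rfl⟩ := ha
      rw [cb_jacobi]
      have h0 : ∀ (k : ℕ) (z : A), z ∈ V L k → cb x' z ∈ V L (k + 1) := by
        intro k z hz
        rw [V_succ]
        exact Submodule.subset_span ⟨x', hx', z, hz, rfl⟩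
      refine sub_mem ?_ ?_
      · have := h0 _ _ (ih j b y hb hy)
        have e : i + 1 + j + 1 = i + j + 1 + 1 := by omega
        rw [e]; exact this
      · have := ih (j + 1) b _ hb (h0 _ _ hy)
        have e : i + 1 + j + 1 = i + (j + 1) + 1 := by omega
        rw [e]; exact this
    | zero => rw [cb_zero_left]; exact zero_mem _
    | add x y _ _ ihx ihy => rw [cb_add_left]; exact add_mem ihx ihy
    | smul c x _ ih => rw [cb_smul_left]; exact Submodule.smul_mem _ c ih

theorem V_succ_le {N M : ℕ} {𝔞 : NilSub A N} {L : AddSubgroup A} (hL : LieLattice 𝔞 M L)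
    (m : ℕ) : V L (m + 1) ≤ V L m := by
  induction m with
  | zero =>
    rw [V_succ, Submodule.span_le]
    rintro _ ⟨x, hx, y, hy, rfl⟩
    rw [V_zero] at hx hy
    change cb x y ∈ V L 0
    induction hx using Submodule.span_induction with
    | mem x hx =>
      induction hy using Submodule.span_induction with
      | mem y hy =>
        obtain ⟨z, hz, h⟩ := hL.br x hx y hy
        change x * y - y * x ∈ _
        rw [h]
        exact (V L 0).smul_of_tower_mem M (Submodule.subset_span hz)
      | zero => rw [cb_zero_right]; exact zero_mem _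
      | add x y _ _ ihx ihy => rw [cb_add_right]; exact add_mem ihx ihy
      | smul c x _ ih => rw [cb_smul_right]; exact Submodule.smul_mem _ c ih
    | zero => rw [cb_zero_left]; exact zero_mem _
    | add x y _ _ ihx ihy => rw [cb_add_left]; exact add_mem ihx ihy
    | smul c x _ ih => rw [cb_smul_left]; exact Submodule.smul_mem _ c ih
  | succ m ih =>
    rw [V_succ, V_succ]
    apply Submodule.span_mono
    rintro _ ⟨x, hx, y, hy, rfl⟩
    exact ⟨x, hx, y, ih hy, rfl⟩

theorem V_anti {N M : ℕ} {𝔞 : NilSub A N} {L : AddSubgroup A} (hL : LieLattice 𝔞 M L)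
    {i j : ℕ} (h : i ≤ j) : V L j ≤ V L i := by
  induction h with
  | refl => exact le_rfl
  | step _ ih => exact (V_succ_le hL _).trans ih

theorem V_pow {N M : ℕ} {𝔞 : NilSub A N} {L : AddSubgroup A} (hL : LieLattice 𝔞 M L)
    (m : ℕ) : V L m ≤ 𝔞.S ^ (m + 1) := by
  have h0 : V L 0 ≤ 𝔞.S := by
    rw [V_zero, Submodule.span_le]
    exact hL.le
  induction m with
  | zero =>
    rw [Nat.zero_add, pow_one]
    exact h0
  | succ m ih =>
    rw [V_succ, Submodule.span_le]
    rintro _ ⟨x, hx, y, hy, rfl⟩
    refine sub_mem ?_ ?_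
    · rw [pow_succ']; exact Submodule.mul_mem_mul (h0 hx) (ih hy)
    · rw [pow_succ]; exact Submodule.mul_mem_mul (ih hy) (h0 hx)

theorem V_bot {N M : ℕ} {𝔞 : NilSub A N} {L : AddSubgroup A} (hL : LieLattice 𝔞 M L)
    {m : ℕ} (hm : N ≤ m) : V L m = ⊥ := by
  have := V_pow hL m
  rw [pow_bot 𝔞 (by omega)] at this
  exact le_bot_iff.mp this

/-- The integral points. -/
def F (L : AddSubgroup A) (m : ℕ) : Submodule ℤ A :=
  AddSubgroup.toIntSubmodule (L ⊓ (V L m).toAddSubgroup)

theorem mem_F {L : AddSubgroup A} {m : ℕ} {x : A} : x ∈ F L m ↔ x ∈ L ∧ x ∈ V L m := Iff.rfl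

theorem mem_F_of_smul {L : AddSubgroup A} {m : ℕ} {n : ℤ} (hn : n ≠ 0) {x : A} (hx : x ∈ L)
    (h : n • x ∈ V L m) : x ∈ F L m := by
  refine ⟨hx, ?_⟩
  have h1 : ((n : ℚ)⁻¹) • (n • x) = x := by
    rw [← Int.cast_smul_eq_zsmul ℚ, smul_smul, inv_mul_cancel₀ (by exact_mod_cast hn), one_smul]
  change x ∈ V L m
  rw [← h1]
  exact (V L m).smul_mem _ h

theorem F_fg {L : AddSubgroup A} (hFG : L.FG) (m : ℕ) : (F L m).FG := by
  rw [Submodule.fg_iff_addSubgroup_fg]
  exact Pool.Agent.MPf60e8aN.Lat.fg_of_le hFG (inf_le_left : L ⊓ (V L m).toAddSubgroup ≤ L)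

/-- The descending induction. -/
theorem adapted_aux {N M : ℕ} {𝔞 : NilSub A N} {L : AddSubgroup A} (hL : LieLattice 𝔞 M L)
    (hFG : L.FG) (j : ℕ) : ∀ m : ℕ, N ≤ m + j → ∃ (ι : Type) (_ : Finite ι) (e : ι → A)
      (w : ι → ℕ), (∀ i, m ≤ w i) ∧ LinearIndependent ℤ e ∧
        ∀ k, m ≤ k → Submodule.span ℤ (e '' {i | k ≤ w i}) = F L k := by
  induction j with
  | zero =>
    intro m hm
    refine ⟨Empty, inferInstance, fun i => i.elim, fun i => i.elim, fun i => i.elim,
      linearIndependent_empty_type, ?_⟩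
    intro k hk
    have h1 : F L k = ⊥ := by
      rw [eq_bot_iff]
      intro x hx
      have h2 := hx.2
      have h3 : x ∈ V L k := h2
      rw [V_bot hL (by omega)] at h3
      exact h3
    rw [h1, Submodule.span_eq_bot]
    rintro _ ⟨i, _⟩
    exact i.elim
  | succ j ih =>
    intro m hm
    obtain ⟨ι, _, e, w, hw, hli, hsp⟩ := ih (m + 1) (by omega)
    let P : Submodule ℤ (A ⧸ F L (m + 1)) := (F L m).map (F L (m + 1)).mkQ
    have hPfg : P.FG := (F_fg hFG m).map _
    have : Module.Finite ℤ P := Module.Finite.iff_fg.mpr hPfg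
    have : Module.IsTorsionFree ℤ P := by
      refine Module.IsTorsionFree.of_smul_eq_zero ?_
      rintro n ⟨x, hx⟩ h
      obtain ⟨y, hy, rfl⟩ := hx
      by_cases hn : n = 0
      · exact Or.inl hn
      · refine Or.inr ?_
        have h1 : n • (F L (m + 1)).mkQ y = 0 := congrArg Subtype.val h
        rw [← map_smul, Submodule.mkQ_apply, Submodule.Quotient.mk_eq_zero] at h1
        have h2 : y ∈ F L (m + 1) := mem_F_of_smul hn hy.1 h1.2
        apply Subtype.ext
        change (F L (m + 1)).mkQ y = 0
        rw [Submodule.mkQ_apply, Submodule.Quotient.mk_eq_zero]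
        exact h2
    have : Module.Free ℤ P := Module.free_of_finite_type_torsion_free'
    let b := Module.finBasis ℤ P
    have hlift : ∀ i, ∃ y ∈ F L m, (F L (m + 1)).mkQ y = (b i : A ⧸ F L (m + 1)) :=
      fun i => (b i).2
    choose f hf hfb using hlift
    have hle : F L (m + 1) ≤ F L m := fun x hx => ⟨hx.1, V_succ_le hL m hx.2⟩
    have heF : ∀ i, e i ∈ F L (m + 1) := by
      intro i
      rw [← hsp (m + 1) le_rfl]
      exact Submodule.subset_span ⟨i, hw i, rfl⟩
    refine ⟨ι ⊕ Fin (Module.finrank ℤ P), inferInstance, Sum.elim e f,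
      Sum.elim w (fun _ => m), ?_, ?_, ?_⟩
    · rintro (i | i)
      · exact (Nat.le_succ m).trans (hw i)
      · exact le_rfl
    · have h1 : LinearIndependent ℤ (fun i => (⟨e i, heF i⟩ : F L (m + 1))) :=
        LinearIndependent.of_comp (F L (m + 1)).subtype hli
      refine h1.sumElim_of_quotient f ?_
      have h2 : (Submodule.Quotient.mk (p := F L (m + 1)) ∘ f) =
          fun i => (P.subtype (b i)) := by
        funext i
        exact hfb i
      rw [h2]
      exact b.linearIndependent.map' P.subtype P.ker_subtype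
    · intro k hk
      rcases hk.eq_or_lt with rfl | hk
      · have h1 : (Sum.elim e f) '' {i | m ≤ Sum.elim w (fun _ => m) i} =
            Set.range e ∪ Set.range f := by
          rw [← Set.Sum.elim_range]
          have : {i | m ≤ Sum.elim w (fun _ : Fin (Module.finrank ℤ P) => m) i} = Set.univ := by
            rw [Set.eq_univ_iff_forall]
            rintro (i | i)
            · exact (Nat.le_succ m).trans (hw i)
            · exact le_refl m
          rw [this, Set.image_univ]
        rw [h1, Submodule.span_union]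
        have h2 : Submodule.span ℤ (Set.range e) = F L (m + 1) := by
          rw [← hsp (m + 1) le_rfl]
          congr 1
          ext x
          constructor
          · rintro ⟨i, rfl⟩; exact ⟨i, hw i, rfl⟩
          · rintro ⟨i, _, rfl⟩; exact ⟨i, rfl⟩
        rw [h2]
        apply le_antisymm
        · refine sup_le hle ?_
          rw [Submodule.span_le]
          rintro _ ⟨i, rfl⟩
          exact hf i
        · intro x hx
          have h3 : (F L (m + 1)).mkQ x ∈ P := ⟨x, hx, rfl⟩
          have h4 : (F L (m + 1)).mkQ x ∈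
              (Submodule.span ℤ (Set.range f)).map (F L (m + 1)).mkQ := by
            rw [Submodule.map_span, ← Set.range_comp]
            have h5 : ((F L (m + 1)).mkQ ∘ f) = fun i => P.subtype (b i) := by
              funext i
              exact hfb i
            have h6 : Set.range (fun i => P.subtype (b i)) = P.subtype '' Set.range b := by
              rw [← Set.range_comp]; rfl
            have h5' : (fun a => (F L (m + 1)).mkQ a) ∘ f = fun i => P.subtype (b i) := h5
            rw [show (⇑(F L (m + 1)).mkQ ∘ f) = fun i => P.subtype (b i) from h5, h6,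
              ← Submodule.map_span, b.span_eq]
            exact ⟨⟨_, h3⟩, trivial, rfl⟩
          obtain ⟨y, hy, hxy⟩ := h4
          have h7 : x - y ∈ F L (m + 1) := by
            rw [← Submodule.Quotient.mk_eq_zero, ← Submodule.mkQ_apply, map_sub, hxy, sub_self]
          have h8 : x = (x - y) + y := by abel
          rw [h8]
          exact add_mem (Submodule.mem_sup_left h7) (Submodule.mem_sup_right hy)
      · rw [← hsp k hk]
        congr 1
        ext x
        constructor
        · rintro ⟨i | i, hi, rfl⟩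
          · exact ⟨i, hi, rfl⟩
          · exact absurd (show k ≤ m from hi) (by omega)
        · rintro ⟨i, hi, rfl⟩
          exact ⟨Sum.inl i, hi, rfl⟩

/-- The adapted basis. -/
theorem adapted {N M : ℕ} {𝔞 : NilSub A N} {L : AddSubgroup A} (hL : LieLattice 𝔞 M L)
    (hFG : L.FG) : ∃ (h : ℕ) (b : Module.Basis (Fin h) ℤ L) (w : Fin h → ℕ),
      ∀ (k : ℕ) (x : L), (x : A) ∈ V L k ↔ ∀ i, b.repr x i ≠ 0 → k ≤ w i := by
  classical
  obtain ⟨ι, _, e₀, w₀, _, hli₀, hsp₀⟩ := adapted_aux hL hFG N 0 (by omega)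
  obtain ⟨h, ⟨σ⟩⟩ := Finite.exists_equiv_fin ι
  set e : Fin h → A := e₀ ∘ σ.symm with he
  set w : Fin h → ℕ := w₀ ∘ σ.symm with hw
  have hli : LinearIndependent ℤ e := hli₀.comp _ σ.symm.injective
  have hsp : ∀ k, Submodule.span ℤ (e '' {i | k ≤ w i}) = F L k := by
    intro k
    rw [← hsp₀ k (Nat.zero_le k)]
    congr 1
    ext x
    constructor
    · rintro ⟨i, hi, rfl⟩; exact ⟨σ.symm i, hi, rfl⟩
    · rintro ⟨i, hi, rfl⟩
      exact ⟨σ i, by simpa [hw] using hi, by simp [he]⟩
  have heL : ∀ i, e i ∈ L := by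
    intro i
    have : e i ∈ F L 0 := by
      rw [← hsp 0]
      exact Submodule.subset_span ⟨i, Nat.zero_le _, rfl⟩
    exact this.1
  let φ : L →ₗ[ℤ] A := L.subtype.toIntLinearMap
  have hφ : Function.Injective φ := Subtype.val_injective
  let v : Fin h → L := fun i => ⟨e i, heL i⟩
  have hv : LinearIndependent ℤ v := LinearIndependent.of_comp φ hli
  have hspan : ∀ (s : Set (Fin h)) (x : L), (x : A) ∈ Submodule.span ℤ (e '' s) →
      x ∈ Submodule.span ℤ (v '' s) := by
    intro s x hx
    have h1 : e '' s = φ '' (v '' s) := by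
      rw [Set.image_image]; rfl
    rw [h1, ← Submodule.map_span] at hx
    obtain ⟨y, hy, hxy⟩ := hx
    rwa [← hφ hxy]
  have hspan' : ∀ (s : Set (Fin h)) (x : L), x ∈ Submodule.span ℤ (v '' s) →
      (x : A) ∈ Submodule.span ℤ (e '' s) := by
    intro s x hx
    have h1 : e '' s = φ '' (v '' s) := by
      rw [Set.image_image]; rfl
    rw [h1, ← Submodule.map_span]
    exact ⟨x, hx, rfl⟩
  have htop : ⊤ ≤ Submodule.span ℤ (Set.range v) := by
    intro x _
    rw [← Set.image_univ]
    apply hspan
    have h1 : (Set.univ : Set (Fin h)) = {i | 0 ≤ w i} := by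
      ext i; simp
    rw [h1, hsp 0]
    exact ⟨x.2, Submodule.subset_span x.2⟩
  refine ⟨h, Module.Basis.mk hv htop, w, ?_⟩
  intro k x
  have h1 : (x : A) ∈ V L k ↔ x ∈ Submodule.span ℤ (v '' {i | k ≤ w i}) := by
    constructor
    · intro hx
      apply hspan
      rw [hsp k]
      exact ⟨x.2, hx⟩
    · intro hx
      have := hspan' _ _ hx
      rw [hsp k] at this
      exact this.2
  rw [h1]
  have h2 : v = ⇑(Module.Basis.mk hv htop) := (Module.Basis.coe_mk hv htop).symm
  have h3 : v '' {i | k ≤ w i} = ⇑(Module.Basis.mk hv htop) '' {i | k ≤ w i} := by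
    rw [← h2]
  rw [h3, Module.Basis.mem_span_image]
  constructor
  · intro hx i hi
    exact hx (Finsupp.mem_support_iff.mpr hi)
  · intro hx i hi
    exact hx i (Finsupp.mem_support_iff.mp hi)

end Adapt

namespace Adapt

open Pool.Agent.MPf60e8aN.Lat (cb cb_add_left cb_add_right cb_zero_left cb_zero_right
  cb_smul_left cb_smul_right cb_jacobi pow_bot mem_of_nsmul inv_smul_nsmul nsmul_inv_smul)

variable {A : Type} [Ring A] [Algebra ℚ A]

theorem exists_int_mul {L : AddSubgroup A} {a : A} (ha : a ∈ V L 0) :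
    ∃ n : ℕ, 0 < n ∧ n • a ∈ L := by
  rw [V_zero] at ha
  induction ha using Submodule.span_induction with
  | mem a ha => exact ⟨1, one_pos, by rw [one_smul]; exact ha⟩
  | zero => exact ⟨1, one_pos, by rw [smul_zero]; exact zero_mem _⟩
  | add x y _ _ ihx ihy =>
    obtain ⟨n, hn, h⟩ := ihx
    obtain ⟨m, hm, h'⟩ := ihy
    refine ⟨n * m, Nat.mul_pos hn hm, ?_⟩
    rw [smul_add]
    refine add_mem ?_ ?_
    · rw [mul_comm, mul_smul]; exact nsmul_mem h m
    · rw [mul_smul]; exact nsmul_mem h' n
  | smul c x _ ih =>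
    obtain ⟨n, hn, h⟩ := ih
    refine ⟨c.den * n, Nat.mul_pos c.den_pos hn, ?_⟩
    have e : (c.den * n) • (c • x) = c.num • (n • x) := by
      rw [← Nat.cast_smul_eq_nsmul ℚ, ← Nat.cast_smul_eq_nsmul ℚ, ← Int.cast_smul_eq_zsmul ℚ,
        smul_smul, smul_smul]
      congr 1
      have := Rat.den_mul_eq_num c
      push_cast
      rw [mul_right_comm, this]
    rw [e]
    exact zsmul_mem h _

omit [Algebra ℚ A] in
theorem coe_eq_sum {L : AddSubgroup A} {h : ℕ} (b : Module.Basis (Fin h) ℤ L) (x : L) :
    (x : A) = ∑ i, b.repr x i • (b i : A) := by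
  conv_lhs => rw [← b.sum_repr x]
  rw [AddSubgroup.val_finsetSum]
  rfl

/-- The rational series is spanned by the adapted basis. -/
theorem V_le_span {N M : ℕ} {𝔞 : NilSub A N} {L : AddSubgroup A} (hL : LieLattice 𝔞 M L)
    {h : ℕ} {b : Module.Basis (Fin h) ℤ L} {w : Fin h → ℕ}
    (hb : ∀ (k : ℕ) (x : L), (x : A) ∈ V L k ↔ ∀ i, b.repr x i ≠ 0 → k ≤ w i) (k : ℕ) :
    V L k ≤ Submodule.span ℚ ((fun i => (b i : A)) '' {i | k ≤ w i}) := by
  intro y hy
  obtain ⟨n, hn, hny⟩ := exists_int_mul (V_anti hL (Nat.zero_le k) hy)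
  have h1 : n • y ∈ V L k := (V L k).smul_of_tower_mem n hy
  have h2 := (hb k ⟨n • y, hny⟩).mp h1
  have h3 := coe_eq_sum b ⟨n • y, hny⟩
  rw [← inv_smul_nsmul hn y]
  refine Submodule.smul_mem _ _ ?_
  change n • y = _ at h3
  rw [h3]
  refine Submodule.sum_mem _ fun i _ => ?_
  by_cases hi : b.repr ⟨n • y, hny⟩ i = 0
  · rw [hi, zero_smul]; exact zero_mem _
  · refine Submodule.smul_of_tower_mem _ _ ?_
    exact Submodule.subset_span ⟨i, h2 i hi, rfl⟩

/-- Rational coordinates. -/
theorem exists_coord {L : AddSubgroup A} {h : ℕ} (b : Module.Basis (Fin h) ℤ L) :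
    ∃ C : A →ₗ[ℚ] (Fin h → ℚ), ∀ x : L, C x = fun t => (b.repr x t : ℚ) := by
  classical
  have h0 : LinearIndependent ℤ (fun i => (b i : A)) :=
    b.linearIndependent.map' (L.subtype.toIntLinearMap) (by
      rw [LinearMap.ker_eq_bot]; exact Subtype.val_injective)
  have h1 : LinearIndependent ℚ (fun i => (b i : A)) :=
    (LinearIndependent.iff_fractionRing ℤ ℚ).mp h0
  have h2 : LinearMap.ker (Fintype.linearCombination ℚ (fun i => (b i : A))) = ⊥ := by
    rw [LinearMap.ker_eq_bot']
    intro g hg
    rw [Fintype.linearCombination_apply] at hg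
    funext i
    exact Fintype.linearIndependent_iff.mp h1 g hg i
  obtain ⟨C, hC⟩ := LinearMap.exists_leftInverse_of_injective _ h2
  refine ⟨C, fun x => ?_⟩
  have h3 : (x : A) = Fintype.linearCombination ℚ (fun i => (b i : A))
      (fun t => (b.repr x t : ℚ)) := by
    rw [Fintype.linearCombination_apply]
    conv_lhs => rw [coe_eq_sum b x]
    refine Finset.sum_congr rfl fun i _ => ?_
    rw [Int.cast_smul_eq_zsmul]
  conv_lhs => rw [h3]
  exact congrFun (congrArg DFunLike.coe hC) _

end Adapt

open Adapt in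
open Pool.Agent.MPf60e8aN.Lat (cb cb_add_left cb_add_right cb_zero_left cb_zero_right
  cb_smul_left cb_smul_right cb_jacobi pow_bot mem_of_nsmul inv_smul_nsmul nsmul_inv_smul) in
/-- A basis of a Lie lattice adapted to the (isolated) lower central series. -/
theorem exists_adapted {A : Type} [Ring A] [Algebra ℚ A] {N M : ℕ} (𝔞 : NilSub A N)
    (hM : 0 < M) {L : AddSubgroup A} (hL : LieLattice 𝔞 M L) (hFG : L.FG) :
    ∃ (h : ℕ) (e : Module.Basis (Fin h) ℤ L) (𝔏 : Alg h) (w : Fin h → ℕ), Describes M e 𝔏 ∧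
      (∀ i, 1 ≤ w i) ∧ Filtered w 𝔏 ∧ Generated w (gr w 𝔏) := by
  classical
  obtain ⟨h, b, w, hb⟩ := adapted hL hFG
  have hbr : ∀ i j : Fin h, ∃ z : L, cb (b i : A) (b j : A) = M • (z : A) := by
    intro i j
    obtain ⟨z, hz, he⟩ := hL.br (b i) (b i).2 (b j) (b j).2
    exact ⟨⟨z, hz⟩, he⟩
  choose z hz using hbr
  let 𝔏 : Alg h := ⟨fun i j k => b.repr (z i j) k⟩
  have hbV : ∀ i, (b i : A) ∈ V L (w i) := by
    intro i
    rw [hb]
    intro j hj
    rw [b.repr_self] at hj
    have : j = i := by
      by_contra hne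
      exact hj (Finsupp.single_eq_of_ne hne)
    rw [this]
  have hzV : ∀ i j, (z i j : A) ∈ V L (w i + w j + 1) := by
    intro i j
    apply mem_of_nsmul hM
    rw [← hz]
    exact cb_mem L _ _ _ _ (hbV i) (hbV j)
  have hc : ∀ i j k, 𝔏.c i j k ≠ 0 → w i + w j + 1 ≤ w k := fun i j k hk =>
    (hb _ _).mp (hzV i j) k hk
  refine ⟨h, b, 𝔏, fun i => w i + 1, ?_, fun i => Nat.succ_le_succ (Nat.zero_le _), ?_, ?_⟩
  · intro i j
    have := hz i j
    rw [coe_eq_sum b (z i j)] at this
    exact this
  · intro i j k hk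
    have := hc i j k hk
    change w i + 1 + (w j + 1) ≤ w k + 1
    omega
  · intro k hk
    obtain ⟨C, hC⟩ := exists_coord b
    set W := Submodule.span ℚ {z : Fin h → ℚ | ∃ i j, w i + 1 = 1 ∧ w j + 1 + 1 = w k + 1 ∧
      z = fun t => ((gr (fun i => w i + 1) 𝔏).c i j t : ℚ)} with hW
    change (Pi.single k 1 : Fin h → ℚ) ∈ W
    obtain ⟨m, hm⟩ : ∃ m, w k = m + 1 := ⟨w k - 1, by
      have : 2 ≤ w k + 1 := hk
      omega⟩
    let π : (Fin h → ℚ) →ₗ[ℚ] (Fin h → ℚ) :=
      { toFun := fun x t => if w t = m + 1 then x t else 0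
        map_add' := by
          intro x y; funext t
          by_cases ht : w t = m + 1 <;> simp [ht]
        map_smul' := by
          intro c x; funext t
          by_cases ht : w t = m + 1 <;> simp [ht] }
    have hπ : ∀ x t, π x t = if w t = m + 1 then x t else 0 := fun _ _ => rfl
    have key : ∀ i j, m ≤ w j → π (C (cb (b i : A) (b j : A))) ∈ W := by
      intro i j hj
      rw [hz i j, map_nsmul, hC, map_nsmul]
      refine Submodule.smul_of_tower_mem _ _ ?_
      by_cases hij : w i = 0 ∧ w j = m
      · apply Submodule.subset_span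
        refine ⟨i, j, by omega, by omega, ?_⟩
        funext t
        rw [hπ]
        change _ = (((if w t + 1 = w i + 1 + (w j + 1) then b.repr (z i j) t else 0 : ℤ)) : ℚ)
        by_cases ht : w t = m + 1
        · rw [if_pos ht, if_pos (by omega)]
        · rw [if_neg ht, if_neg (by omega)]; simp
      · have h0 : π (fun t => (b.repr (z i j) t : ℚ)) = 0 := by
          funext t
          rw [hπ]
          by_cases ht : w t = m + 1
          · rw [if_pos ht]
            by_contra hne
            have h1 : 𝔏.c i j t ≠ 0 := by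
              intro h2
              apply hne
              change ((𝔏.c i j t : ℤ) : ℚ) = 0
              rw [h2]; simp
            have := hc i j t h1
            omega
          · rw [if_neg ht]; rfl
        rw [h0]; exact zero_mem _
    have key2 : ∀ x ∈ V L 0, ∀ y ∈ V L m, π (C (cb x y)) ∈ W := by
      intro x hx y hy
      have hx' := V_le_span hL hb 0 hx
      have hy' := V_le_span hL hb m hy
      clear hx hy
      induction hx' using Submodule.span_induction with
      | mem x hx =>
        obtain ⟨i, _, rfl⟩ := hx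
        induction hy' using Submodule.span_induction with
        | mem y hy =>
          obtain ⟨j, hj, rfl⟩ := hy
          exact key i j hj
        | zero => rw [cb_zero_right, map_zero, map_zero]; exact zero_mem _
        | add x y _ _ ihx ihy => rw [cb_add_right, map_add, map_add]; exact add_mem ihx ihy
        | smul c x _ ih =>
          rw [cb_smul_right, map_smul, map_smul]; exact Submodule.smul_mem _ c ih
      | zero => rw [cb_zero_left, map_zero, map_zero]; exact zero_mem _
      | add x y _ _ ihx ihy =>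
        rw [cb_add_left, map_add, map_add]; exact add_mem ihx ihy
      | smul c x _ ih =>
        rw [cb_smul_left, map_smul, map_smul]; exact Submodule.smul_mem _ c ih
    have key3 : ∀ a ∈ V L (m + 1), π (C a) ∈ W := by
      intro a ha
      rw [V_succ] at ha
      induction ha using Submodule.span_induction with
      | mem a ha =>
        obtain ⟨x, hx, y, hy, rfl⟩ := ha
        exact key2 x hx y hy
      | zero => rw [map_zero, map_zero]; exact zero_mem _
      | add x y _ _ ihx ihy => rw [map_add, map_add]; exact add_mem ihx ihy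
      | smul c x _ ih => rw [map_smul, map_smul]; exact Submodule.smul_mem _ c ih
    have hk1 : (b k : A) ∈ V L (m + 1) := by
      rw [← hm]; exact hbV k
    have h1 := key3 _ hk1
    rw [hC, b.repr_self] at h1
    have h2 : π (fun t => ((Finsupp.single k (1 : ℤ) t : ℤ) : ℚ)) = Pi.single k 1 := by
      funext t
      rw [hπ]
      by_cases ht : t = k
      · subst ht
        rw [if_pos hm]; simp
      · rw [Finsupp.single_eq_of_ne ht, Pi.single_eq_of_ne ht]; simp
    rwa [h2] at h1

end Pool.Agent.MPf60e8aP
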