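import Mathlib
import Pool.Agent.Lib.MP_f60e8a_al.Word
import Pool.Agent.Lib.MP_f60e8a_al.Blowup
import Pool.Agent.Lib.MP_f60e8a_al.P.PDefs

/-!
# Module P10 BLOWP: the blow-up limit map
-/

open scoped BigOperators commutatorElement

namespace Pool.Agent.MPf60e8aP

open Pool.Agent.MPf60e8a (wordLen sepIndex RF)
open Pool.Agent.MPf60e8aN (Alg NilSub LieLattice BchConst Describes upperNil IsUnipotent lg)

namespace BlowP

open Filter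
open Pool.Agent.MPf60e8a (wordLen_one wordLen_mul_le wordLen_inv)
open Pool.Agent.MPf60e8a.Blowup (tendsto_floor tendsto_two_pow exists_ultralimit)

section Basic

variable {h : ℕ} {w : Fin h → ℕ}

theorem dil_apply (t : ℝ) (x : Fin h → ℝ) (k : Fin h) : dil w t x k = t ^ w k * x k := rfl

theorem dil_dil_inv {t : ℝ} (ht : t ≠ 0) (x : Fin h → ℝ) : dil w t (dil w t⁻¹ x) = x := by
  funext k
  rw [dil_apply, dil_apply, ← mul_assoc, ← mul_pow, mul_inv_cancel₀ ht, one_pow, one_mul]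

theorem dil_neg (t : ℝ) (x : Fin h → ℝ) : dil w t (-x) = - dil w t x := by
  funext k
  simp [dil_apply]

theorem dil_zero (t : ℝ) : dil w t (0 : Fin h → ℝ) = 0 := by
  funext k
  simp [dil_apply]

theorem Q_eq_zero (𝒢 : PGrp w) (k : Fin h) (hk : w k = 1) : 𝒢.Q k = 0 := by
  rw [← MvPolynomial.support_eq_empty, Finset.eq_empty_iff_forall_notMem]
  intro m hm
  obtain ⟨⟨i, hi⟩, ⟨j, hj⟩, hwt⟩ := 𝒢.mixed k m hm
  have h1 : ∑ a ∈ ({Sum.inl i, Sum.inr j} : Finset (Fin h ⊕ Fin h)), m a • Sum.elim w w a ≤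
      Finsupp.weight (Sum.elim w w) m := by
    rw [Finsupp.weight_apply, Finsupp.sum]
    refine Finset.sum_le_sum_of_subset ?_
    intro a ha
    rw [Finset.mem_insert, Finset.mem_singleton] at ha
    rw [Finsupp.mem_support_iff]
    rcases ha with rfl | rfl
    · exact hi
    · exact hj
  rw [Finset.sum_pair (by simp)] at h1
  simp only [Sum.elim_inl, Sum.elim_inr, smul_eq_mul] at h1
  have h2 : 0 < m (Sum.inl i) * w i := Nat.mul_pos (Nat.pos_of_ne_zero hi) (𝒢.one_le_w i)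
  have h3 : 0 < m (Sum.inr j) * w j := Nat.mul_pos (Nat.pos_of_ne_zero hj) (𝒢.one_le_w j)
  omega

/-- Weight one coordinates are additive. -/
theorem mul_v_one {𝒢 : PGrp w} (x y : 𝒢.R) (k : Fin h) (hk : w k = 1) :
    (x * y).v k = x.v k + y.v k := by
  rw [PGrp.mul_v_apply, Q_eq_zero 𝒢 k hk, map_zero, add_zero]

theorem tendsto_mul_v {ι : Type*} {l : Filter ι} {𝒢 : PGrp w} {x y : ι → 𝒢.R} {a b : 𝒢.R}
    (hx : Tendsto (fun n => (x n).v) l (nhds a.v)) (hy : Tendsto (fun n => (y n).v) l (nhds b.v)) :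
    Tendsto (fun n => (x n * y n).v) l (nhds (a * b).v) := by
  rw [tendsto_pi_nhds]
  intro k
  have h1 : Tendsto (fun n => (Sum.elim (x n).v (y n).v : Fin h ⊕ Fin h → ℝ)) l
      (nhds (Sum.elim a.v b.v)) := by
    rw [tendsto_pi_nhds]
    rintro (i | i)
    · exact (tendsto_pi_nhds.mp hx) i
    · exact (tendsto_pi_nhds.mp hy) i
  have h2 := ((MvPolynomial.continuous_eval (𝒢.Q k)).tendsto _).comp h1
  exact (((tendsto_pi_nhds.mp hx) k).add ((tendsto_pi_nhds.mp hy) k)).add h2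

theorem tendsto_inv_v {ι : Type*} {l : Filter ι} {𝒢 : PGrp w} {x : ι → 𝒢.R} {a : 𝒢.R}
    (hx : Tendsto (fun n => (x n).v) l (nhds a.v)) :
    Tendsto (fun n => ((x n)⁻¹).v) l (nhds (a⁻¹).v) := hx.neg

end Basic

section One

variable {G : Type*} [Group G] {h : ℕ} {w : Fin h → ℕ} {𝒢 𝒢' : PGrp w}

/-- The rescaled coordinates. -/
noncomputable def sc (γ : GMap G 𝒢) (j : ℕ) (g : G) : Fin h → ℝ :=
  dil w ((2 : ℝ) ^ j)⁻¹ (γ.hom g).v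

theorem sc_apply (γ : GMap G 𝒢) (j : ℕ) (g : G) (k : Fin h) :
    sc γ j g k = (((2 : ℝ) ^ j)⁻¹) ^ w k * (γ.ξ g k : ℝ) := rfl

/-- `Y j` converges to `x` after rescaling. -/
def Tend (γ : GMap G 𝒢) (l : Filter ℕ) (Y : ℕ → G) (x : 𝒢'.R) : Prop :=
  Tendsto (fun j => sc γ j (Y j)) l (nhds x.v)

theorem Tend.mono {γ : GMap G 𝒢} {l l' : Filter ℕ} {Y : ℕ → G} {x : 𝒢'.R}
    (hx : Tend γ l Y x) (hl : l' ≤ l) : Tend γ l' Y x := Tendsto.mono_left hx hl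

theorem dil_sc (γ : GMap G 𝒢) (j : ℕ) (g : G) : dil w (2 ^ j) (sc γ j g) = (γ.hom g).v :=
  dil_dil_inv (by positivity) _

theorem Tend.mul (hG : GrLim 𝒢 𝒢') {γ : GMap G 𝒢} {l : Filter ℕ} (hl : l ≤ atTop)
    {Y Z : ℕ → G} {x y : 𝒢'.R} (hx : Tend γ l Y x) (hy : Tend γ l Z y) :
    Tend γ l (fun j => Y j * Z j) (x * y) := by
  have h1 := hG.tendsto l hl _ _ _ _ hx hy
  refine Tendsto.congr (fun j => ?_) h1
  rw [dil_sc, dil_sc, ← PGrp.mul_v, ← map_mul]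
  rfl

theorem Tend.inv {γ : GMap G 𝒢} {l : Filter ℕ} {Y : ℕ → G} {x : 𝒢'.R} (hx : Tend γ l Y x) :
    Tend γ l (fun j => (Y j)⁻¹) (x⁻¹) := by
  have h1 := Tendsto.neg hx
  refine Tendsto.congr (fun j => ?_) h1
  unfold sc
  rw [map_inv, PGrp.inv_v, dil_neg]

theorem sc_one (γ : GMap G 𝒢) (j : ℕ) : sc γ j 1 = 0 := by
  unfold sc
  rw [map_one, PGrp.one_v, dil_zero]

theorem tend_one (γ : GMap G 𝒢) (l : Filter ℕ) : Tend γ l (fun _ => 1) (1 : 𝒢'.R) := by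
  unfold Tend
  simp only [sc_one]
  exact tendsto_const_nhds

theorem Tend.unique {γ : GMap G 𝒢} {l : Filter ℕ} [l.NeBot] {Y : ℕ → G} {x y : 𝒢'.R}
    (hx : Tend γ l Y x) (hy : Tend γ l Y y) : x = y :=
  PGrp.R.ext (tendsto_nhds_unique hx hy)

/-- Every point is a limit. -/
theorem exists_tend (γ : GMap G 𝒢) (x : 𝒢'.R) : ∃ Y : ℕ → G, Tend γ atTop Y x := by
  have h1 : ∀ j : ℕ, ∃ g : G, γ.ξ g = γ.n₀ • fun k =>
      ⌊((2 : ℝ) ^ j) ^ w k / γ.n₀ * x.v k⌋ := fun j => γ.expo _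
  choose Y hY using h1
  refine ⟨Y, ?_⟩
  unfold Tend
  rw [tendsto_pi_nhds]
  intro k
  have hn : (0 : ℝ) < γ.n₀ := by exact_mod_cast γ.n₀_pos
  have h2 : Tendsto (fun j : ℕ => ((2 : ℝ) ^ j) ^ w k / γ.n₀) atTop atTop := by
    refine Tendsto.atTop_div_const hn ?_
    have hw := 𝒢.one_le_w k
    exact (tendsto_pow_atTop (by omega)).comp tendsto_two_pow
  have h3 := tendsto_floor _ h2 (x.v k)
  refine h3.congr fun j => ?_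
  rw [sc_apply, hY j]
  simp only [Pi.smul_apply, nsmul_eq_mul, Int.cast_mul, Int.cast_natCast]
  rw [inv_div, inv_pow]
  field_simp

end One

section Bounds

variable {G : Type*} [Group G] {S : Finset G} {h : ℕ} {w : Fin h → ℕ} {𝒢 𝒢' : PGrp w}

theorem sc_le {γ : GMap G 𝒢} {C : ℝ} (hC0 : 0 < C)
    (hC : ∀ g k, |(γ.ξ g k : ℝ)| ≤ (C * (1 + wordLen S g)) ^ w k) {A B : ℝ} {j : ℕ} {g : G}
    (hg : (wordLen S g : ℝ) ≤ A * 2 ^ j + B) (k : Fin h) :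
    |sc γ j g k| ≤ (C * (A + (1 + B) * ((2 : ℝ) ^ j)⁻¹)) ^ w k := by
  have h1 : (0 : ℝ) < ((2 : ℝ) ^ j)⁻¹ := by positivity
  have h2 : ((2 : ℝ) ^ j)⁻¹ * 2 ^ j = 1 := inv_mul_cancel₀ (by positivity)
  rw [sc_apply, abs_mul, abs_of_pos (pow_pos h1 _)]
  have h3 : (((2 : ℝ) ^ j)⁻¹) ^ w k * |(γ.ξ g k : ℝ)| ≤
      (((2 : ℝ) ^ j)⁻¹) ^ w k * (C * (1 + wordLen S g)) ^ w k :=
    mul_le_mul_of_nonneg_left (hC g k) (pow_nonneg h1.le _)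
  refine h3.trans ?_
  rw [← mul_pow]
  refine pow_le_pow_left₀ (by positivity) ?_ _
  have h4 : C * (A + (1 + B) * ((2 : ℝ) ^ j)⁻¹) =
      ((2 : ℝ) ^ j)⁻¹ * (C * (1 + (A * 2 ^ j + B))) := by
    have : ((2 : ℝ) ^ j)⁻¹ * (C * (1 + (A * 2 ^ j + B))) =
        C * (A * (((2 : ℝ) ^ j)⁻¹ * 2 ^ j) + (1 + B) * ((2 : ℝ) ^ j)⁻¹) := by ring
    rw [this, h2, mul_one]
  rw [h4]
  gcongr

/-- Limits of sequences of linear length. -/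
theorem upper {γ : GMap G 𝒢} {C : ℝ} (hC0 : 0 < C)
    (hC : ∀ g k, |(γ.ξ g k : ℝ)| ≤ (C * (1 + wordLen S g)) ^ w k) {A B : ℝ}
    {l : Filter ℕ} [l.NeBot] (hl : l ≤ atTop) {Y : ℕ → G} {x : 𝒢'.R} (hY : Tend γ l Y x)
    (hg : ∀ᶠ j in l, (wordLen S (Y j) : ℝ) ≤ A * 2 ^ j + B) (k : Fin h) :
    |x.v k| ≤ (C * A) ^ w k := by
  have h1 : Tendsto (fun j => |sc γ j (Y j) k|) l (nhds |x.v k|) :=
    ((tendsto_pi_nhds.mp hY) k).abs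
  have h2 : Tendsto (fun j : ℕ => (C * (A + (1 + B) * ((2 : ℝ) ^ j)⁻¹)) ^ w k) l
      (nhds ((C * (A + (1 + B) * 0)) ^ w k)) := by
    have h3 : Tendsto (fun j : ℕ => ((2 : ℝ) ^ j)⁻¹) l (nhds 0) :=
      (tendsto_inv_atTop_zero.comp tendsto_two_pow).mono_left hl
    exact (((h3.const_mul (1 + B)).const_add A).const_mul C).pow _
  rw [mul_zero, add_zero] at h2
  refine le_of_tendsto_of_tendsto h1 h2 ?_
  filter_upwards [hg] with j hj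
  exact sc_le hC0 hC hj k

/-- Lengths of sequences with given limits. -/
theorem lower {γ : GMap G 𝒢} {C : ℝ}
    (hC : ∀ g (r : ℝ), 1 ≤ r → (∀ k, |(γ.ξ g k : ℝ)| ≤ r ^ w k) → (wordLen S g : ℝ) ≤ C * r)
    {l : Filter ℕ} (hl : l ≤ atTop) {Y : ℕ → G} {x : 𝒢'.R} (hY : Tend γ l Y x)
    {r r' : ℝ} (hr : 0 ≤ r) (hrr : r < r') (hx : ∀ k, |x.v k| ≤ r ^ w k) :
    ∀ᶠ j in l, (wordLen S (Y j) : ℝ) ≤ C * r' * 2 ^ j + 0 := by
  have hr' : 0 < r' := lt_of_le_of_lt hr hrr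
  have h1 : ∀ k, ∀ᶠ j in l, |sc γ j (Y j) k| < r' ^ w k := by
    intro k
    have h2 : |x.v k| < r' ^ w k := by
      refine (hx k).trans_lt ?_
      have hw := 𝒢.one_le_w k
      exact pow_lt_pow_left₀ hrr hr (by omega)
    exact (((tendsto_pi_nhds.mp hY) k).abs).eventually_lt_const h2
  have h3 : ∀ᶠ j in l, ∀ k, |sc γ j (Y j) k| < r' ^ w k := eventually_all.mpr h1
  have h4 : ∀ᶠ j : ℕ in l, 1 ≤ r' * 2 ^ j :=
    ((tendsto_two_pow.const_mul_atTop hr').mono_left hl).eventually_ge_atTop 1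
  filter_upwards [h3, h4] with j hj3 hj4
  have h5 := hC (Y j) (r' * 2 ^ j) hj4 (fun k => ?_)
  · rw [add_zero, mul_assoc]
    exact h5
  · have h6 := (hj3 k).le
    rw [sc_apply, abs_mul, abs_of_pos (by positivity)] at h6
    have h7 : (0 : ℝ) < ((2 : ℝ) ^ j) ^ w k := by positivity
    rw [inv_pow, inv_mul_le_iff₀ h7] at h6
    rw [mul_pow, mul_comm]
    exact h6

end Bounds

section Pow

variable {G : Type*} [Group G] {h : ℕ} {w : Fin h → ℕ} {𝒢 𝒢' : PGrp w}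

theorem pow_v (x : 𝒢.R) (n : ℕ) : (x ^ n).v = (n : ℝ) • x.v := by
  induction n with
  | zero => simp
  | succ n ih =>
    rw [pow_succ, PGrp.mul_v, ih]
    have := 𝒢.smul_smul n 1 x.v
    rw [one_smul] at this
    rw [this]
    push_cast
    rfl

/-- Powers of horizontal elements. -/
theorem tend_pow (γ : GMap G 𝒢) {a : G} {v : Fin h → ℤ} (hv : ∀ k, w k ≠ 1 → v k = 0)
    (ha : γ.ξ a = γ.n₀ • v) (c l₀ : ℕ) :
    Tend γ atTop (fun j => a ^ (c * 2 ^ (j - l₀)))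
      (⟨(c : ℝ) • (((2 : ℝ) ^ l₀)⁻¹ • fun k => (γ.n₀ : ℝ) * (v k : ℝ))⟩ : 𝒢'.R) := by
  unfold Tend
  rw [tendsto_pi_nhds]
  intro k
  refine tendsto_const_nhds.congr' ?_
  filter_upwards [eventually_ge_atTop l₀] with j hj
  unfold sc
  rw [map_pow, pow_v, dil_apply]
  simp only [Pi.smul_apply, smul_eq_mul, GMap.hom_v, ha, nsmul_eq_mul, Int.cast_mul,
    Int.cast_natCast]
  by_cases hk : w k = 1
  · have h2 : (2 : ℝ) ^ j = 2 ^ (j - l₀) * 2 ^ l₀ := by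
      rw [← pow_add]
      congr 1
      omega
    rw [hk, pow_one, h2]
    push_cast
    have h3 : (2 : ℝ) ^ (j - l₀) ≠ 0 := by positivity
    have h4 : (2 : ℝ) ^ l₀ ≠ 0 := by positivity
    field_simp
  · rw [hv k hk]
    simp

end Pow

section Two

variable {G H : Type*} [Group G] [Group H] {S : Finset G} {T : Finset H}
  {h₁ h₂ : ℕ} {w₁ : Fin h₁ → ℕ} {w₂ : Fin h₂ → ℕ} {𝒢₁ 𝒢₁' : PGrp w₁} {𝒢₂ 𝒢₂' : PGrp w₂}

/-- The map `f`, moved to the base points `g`. -/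
def bl (f : G → H) (g : ℕ → G) (Y : ℕ → G) (j : ℕ) : H := (f (g j))⁻¹ * f (g j * Y j)

theorem bl_mul (f : G → H) (g Y Y' : ℕ → G) (j : ℕ) :
    (bl f g Y j)⁻¹ * bl f g Y' j = (f (g j * Y j))⁻¹ * f (g j * Y' j) := by
  unfold bl
  group

theorem pass_limit {c r : ℝ} {n : ℕ} {t : ℝ} (ht : ∀ r', r < r' → t ≤ (c * r') ^ n) :
    t ≤ (c * r) ^ n := by
  have h1 : Tendsto (fun r' : ℝ => (c * r') ^ n) (nhdsWithin r (Set.Ioi r))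
      (nhds ((c * r) ^ n)) := by
    have : Continuous fun r' : ℝ => (c * r') ^ n := by fun_prop
    exact (this.tendsto r).mono_left nhdsWithin_le_nhds
  refine ge_of_tendsto h1 ?_
  filter_upwards [self_mem_nhdsWithin] with r' hr'
  exact ht r' hr'

theorem bl_lip {γ₁ : GMap G 𝒢₁} {γ₂ : GMap H 𝒢₂} (hG₁ : GrLim 𝒢₁ 𝒢₁') (hG₂ : GrLim 𝒢₂ 𝒢₂')
    {C₁ C₂ : ℝ}
    (hC₁ : ∀ g (r : ℝ), 1 ≤ r → (∀ k, |(γ₁.ξ g k : ℝ)| ≤ r ^ w₁ k) → (wordLen S g : ℝ) ≤ C₁ * r)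
    (hC₂0 : 0 < C₂) (hC₂ : ∀ g k, |(γ₂.ξ g k : ℝ)| ≤ (C₂ * (1 + wordLen T g)) ^ w₂ k)
    {f : G → H} {K : ℕ}
    (hf : ∀ x y, wordLen T ((f x)⁻¹ * f y) ≤ K * wordLen S (x⁻¹ * y) + K)
    {l : Filter ℕ} [l.NeBot] (hl : l ≤ atTop) {g Y Y' : ℕ → G} {x x' : 𝒢₁'.R} {z z' : 𝒢₂'.R}
    (hY : Tend γ₁ l Y x) (hY' : Tend γ₁ l Y' x') (hZ : Tend γ₂ l (bl f g Y) z)
    (hZ' : Tend γ₂ l (bl f g Y') z') {r : ℝ} (hr : 0 ≤ r)
    (hx : ∀ k, |(x⁻¹ * x').v k| ≤ r ^ w₁ k) (k : Fin h₂) :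
    |(z⁻¹ * z').v k| ≤ (C₂ * (K * C₁) * r) ^ w₂ k := by
  refine pass_limit fun r' hr' => ?_
  have h1 := lower hC₁ hl (hY.inv.mul hG₁ hl hY') hr hr' hx
  have h2 := hZ.inv.mul hG₂ hl hZ'
  have h3 : ∀ᶠ j in l, (wordLen T ((bl f g Y j)⁻¹ * bl f g Y' j) : ℝ) ≤
      (K * (C₁ * r')) * 2 ^ j + K := by
    filter_upwards [h1] with j hj
    rw [bl_mul]
    have h4 := hf (g j * Y j) (g j * Y' j)
    have h5 : (g j * Y j)⁻¹ * (g j * Y' j) = (Y j)⁻¹ * Y' j := by group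
    rw [h5] at h4
    have h6 : (wordLen T ((f (g j * Y j))⁻¹ * f (g j * Y' j)) : ℝ) ≤
        K * wordLen S ((Y j)⁻¹ * Y' j) + K := by exact_mod_cast h4
    refine h6.trans ?_
    have h7 : (0 : ℝ) ≤ K := Nat.cast_nonneg K
    have h8 := mul_le_mul_of_nonneg_left hj h7
    linarith
  have h9 := upper hC₂0 hC₂ hl h2 h3 k
  have h10 : C₂ * (K * C₁) * r' = C₂ * (K * (C₁ * r')) := by ring
  rw [h10]
  exact h9

theorem bl_colip {γ₁ : GMap G 𝒢₁} {γ₂ : GMap H 𝒢₂} (hG₁ : GrLim 𝒢₁ 𝒢₁')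
    (hG₂ : GrLim 𝒢₂ 𝒢₂') {C₁ C₂ : ℝ}
    (hC₂ : ∀ g (r : ℝ), 1 ≤ r → (∀ k, |(γ₂.ξ g k : ℝ)| ≤ r ^ w₂ k) → (wordLen T g : ℝ) ≤ C₂ * r)
    (hC₁0 : 0 < C₁) (hC₁ : ∀ g k, |(γ₁.ξ g k : ℝ)| ≤ (C₁ * (1 + wordLen S g)) ^ w₁ k)
    {f : G → H} {K : ℕ}
    (hf : ∀ x y, wordLen S (x⁻¹ * y) ≤ K * wordLen T ((f x)⁻¹ * f y) + K)
    {l : Filter ℕ} [l.NeBot] (hl : l ≤ atTop) {g Y Y' : ℕ → G} {x x' : 𝒢₁'.R} {z z' : 𝒢₂'.R}
    (hY : Tend γ₁ l Y x) (hY' : Tend γ₁ l Y' x') (hZ : Tend γ₂ l (bl f g Y) z)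
    (hZ' : Tend γ₂ l (bl f g Y') z') {r : ℝ} (hr : 0 ≤ r)
    (hz : ∀ k, |(z⁻¹ * z').v k| ≤ r ^ w₂ k) (k : Fin h₁) :
    |(x⁻¹ * x').v k| ≤ (C₁ * (K * C₂) * r) ^ w₁ k := by
  refine pass_limit fun r' hr' => ?_
  have h1 := lower hC₂ hl (hZ.inv.mul hG₂ hl hZ') hr hr' hz
  have h2 := hY.inv.mul hG₁ hl hY'
  have h3 : ∀ᶠ j in l, (wordLen S ((Y j)⁻¹ * Y' j) : ℝ) ≤ (K * (C₂ * r')) * 2 ^ j + K := by
    filter_upwards [h1] with j hj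
    rw [bl_mul] at hj
    have h4 := hf (g j * Y j) (g j * Y' j)
    have h5 : (g j * Y j)⁻¹ * (g j * Y' j) = (Y j)⁻¹ * Y' j := by group
    rw [h5] at h4
    have h6 : (wordLen S ((Y j)⁻¹ * Y' j) : ℝ) ≤
        K * wordLen T ((f (g j * Y j))⁻¹ * f (g j * Y' j)) + K := by exact_mod_cast h4
    refine h6.trans ?_
    have h7 : (0 : ℝ) ≤ K := Nat.cast_nonneg K
    have h8 := mul_le_mul_of_nonneg_left hj h7
    linarith
  have h9 := upper hC₁0 hC₁ hl h2 h3 k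
  have h10 : C₁ * (K * C₂) * r' = C₁ * (K * (C₂ * r')) := by ring
  rw [h10]
  exact h9

theorem bl_exists {γ₁ : GMap G 𝒢₁} {γ₂ : GMap H 𝒢₂} {C₁ C₂ : ℝ} (hC₁0 : 0 < C₁)
    (hC₁ : ∀ g (r : ℝ), 1 ≤ r → (∀ k, |(γ₁.ξ g k : ℝ)| ≤ r ^ w₁ k) → (wordLen S g : ℝ) ≤ C₁ * r)
    (hC₂0 : 0 < C₂) (hC₂ : ∀ g k, |(γ₂.ξ g k : ℝ)| ≤ (C₂ * (1 + wordLen T g)) ^ w₂ k)
    {f : G → H} {K : ℕ}
    (hf : ∀ x y, wordLen T ((f x)⁻¹ * f y) ≤ K * wordLen S (x⁻¹ * y) + K)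
    {𝒰 : Ultrafilter ℕ} (hl : (𝒰 : Filter ℕ) ≤ atTop) {g Y : ℕ → G} {x : 𝒢₁'.R}
    (hY : Tend γ₁ (𝒰 : Filter ℕ) Y x) : ∃ z : 𝒢₂'.R, Tend γ₂ (𝒰 : Filter ℕ) (bl f g Y) z := by
  set r : ℝ := 1 + ∑ k, |x.v k| with hr
  have hr1 : 1 ≤ r := by
    have : 0 ≤ ∑ k, |x.v k| := Finset.sum_nonneg fun k _ => abs_nonneg _
    linarith
  have hxr : ∀ k, |x.v k| ≤ r ^ w₁ k := by
    intro k
    have h1 : |x.v k| ≤ ∑ k, |x.v k| :=
      Finset.single_le_sum (f := fun k => |x.v k|) (fun i _ => abs_nonneg _) (Finset.mem_univ k)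
    have h2 : r ≤ r ^ w₁ k := le_self_pow₀ hr1 (by have := 𝒢₁.one_le_w k; omega)
    linarith
  have h1 := lower hC₁ hl hY (by linarith : (0 : ℝ) ≤ r) (by linarith : r < r + 1) hxr
  set D : ℝ := C₂ * (K * (C₁ * (r + 1)) + (1 + K)) with hD
  have h7 : (0 : ℝ) ≤ K := Nat.cast_nonneg K
  have hD0 : 0 ≤ D := by positivity
  have h2 : ∀ᶠ j in (𝒰 : Filter ℕ), ∀ k, |sc γ₂ j (bl f g Y j) k| ≤ D ^ w₂ k := by
    filter_upwards [h1] with j hj k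
    have h4 := hf (g j) (g j * Y j)
    have h5 : (g j)⁻¹ * (g j * Y j) = Y j := by group
    rw [h5] at h4
    have h6 : (wordLen T (bl f g Y j) : ℝ) ≤ K * wordLen S (Y j) + K := by exact_mod_cast h4
    have h8 := mul_le_mul_of_nonneg_left hj h7
    have h9 : (wordLen T (bl f g Y j) : ℝ) ≤ (K * (C₁ * (r + 1))) * 2 ^ j + K := by linarith
    refine (sc_le hC₂0 hC₂ h9 k).trans ?_
    have h10 : ((2 : ℝ) ^ j)⁻¹ ≤ 1 := inv_le_one_of_one_le₀ (one_le_pow₀ (by norm_num))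
    have h11 : (0 : ℝ) ≤ ((2 : ℝ) ^ j)⁻¹ := by positivity
    refine pow_le_pow_left₀ (by positivity) ?_ _
    rw [hD]
    refine mul_le_mul_of_nonneg_left ?_ hC₂0.le
    have h12 : (1 + (K : ℝ)) * ((2 : ℝ) ^ j)⁻¹ ≤ (1 + K) * 1 :=
      mul_le_mul_of_nonneg_left h10 (by linarith)
    linarith
  have hc : IsCompact (Metric.closedBall (0 : Fin h₂ → ℝ) (∑ k, D ^ w₂ k)) :=
    isCompact_closedBall 0 _
  obtain ⟨z, -, hz⟩ := hc.ultrafilter_le_nhds (𝒰.map fun j => sc γ₂ j (bl f g Y j)) (by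
    rw [le_principal_iff]
    show (fun j => sc γ₂ j (bl f g Y j)) ⁻¹' _ ∈ (𝒰 : Filter ℕ)
    refine mem_of_superset h2 fun j hj => ?_
    have hs : 0 ≤ ∑ k, D ^ w₂ k := Finset.sum_nonneg fun k _ => pow_nonneg hD0 _
    rw [Set.mem_preimage, mem_closedBall_zero_iff, pi_norm_le_iff_of_nonneg hs]
    intro k
    rw [Real.norm_eq_abs]
    exact (hj k).trans (Finset.single_le_sum (f := fun k => D ^ w₂ k)
      (fun i _ => pow_nonneg hD0 _) (Finset.mem_univ k)))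
  exact ⟨⟨z⟩, hz⟩

end Two

section Three

variable {h₁ h₂ : ℕ} {w₁ : Fin h₁ → ℕ} {w₂ : Fin h₂ → ℕ} {𝒢₁ : PGrp w₁} {𝒢₂ : PGrp w₂}

/-- Lipschitz maps are continuous in the coordinates of weight one. -/
theorem cont_of_lip {F : 𝒢₁.R → 𝒢₂.R} {K : ℝ} (hK : 0 < K)
    (lip : ∀ x y (r : ℝ), 0 ≤ r → (∀ k, |(x⁻¹ * y).v k| ≤ r ^ w₁ k) →
      ∀ k, |((F x)⁻¹ * F y).v k| ≤ (K * r) ^ w₂ k) {z : ℕ → 𝒢₁.R} {z₀ : 𝒢₁.R}
    (hz : Tendsto (fun n => (z n).v) atTop (nhds z₀.v)) (k : Fin h₂) (hk : w₂ k = 1) :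
    Tendsto (fun n => (F (z n)).v k) atTop (nhds ((F z₀).v k)) := by
  have h1 : Tendsto (fun n => (z₀⁻¹ * z n).v) atTop (nhds (z₀⁻¹ * z₀).v) :=
    tendsto_mul_v (x := fun _ => z₀⁻¹) tendsto_const_nhds hz
  rw [inv_mul_cancel, PGrp.one_v] at h1
  rw [Metric.tendsto_nhds]
  intro ε hε
  have hδ : 0 < ε / (K + 1) := by positivity
  have h2 : ∀ i, ∀ᶠ n in atTop, |(z₀⁻¹ * z n).v i| < (ε / (K + 1)) ^ w₁ i := by
    intro i
    have h3 : Tendsto (fun n => |(z₀⁻¹ * z n).v i|) atTop (nhds |(0 : Fin h₁ → ℝ) i|) :=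
      ((tendsto_pi_nhds.mp h1) i).abs
    rw [Pi.zero_apply, abs_zero] at h3
    exact h3.eventually_lt_const (by positivity)
  filter_upwards [eventually_all.mpr h2] with n hn
  have h4 := lip z₀ (z n) _ hδ.le (fun i => (hn i).le) k
  rw [mul_v_one _ _ _ hk, hk, pow_one, PGrp.inv_v, Pi.neg_apply] at h4
  rw [Real.dist_eq]
  have h5 : (F (z n)).v k - (F z₀).v k = -(F z₀).v k + (F (z n)).v k := by ring
  rw [h5]
  refine h4.trans_lt ?_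
  rw [mul_div_assoc', div_lt_iff₀ (by linarith)]
  nlinarith

/-- Affinity on a dense set gives affinity. -/
theorem aff_of_dense {F : 𝒢₁.R → 𝒢₂.R} {K : ℝ} (hK : 0 < K)
    (lip : ∀ x y (r : ℝ), 0 ≤ r → (∀ k, |(x⁻¹ * y).v k| ≤ r ^ w₁ k) →
      ∀ k, |((F x)⁻¹ * F y).v k| ≤ (K * r) ^ w₂ k)
    {u : ℕ → Fin h₁ → ℝ} (hu : DenseRange u) {vs : ℕ → Fin h₁ → ℤ}
    (hvs : Function.Surjective vs) {n₀ : ℕ} (hn₀ : 0 < n₀) {k : Fin h₂} (hk : w₂ k = 1)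
    (haff : ∀ m i l : ℕ, (F (⟨u m⟩ * ⟨(2 : ℝ) • (((2 : ℝ) ^ l)⁻¹ • fun t =>
          (n₀ : ℝ) * ((if w₁ t = 1 then vs i t else 0 : ℤ) : ℝ))⟩)).v k
        - 2 * (F (⟨u m⟩ * ⟨((2 : ℝ) ^ l)⁻¹ • fun t =>
          (n₀ : ℝ) * ((if w₁ t = 1 then vs i t else 0 : ℤ) : ℝ)⟩)).v k
        + (F ⟨u m⟩).v k = 0)
    (x : 𝒢₁.R) (v : Fin h₁ → ℝ) (hv : Horiz w₁ v) :
    (F (x * ⟨(2 : ℝ) • v⟩)).v k - 2 * (F (x * ⟨v⟩)).v k + (F x).v k = 0 := by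
  have hx : x.v ∈ closure (Set.range u) := hu x.v
  rw [mem_closure_iff_seq_limit] at hx
  obtain ⟨x', hx', hxl⟩ := hx
  choose m hm using hx'
  choose i hi using fun n : ℕ => hvs fun t => ⌊(2 : ℝ) ^ n / n₀ * v t⌋
  have hn : (0 : ℝ) < n₀ := by exact_mod_cast hn₀
  set V : ℕ → Fin h₁ → ℝ := fun n => ((2 : ℝ) ^ n)⁻¹ • fun t =>
    (n₀ : ℝ) * ((if w₁ t = 1 then vs (i n) t else 0 : ℤ) : ℝ) with hV
  have hVl : Tendsto V atTop (nhds v) := by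
    rw [tendsto_pi_nhds]
    intro t
    by_cases ht : w₁ t = 1
    · have h2 : Tendsto (fun j : ℕ => (2 : ℝ) ^ j / n₀) atTop atTop :=
        Tendsto.atTop_div_const hn tendsto_two_pow
      refine (tendsto_floor _ h2 (v t)).congr fun n => ?_
      simp only [hV, Pi.smul_apply, smul_eq_mul, hi, if_pos ht]
      rw [inv_div]
      field_simp
    · rw [hv t ht]
      refine tendsto_const_nhds.congr fun n => ?_
      simp only [hV, Pi.smul_apply, smul_eq_mul, if_neg ht]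
      simp
  have hxl' : Tendsto (fun n => ((⟨u (m n)⟩ : 𝒢₁.R)).v) atTop (nhds x.v) := by
    refine hxl.congr fun n => ?_
    exact (hm n).symm
  have h1 : Tendsto (fun n => ((⟨u (m n)⟩ : 𝒢₁.R) * ⟨V n⟩).v) atTop (nhds (x * ⟨v⟩).v) :=
    tendsto_mul_v (y := fun n => (⟨V n⟩ : 𝒢₁.R)) (b := (⟨v⟩ : 𝒢₁.R)) hxl' hVl
  have h2 : Tendsto (fun n => ((⟨u (m n)⟩ : 𝒢₁.R) * ⟨(2 : ℝ) • V n⟩).v) atTop
      (nhds (x * ⟨(2 : ℝ) • v⟩).v) :=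
    tendsto_mul_v (y := fun n => (⟨(2 : ℝ) • V n⟩ : 𝒢₁.R)) (b := (⟨(2 : ℝ) • v⟩ : 𝒢₁.R)) hxl'
      (hVl.const_smul (2 : ℝ))
  have h3 := ((cont_of_lip hK lip h2 k hk).sub ((cont_of_lip hK lip h1 k hk).const_mul 2)).add
    (cont_of_lip hK lip hxl' k hk)
  refine tendsto_nhds_unique h3 ?_
  refine tendsto_const_nhds.congr fun n => ?_
  exact (haff (m n) (i n) n).symm

end Three

end BlowP

open Filter BlowP in
theorem exists_limMap {G H : Type*} [Group G] [Group H] {S : Finset G} {T : Finset H}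
    (hS : Subgroup.closure (S : Set G) = ⊤) (hT : Subgroup.closure (T : Set H) = ⊤)
    {h₁ h₂ : ℕ} {w₁ : Fin h₁ → ℕ} {w₂ : Fin h₂ → ℕ} {𝒢₁ 𝒢₁' : PGrp w₁} {𝒢₂ 𝒢₂' : PGrp w₂}
    (hl₁ : GrLim 𝒢₁ 𝒢₁') (hl₂ : GrLim 𝒢₂ 𝒢₂') (γ₁ : GMap G 𝒢₁) (γ₂ : GMap H 𝒢₂)
    (u₁ : CoordUp S γ₁) (d₁ : CoordLow S γ₁) (u₂ : CoordUp T γ₂) (d₂ : CoordLow T γ₂)
    (hB : HasBaseG G h₂) (f : G → H) (K : ℕ) (hf : QIE S T f K) :
    ∃ (F : 𝒢₁'.R → 𝒢₂'.R) (K' : ℝ), LimMap 𝒢₁' 𝒢₂' F K' := by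
  obtain ⟨U₁, hU₁0, hU₁⟩ := u₁
  obtain ⟨D₁, hD₁0, hD₁⟩ := d₁
  obtain ⟨U₂, hU₂0, hU₂⟩ := u₂
  obtain ⟨D₂, hD₂0, hD₂⟩ := d₂
  obtain ⟨hf1, hf2⟩ := hf
  -- the coordinates of weight one
  set P : G → Fin h₂ → ℝ := fun x i => if w₂ i = 1 then (γ₂.ξ (f x) i : ℝ) else 0 with hP
  have hPd : ∀ x y i, w₂ i = 1 → P y i - P x i = (γ₂.ξ ((f x)⁻¹ * f y) i : ℝ) := by
    intro x y i hi
    have h1 : (γ₂.hom ((f x)⁻¹ * f y)).v i = -(γ₂.hom (f x)).v i + (γ₂.hom (f y)).v i := by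
      rw [map_mul, map_inv, mul_v_one _ _ _ hi, PGrp.inv_v, Pi.neg_apply]
    rw [GMap.hom_v, GMap.hom_v, GMap.hom_v] at h1
    rw [h1]
    simp only [hP, if_pos hi]
    ring
  have hPb : ∀ a, ∃ K' : ℝ, ∀ x, ‖P (x * a) - P x‖ ≤ K' := by
    intro a
    refine ⟨U₂ * (1 + (K * wordLen S a + K)), fun x => ?_⟩
    rw [pi_norm_le_iff_of_nonneg (by positivity)]
    intro i
    by_cases hi : w₂ i = 1
    · have h1 := hU₂ ((f x)⁻¹ * f (x * a)) i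
      rw [← hPd x (x * a) i hi, hi, pow_one] at h1
      rw [Real.norm_eq_abs]
      refine h1.trans ?_
      have h2 := hf1 x (x * a)
      rw [inv_mul_cancel_left] at h2
      have h3 : (wordLen T ((f x)⁻¹ * f (x * a)) : ℝ) ≤ K * wordLen S a + K := by
        exact_mod_cast h2
      exact mul_le_mul_of_nonneg_left (by linarith) hU₂0.le
    · have : (P (x * a) - P x) i = 0 := by
        simp only [Pi.sub_apply, hP, if_neg hi, sub_zero]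
      rw [this, norm_zero]
      positivity
  choose Y hY using fun m : ℕ =>
    exists_tend γ₁ (⟨TopologicalSpace.denseSeq (Fin h₁ → ℝ) m⟩ : 𝒢₁'.R)
  obtain ⟨vs, hvs⟩ := exists_surjective_nat (Fin h₁ → ℤ)
  choose a ha using fun i : ℕ => γ₁.expo fun t => if w₁ t = 1 then vs i t else 0
  obtain ⟨g, hg⟩ := hB P hPb Y a
  -- the ultrafilter
  set 𝒰 : Ultrafilter ℕ := hyperfilter ℕ with h𝒰
  have h𝒰le : (𝒰 : Filter ℕ) ≤ atTop := by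
    rw [← Nat.cofinite_eq_atTop]
    exact hyperfilter_le_cofinite
  -- the limit map
  have hlim : ∀ x : 𝒢₁'.R, ∃ (Z : ℕ → G) (z : 𝒢₂'.R), Tend γ₁ (𝒰 : Filter ℕ) Z x ∧
      Tend γ₂ (𝒰 : Filter ℕ) (bl f g Z) z := by
    intro x
    obtain ⟨Z, hZ⟩ := exists_tend γ₁ x
    obtain ⟨z, hz⟩ := bl_exists (𝒢₂' := 𝒢₂') hD₁0 hD₁ hU₂0 hU₂ hf1 h𝒰le (g := g) (hZ.mono h𝒰le)
    exact ⟨Z, z, hZ.mono h𝒰le, hz⟩
  choose Z F hZ hF using hlim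
  have hlip := fun (x y : 𝒢₁'.R) (r : ℝ) (hr : 0 ≤ r)
    (hx : ∀ k, |(x⁻¹ * y).v k| ≤ r ^ w₁ k) (k : Fin h₂) =>
    bl_lip hl₁ hl₂ hD₁ hU₂0 hU₂ hf1 h𝒰le (hZ x) (hZ y) (hF x) (hF y) hr hx k
  have hcolip := fun (x y : 𝒢₁'.R) (r : ℝ) (hr : 0 ≤ r)
    (hx : ∀ k, |((F x)⁻¹ * F y).v k| ≤ r ^ w₂ k) (k : Fin h₁) =>
    bl_colip hl₁ hl₂ hD₂ hU₁0 hU₁ hf2 h𝒰le (hZ x) (hZ y) (hF x) (hF y) hr hx k
  -- the limit does not depend on the sequence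
  have hany : ∀ (x : 𝒢₁'.R) (Y : ℕ → G), Tend γ₁ (𝒰 : Filter ℕ) Y x →
      Tend γ₂ (𝒰 : Filter ℕ) (bl f g Y) (F x) := by
    intro x Y hY
    obtain ⟨z, hz⟩ := bl_exists (𝒢₂' := 𝒢₂') hD₁0 hD₁ hU₂0 hU₂ hf1 h𝒰le (g := g) hY
    have h1 := bl_lip hl₁ hl₂ hD₁ hU₂0 hU₂ hf1 h𝒰le hY (hZ x) hz (hF x) le_rfl (by
      intro k
      rw [inv_mul_cancel, PGrp.one_v, Pi.zero_apply, abs_zero]
      exact pow_nonneg le_rfl _)
    have h2 : z⁻¹ * F x = 1 := by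
      refine PGrp.R.ext ?_
      funext k
      have h3 := h1 k
      rw [mul_zero, zero_pow (by have := 𝒢₂.one_le_w k; omega)] at h3
      rw [PGrp.one_v, Pi.zero_apply]
      exact abs_nonpos_iff.mp h3
    have h4 : z = F x := by rwa [inv_mul_eq_one] at h2
    rw [← h4]
    exact hz
  have hK0 : (0 : ℝ) ≤ K := Nat.cast_nonneg K
  set K' : ℝ := U₂ * (K * D₁) + U₁ * (K * D₂) + 1 with hK'
  have hK'0 : 0 < K' := by positivity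
  have e1 : 0 ≤ U₂ * (K * D₁) := by positivity
  have e2 : 0 ≤ U₁ * (K * D₂) := by positivity
  have lip : ∀ x y (r : ℝ), 0 ≤ r → (∀ k, |(x⁻¹ * y).v k| ≤ r ^ w₁ k) →
      ∀ k, |((F x)⁻¹ * F y).v k| ≤ (K' * r) ^ w₂ k := by
    intro x y r hr hx k
    refine (hlip x y r hr hx k).trans (pow_le_pow_left₀ (by positivity) ?_ _)
    exact mul_le_mul_of_nonneg_right (by linarith) hr
  have colip : ∀ x y (r : ℝ), 0 ≤ r → (∀ k, |((F x)⁻¹ * F y).v k| ≤ r ^ w₂ k) →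
      ∀ k, |(x⁻¹ * y).v k| ≤ (K' * r) ^ w₁ k := by
    intro x y r hr hx k
    refine (hcolip x y r hr hx k).trans (pow_le_pow_left₀ (by positivity) ?_ _)
    exact mul_le_mul_of_nonneg_right (by linarith) hr
  refine ⟨F, K', ?_, hK'0, lip, colip, ?_⟩
  · have h1 := hany 1 (fun _ => 1) (tend_one γ₁ _)
    have h2 : bl f g (fun _ => 1) = fun _ => 1 := by
      funext j
      simp [bl]
    rw [h2] at h1
    exact h1.unique (tend_one γ₂ _)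
  · intro x v hv k hk
    refine aff_of_dense hK'0 lip (TopologicalSpace.denseRange_denseSeq (Fin h₁ → ℝ)) hvs
      γ₁.n₀_pos hk ?_ x v hv
    intro m i l
    have hvh : ∀ t, w₁ t ≠ 1 → (if w₁ t = 1 then vs i t else 0) = 0 := fun t ht => if_neg ht
    have t1 := (tend_pow (𝒢' := 𝒢₁') γ₁ hvh (ha i) 1 l)
    have t2 := (tend_pow (𝒢' := 𝒢₁') γ₁ hvh (ha i) 2 l)
    have s1 := hany _ _ (((hY m).mul hl₁ le_rfl t1).mono h𝒰le)
    have s2 := hany _ _ (((hY m).mul hl₁ le_rfl t2).mono h𝒰le)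
    have s0 := hany _ _ ((hY m).mono h𝒰le)
    have c1 := (tendsto_pi_nhds.mp s1) k
    have c2 := (tendsto_pi_nhds.mp s2) k
    have c0 := (tendsto_pi_nhds.mp s0) k
    have c3 := (c2.sub (c1.const_mul 2)).add c0
    rw [Nat.cast_one, one_smul, Nat.cast_ofNat] at c3
    refine tendsto_nhds_unique c3 ?_
    have h1 := ((tendsto_pi_nhds.mp (hg m i l)) k).const_mul (((2 : ℝ) ^ l)⁻¹)
    rw [Pi.zero_apply, mul_zero] at h1
    refine (h1.mono_left h𝒰le).congr' ?_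
    filter_upwards [h𝒰le (eventually_ge_atTop l)] with j hj
    have hb : ∀ W : ℕ → G, sc γ₂ j (bl f g W j) k =
        ((2 : ℝ) ^ j)⁻¹ * (P (g j * W j) k - P (g j) k) := by
      intro W
      rw [sc_apply, hk, pow_one, hPd _ _ _ hk]
      rfl
    rw [hb, hb, hb]
    have e3 : ((2 : ℝ) ^ j)⁻¹ = ((2 : ℝ) ^ l)⁻¹ * ((2 : ℝ) ^ (j - l))⁻¹ := by
      rw [← mul_inv, ← pow_add]
      congr 2
      omega
    rw [e3]
    simp only [Pi.smul_apply, Pi.add_apply, Pi.sub_apply, smul_eq_mul, one_mul, mul_assoc (g j)]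
    ring

end Pool.Agent.MPf60e8aP
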