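import Mathlib
import Pool.Agent.Lib.MP_f60e8a_al.P.PDefs
import Pool.Agent.Lib.MP_f60e8a_al.N.Lattice

/-!
# Carnot type groups: the graph of the endomorphism
-/

open scoped BigOperators commutatorElement

namespace Pool.Agent.MPf60e8aP

open Pool.Agent.MPf60e8a (wordLen sepIndex RF)
open Pool.Agent.MPf60e8aN (Alg NilSub LieLattice BchConst Describes upperNil IsUnipotent lg)

namespace CarnA

open Pool.Agent.MPf60e8aN.Lat (cb cb_add_left cb_add_right cb_smul_left cb_smul_right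
  cb_zero_left cb_zero_right)

section general

variable {A : Type} [Ring A] [Algebra ℚ A]

/-- The product of two nilpotent parts. -/
def prodNil {N : ℕ} (𝔞 𝔟 : NilSub A N) : NilSub (A × A) N where
  S := 𝔞.S.prod 𝔟.S
  mul_mem := fun x hx y hy => by
    rw [Submodule.mem_prod] at hx hy ⊢
    exact ⟨𝔞.mul_mem _ hx.1 _ hy.1, 𝔟.mul_mem _ hx.2 _ hy.2⟩
  nil := fun l hl hlen => by
    have h1 : l.prod.1 = (l.map Prod.fst).prod := map_list_prod (RingHom.fst A A) l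
    have h2 : l.prod.2 = (l.map Prod.snd).prod := map_list_prod (RingHom.snd A A) l
    have e1 : l.prod.1 = 0 := by
      rw [h1]
      refine 𝔞.nil _ (fun x hx => ?_) (by simpa using hlen)
      obtain ⟨z, hz, rfl⟩ := List.mem_map.1 hx
      exact (Submodule.mem_prod.1 (hl z hz)).1
    have e2 : l.prod.2 = 0 := by
      rw [h2]
      refine 𝔟.nil _ (fun x hx => ?_) (by simpa using hlen)
      obtain ⟨z, hz, rfl⟩ := List.mem_map.1 hx
      exact (Submodule.mem_prod.1 (hl z hz)).2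
    exact Prod.ext e1 e2

theorem mem_prodNil {N : ℕ} {𝔞 𝔟 : NilSub A N} {x : A × A} :
    x ∈ (prodNil 𝔞 𝔟).S ↔ x.1 ∈ 𝔞.S ∧ x.2 ∈ 𝔟.S := Submodule.mem_prod

/-- Denominators. -/
theorem span_int (L : AddSubgroup A) {v : A} (hv : v ∈ Submodule.span ℚ (L : Set A)) :
    ∃ k : ℕ, 0 < k ∧ k • v ∈ L := by
  induction hv using Submodule.span_induction with
  | mem x hx => exact ⟨1, one_pos, by simpa using hx⟩
  | zero => exact ⟨1, one_pos, by simp [L.zero_mem]⟩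
  | add x y _ _ ihx ihy =>
    obtain ⟨k, hk, hkx⟩ := ihx
    obtain ⟨k', hk', hky⟩ := ihy
    refine ⟨k * k', Nat.mul_pos hk hk', ?_⟩
    rw [smul_add]
    refine L.add_mem ?_ ?_
    · rw [mul_comm, mul_smul]; exact L.nsmul_mem hkx _
    · rw [mul_smul]; exact L.nsmul_mem hky _
  | smul q x _ ih =>
    obtain ⟨k, hk, hkx⟩ := ih
    refine ⟨k * q.den, Nat.mul_pos hk q.den_pos, ?_⟩
    have h : (k * q.den) • (q • x) = q.num • (k • x) := by
      rw [← Nat.cast_smul_eq_nsmul ℚ, ← Int.cast_smul_eq_zsmul ℚ, ← Nat.cast_smul_eq_nsmul ℚ,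
        smul_smul, smul_smul]
      congr 1
      have := Rat.den_mul_eq_num q
      push_cast
      rw [mul_assoc, this, mul_comm]
    rw [h]
    exact L.zsmul_mem hkx _

/-- Brackets of rational spans. -/
theorem cb_span {X : Set A} {V : Submodule ℚ A} (h : ∀ x ∈ X, ∀ y ∈ X, cb x y ∈ V)
    {u v : A} (hu : u ∈ Submodule.span ℚ X) (hv : v ∈ Submodule.span ℚ X) : cb u v ∈ V := by
  induction hu using Submodule.span_induction with
  | mem x hx =>
    induction hv using Submodule.span_induction with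
    | mem y hy => exact h x hx y hy
    | zero => rw [cb_zero_right]; exact V.zero_mem
    | add y z _ _ ihy ihz => rw [cb_add_right]; exact V.add_mem ihy ihz
    | smul q y _ ih => rw [cb_smul_right]; exact V.smul_mem q ih
  | zero => rw [cb_zero_left]; exact V.zero_mem
  | add y z _ _ ihy ihz => rw [cb_add_left]; exact V.add_mem ihy ihz
  | smul q y _ ih => rw [cb_smul_left]; exact V.smul_mem q ih

theorem exp_fst {x : A × A} (hx : IsNilpotent x) :
    (IsNilpotent.exp x).1 = IsNilpotent.exp x.1 := by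
  exact IsNilpotent.map_exp hx (RingHom.fst A A)

theorem exp_snd {x : A × A} (hx : IsNilpotent x) :
    (IsNilpotent.exp x).2 = IsNilpotent.exp x.2 := by
  exact IsNilpotent.map_exp hx (RingHom.snd A A)

theorem lg_prod {N : ℕ} (𝔞 : NilSub A N) {y : A × A} (hy : y - 1 ∈ (prodNil 𝔞 𝔞).S) :
    lg y = (lg y.1, lg y.2) := by
  have hn : IsNilpotent (y - 1) := (prodNil 𝔞 𝔞).isNilpotent hy
  have hl : lg y ∈ (prodNil 𝔞 𝔞).S := (prodNil 𝔞 𝔞).lg_mem hy
  have hln := (prodNil 𝔞 𝔞).isNilpotent hl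
  have he := MPf60e8aN.exp_lg hn
  have h1 : IsNilpotent.exp (lg y).1 = y.1 := by rw [← exp_fst hln, he]
  have h2 : IsNilpotent.exp (lg y).2 = y.2 := by rw [← exp_snd hln, he]
  refine Prod.ext ?_ ?_
  · change (lg y).1 = lg y.1
    rw [← h1, MPf60e8aN.lg_exp (𝔞.isNilpotent (mem_prodNil.1 hl).1)]
  · change (lg y).2 = lg y.2
    rw [← h2, MPf60e8aN.lg_exp (𝔞.isNilpotent (mem_prodNil.1 hl).2)]

/-- The linear map given by a family of vectors. -/
noncomputable def comb {h : ℕ} (e : Fin h → A) : (Fin h → ℚ) →ₗ[ℚ] A :=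
  Fintype.linearCombination ℚ e

theorem comb_apply {h : ℕ} (e : Fin h → A) (x : Fin h → ℚ) : comb e x = ∑ i, x i • e i := by
  simp [comb, Fintype.linearCombination_apply]

theorem comb_single {h : ℕ} (e : Fin h → A) (i : Fin h) : comb e (Pi.single i 1) = e i := by
  simp [comb]

theorem comb_inj {h : ℕ} {L : AddSubgroup A} (e : Module.Basis (Fin h) ℤ L) :
    Function.Injective (comb fun i => (e i : A)) := by
  have h1 : LinearIndependent ℤ (fun i => (e i : A)) := by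
    have := e.linearIndependent.map' (L.subtype.toIntLinearMap)
      (LinearMap.ker_eq_bot.2 Subtype.coe_injective)
    exact this
  have h2 : LinearIndependent ℚ (fun i => (e i : A)) := by
    exact LinearIndependent.iff_fractionRing (R := ℤ) (K := ℚ) |>.1 h1
  rw [comb]
  exact h2.fintypeLinearCombination_injective

theorem comb_range {h : ℕ} {L : AddSubgroup A} (e : Module.Basis (Fin h) ℤ L) {x : A}
    (hx : x ∈ L) : ∃ c : Fin h → ℚ, comb (fun i => (e i : A)) c = x := by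
  refine ⟨fun i => (e.repr ⟨x, hx⟩ i : ℚ), ?_⟩
  rw [comb_apply]
  have := e.sum_repr ⟨x, hx⟩
  have h2 := congrArg (fun z : L => (z : A)) this
  simp only [AddSubgroup.val_finsetSum, AddSubgroup.coe_zsmul] at h2
  refine Eq.trans ?_ h2
  refine Finset.sum_congr rfl fun i _ => ?_
  rw [Int.cast_smul_eq_zsmul]

theorem comb_range' {h : ℕ} {L : AddSubgroup A} (e : Module.Basis (Fin h) ℤ L) {x : A}
    (hx : x ∈ Submodule.span ℚ (L : Set A)) : ∃ c : Fin h → ℚ, comb (fun i => (e i : A)) c = x := by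
  have : Submodule.span ℚ (L : Set A) ≤ LinearMap.range (comb fun i => (e i : A)) := by
    rw [Submodule.span_le]
    intro y hy
    exact comb_range e hy
  exact this hx

theorem comb_mem {h : ℕ} {L : AddSubgroup A} (e : Module.Basis (Fin h) ℤ L)
    (c : Fin h → ℚ) : comb (fun i => (e i : A)) c ∈ Submodule.span ℚ (L : Set A) := by
  rw [comb_apply]
  exact Submodule.sum_mem _ fun i _ => Submodule.smul_mem _ _ (Submodule.subset_span (e i).2)

theorem comb_mul {h M : ℕ} {L : AddSubgroup A} (e : Module.Basis (Fin h) ℤ L) (𝔏 : Alg h)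
    (h𝔏 : Describes M e 𝔏) (x y : Fin h → ℚ) :
    cb (comb (fun i => (e i : A)) x) (comb (fun i => (e i : A)) y) =
      (M : ℚ) • comb (fun i => (e i : A)) (𝔏.mul x y) := by
  have h1 : ∀ i j, (e i : A) * (e j : A) - (e j : A) * (e i : A) =
      (M : ℚ) • ∑ k, (𝔏.c i j k : ℚ) • (e k : A) := by
    intro i j
    rw [h𝔏 i j, Nat.cast_smul_eq_nsmul]
    congr 1
    refine Finset.sum_congr rfl fun k _ => ?_
    rw [Int.cast_smul_eq_zsmul]
  simp only [comb_apply, cb, Alg.mul]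
  have h2 : (∑ i, x i • (e i : A)) * (∑ j, y j • (e j : A)) -
      (∑ j, y j • (e j : A)) * (∑ i, x i • (e i : A)) =
      ∑ i, ∑ j, (x i * y j) • ((e i : A) * (e j : A) - (e j : A) * (e i : A)) := by
    rw [Finset.sum_mul_sum, Finset.sum_mul_sum, Finset.sum_comm (s := Finset.univ)
      (t := Finset.univ) (f := fun i j => y i • (e i : A) * x j • (e j : A)),
      ← Finset.sum_sub_distrib]
    refine Finset.sum_congr rfl fun i _ => ?_
    rw [← Finset.sum_sub_distrib]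
    refine Finset.sum_congr rfl fun j _ => ?_
    rw [smul_sub, smul_mul_smul_comm, smul_mul_smul_comm, mul_comm (y j)]
  rw [h2]
  have h3 : ∀ i j, (x i * y j) • ((e i : A) * (e j : A) - (e j : A) * (e i : A)) =
      ∑ k, ((M : ℚ) * ((𝔏.c i j k : ℚ) * x i * y j)) • (e k : A) := by
    intro i j
    rw [h1, Finset.smul_sum, Finset.smul_sum]
    refine Finset.sum_congr rfl fun k _ => ?_
    rw [smul_smul, smul_smul]
    congr 1
    ring
  have h4 : ∀ k, (M : ℚ) • (∑ i, ∑ j, (𝔏.c i j k : ℚ) * x i * y j) • (e k : A) =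
      ∑ i, ∑ j, ((M : ℚ) * ((𝔏.c i j k : ℚ) * x i * y j)) • (e k : A) := by
    intro k
    rw [smul_smul, Finset.mul_sum, Finset.sum_smul]
    refine Finset.sum_congr rfl fun i _ => ?_
    rw [Finset.mul_sum, Finset.sum_smul]
  rw [Finset.smul_sum, Finset.sum_congr rfl fun k _ => h4 k,
    Finset.sum_congr rfl fun i _ => Finset.sum_congr rfl fun j _ => h3 i j]
  rw [Finset.sum_comm]
  rw [Finset.sum_comm (s := Finset.univ) (t := Finset.univ)
    (f := fun j i => ∑ k, ((M : ℚ) * ((𝔏.c i j k : ℚ) * x i * y j)) • (e k : A))]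
  rw [Finset.sum_congr rfl fun i _ => Finset.sum_comm (s := Finset.univ) (t := Finset.univ)
    (f := fun j k => ((M : ℚ) * ((𝔏.c i j k : ℚ) * x i * y j)) • (e k : A))]
  rw [Finset.sum_comm]

end general

end CarnA

open CarnA in
open Pool.Agent.MPf60e8aN.Lat (cb cb_smul_left cb_smul_right) in
theorem carnot_endo {G : Type*} [Group G] [Group.FG G] {N M h : ℕ} (hM : BchConst N M)
    (φ : G →* (Matrix (Fin N) (Fin N) ℚ)ˣ) (hφ : IsUnipotent φ) (hker : Finite φ.ker)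
    {L : AddSubgroup (Matrix (Fin N) (Fin N) ℚ)} (hL : LieLattice (upperNil N) M L)
    (hlog : ∀ g, lg (φ g : Matrix (Fin N) (Fin N) ℚ) ∈ L) (n₀ : ℕ) (hn₀ : 0 < n₀)
    (hin : ∀ x ∈ L, ∃ g : G, (φ g : Matrix (Fin N) (Fin N) ℚ) = IsNilpotent.exp (n₀ • x))
    (e : Module.Basis (Fin h) ℤ L) (𝔏 : Alg h) (h𝔏 : Describes M e 𝔏)
    (hC : CarnotType G) :
    ∃ (n : ℕ) (Ψ : (Fin h → ℚ) →ₗ[ℚ] (Fin h → ℚ)), 2 ≤ n ∧
      (∀ x y, Ψ (𝔏.mul x y) = 𝔏.mul (Ψ x) (Ψ y)) ∧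
      ∀ x, Ψ x - (n : ℚ) • x ∈ Submodule.span ℚ {z | ∃ u v, z = 𝔏.mul u v} := by
  obtain ⟨G', n, ψ, hfin, hn, hψ⟩ := hC
  have hM0 : (M : ℚ) ≠ 0 := by exact_mod_cast hM.1.ne'
  let A := Matrix (Fin N) (Fin N) ℚ
  let 𝔞 : NilSub A N := upperNil N
  -- the graph homomorphism
  let Φ : G' →* (A × A)ˣ := MulEquiv.prodUnits.symm.toMonoidHom.comp
    ((φ.comp G'.subtype).prod (φ.comp (G'.subtype.comp ψ)))
  have hΦ1 : ∀ g : G', ((Φ g : (A × A)ˣ) : A × A).1 = (φ g : A) := fun g => rfl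
  have hΦ2 : ∀ g : G', ((Φ g : (A × A)ˣ) : A × A).2 = (φ (ψ g) : A) := fun g => rfl
  have hΦ : ∀ g : G', ((Φ g : (A × A)ˣ) : A × A) - 1 ∈ (prodNil 𝔞 𝔞).S := fun g =>
    mem_prodNil.2 ⟨hφ g, hφ (ψ g)⟩
  have := hfin
  obtain ⟨L₂, hL₂, -, hlog₂, n₂, hn₂, hin₂⟩ := MPf60e8aN.exists_lattice (prodNil 𝔞 𝔞) hM Φ hΦ
  have hlgΦ : ∀ g : G', lg ((Φ g : (A × A)ˣ) : A × A) = (lg (φ g : A), lg (φ (ψ g) : A)) :=
    fun g => lg_prod 𝔞 (hΦ g)
  set V : Submodule ℚ A := Submodule.span ℚ (L : Set A) with hV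
  set V₂ : Submodule ℚ (A × A) := Submodule.span ℚ (L₂ : Set (A × A)) with hV₂
  have hgr : ∀ g : G', (lg (φ g : A), lg (φ (ψ g) : A)) ∈ V₂ := fun g => by
    rw [← hlgΦ]; exact Submodule.subset_span (hlog₂ g)
  -- brackets
  have hcbV : ∀ u ∈ V, ∀ v ∈ V, cb u v ∈ V := by
    intro u hu v hv
    refine cb_span (fun x hx y hy => ?_) hu hv
    obtain ⟨z, hz, hxy⟩ := hL.br x hx y hy
    change x * y - y * x ∈ V
    rw [hxy]
    exact V.smul_of_tower_mem M (Submodule.subset_span hz)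
  have hcbV₂ : ∀ u ∈ V₂, ∀ v ∈ V₂, cb u v ∈ V₂ := by
    intro u hu v hv
    refine cb_span (fun x hx y hy => ?_) hu hv
    obtain ⟨z, hz, hxy⟩ := hL₂.br x hx y hy
    change x * y - y * x ∈ V₂
    rw [hxy]
    exact V₂.smul_of_tower_mem M (Submodule.subset_span hz)
  -- the second component is determined by the first one
  have huniq : ∀ b : A, ((0 : A), b) ∈ V₂ → b = 0 := by
    intro b hb
    obtain ⟨k, hk, hkb⟩ := span_int L₂ hb
    obtain ⟨g, hg⟩ := hin₂ _ hkb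
    have hS : n₂ • k • ((0 : A), b) ∈ (prodNil 𝔞 𝔞).S :=
      (prodNil 𝔞 𝔞).S.smul_of_tower_mem n₂ (hL₂.le _ hkb)
    have hnil : IsNilpotent (n₂ • k • ((0 : A), b)) := (prodNil 𝔞 𝔞).isNilpotent hS
    have hS2 : n₂ • k • b ∈ 𝔞.S := (mem_prodNil.1 hS).2
    have h1 : (φ g : A) = 1 := by
      rw [← hΦ1, hg, exp_fst hnil]
      simp
    have h2 : (φ (ψ g) : A) = IsNilpotent.exp (n₂ • k • b) := by
      rw [← hΦ2, hg, exp_snd hnil]
      simp
    have h3 : (g : G) ∈ φ.ker := by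
      rw [MonoidHom.mem_ker]
      exact Units.ext h1
    obtain ⟨m, hm, hgm⟩ : ∃ m : ℕ, 0 < m ∧ g ^ m = 1 := by
      have := hker
      have := isOfFinOrder_of_finite (⟨g, h3⟩ : φ.ker)
      obtain ⟨m, hm, h⟩ := isOfFinOrder_iff_pow_eq_one.1 this
      exact ⟨m, hm, Subtype.ext (congrArg (fun z : φ.ker => (z : G)) h)⟩
    have h4 : (φ (ψ g) : A) ^ m = 1 := by
      have h5 : (ψ g) ^ m = 1 := by rw [← map_pow, hgm, map_one]
      have h6 : (ψ g : G) ^ m = 1 := by rw [← Subgroup.coe_pow, h5]; rfl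
      rw [← Units.val_pow_eq_pow_val, ← map_pow, h6, map_one]; rfl
    rw [h2, ← MPf60e8aN.exp_nsmul (𝔞.isNilpotent hS2) m, ← IsNilpotent.exp_zero] at h4
    have h5 : m • n₂ • k • b = 0 := MPf60e8aN.Corr.exp_inj 𝔞
      (𝔞.S.smul_of_tower_mem m hS2) 𝔞.S.zero_mem h4
    rw [← Nat.cast_smul_eq_nsmul ℚ m, ← Nat.cast_smul_eq_nsmul ℚ n₂,
      ← Nat.cast_smul_eq_nsmul ℚ k] at h5
    have hmq : (m : ℚ) ≠ 0 := by exact_mod_cast hm.ne'
    have hnq : (n₂ : ℚ) ≠ 0 := by exact_mod_cast hn₂.ne'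
    have hkq : (k : ℚ) ≠ 0 := by exact_mod_cast hk.ne'
    simpa [hmq, hnq, hkq] using h5
  have hex : ∀ x ∈ L, ∃ k : ℕ, 0 < k ∧ ∃ g : G', lg (φ g : A) = k • x := by
    intro x hx
    obtain ⟨g, hg⟩ := hin x hx
    obtain ⟨m, hm, -, hgm⟩ := Subgroup.exists_pow_mem_of_index_ne_zero hfin.index_ne_zero g
    refine ⟨m * n₀, Nat.mul_pos hm hn₀, ⟨g ^ m, hgm⟩, ?_⟩
    have hxS : n₀ • x ∈ 𝔞.S := 𝔞.S.smul_of_tower_mem n₀ (hL.le x hx)
    have h1 : (φ (g ^ m) : A) = IsNilpotent.exp ((m * n₀) • x) := by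
      rw [map_pow, Units.val_pow_eq_pow_val, hg, ← MPf60e8aN.exp_nsmul (𝔞.isNilpotent hxS),
        mul_smul]
    change lg (φ (g ^ m) : A) = _
    rw [h1, MPf60e8aN.lg_exp (𝔞.isNilpotent (𝔞.S.smul_of_tower_mem _ (hL.le x hx)))]
  have hVV : ∀ p ∈ V₂, p.1 ∈ V ∧ p.2 ∈ V := by
    have h0 : V₂ ≤ V.prod V := by
      rw [hV₂, Submodule.span_le]
      intro z hz
      obtain ⟨g, hg⟩ := hin₂ z hz
      have h1 : lg ((Φ g : (A × A)ˣ) : A × A) = n₂ • z := by
        rw [hg, MPf60e8aN.lg_exp ((prodNil 𝔞 𝔞).isNilpotent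
          ((prodNil 𝔞 𝔞).S.smul_of_tower_mem _ (hL₂.le z hz)))]
      rw [hlgΦ] at h1
      have h2 : n₂ • z ∈ V.prod V := by
        rw [← h1]
        exact Submodule.mem_prod.2 ⟨Submodule.subset_span (hlog g),
          Submodule.subset_span (hlog (ψ g))⟩
      have h3 : (n₂ : ℚ)⁻¹ • (n₂ • z) = z := MPf60e8aN.Lat.inv_smul_nsmul hn₂ z
      rw [← h3]
      exact Submodule.smul_mem _ _ h2
    exact fun p hp => Submodule.mem_prod.1 (h0 hp)
  have hcol : ∀ i, ∃ c : Fin h → ℚ, ((e i : A), comb (fun i => (e i : A)) c) ∈ V₂ := by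
    intro i
    obtain ⟨k, hk, g, hg⟩ := hex _ (e i).2
    have h1 := hgr g
    rw [hg] at h1
    have h2 : ((e i : A), (k : ℚ)⁻¹ • lg (φ (ψ g) : A)) ∈ V₂ := by
      have := V₂.smul_mem (k : ℚ)⁻¹ h1
      rwa [Prod.smul_mk, MPf60e8aN.Lat.inv_smul_nsmul hk] at this
    obtain ⟨c, hc⟩ := comb_range' e (hVV _ h2).2
    exact ⟨c, by rw [hc]; exact h2⟩
  choose c hc using hcol
  let Ψ : (Fin h → ℚ) →ₗ[ℚ] (Fin h → ℚ) := Fintype.linearCombination ℚ c
  let ι : (Fin h → ℚ) →ₗ[ℚ] A := comb (fun i => (e i : A))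
  have hιinj : Function.Injective ι := comb_inj e
  have hιΨ : ∀ x, (ι x, ι (Ψ x)) ∈ V₂ := by
    intro x
    have h1 : (ι x, ι (Ψ x)) = ∑ i, x i • ((e i : A), ι (c i)) := by
      refine Prod.ext ?_ ?_
      · rw [Prod.fst_sum]
        exact comb_apply _ x
      · rw [Prod.snd_sum]
        simp only [Ψ, Fintype.linearCombination_apply, map_sum, map_smul, Prod.smul_mk]
    rw [h1]
    exact Submodule.sum_mem _ fun i _ => V₂.smul_mem _ (hc i)
  have hpair : ∀ x y, (ι x, ι y) ∈ V₂ → y = Ψ x := by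
    intro x y hxy
    have h1 := V₂.sub_mem hxy (hιΨ x)
    rw [Prod.mk_sub_mk, sub_self, ← map_sub] at h1
    have h2 := hιinj ((huniq _ h1).trans (map_zero ι).symm)
    exact sub_eq_zero.1 h2
  refine ⟨n, Ψ, hn, fun x y => ?_, ?_⟩
  · symm
    apply hpair
    have h1 := hcbV₂ _ (hιΨ x) _ (hιΨ y)
    have h2 : cb (ι x, ι (Ψ x)) (ι y, ι (Ψ y)) =
        (M : ℚ) • (ι (𝔏.mul x y), ι (𝔏.mul (Ψ x) (Ψ y))) := by
      refine Prod.ext ?_ ?_
      · exact comb_mul e 𝔏 h𝔏 x y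
      · exact comb_mul e 𝔏 h𝔏 _ _
    rw [h2] at h1
    have := V₂.smul_mem (M : ℚ)⁻¹ h1
    rwa [smul_smul, inv_mul_cancel₀ hM0, one_smul] at this
  -- the abelianization
  set W : Submodule ℚ (Fin h → ℚ) := Submodule.span ℚ {z | ∃ u v, z = 𝔏.mul u v} with hW
  let W' : Submodule ℚ A := W.map ι
  have hW'V : ∀ u ∈ W', u ∈ V := by
    rintro _ ⟨z, -, rfl⟩
    exact comb_mem e z
  have hbrW : ∀ u ∈ V, ∀ v ∈ V, cb u v ∈ W' := by
    intro u hu v hv
    obtain ⟨x, rfl⟩ := comb_range' e hu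
    obtain ⟨y, rfl⟩ := comb_range' e hv
    rw [comb_mul e 𝔏 h𝔏]
    exact W'.smul_mem _ ⟨_, Submodule.subset_span ⟨x, y, rfl⟩, rfl⟩
  have hlogV : ∀ g, lg (φ g : A) ∈ V := fun g => Submodule.subset_span (hlog g)
  have hlgS : ∀ g, lg (φ g : A) ∈ 𝔞.S := fun g => hL.le _ (hlog g)
  have hadd : ∀ a b : G, ∃ w ∈ W', lg (φ (a * b) : A) = lg (φ a : A) + lg (φ b : A) + w := by
    intro a b
    obtain ⟨w, hwS, hwE, hw⟩ := hM.2 A 𝔞 _ _ (hlgS a) (hlgS b) W'.toAddSubgroup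
      (hbrW _ (hlogV a) _ (hlogV b)) (fun z hz => hbrW _ (hlogV a) _ (hW'V z hz))
      (fun z hz => hbrW _ (hlogV b) _ (hW'V z hz))
    refine ⟨w, MPf60e8aN.Lat.mem_of_nsmul hM.1 hwE, ?_⟩
    rw [MPf60e8aN.exp_lg (𝔞.isNilpotent (hφ a)), MPf60e8aN.exp_lg (𝔞.isNilpotent (hφ b)),
      ← Units.val_mul, ← map_mul] at hw
    rw [hw, MPf60e8aN.lg_exp (𝔞.isNilpotent (𝔞.S.add_mem (𝔞.S.add_mem (hlgS a) (hlgS b)) hwS))]
  let θ : G' →* Multiplicative (A ⧸ W') := MonoidHom.mk'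
    (fun g => Multiplicative.ofAdd (Submodule.Quotient.mk (lg (φ g : A)))) (by
      intro a b
      obtain ⟨w, hw, hab⟩ := hadd a b
      rw [← ofAdd_add]
      congr 1
      rw [← Submodule.Quotient.mk_add, Submodule.Quotient.eq]
      change lg (φ ((a : G) * (b : G)) : A) - _ ∈ W'
      rw [hab, add_sub_cancel_left]
      exact hw)
  have hθ : ∀ g : G', lg (φ (ψ g) : A) - (n : ℚ) • lg (φ g : A) ∈ W' := by
    intro g
    obtain ⟨k, hk, hkg⟩ := hψ g
    have h1 : θ ((ψ g * (g ^ n)⁻¹) ^ k) = 1 := by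
      have := Abelianization.commutator_subset_ker θ hkg
      exact this
    rw [map_pow, map_mul, map_inv, map_pow] at h1
    have h2 : k • ((Submodule.Quotient.mk (lg (φ (ψ g) : A)) : A ⧸ W') -
        n • (Submodule.Quotient.mk (lg (φ g : A)) : A ⧸ W')) = 0 := by
      rw [sub_eq_add_neg]
      exact h1
    rw [← Submodule.Quotient.mk_smul, ← Submodule.Quotient.mk_sub,
      ← Submodule.Quotient.mk_smul, Submodule.Quotient.mk_eq_zero] at h2
    have h3 := MPf60e8aN.Lat.mem_of_nsmul hk h2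
    rwa [Nat.cast_smul_eq_nsmul]
  have hbasis : ∀ i, ι (Ψ (Pi.single i 1) - (n : ℚ) • Pi.single i 1) ∈ W' := by
    intro i
    obtain ⟨k, hk, g, hg⟩ := hex _ (e i).2
    have hkq : (k : ℚ) ≠ 0 := by exact_mod_cast hk.ne'
    obtain ⟨y, hy⟩ := comb_range' e (hlogV (ψ g))
    have h1 : lg (φ g : A) = ι ((k : ℚ) • Pi.single i 1) := by
      rw [hg, map_smul]
      change k • (e i : A) = (k : ℚ) • comb (fun i => (e i : A)) (Pi.single i 1)
      rw [comb_single, Nat.cast_smul_eq_nsmul]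
    have h2 : y = Ψ ((k : ℚ) • Pi.single i 1) := by
      apply hpair
      rw [← h1]
      change (_, comb (fun i => (e i : A)) y) ∈ V₂
      rw [hy]
      exact hgr g
    have h3 := hθ g
    have h4 : lg (φ (ψ g) : A) = ι y := hy.symm
    rw [h4, h2, h1, ← map_smul, ← map_sub, map_smul Ψ, smul_comm (n : ℚ) (k : ℚ),
      ← smul_sub, map_smul] at h3
    have := W'.smul_mem (k : ℚ)⁻¹ h3
    rwa [smul_smul, inv_mul_cancel₀ hkq, one_smul] at this
  intro x
  have h1 : ι (Ψ x - (n : ℚ) • x) ∈ W' := by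
    have h2 : x = ∑ i, x i • (Pi.single i 1 : Fin h → ℚ) := by
      rw [pi_eq_sum_univ' x]
      simp [Pi.single, Function.update]
    have h3 : ι (Ψ x - (n : ℚ) • x) =
        ∑ i, x i • ι (Ψ (Pi.single i 1) - (n : ℚ) • Pi.single i 1) := by
      conv_lhs => rw [h2]
      simp only [map_sum, map_smul, Finset.smul_sum, ← Finset.sum_sub_distrib, map_sub, smul_sub]
      refine Finset.sum_congr rfl fun i _ => ?_
      rw [smul_comm]
    rw [h3]
    exact Submodule.sum_mem _ fun i _ => W'.smul_mem _ (hbasis i)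
  obtain ⟨z, hz, hzx⟩ := h1
  rw [← hιinj hzx]
  exact hz

end Pool.Agent.MPf60e8aP
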