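import Mathlib
import Pool.Agent.Lib.MP_f60e8a_al.P.PDefs

/-!
# Carnot type: the linear algebra
-/

open scoped BigOperators commutatorElement

namespace Pool.Agent.MPf60e8aP

open Pool.Agent.MPf60e8a (wordLen sepIndex RF)
open Pool.Agent.MPf60e8aN (Alg)

namespace CarnB

variable {h : ℕ}

section bilin

variable {F : Type*} [Field F] (𝔏 : Alg h)

theorem mul_add_left (x x' y : Fin h → F) : 𝔏.mul (x + x') y = 𝔏.mul x y + 𝔏.mul x' y := by
  funext k
  simp only [Alg.mul, Pi.add_apply, mul_add, add_mul, Finset.sum_add_distrib]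

theorem mul_add_right (x y y' : Fin h → F) : 𝔏.mul x (y + y') = 𝔏.mul x y + 𝔏.mul x y' := by
  funext k
  simp only [Alg.mul, Pi.add_apply, mul_add, Finset.sum_add_distrib]

theorem mul_smul_left (c : F) (x y : Fin h → F) : 𝔏.mul (c • x) y = c • 𝔏.mul x y := by
  funext k
  simp only [Alg.mul, Pi.smul_apply, smul_eq_mul, Finset.mul_sum]
  refine Finset.sum_congr rfl fun i _ => Finset.sum_congr rfl fun j _ => ?_
  ring

theorem mul_smul_right (c : F) (x y : Fin h → F) : 𝔏.mul x (c • y) = c • 𝔏.mul x y := by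
  funext k
  simp only [Alg.mul, Pi.smul_apply, smul_eq_mul, Finset.mul_sum]
  refine Finset.sum_congr rfl fun i _ => Finset.sum_congr rfl fun j _ => ?_
  ring

theorem mul_zero_left (y : Fin h → F) : 𝔏.mul 0 y = 0 := by
  have := mul_smul_left 𝔏 (0 : F) 0 y
  simpa using this

theorem mul_zero_right (x : Fin h → F) : 𝔏.mul x 0 = 0 := by
  have := mul_smul_right 𝔏 (0 : F) x 0
  simpa using this

theorem mul_single (i j : Fin h) :
    𝔏.mul (Pi.single i (1 : F)) (Pi.single j 1) = fun k => (𝔏.c i j k : F) := by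
  funext k
  unfold Alg.mul
  rw [Finset.sum_eq_single i]
  · rw [Finset.sum_eq_single j]
    · simp
    · intro j' _ hj
      rw [Pi.single_eq_of_ne hj, mul_zero]
    · intro hcon
      exact absurd (Finset.mem_univ _) hcon
  · intro i' _ hi
    refine Finset.sum_eq_zero fun j' _ => ?_
    rw [Pi.single_eq_of_ne hi, mul_zero, zero_mul]
  · intro hcon
    exact absurd (Finset.mem_univ _) hcon

end bilin

/-- The filtration. -/
def V (w : Fin h → ℕ) (m : ℕ) : Submodule ℚ (Fin h → ℚ) where
  carrier := {x | ∀ k, w k < m → x k = 0}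
  zero_mem' := fun _ _ => rfl
  add_mem' := fun {x y} hx hy k hk => by rw [Pi.add_apply, hx k hk, hy k hk, add_zero]
  smul_mem' := fun c x hx k hk => by rw [Pi.smul_apply, hx k hk, smul_zero]

theorem mem_V {w : Fin h → ℕ} {m : ℕ} {x : Fin h → ℚ} : x ∈ V w m ↔ ∀ k, w k < m → x k = 0 :=
  Iff.rfl

theorem V_mono {w : Fin h → ℕ} {m m' : ℕ} (hm : m ≤ m') : V w m' ≤ V w m :=
  fun _ hx k hk => hx k (by omega)

theorem mul_mem_V {w : Fin h → ℕ} {𝔏 : Alg h} (hF : Filtered w 𝔏) {a b : ℕ} {x y : Fin h → ℚ}
    (hx : x ∈ V w a) (hy : y ∈ V w b) : 𝔏.mul x y ∈ V w (a + b) := by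
  intro k hk
  unfold Alg.mul
  refine Finset.sum_eq_zero fun i _ => Finset.sum_eq_zero fun j _ => ?_
  by_cases hc : 𝔏.c i j k = 0
  · simp [hc]
  · have h1 := hF i j k hc
    rcases lt_or_ge (w i) a with h2 | h2
    · simp [hx i h2]
    · rcases lt_or_ge (w j) b with h3 | h3
      · simp [hy j h3]
      · omega

theorem single_mem_V {w : Fin h → ℕ} (i : Fin h) : (Pi.single i 1 : Fin h → ℚ) ∈ V w (w i) := by
  intro k hk
  refine Pi.single_eq_of_ne ?_ _
  rintro rfl
  omega

/-- `c_ij` and its graded part differ by an element of larger weight. -/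
theorem c_sub_gr {w : Fin h → ℕ} {𝔏 : Alg h} (hF : Filtered w 𝔏) (i j : Fin h) :
    (fun k => (𝔏.c i j k : ℚ)) - (fun k => ((gr w 𝔏).c i j k : ℚ)) ∈ V w (w i + w j + 1) := by
  intro k hk
  simp only [Pi.sub_apply]
  by_cases hk' : w k = w i + w j
  · have : (gr w 𝔏).c i j k = 𝔏.c i j k := if_pos hk'
    rw [this, sub_self]
  · have e1 : (gr w 𝔏).c i j k = 0 := if_neg hk'
    have e2 : 𝔏.c i j k = 0 := by
      by_contra hcon
      have := hF i j k hcon
      omega
    rw [e1, e2, sub_self]

/-- The algebraic filtration. -/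
def W (𝔏 : Alg h) : ℕ → Submodule ℚ (Fin h → ℚ)
  | 0 => ⊤
  | (m + 1) => Submodule.span ℚ {z | ∃ x, ∃ y ∈ W 𝔏 m, z = 𝔏.mul x y}

theorem V_le_W {w : Fin h → ℕ} {𝔏 : Alg h} (hF : Filtered w 𝔏)
    (hG : Generated w (gr w 𝔏)) (m : ℕ) : V w (m + 1) ≤ W 𝔏 m := by
  obtain ⟨c, hcw⟩ : ∃ c, ∀ k, w k < c := by
    refine ⟨(Finset.univ.sup w) + 1, fun k => ?_⟩
    have := Finset.le_sup (f := w) (Finset.mem_univ k)
    omega
  induction m with
  | zero => exact le_top
  | succ m ih =>
    have key : ∀ d m', m + 2 ≤ m' → c ≤ m' + d → V w m' ≤ W 𝔏 (m + 1) := by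
      intro d
      induction d with
      | zero =>
        intro m' _ hc x hx
        have : x = 0 := by
          funext k
          exact hx k (by have := hcw k; omega)
        rw [this]
        exact Submodule.zero_mem _
      | succ d ihd =>
        intro m' hm' hc x hx
        have hnext := ihd (m' + 1) (by omega) (by omega)
        -- basis vectors of weight `m'`
        have hbasis : ∀ k, w k = m' → (Pi.single k 1 : Fin h → ℚ) ∈ W 𝔏 (m + 1) := by
          intro k hk
          refine Submodule.span_le.mpr ?_ (hG k (by omega))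
          rintro z ⟨i, j, hi, hj, rfl⟩
          have h1 := c_sub_gr hF i j
          have h2 : (fun k => (𝔏.c i j k : ℚ)) ∈ W 𝔏 (m + 1) := by
            refine Submodule.subset_span ⟨Pi.single i 1, Pi.single j 1, ?_, ?_⟩
            · refine ih (V_mono ?_ (single_mem_V j))
              omega
            · rw [mul_single]
          have h3 := hnext (V_mono (by omega) h1)
          have h4 := Submodule.sub_mem _ h2 h3
          rwa [sub_sub_cancel] at h4
        have hx' : x = ∑ k ∈ Finset.univ.filter (fun k => w k = m'), x k • (Pi.single k 1)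
            + (x - ∑ k ∈ Finset.univ.filter (fun k => w k = m'), x k • (Pi.single k 1)) := by
          abel
        rw [hx']
        refine Submodule.add_mem _ (Submodule.sum_mem _ fun k hk => Submodule.smul_mem _ _
          (hbasis k (by simpa using hk))) (hnext ?_)
        intro k hk
        rw [Pi.sub_apply, Finset.sum_apply]
        rcases Nat.lt_or_ge (w k) m' with hlt | hge
        · rw [hx k hlt, Finset.sum_eq_zero, sub_zero]
          intro i hi
          have : w i = m' := by simpa using hi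
          rw [Pi.smul_apply, Pi.single_eq_of_ne, smul_zero]
          rintro rfl
          omega
        · have hk' : w k = m' := by omega
          rw [Finset.sum_eq_single k]
          · simp
          · intro i _ hik
            rw [Pi.smul_apply, Pi.single_eq_of_ne hik.symm, smul_zero]
          · intro hcon
            exact absurd (by simp [hk']) hcon
    exact key c (m + 2) le_rfl (by omega)

theorem W_le_V {w : Fin h → ℕ} {𝔏 : Alg h} (hw : ∀ i, 1 ≤ w i) (hF : Filtered w 𝔏) (m : ℕ) :
    W 𝔏 m ≤ V w (m + 1) := by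
  induction m with
  | zero =>
    intro x _ k hk
    have := hw k
    omega
  | succ m ih =>
    refine Submodule.span_le.mpr ?_
    rintro z ⟨x, y, hy, rfl⟩
    have hx : x ∈ V w 1 := fun k hk => by
      have := hw k
      omega
    have := mul_mem_V hF hx (ih hy)
    rwa [show 1 + (m + 1) = m + 1 + 1 by omega] at this

end CarnB

open CarnB in
theorem carnot_iso {h : ℕ} (𝔏 : Alg h) (w : Fin h → ℕ) (hw : ∀ i, 1 ≤ w i)
    (hF : Filtered w 𝔏) (hG : Generated w (gr w 𝔏)) (n : ℕ) (hn : 2 ≤ n)
    (Ψ : (Fin h → ℚ) →ₗ[ℚ] (Fin h → ℚ)) (hΨ : ∀ x y, Ψ (𝔏.mul x y) = 𝔏.mul (Ψ x) (Ψ y))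
    (hn' : ∀ x, Ψ x - (n : ℚ) • x ∈ Submodule.span ℚ {z | ∃ u v, z = 𝔏.mul u v}) :
    ∃ Φ : (Fin h → ℝ) ≃ₗ[ℝ] (Fin h → ℝ), ∀ x y,
      Φ ((gr w 𝔏).mul x y) = 𝔏.mul (Φ x) (Φ y) := by
  obtain ⟨c, hcw⟩ : ∃ c, ∀ k, w k < c := by
    refine ⟨(Finset.univ.sup w) + 1, fun k => ?_⟩
    have := Finset.le_sup (f := w) (Finset.mem_univ k)
    omega
  have hVc : ∀ m, c ≤ m → ∀ x ∈ V w m, x = 0 := by
    intro m hm x hx
    funext k
    exact hx k (by have := hcw k; omega)
  have hV1 : ∀ x, x ∈ V w 1 := fun x k hk => by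
    have := hw k
    omega
  have hVW : ∀ m, V w (m + 1) = W 𝔏 m := fun m => le_antisymm (V_le_W hF hG m) (W_le_V hw hF m)
  -- `Ψ` acts as `n ^ m` on the graded pieces
  have hn2 : ∀ x, Ψ x - (n : ℚ) • x ∈ V w 2 := by
    intro x
    have h1 : Submodule.span ℚ {z | ∃ u v, z = 𝔏.mul u v} ≤ W 𝔏 1 := by
      refine Submodule.span_mono ?_
      rintro z ⟨u, v, rfl⟩
      exact ⟨u, v, trivial, rfl⟩
    have := h1 (hn' x)
    rwa [← hVW 1] at this
  have hgr : ∀ m, ∀ x ∈ V w (m + 1), Ψ x - ((n : ℚ) ^ (m + 1)) • x ∈ V w (m + 2) := by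
    intro m
    induction m with
    | zero =>
      intro x _
      simpa using hn2 x
    | succ m ih =>
      intro x hx
      rw [hVW (m + 1)] at hx
      have key : ∀ x ∈ W 𝔏 (m + 1), Ψ x - ((n : ℚ) ^ (m + 1 + 1)) • x ∈ V w (m + 1 + 2) := by
        intro x hx
        unfold W at hx
        induction hx using Submodule.span_induction with
        | mem z hz =>
          obtain ⟨u, v, hv, rfl⟩ := hz
          rw [← hVW m] at hv
          have h1 : Ψ (𝔏.mul u v) - ((n : ℚ) ^ (m + 1 + 1)) • 𝔏.mul u v =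
              𝔏.mul (Ψ u - (n : ℚ) • u) (Ψ v) +
                𝔏.mul ((n : ℚ) • u) (Ψ v - ((n : ℚ) ^ (m + 1)) • v) := by
            have e1 : Ψ u = (Ψ u - (n : ℚ) • u) + (n : ℚ) • u := by abel
            have e2 : 𝔏.mul ((n : ℚ) • u) (Ψ v) =
                𝔏.mul ((n : ℚ) • u) (Ψ v - ((n : ℚ) ^ (m + 1)) • v) +
                  𝔏.mul ((n : ℚ) • u) (((n : ℚ) ^ (m + 1)) • v) := by
              rw [← mul_add_right]
              congr 1
              abel
            rw [hΨ]
            conv_lhs => rw [e1, mul_add_left, e2, mul_smul_right, mul_smul_left 𝔏 _ u v,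
              smul_smul, ← pow_succ]
            abel
          rw [h1]
          have hΨv : Ψ v ∈ V w (m + 1) := by
            have e1 := Submodule.add_mem _ (V_mono (by omega) (ih v hv))
              (Submodule.smul_mem _ ((n : ℚ) ^ (m + 1)) hv)
            rwa [sub_add_cancel] at e1
          refine Submodule.add_mem _ ?_ ?_
          · have := mul_mem_V hF (hn2 u) hΨv
            rwa [show 2 + (m + 1) = m + 1 + 2 by omega] at this
          · have := mul_mem_V hF (hV1 ((n : ℚ) • u)) (ih v hv)
            rwa [show 1 + (m + 2) = m + 1 + 2 by omega] at this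
        | zero => simp
        | add a b _ _ ha hb =>
          have : Ψ (a + b) - ((n : ℚ) ^ (m + 1 + 1)) • (a + b) =
              (Ψ a - ((n : ℚ) ^ (m + 1 + 1)) • a) + (Ψ b - ((n : ℚ) ^ (m + 1 + 1)) • b) := by
            rw [map_add, smul_add]
            abel
          rw [this]
          exact Submodule.add_mem _ ha hb
        | smul t a _ ha =>
          have : Ψ (t • a) - ((n : ℚ) ^ (m + 1 + 1)) • (t • a) =
              t • (Ψ a - ((n : ℚ) ^ (m + 1 + 1)) • a) := by
            rw [map_smul, smul_sub, smul_comm]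
          rw [this]
          exact Submodule.smul_mem _ _ ha
      exact key x hx
  have hgr' : ∀ m, 1 ≤ m → ∀ x ∈ V w m, Ψ x - ((n : ℚ) ^ m) • x ∈ V w (m + 1) := by
    intro m hm x hx
    obtain ⟨m', rfl⟩ : ∃ m', m = m' + 1 := ⟨m - 1, by omega⟩
    exact hgr m' x hx
  have hne : ∀ s j : ℕ, s < j → ((n : ℚ) ^ j - (n : ℚ) ^ s) ≠ 0 := by
    intro s j hsj
    have h1 : (n : ℚ) ^ s < (n : ℚ) ^ j := pow_lt_pow_right₀ (by exact_mod_cast hn) hsj
    intro h2
    linarith
  -- eigenvectors
  have heig : ∀ m, 1 ≤ m → ∀ x ∈ V w m, ∃ x', Ψ x' = ((n : ℚ) ^ m) • x' ∧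
      x' - x ∈ V w (m + 1) := by
    intro m hm x hx
    have key : ∀ d j, m + 1 ≤ j → c ≤ j + d → ∀ x, Ψ x - ((n : ℚ) ^ m) • x ∈ V w j →
        ∃ x', Ψ x' = ((n : ℚ) ^ m) • x' ∧ x' - x ∈ V w (m + 1) := by
      intro d
      induction d with
      | zero =>
        intro j _ hc x hx
        have := hVc j (by omega) _ hx
        exact ⟨x, sub_eq_zero.mp this, by simp⟩
      | succ d ih =>
        intro j hj hc x hx
        set r := Ψ x - ((n : ℚ) ^ m) • x with hr
        set t : ℚ := ((n : ℚ) ^ j - (n : ℚ) ^ m)⁻¹ with ht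
        have ht1 : t * ((n : ℚ) ^ j - (n : ℚ) ^ m) = 1 :=
          inv_mul_cancel₀ (hne m j (by omega))
        have h1 : Ψ (x - t • r) - ((n : ℚ) ^ m) • (x - t • r) =
            -(t • (Ψ r - ((n : ℚ) ^ j) • r)) := by
          have e1 : r = (t * (n : ℚ) ^ j) • r - (t * (n : ℚ) ^ m) • r := by
            rw [← sub_smul, ← mul_sub, ht1, one_smul]
          have e2 : Ψ (x - t • r) - ((n : ℚ) ^ m) • (x - t • r) =
              r - t • Ψ r + (t * (n : ℚ) ^ m) • r := by
            rw [map_sub, map_smul, smul_sub, smul_smul, hr, mul_comm t]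
            abel
          rw [e2, smul_sub t (Ψ r), smul_smul t ((n : ℚ) ^ j) r]
          have e3 : r - t • Ψ r + (t * (n : ℚ) ^ m) • r =
              ((t * (n : ℚ) ^ j) • r - (t * (n : ℚ) ^ m) • r) - t • Ψ r +
                (t * (n : ℚ) ^ m) • r := by
            rw [← e1]
          rw [e3]
          abel
        obtain ⟨x', hx'1, hx'2⟩ := ih (j + 1) (by omega) (by omega) (x - t • r) (by
          rw [h1]
          exact Submodule.neg_mem _ (Submodule.smul_mem _ _ (hgr' j (by omega) r hx)))
        refine ⟨x', hx'1, ?_⟩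
        have e3 : x' - x = (x' - (x - t • r)) - t • r := by abel
        rw [e3]
        exact Submodule.sub_mem _ hx'2 (Submodule.smul_mem _ _ (V_mono hj hx))
    exact key c (m + 1) le_rfl (by omega) x (hgr' m hm x hx)
  -- no eigenvectors deeper
  have hzero : ∀ s, 1 ≤ s → ∀ x ∈ V w (s + 1), Ψ x = ((n : ℚ) ^ s) • x → x = 0 := by
    intro s hs x hx hΨx
    have key : ∀ d j, s + 1 ≤ j → c ≤ j + d → x ∈ V w j → x = 0 := by
      intro d
      induction d with
      | zero => exact fun j _ hc hx => hVc j (by omega) x hx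
      | succ d ih =>
        intro j hj hc hx
        refine ih (j + 1) (by omega) (by omega) ?_
        have h1 := hgr' j (by omega) x hx
        rw [hΨx, ← sub_smul] at h1
        have h2 := Submodule.smul_mem _ ((n : ℚ) ^ s - (n : ℚ) ^ j)⁻¹ h1
        rw [smul_smul, inv_mul_cancel₀, one_smul] at h2
        · exact h2
        · have := hne s j (by omega)
          intro h3
          apply this
          linarith
    exact key c (s + 1) le_rfl (by omega) hx
  have hE : ∀ i, ∃ x', Ψ x' = ((n : ℚ) ^ w i) • x' ∧ x' - Pi.single i 1 ∈ V w (w i + 1) :=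
    fun i => heig (w i) (hw i) _ (single_mem_V i)
  choose E hE1 hE2 using hE
  have hE3 : ∀ i, E i ∈ V w (w i) := by
    intro i
    have := Submodule.add_mem _ (V_mono (by omega) (hE2 i)) (single_mem_V (w := w) i)
    rwa [sub_add_cancel] at this
  -- the structure constants in the basis `E`
  have hstr : ∀ i j, 𝔏.mul (E i) (E j) = ∑ k, ((gr w 𝔏).c i j k : ℚ) • E k := by
    intro i j
    rw [← sub_eq_zero]
    refine hzero (w i + w j) (by have := hw i; omega) _ ?_ ?_
    · -- the difference is deeper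
      have h1 : 𝔏.mul (E i) (E j) - 𝔏.mul (Pi.single i 1) (Pi.single j 1) ∈
          V w (w i + w j + 1) := by
        have e1 : 𝔏.mul (E i) (E j) - 𝔏.mul (Pi.single i 1) (Pi.single j 1) =
            𝔏.mul (E i - Pi.single i 1) (E j) +
              𝔏.mul (Pi.single i 1) (E j - Pi.single j 1) := by
          have a1 : 𝔏.mul (E i) (E j) = 𝔏.mul (E i - Pi.single i 1) (E j) +
              𝔏.mul (Pi.single i 1) (E j) := by
            rw [← mul_add_left, sub_add_cancel]
          have a2 : 𝔏.mul (Pi.single i 1) (E j) =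
              𝔏.mul (Pi.single i 1) (E j - Pi.single j 1) +
                𝔏.mul (Pi.single i 1) (Pi.single j 1) := by
            rw [← mul_add_right, sub_add_cancel]
          rw [a1, a2]
          abel
        rw [e1]
        refine Submodule.add_mem _ ?_ ?_
        · have := mul_mem_V hF (hE2 i) (hE3 j)
          rwa [show w i + 1 + w j = w i + w j + 1 by omega] at this
        · have := mul_mem_V hF (single_mem_V i) (hE2 j)
          rwa [show w i + (w j + 1) = w i + w j + 1 by omega] at this
      have h2 := c_sub_gr hF i j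
      have h3 : ∑ k, ((gr w 𝔏).c i j k : ℚ) • E k -
          (fun k => ((gr w 𝔏).c i j k : ℚ)) ∈ V w (w i + w j + 1) := by
        have e1 : (fun k => ((gr w 𝔏).c i j k : ℚ)) =
            ∑ k, ((gr w 𝔏).c i j k : ℚ) • (Pi.single k 1 : Fin h → ℚ) := by
          funext l
          rw [Finset.sum_apply, Finset.sum_eq_single l]
          · simp
          · intro k _ hk
            rw [Pi.smul_apply, Pi.single_eq_of_ne hk.symm, smul_zero]
          · intro hcon
            exact absurd (Finset.mem_univ _) hcon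
        rw [e1, ← Finset.sum_sub_distrib]
        refine Submodule.sum_mem _ fun k _ => ?_
        rw [← smul_sub]
        by_cases hk : w k = w i + w j
        · have := hE2 k
          rw [hk] at this
          exact Submodule.smul_mem _ _ this
        · have e2 : (gr w 𝔏).c i j k = 0 := if_neg hk
          rw [e2]
          simp
      rw [mul_single] at h1
      have e3 : 𝔏.mul (E i) (E j) - ∑ k, ((gr w 𝔏).c i j k : ℚ) • E k =
          (𝔏.mul (E i) (E j) - fun k => (𝔏.c i j k : ℚ)) +
          ((fun k => (𝔏.c i j k : ℚ)) - (fun k => ((gr w 𝔏).c i j k : ℚ))) -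
          (∑ k, ((gr w 𝔏).c i j k : ℚ) • E k - (fun k => ((gr w 𝔏).c i j k : ℚ))) := by
        abel
      rw [e3]
      exact Submodule.sub_mem _ (Submodule.add_mem _ h1 h2) h3
    · rw [map_sub, hΨ, hE1, hE1, mul_smul_left, mul_smul_right, smul_smul, ← pow_add, map_sum,
        smul_sub, Finset.smul_sum]
      congr 1
      refine Finset.sum_congr rfl fun k _ => ?_
      rw [map_smul, hE1]
      by_cases hk : w k = w i + w j
      · rw [hk, smul_comm]
      · have e2 : (gr w 𝔏).c i j k = 0 := if_neg hk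
        rw [e2]
        simp
  -- the real map
  set Φ₀ : (Fin h → ℝ) →ₗ[ℝ] (Fin h → ℝ) := Matrix.toLin' (Matrix.of fun k i => (E i k : ℝ)) with hΦ₀
  have hΦ₀a : ∀ x k, Φ₀ x k = ∑ i, (E i k : ℝ) * x i := by
    intro x k
    rw [hΦ₀, Matrix.toLin'_apply]
    rfl
  have hinj : Function.Injective Φ₀ := by
    rw [injective_iff_map_eq_zero]
    intro x hx
    -- all coordinates of weight `< m` vanish
    have key : ∀ m k, w k < m → x k = 0 := by
      intro m
      induction m with
      | zero => intro k hk; omega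
      | succ m ih =>
        intro k hk
        rcases Nat.lt_or_ge (w k) m with hlt | hge
        · exact ih k hlt
        · have h1 := hΦ₀a x k
          rw [hx, Finset.sum_eq_single k] at h1
          · have h2 : E k k = 1 := by
              have := hE2 k k (by omega)
              rw [Pi.sub_apply, Pi.single_eq_same] at this
              linarith
            rw [h2] at h1
            simpa using h1.symm
          · intro i _ hik
            rcases Nat.lt_or_ge (w i) m with hi | hi
            · rw [ih i hi, mul_zero]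
            · have h2 : E i k = 0 := by
                have := hE2 i k (by omega)
                rw [Pi.sub_apply, Pi.single_eq_of_ne hik.symm] at this
                linarith
              rw [h2]
              simp
          · intro hcon
            exact absurd (Finset.mem_univ _) hcon
    funext k
    exact key (w k + 1) k (by omega)
  refine ⟨LinearEquiv.ofInjectiveEndo Φ₀ hinj, fun x y => ?_⟩
  show Φ₀ ((gr w 𝔏).mul x y) = 𝔏.mul (Φ₀ x) (Φ₀ y)
  -- cast of the structure identity
  have hstr' : ∀ i j k, ∑ a, ∑ b, (𝔏.c a b k : ℝ) * (E i a : ℝ) * (E j b : ℝ) =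
      ∑ l, ((gr w 𝔏).c i j l : ℝ) * (E l k : ℝ) := by
    intro i j k
    have h1 := congrFun (hstr i j) k
    rw [Finset.sum_apply] at h1
    simp only [Alg.mul, Pi.smul_apply, smul_eq_mul] at h1
    exact_mod_cast congrArg (fun q : ℚ => (q : ℝ)) h1
  funext k
  rw [hΦ₀a]
  have hL : ∑ l, (E l k : ℝ) * (gr w 𝔏).mul x y l =
      ∑ i, ∑ j, x i * y j * ∑ l, ((gr w 𝔏).c i j l : ℝ) * (E l k : ℝ) := by
    simp only [Alg.mul, Finset.mul_sum]
    rw [Finset.sum_comm]
    refine Finset.sum_congr rfl fun i _ => ?_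
    rw [Finset.sum_comm]
    refine Finset.sum_congr rfl fun j _ => Finset.sum_congr rfl fun l _ => ?_
    ring
  have hR : 𝔏.mul (Φ₀ x) (Φ₀ y) k =
      ∑ i, ∑ j, x i * y j * ∑ a, ∑ b, (𝔏.c a b k : ℝ) * (E i a : ℝ) * (E j b : ℝ) := by
    simp only [Alg.mul, hΦ₀a]
    calc ∑ a, ∑ b, (𝔏.c a b k : ℝ) * (∑ i, (E i a : ℝ) * x i) * (∑ j, (E j b : ℝ) * y j)
        = ∑ a, ∑ b, ∑ i, ∑ j,
            x i * y j * ((𝔏.c a b k : ℝ) * (E i a : ℝ) * (E j b : ℝ)) := by
          refine Finset.sum_congr rfl fun a _ => Finset.sum_congr rfl fun b _ => ?_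
          rw [mul_assoc, Finset.sum_mul_sum, Finset.mul_sum]
          refine Finset.sum_congr rfl fun i _ => ?_
          rw [Finset.mul_sum]
          refine Finset.sum_congr rfl fun j _ => ?_
          ring
      _ = ∑ i, ∑ j, ∑ a, ∑ b,
            x i * y j * ((𝔏.c a b k : ℝ) * (E i a : ℝ) * (E j b : ℝ)) := by
          have e1 : ∀ a : Fin h, ∑ b, ∑ i, ∑ j,
              x i * y j * ((𝔏.c a b k : ℝ) * (E i a : ℝ) * (E j b : ℝ)) =
              ∑ i, ∑ j, ∑ b, x i * y j * ((𝔏.c a b k : ℝ) * (E i a : ℝ) * (E j b : ℝ)) := by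
            intro a
            rw [Finset.sum_comm]
            refine Finset.sum_congr rfl fun i _ => ?_
            rw [Finset.sum_comm]
          simp only [e1]
          rw [Finset.sum_comm]
          refine Finset.sum_congr rfl fun i _ => ?_
          rw [Finset.sum_comm]
      _ = _ := by
          refine Finset.sum_congr rfl fun i _ => Finset.sum_congr rfl fun j _ => ?_
          rw [Finset.mul_sum]
          refine Finset.sum_congr rfl fun a _ => ?_
          rw [Finset.mul_sum]
  rw [hL, hR]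
  refine Finset.sum_congr rfl fun i _ => Finset.sum_congr rfl fun j _ => ?_
  rw [hstr']

end Pool.Agent.MPf60e8aP
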