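import Mathlib
import Pool.Agent.Lib.MP_f60e8a_al.P.PDefs

/-!
# Module P18 CENTER: centres over different fields
-/

open scoped BigOperators commutatorElement

namespace Pool.Agent.MPf60e8aP

open Pool.Agent.MPf60e8a (wordLen sepIndex RF)
open Pool.Agent.MPf60e8aN (Alg NilSub LieLattice BchConst Describes upperNil IsUnipotent lg)

namespace CenterF

section Field

variable (F : Type*) [Field F] [CharZero F] {m n : Type} [Fintype m] [Fintype n]

/-- A matrix with injective columns stays injective over a larger field. -/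
theorem injective_map [DecidableEq n] [DecidableEq m] (V : Matrix m n ℚ)
    (hV : Function.Injective V.mulVecLin) :
    Function.Injective (V.map (algebraMap ℚ F)).mulVecLin := by
  obtain ⟨g, hg⟩ := LinearMap.exists_leftInverse_of_injective V.mulVecLin
    (LinearMap.ker_eq_bot.mpr hV)
  have h1 : LinearMap.toMatrix' g * V = 1 := by
    have h2 := congrArg LinearMap.toMatrix' hg
    rw [LinearMap.toMatrix'_comp, LinearMap.toMatrix'_id] at h2
    rwa [← Matrix.toLin'_apply', LinearMap.toMatrix'_toLin'] at h2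
  have h3 : (LinearMap.toMatrix' g).map (algebraMap ℚ F) * V.map (algebraMap ℚ F) = 1 := by
    rw [← Matrix.map_mul, h1, Matrix.map_one _ (map_zero _) (map_one _)]
  refine Function.LeftInverse.injective
    (g := ((LinearMap.toMatrix' g).map (algebraMap ℚ F)).mulVecLin) fun x => ?_
  rw [Matrix.mulVecLin_apply, Matrix.mulVecLin_apply, Matrix.mulVec_mulVec, h3, Matrix.one_mulVec]

omit [Fintype m] in
theorem ker_le [DecidableEq n] (A : Matrix m n ℚ) :
    Module.finrank ℚ (LinearMap.ker A.mulVecLin) ≤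
      Module.finrank F (LinearMap.ker (A.map (algebraMap ℚ F)).mulVecLin) := by
  set d := Module.finrank ℚ (LinearMap.ker A.mulVecLin) with hd
  let b := Module.finBasis ℚ (LinearMap.ker A.mulVecLin)
  let V : Matrix n (Fin d) ℚ := Matrix.of fun i j => (b j : n → ℚ) i
  have hVx : ∀ x : Fin d → ℚ, V.mulVecLin x = ((∑ j, x j • b j : LinearMap.ker A.mulVecLin) :
      n → ℚ) := by
    intro x
    rw [Matrix.mulVecLin_apply]
    funext i
    rw [Submodule.coe_sum, Finset.sum_apply]
    simp only [Matrix.mulVec, dotProduct, V, Matrix.of_apply, Submodule.coe_smul, Pi.smul_apply,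
      smul_eq_mul, mul_comm]
  have hVinj : Function.Injective V.mulVecLin := by
    rw [← LinearMap.ker_eq_bot, LinearMap.ker_eq_bot']
    intro x hx
    rw [hVx] at hx
    have h1 : (∑ j, x j • b j : LinearMap.ker A.mulVecLin) = 0 := Subtype.ext hx
    have h2 := Fintype.linearIndependent_iff.mp b.linearIndependent x h1
    funext j
    exact h2 j
  have hAV : A * V = 0 := by
    ext i j
    have h1 : A.mulVecLin (b j : n → ℚ) = 0 := (b j).2
    have h2 := congrFun h1 i
    rw [Matrix.mul_apply]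
    exact h2
  have hAV' : A.map (algebraMap ℚ F) * V.map (algebraMap ℚ F) = 0 := by
    rw [← Matrix.map_mul, hAV, Matrix.map_zero _ (map_zero _)]
  have hmem : ∀ x, (V.map (algebraMap ℚ F)).mulVecLin x ∈
      LinearMap.ker (A.map (algebraMap ℚ F)).mulVecLin := by
    intro x
    rw [LinearMap.mem_ker, Matrix.mulVecLin_apply, Matrix.mulVecLin_apply, Matrix.mulVec_mulVec,
      hAV', Matrix.zero_mulVec]
  have h3 := LinearMap.finrank_le_finrank_of_injective
    (f := (V.map (algebraMap ℚ F)).mulVecLin.codRestrict _ hmem) (by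
      intro x y hxy
      exact injective_map F V hVinj (congrArg Subtype.val hxy))
  rwa [Module.finrank_fin_fun] at h3

theorem range_le [DecidableEq n] [DecidableEq m] (A : Matrix m n ℚ) :
    Module.finrank ℚ (LinearMap.range A.mulVecLin) ≤
      Module.finrank F (LinearMap.range (A.map (algebraMap ℚ F)).mulVecLin) := by
  set d := Module.finrank ℚ (LinearMap.range A.mulVecLin) with hd
  let b := Module.finBasis ℚ (LinearMap.range A.mulVecLin)
  have hb : ∀ j, ∃ x, A.mulVecLin x = (b j : m → ℚ) := fun j => (b j).2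
  choose X hX using hb
  let W : Matrix n (Fin d) ℚ := Matrix.of fun i j => X j i
  let V : Matrix m (Fin d) ℚ := Matrix.of fun i j => (b j : m → ℚ) i
  have hVx : ∀ x : Fin d → ℚ, V.mulVecLin x = ((∑ j, x j • b j : LinearMap.range A.mulVecLin) :
      m → ℚ) := by
    intro x
    rw [Matrix.mulVecLin_apply]
    funext i
    rw [Submodule.coe_sum, Finset.sum_apply]
    simp only [Matrix.mulVec, dotProduct, V, Matrix.of_apply, Submodule.coe_smul, Pi.smul_apply,
      smul_eq_mul, mul_comm]
  have hVinj : Function.Injective V.mulVecLin := by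
    rw [← LinearMap.ker_eq_bot, LinearMap.ker_eq_bot']
    intro x hx
    rw [hVx] at hx
    have h1 : (∑ j, x j • b j : LinearMap.range A.mulVecLin) = 0 := Subtype.ext hx
    have h2 := Fintype.linearIndependent_iff.mp b.linearIndependent x h1
    funext j
    exact h2 j
  have hAV : A * W = V := by
    ext i j
    have h2 := congrFun (hX j) i
    rw [Matrix.mul_apply]
    exact h2
  have hAV' : A.map (algebraMap ℚ F) * W.map (algebraMap ℚ F) = V.map (algebraMap ℚ F) := by
    rw [← Matrix.map_mul, hAV]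
  have hmem : ∀ x, (V.map (algebraMap ℚ F)).mulVecLin x ∈
      LinearMap.range (A.map (algebraMap ℚ F)).mulVecLin := by
    intro x
    refine ⟨(W.map (algebraMap ℚ F)).mulVecLin x, ?_⟩
    rw [Matrix.mulVecLin_apply, Matrix.mulVecLin_apply, Matrix.mulVec_mulVec, hAV',
      Matrix.mulVecLin_apply]
  have h3 := LinearMap.finrank_le_finrank_of_injective
    (f := (V.map (algebraMap ℚ F)).mulVecLin.codRestrict _ hmem) (by
      intro x y hxy
      exact injective_map F V hVinj (congrArg Subtype.val hxy))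
  rwa [Module.finrank_fin_fun] at h3

theorem finrank_ker [DecidableEq n] [DecidableEq m] (A : Matrix m n ℚ) :
    Module.finrank F (LinearMap.ker (A.map (algebraMap ℚ F)).mulVecLin) =
      Module.finrank ℚ (LinearMap.ker A.mulVecLin) := by
  have h1 := ker_le F A
  have h2 := range_le F A
  have h3 := LinearMap.finrank_range_add_finrank_ker A.mulVecLin
  have h4 := LinearMap.finrank_range_add_finrank_ker (A.map (algebraMap ℚ F)).mulVecLin
  rw [Module.finrank_fintype_fun_eq_card] at h3 h4
  omega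

end Field

/-- The matrix of the equations of the centre. -/
def mat (F : Type*) [Field F] {h : ℕ} (𝔏 : Alg h) : Matrix (Fin h × Fin h) (Fin h) F :=
  Matrix.of fun p i => (𝔏.c i p.1 p.2 : F)

theorem center_eq_ker (F : Type*) [Field F] {h : ℕ} (𝔏 : Alg h) :
    center F 𝔏 = LinearMap.ker (mat F 𝔏).mulVecLin := by
  ext x
  rw [LinearMap.mem_ker, Matrix.mulVecLin_apply]
  constructor
  · intro hx
    funext p
    have h1 := congrFun (hx (Pi.single p.1 1)) p.2
    have h2 : 𝔏.mul x (Pi.single p.1 1) p.2 = (mat F 𝔏).mulVec x p := by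
      simp only [Alg.mul, Matrix.mulVec, dotProduct, mat, Matrix.of_apply]
      refine Finset.sum_congr rfl fun i _ => ?_
      rw [Finset.sum_eq_single p.1]
      · rw [Pi.single_eq_same, mul_one]
      · intro j _ hj
        rw [Pi.single_eq_of_ne hj, mul_zero]
      · intro hp
        exact absurd (Finset.mem_univ _) hp
    rw [← h2, h1]
    rfl
  · intro hx u
    funext k
    have h1 : 𝔏.mul x u k = ∑ j, (mat F 𝔏).mulVec x (j, k) * u j := by
      simp only [Alg.mul, Matrix.mulVec, dotProduct, mat, Matrix.of_apply, Finset.sum_mul]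
      exact Finset.sum_comm
    rw [h1, hx]
    simp

theorem mat_map (F : Type*) [Field F] [CharZero F] {h : ℕ} (𝔏 : Alg h) :
    (mat ℚ 𝔏).map (algebraMap ℚ F) = mat F 𝔏 := by
  ext p i
  simp [mat]

end CenterF

open CenterF

theorem finrank_center (F : Type*) [Field F] [CharZero F] {h : ℕ} (𝔏 : Alg h) :
    Module.finrank F (center F 𝔏) = Module.finrank ℚ (center ℚ 𝔏) := by
  rw [center_eq_ker, center_eq_ker, ← mat_map]
  exact finrank_ker F _

theorem center_congr {h₁ h₂ : ℕ} (𝔏₁ : Alg h₁) (𝔏₂ : Alg h₂)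
    (Φ : (Fin h₁ → ℝ) ≃ₗ[ℝ] (Fin h₂ → ℝ)) (M₁ M₂ : ℕ) (hM₁ : 0 < M₁) (hM₂ : 0 < M₂)
    (hΦ : ∀ x y, (M₁ : ℝ) • Φ (𝔏₁.mul x y) = (M₂ : ℝ) • 𝔏₂.mul (Φ x) (Φ y)) :
    Module.finrank ℝ (center ℝ 𝔏₁) = Module.finrank ℝ (center ℝ 𝔏₂) := by
  have e1 : (M₁ : ℝ) ≠ 0 := by exact_mod_cast hM₁.ne'
  have e2 : (M₂ : ℝ) ≠ 0 := by exact_mod_cast hM₂.ne'
  have h1 : center ℝ 𝔏₂ = (center ℝ 𝔏₁).map (Φ : (Fin h₁ → ℝ) →ₗ[ℝ] (Fin h₂ → ℝ)) := by
    ext y
    rw [Submodule.mem_map]
    constructor
    · intro hy
      refine ⟨Φ.symm y, fun u => ?_, Φ.apply_symm_apply y⟩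
      have h2 := hΦ (Φ.symm y) u
      rw [Φ.apply_symm_apply, hy (Φ u), smul_zero, smul_eq_zero, or_iff_right e1] at h2
      exact (LinearEquiv.map_eq_zero_iff Φ).mp h2
    · rintro ⟨x, hx, rfl⟩ u
      have h2 := hΦ x (Φ.symm u)
      rw [hx, map_zero, smul_zero, Φ.apply_symm_apply] at h2
      have h3 := h2.symm
      rw [smul_eq_zero, or_iff_right e2] at h3
      exact h3
  rw [h1]
  exact (LinearEquiv.finrank_map_eq Φ _).symm

end Pool.Agent.MPf60e8aP
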