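import Mathlib
import Pool.Agent.Lib.MP_f60e8a_al.P.PDefs

/-!
# Leading terms of products and commutators
-/

open scoped BigOperators commutatorElement

namespace Pool.Agent.MPf60e8aP

open Pool.Agent.MPf60e8a (wordLen sepIndex RF)
open Pool.Agent.MPf60e8aN (Alg)

namespace LeadAux

variable {h : ℕ} {w : Fin h → ℕ}

/-- The weight of a monomial as a sum over both sorts of variables. -/
theorem weight_eq (m : (Fin h ⊕ Fin h) →₀ ℕ) :
    Finsupp.weight (Sum.elim w w) m =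
      ∑ i, m (Sum.inl i) * w i + ∑ j, m (Sum.inr j) * w j := by
  rw [Finsupp.weight_apply, Finsupp.sum_fintype _ _ (fun i => by simp)]
  rw [Fintype.sum_sum_type]
  simp

theorem degree_eq (m : (Fin h ⊕ Fin h) →₀ ℕ) :
    Finsupp.degree m = ∑ i, m (Sum.inl i) + ∑ j, m (Sum.inr j) := by
  rw [Finsupp.degree_eq_sum, Fintype.sum_sum_type]

/-- A product of the values of the variables which is not zero. -/
theorem ne_zero_of_prod {x y : Fin h → ℝ} {m : (Fin h ⊕ Fin h) →₀ ℕ}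
    (hm : ∏ i ∈ m.support, (Sum.elim x y i) ^ m i ≠ 0) :
    (∀ i, m (Sum.inl i) ≠ 0 → x i ≠ 0) ∧ ∀ j, m (Sum.inr j) ≠ 0 → y j ≠ 0 := by
  rw [Finset.prod_ne_zero_iff] at hm
  constructor
  · intro i hi hx
    apply hm (Sum.inl i) (Finsupp.mem_support_iff.mpr hi)
    simp [hx, hi]
  · intro j hj hy
    apply hm (Sum.inr j) (Finsupp.mem_support_iff.mpr hj)
    simp [hy, hj]

/-- The weight of the `x`-part. -/
theorem sum_ge {a : ℕ} (f : Fin h → ℕ) (hf : ∀ i, f i ≠ 0 → a ≤ w i) :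
    (∑ i, f i) * a ≤ ∑ i, f i * w i := by
  rw [Finset.sum_mul]
  refine Finset.sum_le_sum fun i _ => ?_
  rcases Nat.eq_zero_or_pos (f i) with h0 | h0
  · simp [h0]
  · exact Nat.mul_le_mul_left _ (hf i h0.ne')

theorem one_le_sum {f : Fin h → ℕ} (hf : ∃ i, f i ≠ 0) : 1 ≤ ∑ i, f i := by
  obtain ⟨i, hi⟩ := hf
  exact (Nat.one_le_iff_ne_zero.mpr hi).trans
    (Finset.single_le_sum (f := f) (fun _ _ => Nat.zero_le _) (Finset.mem_univ i))

/-- Mixed polynomials vanish in low weight. -/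
theorem eval_low {a b d : ℕ} {q : MvPolynomial (Fin h ⊕ Fin h) ℝ} (hq : MixedLe w d q)
    {x y : Fin h → ℝ} (hx : SuppGe w a x) (hy : SuppGe w b y) (hd : d < a + b) :
    MvPolynomial.eval (Sum.elim x y) q = 0 := by
  rw [MvPolynomial.eval_eq]
  refine Finset.sum_eq_zero fun m hm => ?_
  obtain ⟨h1, h2, h3⟩ := hq m hm
  by_contra hcon
  have h4 := ne_zero_of_prod (right_ne_zero_of_mul hcon)
  have h5 := sum_ge (w := w) (a := a) (fun i => m (Sum.inl i)) (fun i hi => by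
    by_contra hlt
    exact h4.1 i hi (hx i (by omega)))
  have h6 := sum_ge (w := w) (a := b) (fun i => m (Sum.inr i)) (fun i hi => by
    by_contra hlt
    exact h4.2 i hi (hy i (by omega)))
  have h7 := one_le_sum h1
  have h8 := one_le_sum h2
  rw [weight_eq] at h3
  have h9 : a ≤ (∑ i, m (Sum.inl i)) * a := Nat.le_mul_of_pos_left _ h7
  have h10 : b ≤ (∑ i, m (Sum.inr i)) * b := Nat.le_mul_of_pos_left _ h8
  omega

/-- Mixed polynomials of degree at least three vanish in weight `a + b`. -/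
theorem eval_low' {a b d : ℕ} (ha : 1 ≤ a) (hb : 1 ≤ b)
    {q : MvPolynomial (Fin h ⊕ Fin h) ℝ} (hq : MixedLe w d q)
    (hq3 : ∀ m ∈ q.support, 3 ≤ Finsupp.degree m)
    {x y : Fin h → ℝ} (hx : SuppGe w a x) (hy : SuppGe w b y) (hd : d ≤ a + b) :
    MvPolynomial.eval (Sum.elim x y) q = 0 := by
  rw [MvPolynomial.eval_eq]
  refine Finset.sum_eq_zero fun m hm => ?_
  obtain ⟨h1, h2, h3⟩ := hq m hm
  have h30 := hq3 m hm
  by_contra hcon
  have h4 := ne_zero_of_prod (right_ne_zero_of_mul hcon)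
  have h5 := sum_ge (w := w) (a := a) (fun i => m (Sum.inl i)) (fun i hi => by
    by_contra hlt
    exact h4.1 i hi (hx i (by omega)))
  have h6 := sum_ge (w := w) (a := b) (fun i => m (Sum.inr i)) (fun i hi => by
    by_contra hlt
    exact h4.2 i hi (hy i (by omega)))
  have h7 := one_le_sum h1
  have h8 := one_le_sum h2
  rw [weight_eq] at h3
  rw [degree_eq] at h30
  set p := ∑ i, m (Sum.inl i)
  set r := ∑ i, m (Sum.inr i)
  have h9 : a + b < p * a + r * b := by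
    have e1 : 3 ≤ p + r := h30
    nlinarith
  have h5' : p * a ≤ ∑ i, m (Sum.inl i) * w i := h5
  have h6' : r * b ≤ ∑ i, m (Sum.inr i) * w i := h6
  omega

/-- The structure constants in low weight. -/
theorem mul_low {𝔏 : Alg h} (hF : Filtered w 𝔏) {a b : ℕ} {x y : Fin h → ℝ}
    (hx : SuppGe w a x) (hy : SuppGe w b y) (k : Fin h) (hk : w k < a + b) :
    𝔏.mul x y k = 0 := by
  unfold Alg.mul
  refine Finset.sum_eq_zero fun i _ => Finset.sum_eq_zero fun j _ => ?_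
  by_cases hc : 𝔏.c i j k = 0
  · simp [hc]
  · have h1 := hF i j k hc
    rcases lt_or_ge (w i) a with h2 | h2
    · simp [hx i h2]
    · rcases lt_or_ge (w j) b with h3 | h3
      · simp [hy j h3]
      · omega

theorem mul_top {𝔏 : Alg h} (hF : Filtered w 𝔏) {a b : ℕ} {x y : Fin h → ℝ}
    (hx : SuppGe w a x) (hy : SuppGe w b y) (k : Fin h) (hk : w k = a + b) :
    𝔏.mul x y k = (gr w 𝔏).mul x y k := by
  unfold Alg.mul gr
  refine Finset.sum_congr rfl fun i _ => Finset.sum_congr rfl fun j _ => ?_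
  by_cases hc : 𝔏.c i j k = 0
  · simp [hc]
  · have h1 := hF i j k hc
    rcases lt_or_ge (w i) a with h2 | h2
    · simp [hx i h2]
    · rcases lt_or_ge (w j) b with h3 | h3
      · simp [hy j h3]
      · have h4 : w k = w i + w j := by omega
        simp [h4]

end LeadAux

/-- Products in the filtration. -/
theorem mul_lead {h : ℕ} {w : Fin h → ℕ} (𝒢 : PGrp w) {a b : ℕ} (x y : 𝒢.R)
    (hx : SuppGe w a x.v) (hy : SuppGe w b y.v) (k : Fin h) (hk : w k < a + b) :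
    (x * y).v k = x.v k + y.v k := by
  rw [PGrp.mul_v_apply, LeadAux.eval_low (𝒢.mixed k) hx hy hk, add_zero]

/-- Elements supported in weights `≥ a` are stable under products. -/
theorem mul_supp {h : ℕ} {w : Fin h → ℕ} (𝒢 : PGrp w) {a : ℕ} (x y : 𝒢.R)
    (hx : SuppGe w a x.v) (hy : SuppGe w a y.v) : SuppGe w a (x * y).v := by
  intro k hk
  rw [mul_lead 𝒢 x y hx hy k (by omega), hx k hk, hy k hk, add_zero]

/-- Commutators in the filtration. -/
theorem comm_lead {h : ℕ} {w : Fin h → ℕ} (𝒢 : PGrp w) {𝔏 : Alg h} {M : ℕ}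
    (hc : HasComm 𝒢 𝔏 M) (hF : Filtered w 𝔏) {a b : ℕ} (ha : 1 ≤ a) (hb : 1 ≤ b) (x y : 𝒢.R)
    (hx : SuppGe w a x.v) (hy : SuppGe w b y.v) (k : Fin h) :
    (w k < a + b → ⁅x, y⁆.v k = 0) ∧
    (w k = a + b → ⁅x, y⁆.v k = M * (gr w 𝔏).mul x.v y.v k) := by
  obtain ⟨R, hR1, hR2, hR3⟩ := hc
  constructor
  · intro hk
    rw [hR3, LeadAux.eval_low (hR1 k) hx hy hk, LeadAux.mul_low hF hx hy k hk]
    simp
  · intro hk
    rw [hR3, LeadAux.eval_low' ha hb (hR1 k) (hR2 k) hx hy hk.le,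
      LeadAux.mul_top hF hx hy k hk, add_zero]

/-- The product is bounded on boxes. -/
theorem mul_bound {h : ℕ} {w : Fin h → ℕ} (𝒢 : PGrp w) : ∃ C : ℝ, 1 ≤ C ∧
    ∀ (x y : 𝒢.R) (r : ℝ), 1 ≤ r → (∀ k, |x.v k| ≤ r ^ w k) → (∀ k, |y.v k| ≤ r ^ w k) →
      ∀ k, |(x * y).v k| ≤ (C * r) ^ w k := by
  set C : ℝ := 2 + ∑ k, ∑ m ∈ (𝒢.Q k).support, |(𝒢.Q k).coeff m| with hC
  have hC1 : 1 ≤ C := by
    have : 0 ≤ ∑ k, ∑ m ∈ (𝒢.Q k).support, |(𝒢.Q k).coeff m| :=
      Finset.sum_nonneg fun k _ => Finset.sum_nonneg fun m _ => abs_nonneg _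
    linarith
  refine ⟨C, hC1, fun x y r hr hx hy k => ?_⟩
  have hr0 : (0 : ℝ) ≤ r := by linarith
  have hmon : ∀ m ∈ (𝒢.Q k).support,
      |∏ i ∈ m.support, (Sum.elim x.v y.v i) ^ m i| ≤ r ^ w k := by
    intro m hm
    have h3 := (𝒢.mixed k m hm).2.2
    rw [Finset.abs_prod]
    calc ∏ i ∈ m.support, |(Sum.elim x.v y.v i) ^ m i|
        ≤ ∏ i ∈ m.support, (r ^ (Sum.elim w w i)) ^ m i := by
          refine Finset.prod_le_prod (fun _ _ => abs_nonneg _) fun i _ => ?_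
          rw [abs_pow]
          refine pow_le_pow_left₀ (abs_nonneg _) ?_ _
          rcases i with i | i
          · exact hx i
          · exact hy i
      _ = r ^ (Finsupp.weight (Sum.elim w w) m) := by
          rw [Finsupp.weight_apply, Finsupp.sum, ← Finset.prod_pow_eq_pow_sum]
          refine Finset.prod_congr rfl fun i _ => ?_
          rw [← pow_mul, smul_eq_mul, mul_comm]
      _ ≤ r ^ w k := pow_le_pow_right₀ hr h3
  have hev : |MvPolynomial.eval (Sum.elim x.v y.v) (𝒢.Q k)| ≤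
      (∑ m ∈ (𝒢.Q k).support, |(𝒢.Q k).coeff m|) * r ^ w k := by
    rw [MvPolynomial.eval_eq, Finset.sum_mul]
    refine (Finset.abs_sum_le_sum_abs _ _).trans (Finset.sum_le_sum fun m hm => ?_)
    rw [abs_mul]
    exact mul_le_mul_of_nonneg_left (hmon m hm) (abs_nonneg _)
  have hk1 : ∑ m ∈ (𝒢.Q k).support, |(𝒢.Q k).coeff m| ≤
      ∑ k, ∑ m ∈ (𝒢.Q k).support, |(𝒢.Q k).coeff m| :=
    Finset.single_le_sum (f := fun k => ∑ m ∈ (𝒢.Q k).support, |(𝒢.Q k).coeff m|)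
      (fun k _ => Finset.sum_nonneg fun m _ => abs_nonneg _) (Finset.mem_univ k)
  have hrk : 0 ≤ r ^ w k := by positivity
  have h1 : |(x * y).v k| ≤ C * r ^ w k := by
    rw [PGrp.mul_v_apply]
    have e1 := abs_add_le (x.v k + y.v k) (MvPolynomial.eval (Sum.elim x.v y.v) (𝒢.Q k))
    have e2 := abs_add_le (x.v k) (y.v k)
    have e3 := hx k
    have e4 := hy k
    have e5 : (∑ m ∈ (𝒢.Q k).support, |(𝒢.Q k).coeff m|) * r ^ w k ≤
        (∑ k, ∑ m ∈ (𝒢.Q k).support, |(𝒢.Q k).coeff m|) * r ^ w k :=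
      mul_le_mul_of_nonneg_right hk1 hrk
    have e6 : C * r ^ w k = 2 * r ^ w k +
        (∑ k, ∑ m ∈ (𝒢.Q k).support, |(𝒢.Q k).coeff m|) * r ^ w k := by
      rw [hC, add_mul]
    linarith
  refine h1.trans ?_
  rw [mul_pow]
  refine mul_le_mul_of_nonneg_right ?_ hrk
  calc C = C ^ 1 := (pow_one C).symm
    _ ≤ C ^ w k := pow_le_pow_right₀ hC1 (𝒢.one_le_w k)

/-- Powers. -/
theorem pow_v {h : ℕ} {w : Fin h → ℕ} {𝒢 : PGrp w} (x : 𝒢.R) (n : ℕ) :
    (x ^ n).v = (n : ℝ) • x.v := by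
  induction n with
  | zero => simp
  | succ n ih =>
    rw [pow_succ, PGrp.mul_v, ih]
    have := 𝒢.smul_smul n 1 x.v
    rw [one_smul] at this
    rw [this]
    push_cast
    rfl

end Pool.Agent.MPf60e8aP
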