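import Mathlib
import Pool.Agent.Lib.MP_f60e8a_al.P.PDefs
import Pool.Agent.Lib.MP_f60e8a_al.P.Lead

/-!
# MP_f60e8a_al, part P, module UNIB: groups with one-dimensional graded centre
-/

open scoped BigOperators commutatorElement

namespace Pool.Agent.MPf60e8aP

open Pool.Agent.MPf60e8a (wordLen sepIndex RF)
open Pool.Agent.MPf60e8aN (Alg NilSub LieLattice BchConst Describes upperNil IsUnipotent lg)

namespace UniB

variable {G : Type*} [Group G] {h : ℕ} {w : Fin h → ℕ} {𝒢 : PGrp w}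

/-- integral vectors as real vectors -/
def rv (z : Fin h → ℤ) : Fin h → ℝ := fun i => (z i : ℝ)

theorem hom_rv (γ : GMap G 𝒢) (g : G) : (γ.hom g).v = rv (γ.ξ g) := rfl

/-- supports for integral vectors -/
def SGe (w : Fin h → ℕ) (a : ℕ) (z : Fin h → ℤ) : Prop := ∀ k, w k < a → z k = 0

theorem supp_iff (a : ℕ) (z : Fin h → ℤ) : SuppGe w a (rv z) ↔ SGe w a z := by
  constructor
  · intro hz k hk
    have := hz k hk
    exact Int.cast_eq_zero.1 this
  · intro hz k hk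
    show (z k : ℝ) = 0
    rw [hz k hk, Int.cast_zero]

theorem mul_xi (γ : GMap G 𝒢) {a : ℕ} {g g' : G} (hg : SGe w a (γ.ξ g)) (hg' : SGe w a (γ.ξ g')) :
    SGe w a (γ.ξ (g * g')) ∧ (1 ≤ a → ∀ k, w k = a → γ.ξ (g * g') k = γ.ξ g k + γ.ξ g' k) := by
  rw [← supp_iff] at hg hg'
  constructor
  · rw [← supp_iff, ← hom_rv, map_mul]
    exact mul_supp 𝒢 _ _ hg hg'
  · intro ha k hk
    have h1 := mul_lead 𝒢 (γ.hom g) (γ.hom g') hg hg' k (by omega)
    rw [← map_mul] at h1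
    have h2 : ((γ.ξ (g * g') k : ℤ) : ℝ) = γ.ξ g k + γ.ξ g' k := h1
    exact_mod_cast h2

theorem inv_xi (γ : GMap G 𝒢) (g : G) (k : Fin h) : γ.ξ g⁻¹ k = - γ.ξ g k := by
  have h1 : (γ.hom g⁻¹).v k = -(γ.hom g).v k := by
    rw [map_inv]
    rfl
  have h2 : ((γ.ξ g⁻¹ k : ℤ) : ℝ) = -(γ.ξ g k : ℝ) := h1
  exact_mod_cast h2

theorem one_xi (γ : GMap G 𝒢) (k : Fin h) : γ.ξ 1 k = 0 := by
  have h1 : (γ.hom 1).v k = 0 := by
    rw [map_one]
    rfl
  have h2 : ((γ.ξ 1 k : ℤ) : ℝ) = 0 := h1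
  exact_mod_cast h2

theorem pow_xi (γ : GMap G 𝒢) (g : G) (n : ℕ) (k : Fin h) : γ.ξ (g ^ n) k = n * γ.ξ g k := by
  have h1 : (γ.hom (g ^ n)).v k = (n : ℝ) * (γ.hom g).v k := by
    rw [map_pow, pow_v]
    rfl
  have h2 : ((γ.ξ (g ^ n) k : ℤ) : ℝ) = n * (γ.ξ g k : ℝ) := h1
  exact_mod_cast h2

theorem zpow_xi (γ : GMap G 𝒢) (g : G) (n : ℤ) (k : Fin h) : γ.ξ (g ^ n) k = n * γ.ξ g k := by
  obtain ⟨m, rfl | rfl⟩ := n.eq_nat_or_neg
  · rw [zpow_natCast, pow_xi]
  · rw [zpow_neg, zpow_natCast, inv_xi, pow_xi]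
    ring

theorem pow_SGe (γ : GMap G 𝒢) (g : G) {n : ℕ} (hn : 0 < n) (a : ℕ) :
    SGe w a (γ.ξ (g ^ n)) ↔ SGe w a (γ.ξ g) := by
  constructor
  · intro hz k hk
    have h1 := hz k hk
    rw [pow_xi] at h1
    rcases mul_eq_zero.1 h1 with h2 | h2
    · exact absurd (Int.natCast_eq_zero.1 h2) hn.ne'
    · exact h2
  · intro hz k hk
    rw [pow_xi, hz k hk, mul_zero]

theorem comm_xi (γ : GMap G 𝒢) {𝔏 : Alg h} {M : ℕ} (hc : HasComm 𝒢 𝔏 M) (hF : Filtered w 𝔏)
    {a b : ℕ} (ha : 1 ≤ a) (hb : 1 ≤ b) {x y : G} (hx : SGe w a (γ.ξ x)) (hy : SGe w b (γ.ξ y)) :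
    SGe w (a + b) (γ.ξ ⁅x, y⁆) ∧ ∀ k, w k = a + b →
      γ.ξ ⁅x, y⁆ k = M * (gr w 𝔏).mul (γ.ξ x) (γ.ξ y) k := by
  rw [← supp_iff] at hx hy
  have h1 := comm_lead 𝒢 hc hF ha hb (γ.hom x) (γ.hom y) hx hy
  rw [← map_commutatorElement] at h1
  constructor
  · intro k hk
    have h2 : ((γ.ξ ⁅x, y⁆ k : ℤ) : ℝ) = 0 := (h1 k).1 hk
    exact_mod_cast h2
  · intro k hk
    have h2 : ((γ.ξ ⁅x, y⁆ k : ℤ) : ℝ) = M * (gr w 𝔏).mul (rv (γ.ξ x)) (rv (γ.ξ y)) k :=
      (h1 k).2 hk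
    have h3 : (gr w 𝔏).mul (rv (γ.ξ x)) (rv (γ.ξ y)) k =
        (((gr w 𝔏).mul (γ.ξ x) (γ.ξ y) k : ℤ) : ℝ) := by
      unfold Alg.mul rv
      push_cast
      rfl
    rw [h3] at h2
    exact_mod_cast h2

/-- the terms of the lower central series are supported in high weights -/
theorem lcs_supp (γ : GMap G 𝒢) {𝔏 : Alg h} {M : ℕ} (hc : HasComm 𝒢 𝔏 M) (hF : Filtered w 𝔏)
    (n : ℕ) : ∀ g ∈ (⊤ : Subgroup G).lowerCentralSeries n, SGe w (n + 1) (γ.ξ g) := by
  induction n with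
  | zero =>
    intro g _ k hk
    have := 𝒢.one_le_w k
    omega
  | succ n ih =>
    intro g hg
    rw [Subgroup.mem_lowerCentralSeries_succ_iff] at hg
    induction hg using Subgroup.closure_induction with
    | mem x hx =>
      obtain ⟨p, hp, q, _, rfl⟩ := hx
      exact (comm_xi γ hc hF (by omega) (le_refl 1) (ih p hp) (fun k hk => by
        have := 𝒢.one_le_w k
        omega)).1
    | one =>
      intro k _
      exact one_xi γ k
    | mul x y _ _ hx hy => exact (mul_xi γ hx hy).1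
    | inv x _ hx =>
      intro k hk
      rw [inv_xi, hx k hk, neg_zero]


/-! ### leading coefficients -/

/-- the leading coefficients of the elements of a term of the lower central series -/
def Lam (γ : GMap G 𝒢) (n : ℕ) : AddSubgroup (Fin h → ℤ) where
  carrier := {z | ∃ u ∈ (⊤ : Subgroup G).lowerCentralSeries n, SGe w (n + 1) (γ.ξ u) ∧
    ∀ k, w k = n + 1 → γ.ξ u k = z k}
  zero_mem' := ⟨1, one_mem _, fun k _ => one_xi γ k, fun k _ => one_xi γ k⟩
  add_mem' := by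
    rintro x y ⟨u, hu, hu1, hu2⟩ ⟨v, hv, hv1, hv2⟩
    refine ⟨u * v, mul_mem hu hv, (mul_xi γ hu1 hv1).1, fun k hk => ?_⟩
    rw [(mul_xi γ hu1 hv1).2 (by omega) k hk, hu2 k hk, hv2 k hk]
    rfl
  neg_mem' := by
    rintro x ⟨u, hu, hu1, hu2⟩
    refine ⟨u⁻¹, inv_mem hu, fun k hk => ?_, fun k hk => ?_⟩
    · rw [inv_xi, hu1 k hk, neg_zero]
    · rw [inv_xi, hu2 k hk]
      rfl

theorem mem_Lam {γ : GMap G 𝒢} {n : ℕ} {z : Fin h → ℤ} : z ∈ Lam γ n ↔
    ∃ u ∈ (⊤ : Subgroup G).lowerCentralSeries n, SGe w (n + 1) (γ.ξ u) ∧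
      ∀ k, w k = n + 1 → γ.ξ u k = z k := Iff.rfl

/-- the rational vectors with leading coefficients from the term of the series -/
def PS (γ : GMap G 𝒢) (n : ℕ) : Submodule ℚ (Fin h → ℚ) where
  carrier := {v | ∃ D : ℕ, 0 < D ∧ ∃ z ∈ Lam γ n, ∀ t, w t = n + 1 → (z t : ℚ) = D * v t}
  zero_mem' := ⟨1, one_pos, 0, zero_mem _, fun t _ => by simp⟩
  add_mem' := by
    rintro v v' ⟨D, hD, z, hz, hz2⟩ ⟨D', hD', z', hz', hz2'⟩
    refine ⟨D * D', Nat.mul_pos hD hD', D' • z + D • z', add_mem (nsmul_mem hz _)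
      (nsmul_mem hz' _), fun t ht => ?_⟩
    have h1 : (D' • z + D • z') t = D' * z t + D * z' t := by simp
    rw [h1, Pi.add_apply]
    push_cast
    rw [hz2 t ht, hz2' t ht]
    ring
  smul_mem' := by
    rintro q v ⟨D, hD, z, hz, hz2⟩
    refine ⟨q.den * D, Nat.mul_pos q.den_pos hD, q.num • z, zsmul_mem hz _, fun t ht => ?_⟩
    simp only [Pi.smul_apply, smul_eq_mul]
    push_cast
    rw [hz2 t ht]
    have h1 : (q.num : ℚ) = q.den * q := (Rat.den_mul_eq_num q).symm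
    rw [h1]
    ring

theorem mem_PS {γ : GMap G 𝒢} {n : ℕ} {v : Fin h → ℚ} : v ∈ PS γ n ↔
    ∃ D : ℕ, 0 < D ∧ ∃ z ∈ Lam γ n, ∀ t, w t = n + 1 → (z t : ℚ) = D * v t := Iff.rfl

theorem top_of_single {n : ℕ} {γ : GMap G 𝒢}
    (hs : ∀ k, w k = n + 1 → (Pi.single k 1 : Fin h → ℚ) ∈ PS γ n) (v : Fin h → ℚ) :
    v ∈ PS γ n := by
  have h0 : ∀ k, (Pi.single k 1 : Fin h → ℚ) ∈ PS γ n := by
    intro k
    by_cases hk : w k = n + 1
    · exact hs k hk
    · refine ⟨1, one_pos, 0, zero_mem _, fun t ht => ?_⟩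
      have htk : t ≠ k := fun he => hk (he ▸ ht)
      simp [Pi.single_eq_of_ne htk]
  have h1 : v = ∑ k, v k • (Pi.single k 1 : Fin h → ℚ) := by
    funext t
    simp [Finset.sum_apply, Pi.single_apply]
  rw [h1]
  exact Submodule.sum_mem _ fun k _ => Submodule.smul_mem _ _ (h0 k)

theorem PS_top (γ : GMap G 𝒢) {𝔏 : Alg h} {M : ℕ} (hM : 0 < M) (hc : HasComm 𝒢 𝔏 M)
    (hF : Filtered w 𝔏) (hG : Generated w (gr w 𝔏)) (n : ℕ) (v : Fin h → ℚ) :
    v ∈ PS γ n := by
  induction n generalizing v with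
  | zero =>
    refine top_of_single (fun k _ => ?_) v
    obtain ⟨g, hg⟩ := γ.expo (Pi.single k 1)
    refine ⟨γ.n₀, γ.n₀_pos, γ.n₀ • Pi.single k 1, ⟨g, Subgroup.mem_top g, fun t ht => ?_,
      fun t _ => ?_⟩, fun t _ => ?_⟩
    · have := 𝒢.one_le_w t
      omega
    · rw [hg]
    · simp only [Pi.smul_apply, nsmul_eq_mul]
      push_cast
      by_cases htk : t = k
      · subst htk
        simp
      · simp [Pi.single_eq_of_ne htk]
  | succ n ih =>
    refine top_of_single (fun k hk => ?_) v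
    refine Submodule.span_le.2 ?_ (hG k (by omega))
    rintro _ ⟨i, j, hi, hj, rfl⟩
    -- the commutator of the two elements
    obtain ⟨g, hg⟩ := γ.expo (Pi.single i 1)
    obtain ⟨D, hD, z, ⟨u, hu, hu1, hu2⟩, hz⟩ := ih (Pi.single j 1)
    have hg1 : SGe w 1 (γ.ξ g) := fun t ht => by
      have := 𝒢.one_le_w t
      omega
    have hcx := comm_xi γ hc hF (le_refl 1) (by omega : 1 ≤ n + 1) hg1 hu1
    have hval : ∀ t, w t = n + 1 + 1 →
        ((γ.ξ ⁅g, u⁆ t : ℤ) : ℚ) = ((M * γ.n₀ * D : ℕ) : ℚ) * ((gr w 𝔏).c i j t : ℚ) := by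
      intro t ht
      rw [hcx.2 t (by omega)]
      have h1 : (((gr w 𝔏).mul (γ.ξ g) (γ.ξ u) t : ℤ) : ℚ) =
          γ.n₀ * (D * ((gr w 𝔏).c i j t : ℚ)) := by
        unfold Alg.mul
        rw [Finset.sum_eq_single i]
        · rw [Finset.sum_eq_single j]
          · have h2 := hz j (by omega)
            rw [Pi.single_eq_same] at h2
            rw [hg, hu2 j (by omega)]
            simp only [Pi.smul_apply, Pi.single_eq_same, nsmul_eq_mul]
            push_cast
            rw [h2]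
            ring
          · intro j' _ hj'
            by_cases hw' : w j' = n + 1
            · have h2 := hz j' hw'
              rw [Pi.single_eq_of_ne hj', mul_zero] at h2
              rw [hu2 j' hw', Int.cast_eq_zero.1 h2, mul_zero]
            · have h3 : (gr w 𝔏).c i j' t = 0 := by
                unfold gr
                exact if_neg (by omega)
              rw [h3]
              simp
          · intro hcon
            exact absurd (Finset.mem_univ j) hcon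
        · intro i' _ hi'
          refine Finset.sum_eq_zero fun j' _ => ?_
          rw [hg]
          simp [Pi.single_eq_of_ne hi']
        · intro hcon
          exact absurd (Finset.mem_univ i) hcon
      push_cast at h1 ⊢
      rw [h1]
      ring
    have hmem : ⁅g, u⁆ ∈ (⊤ : Subgroup G).lowerCentralSeries (n + 1) := by
      rw [← commutatorElement_inv]
      refine inv_mem ?_
      rw [Subgroup.mem_lowerCentralSeries_succ_iff]
      exact Subgroup.subset_closure ⟨u, hu, g, Subgroup.mem_top g, rfl⟩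
    refine ⟨M * γ.n₀ * D, Nat.mul_pos (Nat.mul_pos hM γ.n₀_pos) hD, γ.ξ ⁅g, u⁆,
      ⟨⁅g, u⁆, hmem, fun t ht => hcx.1 t (by omega), fun t _ => rfl⟩, hval⟩

/-- elements of the kernel have finite order -/
theorem finite_order (γ : GMap G 𝒢) {g : G} (hg : γ.ξ g = 0) : ∃ m : ℕ, 0 < m ∧ g ^ m = 1 := by
  have hmem : ∀ n : ℕ, g ^ n ∈ {g : G | γ.ξ g = 0} := by
    intro n
    show γ.ξ (g ^ n) = 0
    funext k
    rw [pow_xi, hg]
    simp
  have hinj : ¬ Function.Injective (fun n : ℕ => (⟨g ^ n, hmem n⟩ : {g : G | γ.ξ g = 0})) := by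
    have := γ.finite.to_subtype
    exact not_injective_infinite_finite _
  rw [Function.not_injective_iff] at hinj
  obtain ⟨a, b, hab, hne⟩ := hinj
  have hab' : g ^ a = g ^ b := congrArg Subtype.val hab
  rcases lt_or_gt_of_ne hne with hlt | hlt
  · refine ⟨b - a, by omega, ?_⟩
    rw [pow_sub g hlt.le, hab', mul_inv_cancel]
  · refine ⟨a - b, by omega, ?_⟩
    rw [pow_sub g hlt.le, hab', mul_inv_cancel]

/-- an element supported in high weight has a power in the lower central series -/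
theorem iso (γ : GMap G 𝒢) {𝔏 : Alg h} {M : ℕ} (hM : 0 < M) (hc : HasComm 𝒢 𝔏 M)
    (hF : Filtered w 𝔏) (hG : Generated w (gr w 𝔏)) (N : ℕ) : ∀ n : ℕ, (∀ k, w k ≤ n + N) →
      ∀ g : G, SGe w (n + 1) (γ.ξ g) →
        ∃ m : ℕ, 0 < m ∧ g ^ m ∈ (⊤ : Subgroup G).lowerCentralSeries n := by
  induction N with
  | zero =>
    intro n hn g hg
    have h0 : γ.ξ g = 0 := by
      funext k
      exact hg k (by have := hn k; omega)
    obtain ⟨m, hm, hgm⟩ := finite_order γ h0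
    exact ⟨m, hm, hgm ▸ one_mem _⟩
  | succ N ih =>
    intro n hn g hg
    obtain ⟨D, hD, z, ⟨u, hu, hu1, hu2⟩, hz⟩ := PS_top γ hM hc hF hG n (fun t => (γ.ξ g t : ℚ))
    have hgD : SGe w (n + 1) (γ.ξ (g ^ D)) := (pow_SGe γ g hD (n + 1)).2 hg
    have hui : SGe w (n + 1) (γ.ξ u⁻¹) := fun k hk => by
      rw [inv_xi, hu1 k hk, neg_zero]
    have hmul := mul_xi γ hgD hui
    have hs : SGe w (n + 1 + 1) (γ.ξ (g ^ D * u⁻¹)) := by
      intro k hk
      by_cases hk' : w k < n + 1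
      · exact hmul.1 k hk'
      · rw [hmul.2 (by omega) k (by omega), pow_xi, inv_xi, hu2 k (by omega)]
        have h1 : ((z k : ℤ) : ℚ) = D * (γ.ξ g k : ℚ) := hz k (by omega)
        have h2 : z k = D * γ.ξ g k := by exact_mod_cast h1
        rw [h2]
        ring
    obtain ⟨m, hm, hmem⟩ := ih (n + 1) (fun k => by have := hn k; omega) _ hs
    have hmem' : (g ^ D * u⁻¹) ^ m ∈ (⊤ : Subgroup G).lowerCentralSeries n :=
      (⊤ : Subgroup G).lowerCentralSeries_antitone (Nat.le_succ n) hmem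
    refine ⟨D * m, Nat.mul_pos hD hm, ?_⟩
    rw [← QuotientGroup.eq_one_iff] at hmem' ⊢
    have hu' : ((u : G) : G ⧸ (⊤ : Subgroup G).lowerCentralSeries n) = 1 :=
      (QuotientGroup.eq_one_iff u).2 hu
    rw [QuotientGroup.mk_pow, QuotientGroup.mk_mul, QuotientGroup.mk_inv, hu', inv_one, mul_one,
      QuotientGroup.mk_pow, ← pow_mul] at hmem'
    rw [QuotientGroup.mk_pow]
    exact hmem'

/-! ### the centre of the graded algebra -/

theorem mem_center_iff {𝔏 : Alg h} {x : Fin h → ℚ} : x ∈ center ℚ 𝔏 ↔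
    ∀ j k, ∑ i, (𝔏.c i j k : ℚ) * x i = 0 := by
  constructor
  · intro hx j k
    have h1 := congrFun (hx (Pi.single j 1)) k
    simp only [Alg.mul, Pi.zero_apply] at h1
    rw [← h1]
    refine Finset.sum_congr rfl fun i _ => ?_
    rw [Finset.sum_eq_single j]
    · simp
    · intro j' _ hj'
      simp [Pi.single_eq_of_ne hj']
    · intro hcon
      exact absurd (Finset.mem_univ j) hcon
  · intro hx u
    funext k
    simp only [Alg.mul, Pi.zero_apply]
    rw [Finset.sum_comm]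
    refine Finset.sum_eq_zero fun j _ => ?_
    rw [← Finset.sum_mul, hx j k, zero_mul]

/-- the components of a central element are central -/
theorem center_comp {𝔏 : Alg h} {x : Fin h → ℚ} (hx : x ∈ center ℚ (gr w 𝔏)) (a : ℕ) :
    (fun i => if w i = a then x i else 0) ∈ center ℚ (gr w 𝔏) := by
  rw [mem_center_iff] at hx ⊢
  intro j k
  by_cases hk : w k = a + w j
  · rw [← hx j k]
    refine Finset.sum_congr rfl fun i _ => ?_
    by_cases hi : w i = a
    · rw [if_pos hi]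
    · have h1 : (gr w 𝔏).c i j k = 0 := by
        unfold gr
        exact if_neg (by omega)
      rw [h1]
      simp
  · refine Finset.sum_eq_zero fun i _ => ?_
    by_cases hi : w i = a
    · have h1 : (gr w 𝔏).c i j k = 0 := by
        unfold gr
        exact if_neg (by omega)
      rw [h1]
      simp
    · rw [if_neg hi, mul_zero]

/-- central elements have no components of weight below the maximal weight -/
theorem center_top (γ : GMap G 𝒢) {𝔏 : Alg h} {M : ℕ} (hM : 0 < M) (hc : HasComm 𝒢 𝔏 M)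
    (hF : Filtered w 𝔏) (hG : Generated w (gr w 𝔏)) (hU : UniCentral G) {x : Fin h → ℚ}
    (hx : x ∈ center ℚ (gr w 𝔏)) {k k₀ : Fin h} (hk : w k < w k₀) : x k = 0 := by
  by_contra hne
  obtain ⟨n, hn⟩ : ∃ n, w k = n + 1 := ⟨w k - 1, by have := 𝒢.one_le_w k; omega⟩
  have hN : ∀ (p : ℕ) t, w t ≤ p + ∑ s, w s := fun p t =>
    (Finset.single_le_sum (f := w) (fun _ _ => Nat.zero_le _) (Finset.mem_univ t)).trans
      (Nat.le_add_left _ _)
  obtain ⟨D, hD, z, ⟨u, hu, hu1, hu2⟩, hz⟩ := PS_top γ hM hc hF hG n x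
  have huc : ∀ y : G, ∃ m : ℕ, 0 < m ∧ ⁅u, y⁆ ^ m ∈ (⊤ : Subgroup G).lowerCentralSeries (n + 2) := by
    intro y
    have hy1 : SGe w 1 (γ.ξ y) := fun t ht => by
      have := 𝒢.one_le_w t
      omega
    have hcx := comm_xi γ hc hF (by omega : 1 ≤ n + 1) (le_refl 1) hu1 hy1
    refine iso γ hM hc hF hG (∑ s, w s) (n + 2) (hN (n + 2)) _ ?_
    intro t ht
    by_cases ht' : w t < n + 1 + 1
    · exact hcx.1 t ht'
    · have ht2 : w t = n + 1 + 1 := by omega
      rw [hcx.2 t ht2]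
      have h1 : (((gr w 𝔏).mul (γ.ξ u) (γ.ξ y) t : ℤ) : ℚ) = 0 := by
        rw [mem_center_iff] at hx
        unfold Alg.mul
        rw [Finset.sum_comm]
        push_cast
        refine Finset.sum_eq_zero fun j _ => ?_
        rw [← Finset.sum_mul]
        have h2 : ∑ i, (((gr w 𝔏).c i j t : ℤ) : ℚ) * (γ.ξ u i : ℚ) = 0 := by
          by_cases hj : w j = 1
          · rw [← mul_zero (D : ℚ), ← hx j t, Finset.mul_sum]
            refine Finset.sum_congr rfl fun i _ => ?_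
            by_cases hi : w i = n + 1
            · have h3 := hz i hi
              rw [hu2 i hi, h3]
              ring
            · have h4 : (gr w 𝔏).c i j t = 0 := by
                unfold gr
                exact if_neg (by omega)
              rw [h4]
              simp
          · refine Finset.sum_eq_zero fun i _ => ?_
            by_cases hi : w i < n + 1
            · rw [hu1 i hi]
              simp
            · have h4 : (gr w 𝔏).c i j t = 0 := by
                unfold gr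
                exact if_neg (by have := 𝒢.one_le_w j; omega)
              rw [h4]
              simp
        rw [h2, zero_mul]
      rw [Int.cast_eq_zero.1 h1, mul_zero]
  rcases hU.1 n u hu huc with ⟨m, hm, hmem⟩ | hfin
  · have h1 := (pow_SGe γ u hm (n + 1 + 1)).1 (lcs_supp γ hc hF (n + 1) _ hmem) k (by omega)
    rw [hu2 k hn] at h1
    have h2 := hz k hn
    rw [h1, Int.cast_zero] at h2
    rcases mul_eq_zero.1 h2.symm with h3 | h3
    · exact hD.ne' (by exact_mod_cast h3)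
    · exact hne h3
  · obtain ⟨g, hg⟩ := γ.expo (Pi.single k₀ 1)
    have hgs : SGe w (n + 1 + 1) (γ.ξ g) := by
      intro t ht
      have htk : t ≠ k₀ := by
        rintro rfl
        omega
      rw [hg]
      simp [Pi.single_eq_of_ne htk]
    obtain ⟨m, hm, hmem⟩ := iso γ hM hc hF hG (∑ s, w s) (n + 1) (hN (n + 1)) g hgs
    have hfo : IsOfFinOrder (⟨g ^ m, hmem⟩ : (⊤ : Subgroup G).lowerCentralSeries (n + 1)) :=
      isOfFinOrder_of_finite _
    obtain ⟨r, hr, hr2⟩ := isOfFinOrder_iff_pow_eq_one.1 hfo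
    have h1 : (g ^ m) ^ r = 1 := congrArg Subtype.val hr2
    have h2 : γ.ξ ((g ^ m) ^ r) k₀ = 0 := by
      rw [h1, one_xi]
    rw [pow_xi, pow_xi, hg] at h2
    simp only [Pi.smul_apply, Pi.single_eq_same, nsmul_eq_mul, mul_one] at h2
    have h3 : 0 < (r : ℤ) * ((m : ℤ) * (γ.n₀ : ℤ)) := by
      have := γ.n₀_pos
      positivity
    omega

/-- any two central elements are dependent -/
theorem center_dep (γ : GMap G 𝒢) {𝔏 : Alg h} {M : ℕ} (hM : 0 < M) (hc : HasComm 𝒢 𝔏 M)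
    (hF : Filtered w 𝔏) (hG : Generated w (gr w 𝔏)) (hU : UniCentral G) {x x' : Fin h → ℚ}
    (hx : x ∈ center ℚ (gr w 𝔏)) (hx' : x' ∈ center ℚ (gr w 𝔏)) :
    ∃ s t : ℚ, (s, t) ≠ (0, 0) ∧ s • x + t • x' = 0 := by
  rcases Nat.eq_zero_or_pos h with rfl | hh
  · exact ⟨1, 1, by simp, Subsingleton.elim _ _⟩
  have hne : (Finset.univ : Finset (Fin h)).Nonempty := ⟨⟨0, hh⟩, Finset.mem_univ _⟩
  obtain ⟨k₀, _, hk₀⟩ := Finset.exists_max_image (Finset.univ : Finset (Fin h)) w hne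
  obtain ⟨n, hn⟩ : ∃ n, w k₀ = n + 1 := ⟨w k₀ - 1, by have := 𝒢.one_le_w k₀; omega⟩
  have hmax : ∀ k, w k ≤ n + 1 := fun k => hn ▸ hk₀ k (Finset.mem_univ k)
  have hfin : Finite ((⊤ : Subgroup G).lowerCentralSeries (n + 1)) := by
    refine (γ.finite.subset ?_).to_subtype
    intro g hg
    show γ.ξ g = 0
    funext k
    exact lcs_supp γ hc hF (n + 1) g hg k (by have := hmax k; omega)
  have key : ∀ y : Fin h → ℚ, y ∈ center ℚ (gr w 𝔏) → ∃ D : ℕ, 0 < D ∧
      ∃ u ∈ (⊤ : Subgroup G).lowerCentralSeries n, ∀ t, (γ.ξ u t : ℚ) = D * y t := by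
    intro y hy
    obtain ⟨D, hD, z, ⟨u, hu, hu1, hu2⟩, hz⟩ := PS_top γ hM hc hF hG n y
    refine ⟨D, hD, u, hu, fun t => ?_⟩
    by_cases ht : w t = n + 1
    · rw [hu2 t ht, hz t ht]
    · have ht' : w t < n + 1 := by have := hmax t; omega
      rw [hu1 t ht', center_top γ hM hc hF hG hU hy (k₀ := k₀) (by omega)]
      simp
  obtain ⟨D, hD, u, hu, hux⟩ := key x hx
  obtain ⟨D', hD', u', hu', hux'⟩ := key x' hx'
  obtain ⟨a, b, hab, hpow⟩ := hU.2 n hfin u hu u' hu'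
  refine ⟨a * D, -(b * D'), ?_, ?_⟩
  · intro hcon
    apply hab
    rw [Prod.mk.injEq] at hcon ⊢
    have hDq : (D : ℚ) ≠ 0 := by exact_mod_cast hD.ne'
    have hDq' : (D' : ℚ) ≠ 0 := by exact_mod_cast hD'.ne'
    constructor
    · rcases mul_eq_zero.1 hcon.1 with h1 | h1
      · exact_mod_cast h1
      · exact absurd h1 hDq
    · rcases mul_eq_zero.1 (neg_eq_zero.1 hcon.2) with h1 | h1
      · exact_mod_cast h1
      · exact absurd h1 hDq'
  · funext t
    have h1 : γ.ξ (u ^ a) t = γ.ξ (u' ^ b) t := by rw [hpow]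
    rw [zpow_xi, zpow_xi] at h1
    have h2 : (a : ℚ) * (γ.ξ u t : ℚ) = b * (γ.ξ u' t : ℚ) := by exact_mod_cast h1
    rw [hux, hux'] at h2
    simp only [Pi.add_apply, Pi.smul_apply, smul_eq_mul, Pi.zero_apply]
    linarith

end UniB

theorem center_of_uniCentral {G : Type*} [Group G] [Group.IsNilpotent G] {h : ℕ}
    {w : Fin h → ℕ} {𝒢 : PGrp w} (γ : GMap G 𝒢) {𝔏 : Alg h} {M : ℕ} (hM : 0 < M)
    (hc : HasComm 𝒢 𝔏 M) (hF : Filtered w 𝔏) (hG : Generated w (gr w 𝔏))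
    (hU : UniCentral G) : Module.finrank ℚ (center ℚ (gr w 𝔏)) ≤ 1 := by
  by_contra hcon
  push Not at hcon
  have hnt : Nontrivial (center ℚ (gr w 𝔏)) := Module.nontrivial_of_finrank_pos (R := ℚ) (by omega)
  obtain ⟨x, hx⟩ := exists_ne (0 : center ℚ (gr w 𝔏))
  obtain ⟨y, hy⟩ := exists_linearIndependent_pair_of_one_lt_finrank hcon hx
  rw [LinearIndependent.pair_iff] at hy
  obtain ⟨s, t, hst, h0⟩ := UniB.center_dep γ hM hc hF hG hU x.2 y.2
  obtain ⟨h1, h2⟩ := hy s t (Subtype.ext (by simpa using h0))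
  exact hst (by rw [h1, h2])

end Pool.Agent.MPf60e8aP
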