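import Mathlib
import Pool.Agent.Lib.MP_f60e8a_al.P.PDefs
import Pool.Agent.Lib.MP_f60e8a_al.P.Lead
import Pool.Agent.Lib.MP_f60e8a_al.P.UniB
import Pool.Agent.Lib.MP_f60e8a_al.P.CarnB

/-!
# Groups of class at most two
-/

open scoped BigOperators commutatorElement

namespace Pool.Agent.MPf60e8aP

open Pool.Agent.MPf60e8aN (Alg)

/-- If `γ₃(G)` is finite, all weights are at most two. -/
theorem weight_le_two {G : Type*} [Group G] {h : ℕ}
    {w : Fin h → ℕ} {𝒢 : PGrp w} (γ : GMap G 𝒢) {𝔏 : Alg h} {M : ℕ} (hM : 0 < M)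
    (hc : HasComm 𝒢 𝔏 M) (hF : Filtered w 𝔏) (hG : Generated w (gr w 𝔏))
    (hfin : Finite ((⊤ : Subgroup G).lowerCentralSeries 2)) (k : Fin h) : w k ≤ 2 := by
  by_contra hk
  push Not at hk
  obtain ⟨g, hg⟩ := γ.expo (Pi.single k 1)
  have hg3 : UniB.SGe w (2 + 1) (γ.ξ g) := by
    intro t ht
    rw [hg, Pi.smul_apply, Pi.single_eq_of_ne, smul_zero]
    rintro rfl
    omega
  have hN : ∀ t, w t ≤ 2 + ∑ s, w s := fun t =>
    (Finset.single_le_sum (f := w) (fun _ _ => Nat.zero_le _) (Finset.mem_univ t)).trans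
      (Nat.le_add_left _ _)
  obtain ⟨m, hm, hgm⟩ := UniB.iso γ hM hc hF hG (∑ s, w s) 2 hN g hg3
  obtain ⟨r, hr, hrr⟩ := isOfFinOrder_iff_pow_eq_one.mp
    (isOfFinOrder_of_finite (⟨g ^ m, hgm⟩ : (⊤ : Subgroup G).lowerCentralSeries 2))
  have h1 : (g ^ m) ^ r = 1 := congrArg Subtype.val hrr
  have h2 : γ.ξ ((g ^ m) ^ r) k = 0 := by rw [h1, UniB.one_xi]
  rw [UniB.pow_xi, UniB.pow_xi, hg] at h2
  have h3 := γ.n₀_pos
  simp only [Pi.smul_apply, Pi.single_eq_same, nsmul_eq_mul, mul_one, mul_eq_zero,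
    Nat.cast_eq_zero] at h2
  omega

/-- Class at most two is seen by the graded algebra. -/
theorem weight_transfer {h₁ h₂ : ℕ} {w₁ : Fin h₁ → ℕ} {w₂ : Fin h₂ → ℕ} (𝔏₁ : Alg h₁)
    (𝔏₂ : Alg h₂) (Φ : (Fin h₁ → ℝ) ≃ₗ[ℝ] (Fin h₂ → ℝ)) (M₁ M₂ : ℕ) (hM₂ : 0 < M₂)
    (hΦ : ∀ x y, (M₁ : ℝ) • Φ ((gr w₁ 𝔏₁).mul x y) =
      (M₂ : ℝ) • (gr w₂ 𝔏₂).mul (Φ x) (Φ y))
    (one₁ : ∀ k, 1 ≤ w₁ k) (hw₁ : ∀ k, w₁ k ≤ 2) (hG₂ : Generated w₂ (gr w₂ 𝔏₂))
    (k : Fin h₂) : w₂ k ≤ 2 := by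
  have hM₂' : (M₂ : ℝ) ≠ 0 := by exact_mod_cast hM₂.ne'
  -- triple products vanish in the first algebra
  have t1 : ∀ x y z : Fin h₁ → ℝ, (gr w₁ 𝔏₁).mul x ((gr w₁ 𝔏₁).mul y z) = 0 := by
    intro x y z
    funext t
    unfold Alg.mul
    refine Finset.sum_eq_zero fun i _ => Finset.sum_eq_zero fun j _ => ?_
    by_cases h1 : w₁ t = w₁ i + w₁ j
    · have h2 : (∑ a, ∑ b, ((gr w₁ 𝔏₁).c a b j : ℝ) * y a * z b) = 0 := by
        refine Finset.sum_eq_zero fun a _ => Finset.sum_eq_zero fun b _ => ?_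
        have h3 : (gr w₁ 𝔏₁).c a b j = 0 := by
          unfold gr
          refine if_neg ?_
          have := hw₁ t
          have := one₁ i
          have := one₁ a
          have := one₁ b
          omega
        rw [h3]
        simp
      rw [h2, mul_zero]
    · have h3 : (gr w₁ 𝔏₁).c i j t = 0 := by
        unfold gr
        exact if_neg h1
      rw [h3]
      simp
  -- and in the second
  have t2 : ∀ x y z : Fin h₂ → ℝ, (gr w₂ 𝔏₂).mul x ((gr w₂ 𝔏₂).mul y z) = 0 := by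
    intro x y z
    have e1 := hΦ (Φ.symm y) (Φ.symm z)
    rw [Φ.apply_symm_apply, Φ.apply_symm_apply] at e1
    have e2 := hΦ (Φ.symm x) ((M₁ : ℝ) • (gr w₁ 𝔏₁).mul (Φ.symm y) (Φ.symm z))
    rw [map_smul, e1, Φ.apply_symm_apply, CarnB.mul_smul_right, CarnB.mul_smul_right, t1,
      smul_zero, map_zero, smul_zero] at e2
    have e3 := smul_eq_zero.mp e2.symm
    rcases e3 with e3 | e3
    · exact absurd e3 hM₂'
    · rcases smul_eq_zero.mp e3 with e4 | e4
      · exact absurd e4 hM₂'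
      · exact e4
  have t3 : ∀ i a b t, ∑ j, (gr w₂ 𝔏₂).c i j t * (gr w₂ 𝔏₂).c a b j = 0 := by
    intro i a b t
    have e1 := congrFun (t2 (Pi.single i 1) (Pi.single a 1) (Pi.single b 1)) t
    rw [CarnB.mul_single] at e1
    unfold Alg.mul at e1
    rw [Finset.sum_eq_single i] at e1
    · simp only [Pi.single_eq_same, mul_one, Pi.zero_apply] at e1
      exact_mod_cast e1
    · intro i' _ hi'
      refine Finset.sum_eq_zero fun j' _ => ?_
      rw [Pi.single_eq_of_ne hi', mul_zero, zero_mul]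
    · intro hcon
      exact absurd (Finset.mem_univ _) hcon
  by_contra hk
  push Not at hk
  -- the products with a vector of weight at least two vanish
  have t4 : ∀ i j, 2 ≤ w₂ j → ∀ t, (gr w₂ 𝔏₂).c i j t = 0 := by
    intro i j hj t
    have hspan := hG₂ j hj
    have key : ∀ z ∈ Submodule.span ℚ {z : Fin h₂ → ℚ | ∃ a b, w₂ a = 1 ∧ w₂ b + 1 = w₂ j ∧
        z = fun t => ((gr w₂ 𝔏₂).c a b t : ℚ)},
        ∑ l, ((gr w₂ 𝔏₂).c i l t : ℚ) * z l = 0 := by
      intro z hz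
      induction hz using Submodule.span_induction with
      | mem z hz =>
        obtain ⟨a, b, _, _, rfl⟩ := hz
        have e0 := t3 i a b t
        show ∑ l, ((gr w₂ 𝔏₂).c i l t : ℚ) * ((gr w₂ 𝔏₂).c a b l : ℚ) = 0
        exact_mod_cast e0
      | zero => simp
      | add x y _ _ hx hy =>
        simp only [Pi.add_apply, mul_add, Finset.sum_add_distrib, hx, hy, add_zero]
      | smul q x _ hx =>
        have : ∑ l, ((gr w₂ 𝔏₂).c i l t : ℚ) * (q • x) l =
            q * ∑ l, ((gr w₂ 𝔏₂).c i l t : ℚ) * x l := by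
          rw [Finset.mul_sum]
          refine Finset.sum_congr rfl fun l _ => ?_
          rw [Pi.smul_apply, smul_eq_mul]
          ring
        rw [this, hx, mul_zero]
    have e1 := key _ hspan
    rw [Finset.sum_eq_single j] at e1
    · simpa using e1
    · intro l _ hl
      rw [Pi.single_eq_of_ne hl, mul_zero]
    · intro hcon
      exact absurd (Finset.mem_univ _) hcon
  have hspan := hG₂ k (by omega)
  have h0 : Submodule.span ℚ {z : Fin h₂ → ℚ | ∃ i j, w₂ i = 1 ∧ w₂ j + 1 = w₂ k ∧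
      z = fun t => ((gr w₂ 𝔏₂).c i j t : ℚ)} ≤ ⊥ := by
    refine Submodule.span_le.mpr ?_
    rintro z ⟨i, j, hi, hj, rfl⟩
    rw [SetLike.mem_coe, Submodule.mem_bot]
    funext t
    rw [t4 i j (by omega) t]
    simp
  have h1 := h0 hspan
  rw [Submodule.mem_bot] at h1
  have h2 := congrFun h1 k
  simp at h2

/-- An algebra with weights at most two is graded. -/
theorem gr_eq_of_le_two {h : ℕ} {w : Fin h → ℕ} (𝔏 : Alg h) (hF : Filtered w 𝔏)
    (one : ∀ k, 1 ≤ w k) (hw : ∀ k, w k ≤ 2) : gr w 𝔏 = 𝔏 := by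
  cases 𝔏 with
  | mk c =>
    unfold gr
    congr 1
    funext i j k
    by_cases h0 : c i j k = 0
    · simp [h0]
    · have h1 := hF i j k h0
      rw [if_pos]
      have := hw k
      have := one i
      have := one j
      omega

end Pool.Agent.MPf60e8aP
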