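import Mathlib
import Pool.Agent.Lib.MP_f60e8a_al.P.PDefs
import Pool.Agent.Lib.MP_f60e8a_al.Word
import Pool.Agent.Lib.MP_f60e8a_al.P.Lead

/-!
# Module P5 UPMP: the coordinates are bounded in terms of the word length
-/

open scoped BigOperators commutatorElement

namespace Pool.Agent.MPf60e8aP

open Pool.Agent.MPf60e8a (wordLen sepIndex RF)
open Pool.Agent.MPf60e8aN (Alg NilSub LieLattice BchConst Describes upperNil IsUnipotent lg)

namespace CoordUpAux

variable {G : Type*} [Group G] {S : Finset G} {h : ℕ} {w : Fin h → ℕ} {𝒢 : PGrp w}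

/-- one step increases the coordinates of weight `d + 1` by `O(n^d)` -/
theorem inc (hw : ∀ i, 1 ≤ w i) {d : ℕ} {q : MvPolynomial (Fin h ⊕ Fin h) ℝ}
    (hq : MixedLe w (d + 1) q) (B C : ℝ) (hB : 1 ≤ B) (hC : 1 ≤ C) :
    ∃ C' : ℝ, 0 ≤ C' ∧ ∀ (x y : Fin h → ℝ) (n : ℝ), 1 ≤ n → (∀ i, |x i| ≤ B) →
      (∀ j, w j ≤ d → |y j| ≤ C * n ^ w j) →
      |MvPolynomial.eval (Sum.elim x y) q| ≤ C' * n ^ d := by
  refine ⟨∑ m ∈ q.support, |q.coeff m| * (B ^ (∑ i, m (Sum.inl i)) * C ^ (∑ j, m (Sum.inr j))),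
    Finset.sum_nonneg (fun m _ => by positivity), ?_⟩
  intro x y n hn hx hy
  rw [MvPolynomial.eval_eq, Finset.sum_mul]
  refine (Finset.abs_sum_le_sum_abs _ _).trans (Finset.sum_le_sum (fun m hm => ?_))
  rw [abs_mul, mul_assoc]
  apply mul_le_mul_of_nonneg_left _ (abs_nonneg _)
  obtain ⟨⟨i₀, hi₀⟩, _, hwt⟩ := hq m hm
  rw [LeadAux.weight_eq] at hwt
  have hprod : ∏ i ∈ m.support, (Sum.elim x y : Fin h ⊕ Fin h → ℝ) i ^ m i =
      (∏ i, x i ^ m (Sum.inl i)) * ∏ j, y j ^ m (Sum.inr j) := by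
    rw [← Finsupp.prod, Finsupp.prod_fintype _ _ (fun i => by simp), Fintype.prod_sum_type]
    simp
  rw [hprod, abs_mul, Finset.abs_prod, Finset.abs_prod]
  have hi₀' : 1 ≤ ∑ i, m (Sum.inl i) * w i := by
    have h1 : m (Sum.inl i₀) * w i₀ ≤ ∑ i, m (Sum.inl i) * w i :=
      Finset.single_le_sum (f := fun i => m (Sum.inl i) * w i) (fun _ _ => Nat.zero_le _)
        (Finset.mem_univ i₀)
    have h2 : 1 ≤ m (Sum.inl i₀) * w i₀ := Nat.one_le_iff_ne_zero.2
      (Nat.mul_ne_zero hi₀ (Nat.one_le_iff_ne_zero.1 (hw i₀)))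
    omega
  have hyw : ∑ j, m (Sum.inr j) * w j ≤ d := by omega
  have h1 : ∏ i, |x i ^ m (Sum.inl i)| ≤ B ^ (∑ i, m (Sum.inl i)) := by
    rw [← Finset.prod_pow_eq_pow_sum]
    apply Finset.prod_le_prod (fun i _ => abs_nonneg _)
    intro i _
    rw [abs_pow]
    exact pow_le_pow_left₀ (abs_nonneg _) (hx i) _
  have h2 : ∏ j, |y j ^ m (Sum.inr j)| ≤ C ^ (∑ j, m (Sum.inr j)) * n ^ d := by
    have h3 : ∏ j, |y j ^ m (Sum.inr j)| ≤ ∏ j, (C * n ^ w j) ^ m (Sum.inr j) := by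
      apply Finset.prod_le_prod (fun i _ => abs_nonneg _)
      intro j _
      rw [abs_pow]
      rcases Nat.eq_zero_or_pos (m (Sum.inr j)) with h0 | h0
      · rw [h0, pow_zero, pow_zero]
      · apply pow_le_pow_left₀ (abs_nonneg _)
        apply hy
        have h4 : m (Sum.inr j) * w j ≤ ∑ j, m (Sum.inr j) * w j :=
          Finset.single_le_sum (f := fun j => m (Sum.inr j) * w j) (fun _ _ => Nat.zero_le _)
            (Finset.mem_univ j)
        have h5 : w j ≤ m (Sum.inr j) * w j := Nat.le_mul_of_pos_left _ h0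
        omega
    have h6 : ∏ j, (C * n ^ w j) ^ m (Sum.inr j) =
        C ^ (∑ j, m (Sum.inr j)) * n ^ (∑ j, m (Sum.inr j) * w j) := by
      rw [← Finset.prod_pow_eq_pow_sum, ← Finset.prod_pow_eq_pow_sum, ← Finset.prod_mul_distrib]
      refine Finset.prod_congr rfl (fun j _ => ?_)
      rw [mul_pow, ← pow_mul, mul_comm (w j)]
    rw [h6] at h3
    refine h3.trans (mul_le_mul_of_nonneg_left ?_ (by positivity))
    exact pow_le_pow_right₀ hn hyw
  calc (∏ i, |x i ^ m (Sum.inl i)|) * ∏ j, |y j ^ m (Sum.inr j)|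
      ≤ B ^ (∑ i, m (Sum.inl i)) * (C ^ (∑ j, m (Sum.inr j)) * n ^ d) :=
        mul_le_mul h1 h2 (Finset.prod_nonneg (fun _ _ => abs_nonneg _)) (by positivity)
    _ = _ := by ring

theorem hom_one_v (γ : GMap G 𝒢) (i : Fin h) : (γ.ξ 1 i : ℝ) = 0 := by
  have h1 : (γ.hom 1).v i = 0 := by rw [map_one]; rfl
  rw [GMap.hom_v] at h1
  exact h1

theorem gen_bound (γ : GMap G 𝒢) (S : Finset G) :
    ∃ B : ℝ, 1 ≤ B ∧ ∀ s : G, s ∈ S ∨ s⁻¹ ∈ S → ∀ i, |(γ.ξ s i : ℝ)| ≤ B := by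
  refine ⟨1 + ∑ s ∈ S, ∑ i, |(γ.ξ s i : ℝ)|, ?_, ?_⟩
  · have : 0 ≤ ∑ s ∈ S, ∑ i, |(γ.ξ s i : ℝ)| :=
      Finset.sum_nonneg (fun _ _ => Finset.sum_nonneg (fun _ _ => abs_nonneg _))
    linarith
  have key : ∀ s ∈ S, ∀ i, |(γ.ξ s i : ℝ)| ≤ 1 + ∑ s ∈ S, ∑ i, |(γ.ξ s i : ℝ)| := by
    intro s hs i
    have h1 : |(γ.ξ s i : ℝ)| ≤ ∑ i, |(γ.ξ s i : ℝ)| :=
      Finset.single_le_sum (f := fun i => |(γ.ξ s i : ℝ)|) (fun _ _ => abs_nonneg _)
        (Finset.mem_univ i)
    have h2 : ∑ i, |(γ.ξ s i : ℝ)| ≤ ∑ s ∈ S, ∑ i, |(γ.ξ s i : ℝ)| :=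
      Finset.single_le_sum (f := fun s => ∑ i, |(γ.ξ s i : ℝ)|)
        (fun _ _ => Finset.sum_nonneg (fun _ _ => abs_nonneg _)) hs
    linarith
  intro s hs i
  rcases hs with hs | hs
  · exact key s hs i
  · have h1 : (γ.hom s⁻¹).v i = -(γ.hom s).v i := by rw [map_inv]; rfl
    simp only [GMap.hom_v] at h1
    have h2 := key _ hs i
    rw [h1, abs_neg] at h2
    exact h2

/-- the induction over the weights -/
theorem claim (γ : GMap G 𝒢) (S : Finset G) (m : ℕ) :
    ∃ C : ℝ, 1 ≤ C ∧ ∀ l : List G, (∀ x ∈ l, x ∈ S ∨ x⁻¹ ∈ S) → ∀ k, w k ≤ m →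
      |(γ.ξ l.prod k : ℝ)| ≤ C * (1 + l.length : ℝ) ^ w k := by
  obtain ⟨B, hB1, hB⟩ := gen_bound γ S
  induction m with
  | zero =>
    refine ⟨1, le_rfl, fun l _ k hk => ?_⟩
    have := 𝒢.one_le_w k
    omega
  | succ m ih =>
    obtain ⟨C, hC1, hC⟩ := ih
    have hex : ∀ k : Fin h, ∃ C' : ℝ, 0 ≤ C' ∧ (w k = m + 1 →
        ∀ (x y : Fin h → ℝ) (n : ℝ), 1 ≤ n → (∀ i, |x i| ≤ B) →
        (∀ j, w j ≤ m → |y j| ≤ C * n ^ w j) →
        |MvPolynomial.eval (Sum.elim x y) (𝒢.Q k)| ≤ C' * n ^ m) := by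
      intro k
      by_cases hk : w k = m + 1
      · obtain ⟨C', h0, h1⟩ := inc 𝒢.one_le_w (hk ▸ 𝒢.mixed k) B C hB1 hC1
        exact ⟨C', h0, fun _ => h1⟩
      · exact ⟨0, le_rfl, fun h => absurd h hk⟩
    choose C' hC'0 hC' using hex
    refine ⟨C + ∑ k, (B + C' k), ?_, ?_⟩
    · have : 0 ≤ ∑ k, (B + C' k) := Finset.sum_nonneg (fun k _ => by have := hC'0 k; linarith)
      linarith
    intro l hl k hk
    have hsum : B + C' k ≤ ∑ k, (B + C' k) :=
      Finset.single_le_sum (f := fun k => B + C' k)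
        (fun k _ => by have := hC'0 k; linarith) (Finset.mem_univ k)
    have hsum0 : 0 ≤ B + C' k := by have := hC'0 k; linarith
    have hpos : (0 : ℝ) ≤ (1 + l.length : ℝ) ^ w k := by positivity
    rcases Nat.lt_or_ge (w k) (m + 1) with hlt | hge
    · refine (hC l hl k (by omega)).trans ?_
      apply mul_le_mul_of_nonneg_right _ hpos
      linarith
    · have hk' : w k = m + 1 := by omega
      have hind : ∀ l : List G, (∀ x ∈ l, x ∈ S ∨ x⁻¹ ∈ S) →
          |(γ.ξ l.prod k : ℝ)| ≤ (B + C' k) * (l.length * (1 + l.length : ℝ) ^ m) := by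
        intro l
        induction l with
        | nil =>
          intro _
          rw [List.prod_nil, hom_one_v]
          simp
        | cons s l ihl =>
          intro hsl
          have hs : ∀ i, |(γ.ξ s i : ℝ)| ≤ B := hB s (hsl s List.mem_cons_self)
          have hl' : ∀ x ∈ l, x ∈ S ∨ x⁻¹ ∈ S := fun x hx => hsl x (List.mem_cons_of_mem _ hx)
          have h1 := ihl hl'
          have hmul : (γ.ξ (s * l.prod) k : ℝ) = γ.ξ s k + γ.ξ l.prod k +
              MvPolynomial.eval (Sum.elim (γ.hom s).v (γ.hom l.prod).v) (𝒢.Q k) := by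
            have := PGrp.mul_v_apply (γ.hom s) (γ.hom l.prod) k
            rw [← map_mul] at this
            simpa only [GMap.hom_v] using this
          have h2 := hC' k hk' (γ.hom s).v (γ.hom l.prod).v (1 + l.length) (by simp)
            (fun i => by rw [GMap.hom_v]; exact hs i)
            (fun j hj => by rw [GMap.hom_v]; exact hC l hl' j hj)
          rw [List.prod_cons, hmul, List.length_cons]
          have h3 := abs_add_le ((γ.ξ s k : ℝ) + γ.ξ l.prod k)
            (MvPolynomial.eval (Sum.elim (γ.hom s).v (γ.hom l.prod).v) (𝒢.Q k))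
          have h4 := abs_add_le (γ.ξ s k : ℝ) (γ.ξ l.prod k : ℝ)
          have h5 : (1 : ℝ) ≤ (1 + l.length : ℝ) ^ m := one_le_pow₀ (by simp)
          have h6 : (1 + l.length : ℝ) ^ m ≤ (1 + (l.length + 1 : ℕ) : ℝ) ^ m := by
            apply pow_le_pow_left₀ (by positivity)
            push_cast
            linarith
          have h7 := hs k
          have h8 : (B + C' k) * (1 + l.length : ℝ) ^ m ≥ B + C' k * (1 + l.length : ℝ) ^ m := by
            nlinarith
          calc |(γ.ξ s k : ℝ) + γ.ξ l.prod k +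
                MvPolynomial.eval (Sum.elim (γ.hom s).v (γ.hom l.prod).v) (𝒢.Q k)|
              ≤ (B + C' k) * (l.length * (1 + l.length : ℝ) ^ m) +
                (B + C' k) * (1 + l.length : ℝ) ^ m := by linarith
            _ = (B + C' k) * ((l.length + 1) * (1 + l.length : ℝ) ^ m) := by ring
            _ ≤ (B + C' k) * ((l.length + 1 : ℕ) * (1 + (l.length + 1 : ℕ) : ℝ) ^ m) := by
                apply mul_le_mul_of_nonneg_left _ hsum0
                push_cast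
                push_cast at h6
                exact mul_le_mul_of_nonneg_left h6 (by positivity)
      refine (hind l hl).trans ?_
      have h9 : (l.length * (1 + l.length : ℝ) ^ m) ≤ (1 + l.length : ℝ) ^ w k := by
        rw [hk', pow_succ, mul_comm]
        apply mul_le_mul_of_nonneg_left _ (by positivity)
        linarith
      calc (B + C' k) * (l.length * (1 + l.length : ℝ) ^ m)
          ≤ (B + C' k) * (1 + l.length : ℝ) ^ w k := mul_le_mul_of_nonneg_left h9 hsum0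
        _ ≤ (C + ∑ k, (B + C' k)) * (1 + l.length : ℝ) ^ w k := by
            apply mul_le_mul_of_nonneg_right _ hpos
            linarith

end CoordUpAux

theorem coordUp {G : Type*} [Group G] {S : Finset G}
    (hS : Subgroup.closure (S : Set G) = ⊤) {h : ℕ} {w : Fin h → ℕ} {𝒢 : PGrp w}
    (γ : GMap G 𝒢) : CoordUp S γ := by
  obtain ⟨C, hC1, hC⟩ := CoordUpAux.claim γ S (∑ k, w k)
  refine ⟨C, by linarith, fun g k => ?_⟩
  obtain ⟨l, h1, h2, h3⟩ := Pool.Agent.MPf60e8a.wordLen_spec hS g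
  have h4 := hC l h2 k
    (Finset.single_le_sum (f := w) (fun _ _ => Nat.zero_le _) (Finset.mem_univ k))
  rw [h3, h1] at h4
  refine h4.trans ?_
  rw [mul_pow]
  apply mul_le_mul_of_nonneg_right _ (by positivity)
  exact le_self_pow₀ hC1 (Nat.one_le_iff_ne_zero.1 (𝒢.one_le_w k))

end Pool.Agent.MPf60e8aP
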