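import Mathlib
import Pool.Agent.Lib.MP_f60e8a_al.P.PDefs

/-!
# Module P11 DERIVP: the limit map is a homomorphism
-/

open scoped BigOperators commutatorElement

namespace Pool.Agent.MPf60e8aP

open Pool.Agent.MPf60e8a (wordLen sepIndex RF)
open Pool.Agent.MPf60e8aN (Alg NilSub LieLattice BchConst Describes upperNil IsUnipotent lg)

namespace DerivP

open Filter Topology

/-- there is no mixed monomial of weighted degree one -/
theorem mixed_one_eval {h : ℕ} {w : Fin h → ℕ} (hw : ∀ i, 1 ≤ w i)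
    {q : MvPolynomial (Fin h ⊕ Fin h) ℝ} (hq : MixedLe w 1 q) (a : Fin h ⊕ Fin h → ℝ) :
    MvPolynomial.eval a q = 0 := by
  have hs : q.support = ∅ := by
    rw [Finset.eq_empty_iff_forall_notMem]
    intro m hm
    obtain ⟨⟨i, hi⟩, ⟨j, hj⟩, hwt⟩ := hq m hm
    rw [Finsupp.weight_apply, Finsupp.sum] at hwt
    have hsub : ({Sum.inl i, Sum.inr j} : Finset (Fin h ⊕ Fin h)) ⊆ m.support := by
      intro k hk
      rw [Finset.mem_insert, Finset.mem_singleton] at hk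
      rcases hk with rfl | rfl <;> simpa [Finsupp.mem_support_iff]
    have h1 := Finset.sum_le_sum_of_subset
      (f := fun k => m k • (Sum.elim w w : Fin h ⊕ Fin h → ℕ) k) hsub
    have h2 : ∑ k ∈ ({Sum.inl i, Sum.inr j} : Finset (Fin h ⊕ Fin h)),
        m k • (Sum.elim w w : Fin h ⊕ Fin h → ℕ) k =
        m (Sum.inl i) * w i + m (Sum.inr j) * w j := by
      rw [Finset.sum_pair (by simp)]
      simp
    have h3 : 1 ≤ m (Sum.inl i) * w i := Nat.one_le_iff_ne_zero.2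
      (Nat.mul_ne_zero hi (Nat.one_le_iff_ne_zero.1 (hw i)))
    have h4 : 1 ≤ m (Sum.inr j) * w j := Nat.one_le_iff_ne_zero.2
      (Nat.mul_ne_zero hj (Nat.one_le_iff_ne_zero.1 (hw j)))
    have h5 : ∑ k ∈ m.support, m k • (Sum.elim w w : Fin h ⊕ Fin h → ℕ) k ≤ 1 := hwt
    omega
  rw [MvPolynomial.support_eq_empty.1 hs]
  simp

section basics

variable {h : ℕ} {w : Fin h → ℕ} {𝒢 : PGrp w}

theorem mul_v_one (x y : 𝒢.R) {k : Fin h} (hk : w k = 1) :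
    (x * y).v k = x.v k + y.v k := by
  rw [PGrp.mul_v_apply, mixed_one_eval 𝒢.one_le_w (hk ▸ 𝒢.mixed k), add_zero]

theorem inv_mul_v_one (x y : 𝒢.R) {k : Fin h} (hk : w k = 1) :
    (x⁻¹ * y).v k = y.v k - x.v k := by
  rw [mul_v_one _ _ hk, PGrp.inv_v, Pi.neg_apply]
  ring

/-- the dilation on the points of the group -/
def dl (𝒢 : PGrp w) (t : ℝ) (x : 𝒢.R) : 𝒢.R := ⟨dil w t x.v⟩

@[simp] theorem dl_v (t : ℝ) (x : 𝒢.R) : (dl 𝒢 t x).v = dil w t x.v := rfl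

theorem dl_mul (hom : Homog 𝒢) (t : ℝ) (x y : 𝒢.R) : dl 𝒢 t (x * y) = dl 𝒢 t x * dl 𝒢 t y :=
  PGrp.R.ext (hom t x.v y.v).symm

theorem dl_dl (s t : ℝ) (x : 𝒢.R) : dl 𝒢 s (dl 𝒢 t x) = dl 𝒢 (s * t) x := by
  refine PGrp.R.ext ?_
  funext k
  simp only [dl_v, dil, mul_pow, mul_assoc]

theorem dl_one' (x : 𝒢.R) : dl 𝒢 1 x = x := by
  refine PGrp.R.ext ?_
  funext k
  simp [dl_v, dil]

theorem dl_horiz {v : Fin h → ℝ} (hv : Horiz w v) (t : ℝ) :
    dl 𝒢 t (⟨v⟩ : 𝒢.R) = ⟨t • v⟩ := by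
  refine PGrp.R.ext ?_
  funext k
  simp only [dl_v, dil, Pi.smul_apply, smul_eq_mul]
  by_cases hk : w k = 1
  · rw [hk, pow_one]
  · rw [hv k hk, mul_zero, mul_zero]

theorem horiz_smul {v : Fin h → ℝ} (hv : Horiz w v) (t : ℝ) : Horiz w (t • v) := by
  intro k hk
  simp [hv k hk]

theorem horiz_neg {v : Fin h → ℝ} (hv : Horiz w v) : Horiz w (-v) := by
  intro k hk
  simp [hv k hk]

theorem mk_smul_mul (s t : ℝ) (x : Fin h → ℝ) :
    (⟨s • x⟩ : 𝒢.R) * ⟨t • x⟩ = ⟨(s + t) • x⟩ := PGrp.R.ext (𝒢.smul_smul s t x)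

theorem mk_zero : (⟨0⟩ : 𝒢.R) = 1 := rfl

theorem mk_inv (x : Fin h → ℝ) : (⟨x⟩ : 𝒢.R)⁻¹ = ⟨-x⟩ := rfl

/-- the law is differentiable in both variables -/
theorem differentiable_pmul (Q : Fin h → MvPolynomial (Fin h ⊕ Fin h) ℝ) :
    Differentiable ℝ (fun p : (Fin h → ℝ) × (Fin h → ℝ) => pmul Q p.1 p.2) := by
  rw [differentiable_pi]
  intro k
  unfold pmul
  have h1 : Differentiable ℝ (fun a : Fin h ⊕ Fin h → ℝ => MvPolynomial.eval a (Q k)) := by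
    have := (AnalyticOnNhd.eval_mvPolynomial (𝕜 := ℝ) (Q k)).differentiableOn
    exact differentiableOn_univ.1 this
  have h2 : Differentiable ℝ (fun p : (Fin h → ℝ) × (Fin h → ℝ) =>
      (Sum.elim p.1 p.2 : Fin h ⊕ Fin h → ℝ)) := by
    rw [differentiable_pi]
    rintro (i | i)
    · simp only [Sum.elim_inl]
      fun_prop
    · simp only [Sum.elim_inr]
      fun_prop
  have h3 := h1.comp h2
  have h4 : Differentiable ℝ (fun p : (Fin h → ℝ) × (Fin h → ℝ) => p.1 k + p.2 k) := by fun_prop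
  exact h4.add h3

theorem differentiable_mul3 (a b : 𝒢.R) :
    Differentiable ℝ (fun y : Fin h → ℝ => (a * (⟨y⟩ : 𝒢.R) * b).v) := by
  have h1 : Differentiable ℝ (fun y : Fin h → ℝ => pmul 𝒢.Q a.v y) :=
    (differentiable_pmul 𝒢.Q).comp (by fun_prop : Differentiable ℝ (fun y : Fin h → ℝ => (a.v, y)))
  have h2 : Differentiable ℝ (fun y : Fin h → ℝ => (pmul 𝒢.Q a.v y, b.v)) :=
    h1.prodMk (differentiable_const _)
  exact (differentiable_pmul 𝒢.Q).comp h2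

end basics

/-- a continuous solution of Jensen's equation is affine -/
theorem jensen (φ : ℝ → ℝ) (hc : Continuous φ)
    (h : ∀ s t, φ (s + 2 * t) - 2 * φ (s + t) + φ s = 0) (t : ℝ) :
    φ t = φ 0 + t * (φ 1 - φ 0) := by
  have hadd : ∀ a b, (φ (a + b) - φ 0) = (φ a - φ 0) + (φ b - φ 0) := by
    intro a b
    have h1 := h 0 ((a + b) / 2)
    have h2 := h a ((b - a) / 2)
    have e1 : (0 : ℝ) + 2 * ((a + b) / 2) = a + b := by ring
    have e2 : (0 : ℝ) + (a + b) / 2 = (a + b) / 2 := by ring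
    have e3 : a + 2 * ((b - a) / 2) = b := by ring
    have e4 : a + (b - a) / 2 = (a + b) / 2 := by ring
    rw [e1, e2] at h1
    rw [e3, e4] at h2
    linarith
  let ψ : ℝ →+ ℝ := AddMonoidHom.mk' (fun t => φ t - φ 0) hadd
  have hψ : Continuous ψ := by
    change Continuous (fun t => φ t - φ 0)
    fun_prop
  have h1 : ψ (t • (1 : ℝ)) = t • ψ 1 := map_real_smul ψ hψ t 1
  have h2 : ψ t = t * ψ 1 := by simpa using h1
  change φ t - φ 0 = t * (φ 1 - φ 0) at h2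
  linarith

section lim

variable {h₁ h₂ : ℕ} {w₁ : Fin h₁ → ℕ} {w₂ : Fin h₂ → ℕ} {𝒢₁ : PGrp w₁}
    {𝒢₂ : PGrp w₂} {F : 𝒢₁.R → 𝒢₂.R} {K : ℝ}

theorem horiz_bound {v : Fin h₁ → ℝ} (hv : Horiz w₁ v) (t : ℝ) (k : Fin h₁) :
    |(t • v) k| ≤ (‖v‖ * |t|) ^ w₁ k := by
  by_cases hk : w₁ k = 1
  · rw [hk, pow_one, Pi.smul_apply, smul_eq_mul, abs_mul, mul_comm]
    exact mul_le_mul_of_nonneg_right (norm_le_pi_norm v k) (abs_nonneg t)
  · rw [horiz_smul hv t k hk, abs_zero]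
    positivity

theorem step_bound (hF : LimMap 𝒢₁ 𝒢₂ F K) (x : 𝒢₁.R) {v : Fin h₁ → ℝ} (hv : Horiz w₁ v)
    (s t : ℝ) (k : Fin h₂) :
    |((F (x * ⟨s • v⟩))⁻¹ * F (x * ⟨t • v⟩)).v k| ≤ (K * (‖v‖ * |t - s|)) ^ w₂ k := by
  apply hF.lip _ _ _ (by positivity)
  intro k
  have e : (x * (⟨s • v⟩ : 𝒢₁.R))⁻¹ * (x * ⟨t • v⟩) = ⟨(t - s) • v⟩ := by
    rw [mul_inv_rev, mul_assoc, inv_mul_cancel_left, mk_inv, ← neg_smul, mk_smul_mul]
    congr 2
    ring
  rw [e]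
  exact horiz_bound hv _ k

/-- the map is affine along horizontal lines in the coordinates of weight one -/
theorem line (hF : LimMap 𝒢₁ 𝒢₂ F K) (x : 𝒢₁.R) {v : Fin h₁ → ℝ} (hv : Horiz w₁ v)
    {i : Fin h₂} (hi : w₂ i = 1) (t : ℝ) :
    (F (x * ⟨t • v⟩)).v i = (F x).v i + t * ((F (x * ⟨v⟩)).v i - (F x).v i) := by
  have hlip : ∀ s t : ℝ, |(F (x * ⟨t • v⟩)).v i - (F (x * ⟨s • v⟩)).v i| ≤
      (K * ‖v‖) * |t - s| := by
    intro s t
    have h1 := step_bound hF x hv s t i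
    rw [inv_mul_v_one _ _ hi, hi, pow_one] at h1
    linarith
  have hcont : Continuous (fun t : ℝ => (F (x * ⟨t • v⟩)).v i) := by
    have : LipschitzWith (Real.toNNReal (K * ‖v‖)) (fun t : ℝ => (F (x * ⟨t • v⟩)).v i) := by
      apply LipschitzWith.of_dist_le_mul
      intro a b
      rw [Real.dist_eq, Real.dist_eq,
        Real.coe_toNNReal _ (mul_nonneg hF.K_pos.le (norm_nonneg _))]
      exact hlip b a
    exact this.continuous
  have hj := jensen (fun t : ℝ => (F (x * ⟨t • v⟩)).v i) hcont (by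
    intro s t
    have h1 := hF.aff (x * ⟨s • v⟩) (t • v) (horiz_smul hv t) i hi
    rw [smul_smul, mul_assoc, mul_assoc, mk_smul_mul, mk_smul_mul] at h1
    exact h1) t
  simp only [zero_smul, one_smul, mk_zero, mul_one] at hj
  exact hj

/-- the slope does not depend on the base point -/
theorem slope_const (hom₁ : Homog 𝒢₁) (hF : LimMap 𝒢₁ 𝒢₂ F K) (x y : 𝒢₁.R)
    {v : Fin h₁ → ℝ} (hv : Horiz w₁ v) {i : Fin h₂} (hi : w₂ i = 1) :
    (F (x * ⟨v⟩)).v i - (F x).v i = (F (y * ⟨v⟩)).v i - (F y).v i := by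
  set z : 𝒢₁.R := x⁻¹ * y with hz
  set a := (F (x * ⟨v⟩)).v i - (F x).v i with ha
  set b := (F (y * ⟨v⟩)).v i - (F y).v i with hb
  -- the inner element tends to 1
  have hdil : Tendsto (fun t : ℝ => (dl 𝒢₁ t⁻¹ z).v) atTop (𝓝 0) := by
    rw [tendsto_pi_nhds]
    intro k
    simp only [dl_v, dil]
    have h1 : Tendsto (fun t : ℝ => (t⁻¹) ^ w₁ k * z.v k) atTop (𝓝 (0 ^ w₁ k * z.v k)) :=
      (tendsto_inv_atTop_zero.pow _).mul tendsto_const_nhds
    rw [zero_pow (Nat.one_le_iff_ne_zero.1 (𝒢₁.one_le_w k)), zero_mul] at h1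
    exact h1
  have hinner : Tendsto (fun t : ℝ => ((⟨-v⟩ : 𝒢₁.R) * (dl 𝒢₁ t⁻¹ z) * ⟨v⟩).v) atTop (𝓝 0) := by
    have h1 := ((differentiable_mul3 (𝒢 := 𝒢₁) ⟨-v⟩ ⟨v⟩).continuous.tendsto 0).comp hdil
    have h2 : ((⟨-v⟩ : 𝒢₁.R) * ⟨0⟩ * ⟨v⟩).v = 0 := by
      rw [mk_zero, mul_one, ← mk_inv, inv_mul_cancel]
      rfl
    rw [h2] at h1
    exact h1
  have key : ∀ ε : ℝ, 0 < ε → |b - a| ≤ K * ε := by
    intro ε hε
    have h1 : ∀ᶠ t : ℝ in atTop, ∀ k, |((⟨-v⟩ : 𝒢₁.R) * (dl 𝒢₁ t⁻¹ z) * ⟨v⟩).v k| ≤ ε ^ w₁ k := by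
      rw [eventually_all]
      intro k
      have h2 := (tendsto_pi_nhds.1 hinner k).abs
      rw [Pi.zero_apply, abs_zero] at h2
      exact (h2.eventually_lt_const (by positivity)).mono (fun t ht => ht.le)
    have h3 : ∀ᶠ t : ℝ in atTop, |(F y).v i - (F x).v i + t * (b - a)| ≤ K * ε * t := by
      filter_upwards [h1, eventually_gt_atTop 0] with t ht htpos
      have e : (x * (⟨t • v⟩ : 𝒢₁.R))⁻¹ * (y * ⟨t • v⟩) =
          dl 𝒢₁ t ((⟨-v⟩ : 𝒢₁.R) * (dl 𝒢₁ t⁻¹ z) * ⟨v⟩) := by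
        rw [dl_mul hom₁, dl_mul hom₁, dl_dl, mul_inv_cancel₀ htpos.ne', dl_one', dl_horiz hv,
          dl_horiz (horiz_neg hv), hz, mul_inv_rev, mk_inv, smul_neg]
        group
      have h4 := hF.lip (x * ⟨t • v⟩) (y * ⟨t • v⟩) (ε * t) (by positivity) (by
        intro k
        rw [e, dl_v, dil, abs_mul, abs_of_nonneg (by positivity), mul_pow, mul_comm]
        exact mul_le_mul_of_nonneg_right (ht k) (by positivity)) i
      rw [inv_mul_v_one _ _ hi, hi, pow_one, line hF x hv hi t, line hF y hv hi t] at h4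
      have e2 : (F y).v i + t * ((F (y * ⟨v⟩)).v i - (F y).v i) -
          ((F x).v i + t * ((F (x * ⟨v⟩)).v i - (F x).v i)) =
          (F y).v i - (F x).v i + t * (b - a) := by
        rw [ha, hb]; ring
      rw [e2] at h4
      linarith
    have h5 : Tendsto (fun t : ℝ => |((F y).v i - (F x).v i) * t⁻¹ + (b - a)|) atTop
        (𝓝 |((F y).v i - (F x).v i) * 0 + (b - a)|) :=
      ((tendsto_const_nhds.mul tendsto_inv_atTop_zero).add tendsto_const_nhds).abs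
    rw [mul_zero, zero_add] at h5
    refine le_of_tendsto h5 ?_
    filter_upwards [h3, eventually_gt_atTop 0] with t ht htpos
    have e : ((F y).v i - (F x).v i) * t⁻¹ + (b - a) =
        ((F y).v i - (F x).v i + t * (b - a)) * t⁻¹ := by
      field_simp
    rw [e, abs_mul, abs_of_pos (inv_pos.2 htpos)]
    rw [← div_eq_mul_inv, div_le_iff₀ htpos]
    exact ht
  have h0 : |b - a| ≤ 0 := by
    apply le_of_forall_pos_le_add
    intro ε hε
    have := key (ε / K) (div_pos hε hF.K_pos)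
    rw [mul_div_cancel₀ _ hF.K_pos.ne'] at this
    linarith
  have := abs_nonpos_iff.1 h0
  linarith

/-- the horizontal part of the derivative -/
noncomputable def slope (F : 𝒢₁.R → 𝒢₂.R) (v : Fin h₁ → ℝ) : Fin h₂ → ℝ :=
  fun i => if w₂ i = 1 then (F ⟨v⟩).v i else 0

theorem horiz_slope (v : Fin h₁ → ℝ) : Horiz w₂ (slope F v) := by
  intro i hi
  simp [slope, hi]

theorem line' (hom₁ : Homog 𝒢₁) (hF : LimMap 𝒢₁ 𝒢₂ F K) (x : 𝒢₁.R) {v : Fin h₁ → ℝ}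
    (hv : Horiz w₁ v) {i : Fin h₂} (hi : w₂ i = 1) (t : ℝ) :
    (F (x * ⟨t • v⟩)).v i = (F x).v i + t * slope F v i := by
  rw [line hF x hv hi t, slope_const hom₁ hF x 1 hv hi]
  simp [slope, hi, hF.one]

/-- the deviation is of second order -/
theorem dev_bound (hom₂ : Homog 𝒢₂) (hom₁ : Homog 𝒢₁) (hF : LimMap 𝒢₁ 𝒢₂ F K) (x : 𝒢₁.R)
    {v : Fin h₁ → ℝ} (hv : Horiz w₁ v) (k : Fin h₂) :
    ∃ B : ℝ, 0 ≤ B ∧ ∀ s t : ℝ, |t - s| ≤ 1 →
      |((F (x * ⟨s • v⟩))⁻¹ * F (x * ⟨t • v⟩) * (⟨-((t - s) • slope F v)⟩ : 𝒢₂.R)).v k| ≤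
        B * |t - s| ^ 2 := by
  -- compact set
  set D : Fin h₂ → ℝ := fun k => (K * ‖v‖) ^ w₂ k with hD
  have hcomp : IsCompact (Set.Icc (-D) D) := isCompact_Icc
  have hcont : Continuous (fun y : Fin h₂ → ℝ =>
      ((1 : 𝒢₂.R) * ⟨y⟩ * (⟨-slope F v⟩ : 𝒢₂.R)).v k) :=
    (continuous_apply k).comp (differentiable_mul3 _ _).continuous
  obtain ⟨B, hB⟩ := hcomp.exists_bound_of_continuousOn hcont.continuousOn
  refine ⟨|B|, abs_nonneg B, ?_⟩
  intro s t hst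
  by_cases hk : w₂ k = 1
  · have h1 : ((F (x * ⟨s • v⟩))⁻¹ * F (x * ⟨t • v⟩) *
        (⟨-((t - s) • slope F v)⟩ : 𝒢₂.R)).v k = 0 := by
      rw [mul_v_one _ _ hk, inv_mul_v_one _ _ hk, line' hom₁ hF x hv hk, line' hom₁ hF x hv hk]
      simp only [Pi.neg_apply, Pi.smul_apply, smul_eq_mul]
      ring
    rw [h1, abs_zero]
    positivity
  · rcases eq_or_ne t s with rfl | hne
    · rw [sub_self, zero_smul, neg_zero, mk_zero, mul_one, inv_mul_cancel]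
      simp
    · set τ := t - s with hτ
      have hτ0 : τ ≠ 0 := sub_ne_zero.2 hne
      set p := (F (x * ⟨s • v⟩))⁻¹ * F (x * ⟨t • v⟩) with hp
      have hpb : ∀ k, |p.v k| ≤ (K * (‖v‖ * |τ|)) ^ w₂ k := fun k => step_bound hF x hv s t k
      have hmem : (dl 𝒢₂ τ⁻¹ p).v ∈ Set.Icc (-D) D := by
        rw [Set.mem_Icc, Pi.le_def, Pi.le_def, ← forall_and]
        intro j
        have h1 : |(dl 𝒢₂ τ⁻¹ p).v j| ≤ D j := by
          rw [dl_v, dil, abs_mul, abs_pow, abs_inv]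
          calc |τ|⁻¹ ^ w₂ j * |p.v j| ≤ |τ|⁻¹ ^ w₂ j * (K * (‖v‖ * |τ|)) ^ w₂ j :=
                mul_le_mul_of_nonneg_left (hpb j) (by positivity)
            _ = D j := by
                rw [hD, ← mul_pow]
                have : |τ| ≠ 0 := abs_ne_zero.2 hτ0
                congr 1
                field_simp
        exact abs_le.1 h1
      have h2 := hB _ hmem
      have e : p * (⟨-(τ • slope F v)⟩ : 𝒢₂.R) =
          dl 𝒢₂ τ ((1 : 𝒢₂.R) * ⟨(dl 𝒢₂ τ⁻¹ p).v⟩ * (⟨-slope F v⟩ : 𝒢₂.R)) := by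
        have e1 : (⟨(dl 𝒢₂ τ⁻¹ p).v⟩ : 𝒢₂.R) = dl 𝒢₂ τ⁻¹ p := rfl
        rw [e1, one_mul, dl_mul hom₂, dl_dl, mul_inv_cancel₀ hτ0, dl_one',
          dl_horiz (horiz_neg (horiz_slope v)), smul_neg]
      rw [e, dl_v, dil, abs_mul, abs_pow, mul_comm]
      have hwk : 2 ≤ w₂ k := by
        have := 𝒢₂.one_le_w k
        omega
      have h3 : |τ| ^ w₂ k ≤ |τ| ^ 2 := pow_le_pow_of_le_one (abs_nonneg _) hst hwk
      rw [Real.norm_eq_abs] at h2
      exact mul_le_mul (h2.trans (le_abs_self B)) h3 (by positivity) (abs_nonneg B)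

/-- along a horizontal line the image is a one parameter group -/
theorem mul_horiz (hom₁ : Homog 𝒢₁) (hom₂ : Homog 𝒢₂) (hF : LimMap 𝒢₁ 𝒢₂ F K) (x : 𝒢₁.R)
    {v : Fin h₁ → ℝ} (hv : Horiz w₁ v) : F (x * ⟨v⟩) = F x * ⟨slope F v⟩ := by
  set δ : ℝ → (Fin h₂ → ℝ) := fun t => (F (x * ⟨t • v⟩) * (⟨-(t • slope F v)⟩ : 𝒢₂.R)).v with hδ
  have hder : ∀ s : ℝ, HasDerivAt δ 0 s := by
    intro s
    set q : ℝ → (Fin h₂ → ℝ) := fun t =>
      ((F (x * ⟨s • v⟩))⁻¹ * F (x * ⟨t • v⟩) * (⟨-((t - s) • slope F v)⟩ : 𝒢₂.R)).v with hq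
    have hqs : q s = 0 := by
      simp only [hq]
      rw [sub_self, zero_smul, neg_zero, mk_zero, mul_one, inv_mul_cancel]
      rfl
    have hqd : HasDerivAt q 0 s := by
      rw [hasDerivAt_pi]
      intro k
      rw [Pi.zero_apply, hasDerivAt_iff_isLittleO]
      obtain ⟨B, hB0, hB⟩ := dev_bound hom₂ hom₁ hF x hv k
      have h1 : (fun t => q t k - q s k - (t - s) • (0 : ℝ)) =O[𝓝 s] fun t => (t - s) ^ 2 := by
        apply Asymptotics.IsBigO.of_bound B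
        have : ∀ᶠ t in 𝓝 s, |t - s| ≤ 1 := by
          have := Metric.closedBall_mem_nhds s one_pos
          filter_upwards [this] with t ht
          rwa [Metric.mem_closedBall, Real.dist_eq] at ht
        filter_upwards [this] with t ht
        rw [hqs, Pi.zero_apply, smul_zero, sub_zero, sub_zero, Real.norm_eq_abs, norm_pow,
          Real.norm_eq_abs]
        exact hB s t ht
      refine h1.trans_isLittleO ?_
      have h2 : (fun t : ℝ => (t - s) ^ 2) =o[𝓝 s] fun t => (t - s) ^ 1 := by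
        have h3 : (fun y : ℝ => y ^ 2) =o[𝓝 0] fun y => y ^ 1 :=
          Asymptotics.isLittleO_pow_pow (by norm_num)
        have h4 : Tendsto (fun t : ℝ => t - s) (𝓝 s) (𝓝 0) := by
          have : Tendsto (fun t : ℝ => t - s) (𝓝 s) (𝓝 (s - s)) :=
            (continuous_id.sub continuous_const).tendsto s
          rwa [sub_self] at this
        exact h3.comp_tendsto h4
      simpa using h2
    have hΨ := (differentiable_mul3 (𝒢 := 𝒢₂) (F (x * ⟨s • v⟩)) ⟨-(s • slope F v)⟩ (q s)).hasFDerivAt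
    have hcomp := hΨ.comp_hasDerivAt s hqd
    rw [map_zero] at hcomp
    refine hcomp.congr_of_eventuallyEq (Eventually.of_forall (fun t => ?_))
    simp only [hδ, hq, Function.comp]
    congr 1
    have e1 : (⟨-((t - s) • slope F v)⟩ : 𝒢₂.R) * ⟨-(s • slope F v)⟩ = ⟨-(t • slope F v)⟩ := by
      rw [← neg_smul, ← neg_smul, ← neg_smul, mk_smul_mul]
      congr 2
      ring
    calc F (x * ⟨t • v⟩) * (⟨-(t • slope F v)⟩ : 𝒢₂.R)
        = F (x * ⟨t • v⟩) * ((⟨-((t - s) • slope F v)⟩ : 𝒢₂.R) * ⟨-(s • slope F v)⟩) := by rw [e1]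
      _ = F (x * ⟨s • v⟩) * ((F (x * ⟨s • v⟩))⁻¹ * F (x * ⟨t • v⟩) *
          (⟨-((t - s) • slope F v)⟩ : 𝒢₂.R)) * ⟨-(s • slope F v)⟩ := by group
  have hconst : δ 1 = δ 0 := by
    have hd : Differentiable ℝ δ := fun s => (hder s).differentiableAt
    exact is_const_of_deriv_eq_zero hd (fun s => (hder s).deriv) 1 0
  have h1 : F (x * ⟨v⟩) * (⟨-slope F v⟩ : 𝒢₂.R) = F x := by
    refine PGrp.R.ext ?_
    have h2 := hconst
    simp only [hδ, one_smul, zero_smul, neg_zero, mk_zero, mul_one] at h2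
    exact h2
  rw [← mk_inv, mul_inv_eq_iff_eq_mul] at h1
  exact h1

end lim

end DerivP

theorem limMap_hom {h₁ h₂ : ℕ} {w₁ : Fin h₁ → ℕ} {w₂ : Fin h₂ → ℕ} {𝒢₁ : PGrp w₁}
    {𝒢₂ : PGrp w₂} (hom₁ : Homog 𝒢₁) (hom₂ : Homog 𝒢₂)
    (hgen : Subgroup.closure {x : 𝒢₁.R | Horiz w₁ x.v} = ⊤) {F : 𝒢₁.R → 𝒢₂.R} {K : ℝ}
    (hF : LimMap 𝒢₁ 𝒢₂ F K) (x y : 𝒢₁.R) : F (x * y) = F x * F y := by
  have hy : y ∈ Subgroup.closure {x : 𝒢₁.R | Horiz w₁ x.v} := by rw [hgen]; trivial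
  have key : ∀ y ∈ Subgroup.closure {x : 𝒢₁.R | Horiz w₁ x.v}, ∀ x, F (x * y) = F x * F y := by
    intro y hy
    induction hy using Subgroup.closure_induction with
    | mem y hy =>
      intro x
      have h1 := DerivP.mul_horiz hom₁ hom₂ hF x (v := y.v) hy
      have h2 := DerivP.mul_horiz hom₁ hom₂ hF 1 (v := y.v) hy
      rw [one_mul, hF.one, one_mul] at h2
      rw [← h2] at h1
      exact h1
    | one => intro x; rw [mul_one, hF.one, mul_one]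
    | mul y z _ _ h1 h2 => intro x; rw [← mul_assoc, h2, h1, h2 y, mul_assoc]
    | inv y _ h1 =>
      intro x
      have h2 := h1 (x * y⁻¹)
      rw [inv_mul_cancel_right] at h2
      have h3 := h1 (y⁻¹)
      rw [inv_mul_cancel, hF.one] at h3
      have h4 : F y⁻¹ = (F y)⁻¹ := eq_inv_of_mul_eq_one_left h3.symm
      rw [h4, h2, mul_inv_cancel_right]
  exact key y hy x

end Pool.Agent.MPf60e8aP
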