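import Mathlib
import Pool.Agent.Lib.MP_f60e8a_al.P.PDefs

/-!
# Module P13 DNUMISO: the number `dnum` is invariant under real isomorphisms
-/

open scoped BigOperators commutatorElement

namespace Pool.Agent.MPf60e8aP

open Pool.Agent.MPf60e8a (wordLen sepIndex RF)
open Pool.Agent.MPf60e8aN (Alg NilSub LieLattice BchConst Describes upperNil IsUnipotent lg)

namespace DnumIso

variable {h h₁ h₂ : ℕ}

/-- the product as a bilinear map -/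
def mulL (R : Type*) [CommRing R] (𝔏 : Alg h) :
    (Fin h → R) →ₗ[R] (Fin h → R) →ₗ[R] (Fin h → R) :=
  LinearMap.mk₂ R (fun x y => 𝔏.mul x y)
    (fun x x' y => by
      funext k
      simp only [Alg.mul, Pi.add_apply, mul_add, add_mul, Finset.sum_add_distrib])
    (fun c x y => by
      funext k
      simp only [Alg.mul, Pi.smul_apply, smul_eq_mul, Finset.mul_sum]
      exact Finset.sum_congr rfl fun i _ => Finset.sum_congr rfl fun j _ => by ring)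
    (fun x y y' => by
      funext k
      simp only [Alg.mul, Pi.add_apply, mul_add, Finset.sum_add_distrib])
    (fun c x y => by
      funext k
      simp only [Alg.mul, Pi.smul_apply, smul_eq_mul, Finset.mul_sum]
      exact Finset.sum_congr rfl fun i _ => Finset.sum_congr rfl fun j _ => by ring)

@[simp] theorem mulL_apply (R : Type*) [CommRing R] (𝔏 : Alg h) (x y : Fin h → R) :
    mulL R 𝔏 x y = 𝔏.mul x y := rfl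

/-- real vectors as complex vectors -/
def cst (x : Fin h → ℝ) : Fin h → ℂ := fun i => (x i : ℂ)

theorem mul_cst (𝔏 : Alg h) (x y : Fin h → ℝ) : 𝔏.mul (cst x) (cst y) = cst (𝔏.mul x y) := by
  funext k
  simp only [Alg.mul, cst]
  push_cast
  rfl

theorem cst_single (i : Fin h) : cst (Pi.single i 1) = Pi.single i (1 : ℂ) := by
  funext k
  by_cases hk : k = i
  · subst hk; simp [cst]
  · simp [cst, hk]

/-- complexification of a real linear map -/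
noncomputable def cx (Φ : (Fin h₁ → ℝ) →ₗ[ℝ] (Fin h₂ → ℝ)) : (Fin h₁ → ℂ) →ₗ[ℂ] (Fin h₂ → ℂ) :=
  Matrix.toLin' ((LinearMap.toMatrix' Φ).map (algebraMap ℝ ℂ))

theorem cx_cst (Φ : (Fin h₁ → ℝ) →ₗ[ℝ] (Fin h₂ → ℝ)) (x : Fin h₁ → ℝ) :
    cx Φ (cst x) = cst (Φ x) := by
  have h1 : Φ x = (LinearMap.toMatrix' Φ).mulVec x := by
    rw [← Matrix.toLin'_apply, Matrix.toLin'_toMatrix']
  rw [h1]
  funext k
  simp only [cx, Matrix.toLin'_apply, Matrix.mulVec, dotProduct, Matrix.map_apply, cst]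
  push_cast
  rfl

theorem cx_comp {h₃ : ℕ} (Φ : (Fin h₁ → ℝ) →ₗ[ℝ] (Fin h₂ → ℝ))
    (Ψ : (Fin h₂ → ℝ) →ₗ[ℝ] (Fin h₃ → ℝ)) : cx Ψ ∘ₗ cx Φ = cx (Ψ ∘ₗ Φ) := by
  refine (Pi.basisFun ℂ (Fin h₁)).ext (fun i => ?_)
  rw [Pi.basisFun_apply, ← cst_single, LinearMap.comp_apply, cx_cst, cx_cst, cx_cst,
    LinearMap.comp_apply]

theorem cx_id : cx (LinearMap.id : (Fin h → ℝ) →ₗ[ℝ] (Fin h → ℝ)) = LinearMap.id := by
  refine (Pi.basisFun ℂ (Fin h)).ext (fun i => ?_)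
  rw [Pi.basisFun_apply, ← cst_single, cx_cst]
  rfl

/-- complexification of an equivalence -/
noncomputable def cxE (Φ : (Fin h₁ → ℝ) ≃ₗ[ℝ] (Fin h₂ → ℝ)) :
    (Fin h₁ → ℂ) ≃ₗ[ℂ] (Fin h₂ → ℂ) :=
  LinearEquiv.ofLinearMap (cx Φ.toLinearMap) (cx Φ.symm.toLinearMap)
    (by rw [cx_comp, LinearEquiv.comp_coe, LinearEquiv.symm_trans_self]; exact cx_id)
    (by rw [cx_comp, LinearEquiv.comp_coe, LinearEquiv.self_trans_symm]; exact cx_id)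

theorem cx_mul (𝔏₁ : Alg h₁) (𝔏₂ : Alg h₂) (Φ : (Fin h₁ → ℝ) →ₗ[ℝ] (Fin h₂ → ℝ))
    (c : ℝ) (hΦ : ∀ x y, Φ (𝔏₁.mul x y) = c • 𝔏₂.mul (Φ x) (Φ y)) (x y : Fin h₁ → ℂ) :
    cx Φ (𝔏₁.mul x y) = (c : ℂ) • 𝔏₂.mul (cx Φ x) (cx Φ y) := by
  have key : (mulL ℂ 𝔏₁).compr₂ (cx Φ) = (c : ℂ) • (mulL ℂ 𝔏₂).compl₁₂ (cx Φ) (cx Φ) := by
    refine (Pi.basisFun ℂ (Fin h₁)).ext (fun i => (Pi.basisFun ℂ (Fin h₁)).ext (fun j => ?_))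
    rw [Pi.basisFun_apply, Pi.basisFun_apply, ← cst_single, ← cst_single]
    simp only [LinearMap.compr₂_apply, LinearMap.smul_apply, LinearMap.compl₁₂_apply, mulL_apply]
    rw [mul_cst, cx_cst, cx_cst, cx_cst, mul_cst, hΦ]
    funext k
    simp [cst]
  have := congrArg (fun f => f x y) key
  simpa only [LinearMap.compr₂_apply, LinearMap.smul_apply, LinearMap.compl₁₂_apply,
    mulL_apply] using this

theorem ideal_map (𝔏₁ : Alg h₁) (𝔏₂ : Alg h₂) (E : (Fin h₁ → ℂ) ≃ₗ[ℂ] (Fin h₂ → ℂ)) (c : ℂ)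
    (hc : c ≠ 0) (hE : ∀ x y, E (𝔏₁.mul x y) = c • 𝔏₂.mul (E x) (E y))
    {J : Submodule ℂ (Fin h₁ → ℂ)} (hJ : 𝔏₁.IsIdeal J) :
    𝔏₂.IsIdeal (J.map (E : (Fin h₁ → ℂ) →ₗ[ℂ] (Fin h₂ → ℂ))) := by
  have hE' : ∀ x y, 𝔏₂.mul (E x) (E y) = c⁻¹ • E (𝔏₁.mul x y) := by
    intro x y
    rw [hE, smul_smul, inv_mul_cancel₀ hc, one_smul]
  rintro _ ⟨x, hx, rfl⟩ y
  have hy : y = E (E.symm y) := (E.apply_symm_apply y).symm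
  rw [hy]
  constructor
  · rw [LinearEquiv.coe_coe, hE']
    exact Submodule.smul_mem _ _ ⟨_, (hJ x hx (E.symm y)).1, rfl⟩
  · rw [LinearEquiv.coe_coe, hE']
    exact Submodule.smul_mem _ _ ⟨_, (hJ x hx (E.symm y)).2, rfl⟩

theorem aux (𝔏₁ : Alg h₁) (𝔏₂ : Alg h₂) (E : (Fin h₁ → ℂ) ≃ₗ[ℂ] (Fin h₂ → ℂ)) (c : ℂ)
    (hc : c ≠ 0) (hE : ∀ x y, E (𝔏₁.mul x y) = c • 𝔏₂.mul (E x) (E y)) (d : ℕ)
    (h : sInf {J : Submodule ℂ (Fin h₁ → ℂ) | 𝔏₁.IsIdeal J ∧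
      Module.finrank ℂ ((Fin h₁ → ℂ) ⧸ J) ≤ d} = ⊥) :
    sInf {J : Submodule ℂ (Fin h₂ → ℂ) | 𝔏₂.IsIdeal J ∧
      Module.finrank ℂ ((Fin h₂ → ℂ) ⧸ J) ≤ d} = ⊥ := by
  rw [eq_bot_iff]
  intro x hx
  rw [Submodule.mem_sInf] at hx
  have h1 : E.symm x ∈ sInf {J : Submodule ℂ (Fin h₁ → ℂ) | 𝔏₁.IsIdeal J ∧
      Module.finrank ℂ ((Fin h₁ → ℂ) ⧸ J) ≤ d} := by
    rw [Submodule.mem_sInf]
    rintro J ⟨hJ, hd⟩
    have h2 := hx (J.map (E : (Fin h₁ → ℂ) →ₗ[ℂ] (Fin h₂ → ℂ)))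
      ⟨ideal_map 𝔏₁ 𝔏₂ E c hc hE hJ, by
        rw [← (Submodule.Quotient.equiv J _ E rfl).finrank_eq]
        exact hd⟩
    obtain ⟨z, hz, hzx⟩ := h2
    rw [← hzx]
    simpa using hz
  rw [h, Submodule.mem_bot] at h1
  rw [Submodule.mem_bot]
  simpa using h1

end DnumIso

theorem dnum_congr {h₁ h₂ : ℕ} (𝔏₁ : Alg h₁) (𝔏₂ : Alg h₂)
    (Φ : (Fin h₁ → ℝ) ≃ₗ[ℝ] (Fin h₂ → ℝ)) (M₁ M₂ : ℕ) (hM₁ : 0 < M₁) (hM₂ : 0 < M₂)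
    (hΦ : ∀ x y, (M₁ : ℝ) • Φ (𝔏₁.mul x y) = (M₂ : ℝ) • 𝔏₂.mul (Φ x) (Φ y)) :
    𝔏₁.dnum = 𝔏₂.dnum := by
  have h1 : (M₁ : ℝ) ≠ 0 := by exact_mod_cast hM₁.ne'
  have h2 : (M₂ : ℝ) ≠ 0 := by exact_mod_cast hM₂.ne'
  set c : ℝ := (M₁ : ℝ)⁻¹ * M₂ with hc
  have hc0 : c ≠ 0 := mul_ne_zero (inv_ne_zero h1) h2
  have hΦ' : ∀ x y, Φ (𝔏₁.mul x y) = c • 𝔏₂.mul (Φ x) (Φ y) := by
    intro x y
    rw [hc, mul_smul, ← hΦ, smul_smul, inv_mul_cancel₀ h1, one_smul]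
  have hE : ∀ x y, DnumIso.cxE Φ (𝔏₁.mul x y) =
      (c : ℂ) • 𝔏₂.mul (DnumIso.cxE Φ x) (DnumIso.cxE Φ y) :=
    DnumIso.cx_mul 𝔏₁ 𝔏₂ Φ.toLinearMap c hΦ'
  have hcC : (c : ℂ) ≠ 0 := by exact_mod_cast hc0
  have hE' : ∀ x y, (DnumIso.cxE Φ).symm (𝔏₂.mul x y) =
      (c : ℂ)⁻¹ • 𝔏₁.mul ((DnumIso.cxE Φ).symm x) ((DnumIso.cxE Φ).symm y) := by
    intro x y
    rw [LinearEquiv.symm_apply_eq, map_smul, hE, LinearEquiv.apply_symm_apply,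
      LinearEquiv.apply_symm_apply, smul_smul, inv_mul_cancel₀ hcC, one_smul]
  unfold Alg.dnum
  congr 1
  ext d
  exact ⟨DnumIso.aux 𝔏₁ 𝔏₂ _ _ hcC hE d, DnumIso.aux 𝔏₂ 𝔏₁ _ _ (inv_ne_zero hcC) hE' d⟩

end Pool.Agent.MPf60e8aP
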