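import Mathlib
import Pool.Agent.Lib.MP_f60e8a_al.P.PDefs

/-!
# Module ENERGYG: base points via the energy (parallelogram) argument
-/

open scoped BigOperators commutatorElement

namespace Pool.Agent.MPf60e8aP

open Pool.Agent.MPf60e8a (wordLen sepIndex RF Bdd)
open Pool.Agent.MPf60e8aN (Alg)

namespace EnergyG

variable {G : Type*} [Group G] {q : ℕ}

/-- The difference quotient. -/
noncomputable def U (P : G → Fin q → ℝ) (a : G) (n : ℕ) (g : G) :
    Fin q → ℝ := ((2 : ℝ) ^ n)⁻¹ • (P (g * a ^ (2 ^ n)) - P g)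

theorem U_succ (P : G → Fin q → ℝ) (a : G) (n : ℕ) (g : G) (i : Fin q) :
    U P a (n + 1) g i = (U P a n g i + U P a n (g * a ^ (2 ^ n)) i) / 2 := by
  have h2 : g * a ^ (2 ^ (n + 1)) = g * a ^ (2 ^ n) * a ^ (2 ^ n) := by
    rw [pow_succ, pow_mul, pow_two, mul_assoc]
  simp only [U, Pi.smul_apply, Pi.sub_apply, smul_eq_mul, h2]
  have h : ((2 : ℝ) ^ n) ≠ 0 := by positivity
  rw [pow_succ]
  field_simp
  ring

/-- The square deviation. -/
noncomputable def dev (P : G → Fin q → ℝ) (a : G) (n : ℕ) (g : G) : ℝ :=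
  ∑ i, (U P a n (g * a ^ (2 ^ n)) i - U P a n g i) ^ 2

theorem dev_nonneg (P : G → Fin q → ℝ) (a : G) (n : ℕ) (g : G) :
    0 ≤ dev P a n g := Finset.sum_nonneg fun _ _ => sq_nonneg _

/-- The pointwise energy. -/
noncomputable def en (P : G → Fin q → ℝ) (a : G) (n : ℕ) (g : G) : ℝ :=
  ∑ i, (U P a n g i) ^ 2

theorem en_nonneg (P : G → Fin q → ℝ) (a : G) (n : ℕ) (g : G) :
    0 ≤ en P a n g := Finset.sum_nonneg fun _ _ => sq_nonneg _

theorem en_succ (P : G → Fin q → ℝ) (a : G) (n : ℕ) (g : G) :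
    en P a (n + 1) g + (1 / 4) * dev P a n g
      = (1 / 2) * en P a n g + (1 / 2) * en P a n (g * a ^ (2 ^ n)) := by
  simp only [en, dev, U_succ, Finset.mul_sum, ← Finset.sum_add_distrib]
  refine Finset.sum_congr rfl fun i _ => ?_
  ring

theorem norm_pow_le {P : G → Fin q → ℝ} {a : G} {K : ℝ} (hK : ∀ x, ‖P (x * a) - P x‖ ≤ K)
    (n : ℕ) (x : G) : ‖P (x * a ^ n) - P x‖ ≤ n * K := by
  induction n with
  | zero => simp
  | succ n ih =>
    have h1 : P (x * a ^ (n + 1)) - P x =
        (P (x * a ^ n * a) - P (x * a ^ n)) + (P (x * a ^ n) - P x) := by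
      rw [pow_succ, mul_assoc]
      abel
    rw [h1]
    refine (norm_add_le _ _).trans ?_
    have := hK (x * a ^ n)
    push_cast
    linarith

theorem U_bound {P : G → Fin q → ℝ} {a : G} {K : ℝ} (hK : ∀ x, ‖P (x * a) - P x‖ ≤ K) (n : ℕ)
    (g : G) (i : Fin q) : |U P a n g i| ≤ K := by
  have h1 := norm_pow_le hK (2 ^ n) g
  have h3 : |P (g * a ^ (2 ^ n)) i - P g i| ≤ ‖P (g * a ^ (2 ^ n)) - P g‖ :=
    norm_le_pi_norm (P (g * a ^ (2 ^ n)) - P g) i
  have h4 : |U P a n g i| = ((2 : ℝ) ^ n)⁻¹ * |P (g * a ^ (2 ^ n)) i - P g i| := by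
    simp only [U, Pi.smul_apply, Pi.sub_apply, smul_eq_mul, abs_mul]
    rw [abs_of_pos (by positivity)]
  rw [h4, inv_mul_le_iff₀ (by positivity)]
  refine h3.trans (h1.trans ?_)
  push_cast
  exact le_rfl

theorem en_bound {P : G → Fin q → ℝ} {a : G} {K : ℝ} (hK : ∀ x, ‖P (x * a) - P x‖ ≤ K) (n : ℕ)
    (g : G) : |en P a n g| ≤ q * K ^ 2 := by
  rw [abs_of_nonneg (en_nonneg _ _ _ _)]
  unfold en
  calc ∑ i, (U P a n g i) ^ 2 ≤ ∑ _i : Fin q, K ^ 2 := by
        refine Finset.sum_le_sum fun i _ => ?_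
        rw [← sq_abs]
        exact pow_le_pow_left₀ (abs_nonneg _) (U_bound hK n g i) 2
    _ = q * K ^ 2 := by simp

theorem dev_bound {P : G → Fin q → ℝ} {a : G} {K : ℝ} (hK : ∀ x, ‖P (x * a) - P x‖ ≤ K) (n : ℕ)
    (g : G) : |dev P a n g| ≤ q * (2 * K) ^ 2 := by
  rw [abs_of_nonneg (dev_nonneg _ _ _ _)]
  unfold dev
  calc ∑ i, (U P a n (g * a ^ (2 ^ n)) i - U P a n g i) ^ 2
      ≤ ∑ _i : Fin q, (2 * K) ^ 2 := by
        refine Finset.sum_le_sum fun i _ => ?_
        rw [← sq_abs]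
        refine pow_le_pow_left₀ (abs_nonneg _) ?_ 2
        have h1 := U_bound hK n g i
        have h2 := U_bound hK n (g * a ^ (2 ^ n)) i
        have h3 := abs_sub (U P a n (g * a ^ (2 ^ n)) i) (U P a n g i)
        linarith
    _ = q * (2 * K) ^ 2 := by simp

end EnergyG

open EnergyG in
theorem exists_baseG {G : Type*} [Group G] (hM : HasMeanG G) (q : ℕ) : HasBaseG G q := by
  intro P hP Y a
  obtain ⟨M, hadd, hsmul, hpos, hone, hinv⟩ := hM
  choose K hK using hP
  -- bounded functions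
  have ben : ∀ v n, Bdd (en P v n) := fun v n => ⟨_, en_bound (hK v) n⟩
  have bdev : ∀ v n, Bdd (dev P v n) := fun v n => ⟨_, dev_bound (hK v) n⟩
  have bmul : ∀ (c : ℝ) (φ : G → ℝ), Bdd φ → Bdd (fun x => c * φ x) := by
    rintro c φ ⟨C, hC⟩
    exact ⟨|c| * C, fun x => by
      rw [abs_mul]
      exact mul_le_mul_of_nonneg_left (hC x) (abs_nonneg _)⟩
  have badd : ∀ (φ ψ : G → ℝ), Bdd φ → Bdd ψ → Bdd (fun x => φ x + ψ x) := by
    rintro φ ψ ⟨C, hC⟩ ⟨D, hD⟩
    exact ⟨C + D, fun x => (abs_add_le _ _).trans (add_le_add (hC x) (hD x))⟩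
  have bshift : ∀ (φ : G → ℝ) (g : G), Bdd φ → Bdd (fun x => φ (x * g)) := by
    rintro φ g ⟨C, hC⟩
    exact ⟨C, fun x => hC _⟩
  -- the energy decreases
  have hE : ∀ v n, M (en P v (n + 1)) + (1 / 4) * M (dev P v n) = M (en P v n) := by
    intro v n
    have h1 : M (fun x => en P v (n + 1) x + (1 / 4) * dev P v n x)
        = M (fun x => (1 / 2) * en P v n x + (1 / 2) * en P v n (x * v ^ (2 ^ n))) := by
      congr 1
      funext x
      exact en_succ P v n x
    rw [hadd _ _ (ben v _) (bmul _ _ (bdev v n)), hsmul _ _ (bdev v n),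
      hadd _ _ (bmul _ _ (ben v n)) (bmul _ _ (bshift _ _ (ben v n))), hsmul _ _ (ben v n),
      hsmul _ _ (bshift _ _ (ben v n)), hinv _ _ (ben v n)] at h1
    linarith
  have hEnn : ∀ v n, 0 ≤ M (en P v n) := fun v n => hpos _ (ben v n) (en_nonneg P v n)
  have hDnn : ∀ v n, 0 ≤ M (dev P v n) := fun v n => hpos _ (bdev v n) (dev_nonneg P v n)
  have hDt : ∀ v, Filter.Tendsto (fun n => M (dev P v n)) Filter.atTop (nhds 0) := by
    intro v
    have hanti : Antitone (fun n => M (en P v n)) := antitone_nat_of_succ_le fun n => by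
      have := hE v n
      have := hDnn v n
      linarith
    have hlim := tendsto_atTop_ciInf hanti ⟨0, by rintro _ ⟨n, rfl⟩; exact hEnn v n⟩
    have hlim' := hlim.comp (Filter.tendsto_add_atTop_nat 1)
    have := (hlim.sub hlim').const_mul 4
    simp only [sub_self, mul_zero] at this
    refine this.congr fun n => ?_
    have := hE v n
    simp only [Function.comp]
    linarith
  -- countably many triples
  obtain ⟨e, he⟩ : ∃ e : ℕ → ℕ × ℕ × ℕ, Function.Surjective e := exists_surjective_nat _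
  set D : ℕ → ℕ → G → ℝ := fun j i x =>
    dev P (a (e i).2.1) (j - (e i).2.2) (x * Y (e i).1 j) with hDdef
  set B : ℕ → ℝ := fun i => q * (2 * K (a (e i).2.1)) ^ 2 with hBdef
  have hB0 : ∀ i, 0 ≤ B i := fun i => by positivity
  have hDB : ∀ j i x, |D j i x| ≤ B i := fun j i x => dev_bound (hK _) _ _
  have hD0 : ∀ j i x, 0 ≤ D j i x := fun j i x => dev_nonneg _ _ _ _
  have bD : ∀ j i, Bdd (D j i) := fun j i => ⟨_, hDB j i⟩
  have hMD : ∀ i, Filter.Tendsto (fun j => M (D j i)) Filter.atTop (nhds 0) := by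
    intro i
    have h1 : ∀ j, M (D j i) = M (dev P (a (e i).2.1) (j - (e i).2.2)) := fun j =>
      hinv _ _ (bdev _ _)
    simp only [h1]
    exact (hDt (a (e i).2.1)).comp (Filter.tendsto_sub_atTop_nat _)
  have hmono : ∀ (φ : G → ℝ) (c : ℝ), Bdd φ → (∀ x, φ x ≤ c) → M φ ≤ c := by
    intro φ c hφ h
    have h1 : 0 ≤ M (fun x => c * 1 + (-1) * φ x) :=
      hpos _ (badd _ _ ⟨|c|, fun x => by simp⟩ (bmul _ _ hφ)) fun x => by
        have := h x
        linarith
    have b1 : Bdd (fun _ : G => (1 : ℝ)) := ⟨1, fun x => by simp⟩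
    rw [hadd _ _ (bmul _ _ b1) (bmul _ _ hφ), hsmul _ _ b1, hsmul _ _ hφ, hone] at h1
    linarith
  have hmono' : ∀ (φ : G → ℝ) (c : ℝ), Bdd φ → (∀ x, c ≤ φ x) → c ≤ M φ := by
    intro φ c hφ h
    have h1 := hmono (fun x => (-1) * φ x) (-c) (bmul _ _ hφ) fun x => by
      have := h x
      linarith
    rw [hsmul _ _ hφ] at h1
    linarith
  set w : ℕ → ℝ := fun i => (1 / 2) ^ i / (B i + 1) with hw
  have hw0 : ∀ i, 0 < w i := fun i => by
    have := hB0 i
    positivity
  have hwD : ∀ j i, w i * M (D j i) ≤ (1 / 2) ^ i := by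
    intro j i
    have h1 : M (D j i) ≤ B i := hmono _ _ (bD j i) fun x => (le_abs_self _).trans (hDB j i x)
    have h2 := hB0 i
    calc w i * M (D j i) ≤ w i * (B i + 1) := by
          have := hw0 i
          gcongr
          linarith
      _ = (1 / 2) ^ i := by
          rw [hw]
          field_simp
  have hMD0 : ∀ j i, 0 ≤ M (D j i) := fun j i => hpos _ (bD j i) (hD0 j i)
  -- finite weighted sums
  have bsum : ∀ j N, Bdd (fun x => ∑ i ∈ Finset.range N, w i * D j i x) := by
    intro j N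
    induction N with
    | zero => exact ⟨0, fun x => by simp⟩
    | succ N ih =>
      simp only [Finset.sum_range_succ]
      exact badd _ _ ih (bmul _ _ (bD j N))
  have hsum : ∀ j N, M (fun x => ∑ i ∈ Finset.range N, w i * D j i x)
      = ∑ i ∈ Finset.range N, w i * M (D j i) := by
    intro j N
    induction N with
    | zero =>
      have := hsmul 0 (fun _ => 1) ⟨1, fun x => by simp⟩
      simpa using this
    | succ N ih =>
      simp only [Finset.sum_range_succ]
      rw [hadd _ _ (bsum j N) (bmul _ _ (bD j N)), ih, hsmul _ _ (bD j N)]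
  have hWt : Filter.Tendsto (fun j => M (fun x => ∑ i ∈ Finset.range j, w i * D j i x))
      Filter.atTop (nhds 0) := by
    simp only [hsum]
    have h1 : ∀ j, ∑ i ∈ Finset.range j, w i * M (D j i)
        = ∑' i, (if i < j then w i * M (D j i) else 0) := by
      intro j
      rw [tsum_eq_sum (s := Finset.range j) (fun i hi => by
        rw [Finset.mem_range] at hi
        rw [if_neg hi])]
      refine Finset.sum_congr rfl fun i hi => ?_
      rw [Finset.mem_range] at hi
      rw [if_pos hi]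
    simp only [h1]
    have hterm : ∀ i, Filter.Tendsto (fun j : ℕ => (if i < j then w i * M (D j i) else 0))
        Filter.atTop (nhds 0) := by
      intro i
      refine squeeze_zero (g := fun j => w i * M (D j i)) ?_ ?_ ?_
      · intro j
        split_ifs
        · exact mul_nonneg (hw0 i).le (hMD0 j i)
        · exact le_rfl
      · intro j
        split_ifs
        · exact le_rfl
        · exact mul_nonneg (hw0 i).le (hMD0 j i)
      · simpa using (hMD i).const_mul (w i)
    have hdom : ∀ᶠ j : ℕ in Filter.atTop, ∀ i : ℕ,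
        ‖(if i < j then w i * M (D j i) else 0)‖ ≤ (1 / 2 : ℝ) ^ i := by
      refine Filter.Eventually.of_forall fun j i => ?_
      rw [Real.norm_eq_abs]
      split_ifs
      · rw [abs_of_nonneg (mul_nonneg (hw0 i).le (hMD0 j i))]
        exact hwD j i
      · simp
    have key : Filter.Tendsto (fun j : ℕ => ∑' i, (if i < j then w i * M (D j i) else 0))
        Filter.atTop (nhds (∑' _ : ℕ, (0 : ℝ))) := by
      refine tendsto_tsum_of_dominated_convergence (bound := fun i => (1 / 2 : ℝ) ^ i)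
        summable_geometric_two ?_ ?_
      · exact hterm
      · exact hdom
    simpa using key
  -- the base points
  have hex : ∀ j : ℕ, ∃ g : G, ∑ i ∈ Finset.range j, w i * D j i g
      ≤ M (fun x => ∑ i ∈ Finset.range j, w i * D j i x) + 1 / ((j : ℝ) + 1) := by
    intro j
    by_contra hcon
    push Not at hcon
    have h1 := hmono' _ _ (bsum j j) fun x => (hcon x).le
    have h2 : (0 : ℝ) < 1 / ((j : ℝ) + 1) := by positivity
    linarith
  choose g hg using hex
  refine ⟨g, fun y v l => ?_⟩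
  obtain ⟨i, hi⟩ := he (y, v, l)
  have hWg : Filter.Tendsto (fun j => ∑ i ∈ Finset.range j, w i * D j i (g j))
      Filter.atTop (nhds 0) := by
    refine squeeze_zero (g := fun j => M (fun x => ∑ i ∈ Finset.range j, w i * D j i x)
      + 1 / ((j : ℝ) + 1)) ?_ hg ?_
    · intro j
      exact Finset.sum_nonneg fun i _ => mul_nonneg (hw0 i).le (hD0 j i _)
    · simpa using hWt.add tendsto_one_div_add_atTop_nhds_zero_nat
  have hDg : Filter.Tendsto (fun j => D j i (g j)) Filter.atTop (nhds 0) := by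
    have h1 : Filter.Tendsto (fun j => (w i)⁻¹ * ∑ i ∈ Finset.range j, w i * D j i (g j))
        Filter.atTop (nhds 0) := by
      simpa using hWg.const_mul (w i)⁻¹
    refine squeeze_zero' (Filter.Eventually.of_forall fun j => hD0 j i _) ?_ h1
    filter_upwards [Filter.eventually_gt_atTop i] with j hj
    rw [le_inv_mul_iff₀ (hw0 i)]
    exact Finset.single_le_sum (f := fun i => w i * D j i (g j))
      (fun i _ => mul_nonneg (hw0 i).le (hD0 j i _)) (Finset.mem_range.mpr hj)
  rw [tendsto_zero_iff_norm_tendsto_zero]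
  have hs : Filter.Tendsto (fun j => Real.sqrt (D j i (g j))) Filter.atTop (nhds 0) := by
    have := (Real.continuous_sqrt.tendsto 0).comp hDg
    rw [Real.sqrt_zero] at this
    exact this
  refine squeeze_zero (fun _ => norm_nonneg _) (fun j => ?_) hs
  simp only [hDdef, hi]
  rw [pi_norm_le_iff_of_nonneg (Real.sqrt_nonneg _)]
  intro t
  rw [Real.norm_eq_abs]
  refine Real.abs_le_sqrt ?_
  set x := g j * Y y j with hx
  have h1 : ((2 : ℝ) ^ (j - l))⁻¹ •
          (P (x * a v ^ (2 * 2 ^ (j - l)))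
            - (2 : ℝ) • P (x * a v ^ (2 ^ (j - l))) + P x)
      = U P (a v) (j - l) (x * a v ^ (2 ^ (j - l))) - U P (a v) (j - l) x := by
    have e1 : x * a v ^ (2 * 2 ^ (j - l)) = x * a v ^ (2 ^ (j - l)) * a v ^ (2 ^ (j - l)) := by
      rw [two_mul, pow_add, ← mul_assoc]
    simp only [U, e1, two_smul, ← smul_sub]
    congr 1
    abel
  rw [h1]
  exact Finset.single_le_sum (f := fun t =>
    (U P (a v) (j - l) (x * a v ^ (2 ^ (j - l))) t - U P (a v) (j - l) x t) ^ 2)
    (fun _ _ => sq_nonneg _) (Finset.mem_univ t)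

end Pool.Agent.MPf60e8aP
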