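import Mathlib
import Pool.Agent.Lib.MP_f60e8a_al.P.PDefs

/-!
# MP_f60e8a_al, part P, module LIMG: the graded limit group
-/

open scoped BigOperators commutatorElement

namespace Pool.Agent.MPf60e8aP

open Pool.Agent.MPf60e8a (wordLen sepIndex RF)
open Pool.Agent.MPf60e8aN (Alg NilSub LieLattice BchConst Describes upperNil IsUnipotent lg)

namespace LimG

open Filter Topology

variable {h : ℕ} {w : Fin h → ℕ}

/-! ### dilations -/

theorem dil_dil (s t : ℝ) (x : Fin h → ℝ) : dil w s (dil w t x) = dil w (s * t) x := by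
  funext k
  simp only [dil, mul_pow]
  ring

theorem dil_one (x : Fin h → ℝ) : dil w 1 x = x := by
  funext k
  simp [dil]

theorem dil_smul (t c : ℝ) (x : Fin h → ℝ) : dil w t (c • x) = c • dil w t x := by
  funext k
  simp only [dil, Pi.smul_apply, smul_eq_mul]
  ring

theorem dil_neg (t : ℝ) (x : Fin h → ℝ) : dil w t (-x) = -dil w t x := by
  funext k
  simp only [dil, Pi.neg_apply]
  ring

theorem dil_inv_cancel {t : ℝ} (ht : t ≠ 0) (x : Fin h → ℝ) : dil w t⁻¹ (dil w t x) = x := by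
  rw [dil_dil, inv_mul_cancel₀ ht, dil_one]

theorem dil_cancel_inv {t : ℝ} (ht : t ≠ 0) (x : Fin h → ℝ) : dil w t (dil w t⁻¹ x) = x := by
  rw [dil_dil, mul_inv_cancel₀ ht, dil_one]

/-! ### evaluation of monomials -/

theorem elim_dil (t : ℝ) (x y : Fin h → ℝ) (i : Fin h ⊕ Fin h) :
    (Sum.elim (dil w t x) (dil w t y) : Fin h ⊕ Fin h → ℝ) i =
      t ^ (Sum.elim w w i) * (Sum.elim x y : Fin h ⊕ Fin h → ℝ) i := by
  cases i <;> rfl

theorem prod_dil (t : ℝ) (x y : Fin h → ℝ) (m : Fin h ⊕ Fin h →₀ ℕ) :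
    ∏ i, (Sum.elim (dil w t x) (dil w t y) : Fin h ⊕ Fin h → ℝ) i ^ m i =
      t ^ (Finsupp.weight (Sum.elim w w) m) *
        ∏ i, (Sum.elim x y : Fin h ⊕ Fin h → ℝ) i ^ m i := by
  have h1 : Finsupp.weight (Sum.elim w w) m = ∑ i, Sum.elim w w i * m i := by
    rw [Finsupp.weight_apply, Finsupp.sum_fintype _ _ (by simp)]
    refine Finset.sum_congr rfl fun i _ => ?_
    rw [smul_eq_mul, mul_comm]
  rw [h1, ← Finset.prod_pow_eq_pow_sum, ← Finset.prod_mul_distrib]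
  refine Finset.prod_congr rfl fun i _ => ?_
  rw [elim_dil, mul_pow, pow_mul]

/-- the part of weighted degree `d` -/
noncomputable def top (w : Fin h → ℕ) (d : ℕ) (q : MvPolynomial (Fin h ⊕ Fin h) ℝ) :
    MvPolynomial (Fin h ⊕ Fin h) ℝ :=
  MvPolynomial.weightedHomogeneousComponent (Sum.elim w w) d q

theorem mem_top {d : ℕ} {q : MvPolynomial (Fin h ⊕ Fin h) ℝ} {m : Fin h ⊕ Fin h →₀ ℕ}
    (hm : m ∈ (top w d q).support) : m ∈ q.support ∧ Finsupp.weight (Sum.elim w w) m = d := by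
  rw [MvPolynomial.mem_support_iff, top, MvPolynomial.coeff_weightedHomogeneousComponent] at hm
  split_ifs at hm with h1
  · exact ⟨MvPolynomial.mem_support_iff.2 hm, h1⟩
  · exact absurd rfl hm

theorem eval_top (d : ℕ) (q : MvPolynomial (Fin h ⊕ Fin h) ℝ) (z : Fin h ⊕ Fin h → ℝ) :
    MvPolynomial.eval z (top w d q) = ∑ m ∈ q.support,
      if Finsupp.weight (Sum.elim w w) m = d then q.coeff m * ∏ i, z i ^ m i else 0 := by
  rw [MvPolynomial.eval_eq']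
  have h1 : (top w d q).support ⊆ q.support := fun m hm => (mem_top hm).1
  rw [Finset.sum_subset h1]
  · refine Finset.sum_congr rfl fun m _ => ?_
    rw [top, MvPolynomial.coeff_weightedHomogeneousComponent]
    split_ifs
    · rfl
    · rw [zero_mul]
  · intro m _ hm
    rw [MvPolynomial.notMem_support_iff.1 hm, zero_mul]

theorem tendsto_pow_two {l : Filter ℕ} (hl : l ≤ atTop) :
    Tendsto (fun j : ℕ => ((2 : ℝ) ^ j)⁻¹) l (𝓝 0) := by
  have h1 : Tendsto (fun j : ℕ => ((2 : ℝ) ^ j)⁻¹) atTop (𝓝 0) := by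
    have := tendsto_pow_atTop_nhds_zero_of_lt_one (r := (1 / 2 : ℝ)) (by norm_num) (by norm_num)
    refine this.congr fun j => ?_
    rw [one_div, inv_pow]
  exact h1.mono_left hl

/-- scaling factors -/
theorem tendsto_scale {l : Filter ℕ} (hl : l ≤ atTop) {a d : ℕ} (had : a ≤ d) :
    Tendsto (fun j : ℕ => (((2 : ℝ) ^ j)⁻¹) ^ d * ((2 : ℝ) ^ j) ^ a) l
      (𝓝 (if a = d then 1 else 0)) := by
  have h1 : ∀ j : ℕ, (((2 : ℝ) ^ j)⁻¹) ^ d * ((2 : ℝ) ^ j) ^ a = (((2 : ℝ) ^ j)⁻¹) ^ (d - a) := by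
    intro j
    have h2 : ((2 : ℝ) ^ j) ≠ 0 := by positivity
    obtain ⟨e, rfl⟩ : ∃ e, d = e + a := ⟨d - a, by omega⟩
    rw [Nat.add_sub_cancel, pow_add, mul_assoc, ← mul_pow, inv_mul_cancel₀ h2, one_pow, mul_one]
  simp only [h1]
  split_ifs with h2
  · subst h2
    simp only [Nat.sub_self, pow_zero]
    exact tendsto_const_nhds
  · have h3 := (tendsto_pow_two hl).pow (d - a)
    rwa [zero_pow (by omega)] at h3

/-- limit of the scaled evaluations -/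
theorem tendsto_eval {l : Filter ℕ} (hl : l ≤ atTop) {d : ℕ}
    {q : MvPolynomial (Fin h ⊕ Fin h) ℝ}
    (hq : ∀ m ∈ q.support, Finsupp.weight (Sum.elim w w) m ≤ d) {x y : ℕ → Fin h → ℝ}
    {a b : Fin h → ℝ} (hx : Tendsto x l (𝓝 a)) (hy : Tendsto y l (𝓝 b)) :
    Tendsto (fun j : ℕ => (((2 : ℝ) ^ j)⁻¹) ^ d *
      MvPolynomial.eval (Sum.elim (dil w (2 ^ j) (x j)) (dil w (2 ^ j) (y j))) q) l
      (𝓝 (MvPolynomial.eval (Sum.elim a b) (top w d q))) := by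
  have h1 : ∀ j : ℕ, (((2 : ℝ) ^ j)⁻¹) ^ d *
      MvPolynomial.eval (Sum.elim (dil w (2 ^ j) (x j)) (dil w (2 ^ j) (y j))) q =
      ∑ m ∈ q.support, ((((2 : ℝ) ^ j)⁻¹) ^ d * ((2 : ℝ) ^ j) ^
        (Finsupp.weight (Sum.elim w w) m)) * (q.coeff m *
          ∏ i, (Sum.elim (x j) (y j) : Fin h ⊕ Fin h → ℝ) i ^ m i) := by
    intro j
    rw [MvPolynomial.eval_eq', Finset.mul_sum]
    refine Finset.sum_congr rfl fun m _ => ?_
    rw [prod_dil]
    ring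
  simp only [h1]
  rw [eval_top]
  refine tendsto_finsetSum _ fun m hm => ?_
  have h2 : Tendsto (fun j => q.coeff m *
      ∏ i, (Sum.elim (x j) (y j) : Fin h ⊕ Fin h → ℝ) i ^ m i) l
      (𝓝 (q.coeff m * ∏ i, (Sum.elim a b : Fin h ⊕ Fin h → ℝ) i ^ m i)) := by
    refine Tendsto.const_mul _ (tendsto_finsetProd _ fun i _ => Tendsto.pow ?_ _)
    cases i with
    | inl i => exact (tendsto_pi_nhds.1 hx) i
    | inr i => exact (tendsto_pi_nhds.1 hy) i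
  have h3 := (tendsto_scale hl (hq m hm)).mul h2
  convert h3 using 2
  split_ifs
  · rw [one_mul]
  · rw [zero_mul]

/-- the conjugated law -/
noncomputable def sc (w : Fin h → ℕ) (Q : Fin h → MvPolynomial (Fin h ⊕ Fin h) ℝ) (t : ℝ)
    (x y : Fin h → ℝ) : Fin h → ℝ := dil w t⁻¹ (pmul Q (dil w t x) (dil w t y))

theorem sc_apply {Q : Fin h → MvPolynomial (Fin h ⊕ Fin h) ℝ} {t : ℝ} (ht : t ≠ 0)
    (x y : Fin h → ℝ) (k : Fin h) : sc w Q t x y k = x k + y k +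
      (t⁻¹) ^ w k * MvPolynomial.eval (Sum.elim (dil w t x) (dil w t y)) (Q k) := by
  unfold sc pmul dil
  have h1 : (t⁻¹) ^ w k * t ^ w k = 1 := by
    rw [← mul_pow, inv_mul_cancel₀ ht, one_pow]
  linear_combination (x k + y k) * h1

theorem tendsto_sc (𝒢 : PGrp w) {l : Filter ℕ} (hl : l ≤ atTop) {x y : ℕ → Fin h → ℝ}
    {a b : Fin h → ℝ} (hx : Tendsto x l (𝓝 a)) (hy : Tendsto y l (𝓝 b)) :
    Tendsto (fun j : ℕ => sc w 𝒢.Q (2 ^ j) (x j) (y j)) l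
      (𝓝 (pmul (fun k => top w (w k) (𝒢.Q k)) a b)) := by
  rw [tendsto_pi_nhds]
  intro k
  have h1 := tendsto_eval (w := w) hl (d := w k) (fun m hm => (𝒢.mixed k m hm).2.2) hx hy
  have h2 := ((tendsto_pi_nhds.1 hx k).add (tendsto_pi_nhds.1 hy k)).add h1
  refine h2.congr fun j => ?_
  rw [sc_apply (by positivity)]

theorem sc_assoc (𝒢 : PGrp w) {t : ℝ} (ht : t ≠ 0) (x y z : Fin h → ℝ) :
    sc w 𝒢.Q t (sc w 𝒢.Q t x y) z = sc w 𝒢.Q t x (sc w 𝒢.Q t y z) := by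
  unfold sc
  rw [dil_cancel_inv ht, dil_cancel_inv ht, 𝒢.assoc]

theorem sc_smul (𝒢 : PGrp w) {t : ℝ} (ht : t ≠ 0) (a b : ℝ) (x : Fin h → ℝ) :
    sc w 𝒢.Q t (a • x) (b • x) = (a + b) • x := by
  unfold sc
  rw [dil_smul, dil_smul, 𝒢.smul_smul, ← dil_smul, dil_inv_cancel ht]

theorem mixed_top {d : ℕ} {q : MvPolynomial (Fin h ⊕ Fin h) ℝ} (hq : MixedLe w d q) :
    MixedLe w d (top w d q) := fun m hm => hq m (mem_top hm).1

theorem pow_two_ne (j : ℕ) : ((2 : ℝ) ^ j) ≠ 0 := by positivity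

/-- the graded group -/
noncomputable def lim (𝒢 : PGrp w) : PGrp w where
  Q := fun k => top w (w k) (𝒢.Q k)
  one_le_w := 𝒢.one_le_w
  mixed := fun k => mixed_top (𝒢.mixed k)
  assoc := fun x y z => by
    have h1 := tendsto_sc 𝒢 (le_refl atTop)
      (tendsto_sc 𝒢 (le_refl atTop) (tendsto_const_nhds (x := x)) (tendsto_const_nhds (x := y)))
      (tendsto_const_nhds (x := z))
    have h2 := tendsto_sc 𝒢 (le_refl atTop) (tendsto_const_nhds (x := x))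
      (tendsto_sc 𝒢 (le_refl atTop) (tendsto_const_nhds (x := y)) (tendsto_const_nhds (x := z)))
    simp only [sc_assoc 𝒢 (pow_two_ne _)] at h1
    exact tendsto_nhds_unique h1 h2
  smul_smul := fun a b x => by
    have h1 := tendsto_sc 𝒢 (le_refl atTop) (tendsto_const_nhds (x := a • x))
      (tendsto_const_nhds (x := b • x))
    simp only [sc_smul 𝒢 (pow_two_ne _)] at h1
    exact tendsto_nhds_unique h1 tendsto_const_nhds

theorem homog_lim (𝒢 : PGrp w) : Homog (lim 𝒢) := by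
  intro t x y
  funext k
  show dil w t x k + dil w t y k +
      MvPolynomial.eval (Sum.elim (dil w t x) (dil w t y)) (top w (w k) (𝒢.Q k)) =
    t ^ w k * (x k + y k + MvPolynomial.eval (Sum.elim x y) (top w (w k) (𝒢.Q k)))
  rw [eval_top, eval_top, mul_add, mul_add, Finset.mul_sum]
  congr 1
  refine Finset.sum_congr rfl fun m _ => ?_
  split_ifs with hm
  · rw [prod_dil, hm]
    ring
  · rw [mul_zero]

theorem grLim (𝒢 : PGrp w) : GrLim 𝒢 (lim 𝒢) where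
  homog := homog_lim 𝒢
  tendsto := fun _ hl _ _ _ _ hx hy => tendsto_sc 𝒢 hl hx hy

/-! ### commutators -/

theorem comm_v {𝒢 : PGrp w} (x y : 𝒢.R) : ⁅x, y⁆.v =
    pmul 𝒢.Q (pmul 𝒢.Q (pmul 𝒢.Q x.v y.v) (-x.v)) (-y.v) := rfl

/-- the scaled commutator -/
noncomputable def scc (𝒢 : PGrp w) (t : ℝ) (x y : Fin h → ℝ) : Fin h → ℝ :=
  dil w t⁻¹ (⁅(PGrp.R.mk (dil w t x) : 𝒢.R), (PGrp.R.mk (dil w t y) : 𝒢.R)⁆).v

theorem scc_eq (𝒢 : PGrp w) {t : ℝ} (ht : t ≠ 0) (x y : Fin h → ℝ) :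
    scc 𝒢 t x y = sc w 𝒢.Q t (sc w 𝒢.Q t (sc w 𝒢.Q t x y) (-x)) (-y) := by
  unfold scc sc
  rw [comm_v, dil_cancel_inv ht, dil_cancel_inv ht, dil_neg, dil_neg]

theorem tendsto_scc (𝒢 : PGrp w) (x y : (lim 𝒢).R) :
    Tendsto (fun j : ℕ => scc 𝒢 (2 ^ j) x.v y.v) atTop (𝓝 (⁅x, y⁆.v)) := by
  have h1 := tendsto_sc 𝒢 (le_refl atTop) (tendsto_const_nhds (x := x.v))
    (tendsto_const_nhds (x := y.v))
  have h2 := tendsto_sc 𝒢 (le_refl atTop) h1 (tendsto_const_nhds (x := -x.v))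
  have h3 := tendsto_sc 𝒢 (le_refl atTop) h2 (tendsto_const_nhds (x := -y.v))
  rw [comm_v]
  refine h3.congr fun j => ?_
  rw [scc_eq 𝒢 (pow_two_ne j)]

/-- limit of the scaled bracket -/
theorem tendsto_mul (𝔏 : Alg h) (hF : Filtered w 𝔏) (x y : Fin h → ℝ) (k : Fin h) :
    Tendsto (fun j : ℕ => (((2 : ℝ) ^ j)⁻¹) ^ w k *
      𝔏.mul (dil w (2 ^ j) x) (dil w (2 ^ j) y) k) atTop (𝓝 ((gr w 𝔏).mul x y k)) := by
  have h1 : ∀ j : ℕ, (((2 : ℝ) ^ j)⁻¹) ^ w k * 𝔏.mul (dil w (2 ^ j) x) (dil w (2 ^ j) y) k =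
      ∑ i, ∑ i', ((𝔏.c i i' k : ℝ) * x i * y i') *
        ((((2 : ℝ) ^ j)⁻¹) ^ w k * ((2 : ℝ) ^ j) ^ (w i + w i')) := by
    intro j
    simp only [Alg.mul, dil, Finset.mul_sum]
    refine Finset.sum_congr rfl fun i _ => Finset.sum_congr rfl fun i' _ => ?_
    rw [pow_add]
    ring
  simp only [h1]
  have h2 : (gr w 𝔏).mul x y k = ∑ i, ∑ i', ((𝔏.c i i' k : ℝ) * x i * y i') *
      (if w i + w i' = w k then 1 else 0) := by
    simp only [Alg.mul, gr]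
    refine Finset.sum_congr rfl fun i _ => Finset.sum_congr rfl fun i' _ => ?_
    by_cases hk : w k = w i + w i'
    · rw [if_pos hk, if_pos hk.symm, mul_one]
    · rw [if_neg hk, if_neg (Ne.symm hk)]
      simp
  rw [h2]
  refine tendsto_finsetSum _ fun i _ => tendsto_finsetSum _ fun i' _ => ?_
  by_cases hc : 𝔏.c i i' k = 0
  · simp only [hc, Int.cast_zero, zero_mul]
    exact tendsto_const_nhds
  · exact (tendsto_scale (le_refl atTop) (hF i i' k hc)).const_mul _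

theorem hasComm_lim (𝒢 : PGrp w) (𝔏 : Alg h) (M : ℕ) (hc : HasComm 𝒢 𝔏 M)
    (hF : Filtered w 𝔏) : HasComm (lim 𝒢) (gr w 𝔏) M := by
  obtain ⟨R, hR1, hR2, hR3⟩ := hc
  refine ⟨fun k => top w (w k) (R k), fun k => mixed_top (hR1 k),
    fun k m hm => hR2 k m (mem_top hm).1, fun x y k => ?_⟩
  have h1 : Tendsto (fun j : ℕ => scc 𝒢 (2 ^ j) x.v y.v k) atTop (𝓝 (⁅x, y⁆.v k)) :=
    tendsto_pi_nhds.1 (tendsto_scc 𝒢 x y) k
  have h2 : ∀ j : ℕ, scc 𝒢 (2 ^ j) x.v y.v k = (M : ℝ) * ((((2 : ℝ) ^ j)⁻¹) ^ w k *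
      𝔏.mul (dil w (2 ^ j) x.v) (dil w (2 ^ j) y.v) k) + (((2 : ℝ) ^ j)⁻¹) ^ w k *
      MvPolynomial.eval (Sum.elim (dil w (2 ^ j) x.v) (dil w (2 ^ j) y.v)) (R k) := by
    intro j
    show (((2 : ℝ) ^ j)⁻¹) ^ w k * _ = _
    rw [hR3]
    ring
  simp only [h2] at h1
  have h3 := ((tendsto_mul 𝔏 hF x.v y.v k).const_mul (M : ℝ)).add
    (tendsto_eval (w := w) (le_refl atTop) (d := w k) (fun m hm => (hR1 k m hm).2.2)
      (tendsto_const_nhds (x := x.v)) (tendsto_const_nhds (x := y.v)))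
  exact tendsto_nhds_unique h1 h3

end LimG

/-- The graded group. -/
theorem exists_lim {h : ℕ} {w : Fin h → ℕ} (𝒢 : PGrp w) (𝔏 : Alg h) (M : ℕ)
    (hc : HasComm 𝒢 𝔏 M) (hF : Filtered w 𝔏) :
    ∃ 𝒢' : PGrp w, GrLim 𝒢 𝒢' ∧ HasComm 𝒢' (gr w 𝔏) M :=
  ⟨LimG.lim 𝒢, LimG.grLim 𝒢, LimG.hasComm_lim 𝒢 𝔏 M hc hF⟩

end Pool.Agent.MPf60e8aP
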