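import Mathlib
import Pool.Agent.Lib.MP_f60e8a_al.P.PDefs
import Pool.Agent.Lib.MP_f60e8a_al.P.Lead

/-!
# Horizontal elements generate the group
-/

open scoped BigOperators commutatorElement

namespace Pool.Agent.MPf60e8aP

open Pool.Agent.MPf60e8a (wordLen sepIndex RF)
open Pool.Agent.MPf60e8aN (Alg)

namespace HorGen

variable {h : ℕ} {w : Fin h → ℕ}

/-- The vector `y` is the part of weight `m` of an element of `Σ` supported in weights `≥ m`. -/
def B (𝒢 : PGrp w) (Sg : Subgroup 𝒢.R) (m : ℕ) (y : Fin h → ℝ) : Prop :=
  ∃ u ∈ Sg, SuppGe w m u.v ∧ ∀ k, w k = m → u.v k = y k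

theorem B_zero (𝒢 : PGrp w) (Sg : Subgroup 𝒢.R) (m : ℕ) : B 𝒢 Sg m 0 :=
  ⟨1, Sg.one_mem, fun k _ => by simp, fun k _ => by simp⟩

theorem B_add (𝒢 : PGrp w) (Sg : Subgroup 𝒢.R) {m : ℕ} (hm : 1 ≤ m) {y z : Fin h → ℝ}
    (hy : B 𝒢 Sg m y) (hz : B 𝒢 Sg m z) : B 𝒢 Sg m (y + z) := by
  obtain ⟨u, hu, hu1, hu2⟩ := hy
  obtain ⟨v, hv, hv1, hv2⟩ := hz
  refine ⟨u * v, Sg.mul_mem hu hv, mul_supp 𝒢 u v hu1 hv1, fun k hk => ?_⟩
  rw [mul_lead 𝒢 u v hu1 hv1 k (by omega), hu2 k hk, hv2 k hk, Pi.add_apply]

theorem B_sum (𝒢 : PGrp w) (Sg : Subgroup 𝒢.R) {m : ℕ} (hm : 1 ≤ m) {ι : Type*}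
    (s : Finset ι) (y : ι → Fin h → ℝ) (hy : ∀ i ∈ s, B 𝒢 Sg m (y i)) :
    B 𝒢 Sg m (∑ i ∈ s, y i) := by
  classical
  induction s using Finset.induction_on with
  | empty => simpa using B_zero 𝒢 Sg m
  | insert a s ha ih =>
    rw [Finset.sum_insert ha]
    exact B_add 𝒢 Sg hm (hy a (Finset.mem_insert_self a s))
      (ih fun i hi => hy i (Finset.mem_insert_of_mem hi))

theorem B_congr (𝒢 : PGrp w) (Sg : Subgroup 𝒢.R) {m : ℕ} {y z : Fin h → ℝ}
    (hyz : ∀ k, w k = m → y k = z k) (hy : B 𝒢 Sg m y) : B 𝒢 Sg m z := by
  obtain ⟨u, hu, hu1, hu2⟩ := hy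
  exact ⟨u, hu, hu1, fun k hk => by rw [hu2 k hk, hyz k hk]⟩

theorem B_all (𝒢 : PGrp w) {𝔏 : Alg h} {M : ℕ} (hM : 0 < M)
    (hc : HasComm 𝒢 𝔏 M) (hF : Filtered w 𝔏) (hG : Generated w (gr w 𝔏)) (m : ℕ) :
    1 ≤ m → ∀ y, B 𝒢 (Subgroup.closure {x : 𝒢.R | Horiz w x.v}) m y := by
  induction m with
  | zero => intro h0; omega
  | succ m ih =>
    intro _ y
    set Sg := Subgroup.closure {x : 𝒢.R | Horiz w x.v} with hSg
    rcases Nat.eq_zero_or_pos m with hm | hm
    · subst hm
      refine ⟨⟨fun k => if w k = 1 then y k else 0⟩, Subgroup.subset_closure ?_, ?_, ?_⟩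
      · intro k hk
        simp [hk]
      · intro k hk
        have := 𝒢.one_le_w k
        omega
      · intro k hk
        have hk1 : w k = 1 := by omega
        simp [hk1]
    · have ih' := ih hm
      -- one basis vector
      have hbasis : ∀ k, w k = m + 1 → ∀ t : ℝ, B 𝒢 Sg (m + 1) (t • (Pi.single k 1)) := by
        intro k hk
        have hspan := hG k (by omega)
        have key : ∀ z ∈ Submodule.span ℚ {z : Fin h → ℚ | ∃ i j, w i = 1 ∧ w j + 1 = w k ∧
            z = fun t => ((gr w 𝔏).c i j t : ℚ)},
            ∀ t : ℝ, B 𝒢 Sg (m + 1) (t • fun i => (z i : ℝ)) := by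
          intro z hz
          induction hz using Submodule.span_induction with
          | mem z hz =>
            obtain ⟨i, j, hi, hj, rfl⟩ := hz
            have hj' : w j = m := by omega
            intro t
            obtain ⟨u, hu, hu1, hu2⟩ := ih' (Pi.single j 1)
            set a : 𝒢.R := ⟨Pi.single i (t / M)⟩ with ha
            have haS : a ∈ Sg := by
              refine Subgroup.subset_closure ?_
              intro k' hk'
              rw [ha]
              simp only
              rw [Pi.single_apply, if_neg]
              rintro rfl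
              exact hk' hi
            have ha1 : SuppGe w 1 a.v := by
              intro k' hk'
              have := 𝒢.one_le_w k'
              omega
            have hcl := comm_lead 𝒢 hc hF le_rfl hm a u ha1 hu1
            refine ⟨⁅a, u⁆, ?_, ?_, ?_⟩
            · rw [commutatorElement_def]
              exact Sg.mul_mem (Sg.mul_mem (Sg.mul_mem haS hu) (Sg.inv_mem haS))
                (Sg.inv_mem hu)
            · intro k' hk'
              exact (hcl k').1 (by omega)
            · intro k' hk'
              rw [(hcl k').2 (by omega)]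
              have hM' : (M : ℝ) ≠ 0 := by exact_mod_cast hM.ne'
              have e1 : (gr w 𝔏).mul a.v u.v k' = (t / M) * ((gr w 𝔏).c i j k' : ℝ) := by
                unfold Alg.mul
                rw [Finset.sum_eq_single i]
                · rw [Finset.sum_eq_single j]
                  · rw [hu2 j hj']
                    simp only [ha, Pi.single_eq_same]
                    ring
                  · intro j' _ hj''
                    by_cases hc0 : (gr w 𝔏).c i j' k' = 0
                    · simp [hc0]
                    · have h1 : w k' = w i + w j' := by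
                        by_contra hcon
                        exact hc0 (if_neg hcon)
                      rw [hu2 j' (by omega), Pi.single_eq_of_ne hj'', mul_zero]
                  · intro hcon
                    exact absurd (Finset.mem_univ _) hcon
                · intro i' _ hi'
                  refine Finset.sum_eq_zero fun j' _ => ?_
                  have : a.v i' = 0 := by
                    rw [ha]
                    simp only
                    rw [Pi.single_eq_of_ne hi']
                  rw [this, mul_zero, zero_mul]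
                · intro hcon
                  exact absurd (Finset.mem_univ _) hcon
              rw [e1]
              simp only [Pi.smul_apply, smul_eq_mul, Rat.cast_intCast]
              field_simp
          | zero =>
            intro t
            have : (t • fun i => (((0 : Fin h → ℚ) i : ℚ) : ℝ)) = 0 := by
              funext i
              simp
            rw [this]
            exact B_zero 𝒢 Sg _
          | add z z' _ _ h1 h2 =>
            intro t
            have : (t • fun i => (((z + z') i : ℚ) : ℝ)) =
                (t • fun i => ((z i : ℚ) : ℝ)) + t • fun i => ((z' i : ℚ) : ℝ) := by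
              funext i
              simp [mul_add]
            rw [this]
            exact B_add 𝒢 Sg (by omega) (h1 t) (h2 t)
          | smul q z _ h1 =>
            intro t
            have : (t • fun i => (((q • z) i : ℚ) : ℝ)) =
                ((t * q) • fun i => ((z i : ℚ) : ℝ)) := by
              funext i
              simp [mul_assoc]
            rw [this]
            exact h1 _
        intro t
        have := key _ hspan t
        have e1 : (fun i => (((Pi.single k 1 : Fin h → ℚ) i : ℚ) : ℝ)) = Pi.single k 1 := by
          funext i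
          by_cases hik : i = k
          · subst hik
            simp
          · rw [Pi.single_eq_of_ne hik, Pi.single_eq_of_ne hik]
            simp
        rwa [e1] at this
      have hsum := B_sum 𝒢 Sg (m := m + 1) (by omega) (Finset.univ.filter fun k => w k = m + 1)
        (fun k => y k • (Pi.single k 1 : Fin h → ℝ)) (fun k hk => hbasis k (by simpa using hk) _)
      refine B_congr 𝒢 Sg (fun k hk => ?_) hsum
      rw [Finset.sum_apply, Finset.sum_eq_single k]
      · simp
      · intro k' _ hk'
        simp [Pi.single_eq_of_ne hk'.symm]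
      · intro hcon
        exact absurd (by simp [hk]) hcon

end HorGen

theorem horiz_gen {h : ℕ} {w : Fin h → ℕ} (𝒢 : PGrp w) {𝔏 : Alg h} {M : ℕ} (hM : 0 < M)
    (hc : HasComm 𝒢 𝔏 M) (hF : Filtered w 𝔏) (hG : Generated w (gr w 𝔏)) :
    Subgroup.closure {x : 𝒢.R | Horiz w x.v} = ⊤ := by
  set Sg := Subgroup.closure {x : 𝒢.R | Horiz w x.v} with hSg
  obtain ⟨c, hcw⟩ : ∃ c, ∀ k, w k < c := by
    refine ⟨(Finset.univ.sup w) + 1, fun k => ?_⟩
    have := Finset.le_sup (f := w) (Finset.mem_univ k)
    omega
  have key : ∀ d m : ℕ, 1 ≤ m → c ≤ m + d → ∀ x : 𝒢.R, SuppGe w m x.v → x ∈ Sg := by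
    intro d
    induction d with
    | zero =>
      intro m _ hcm x hx
      have : x = 1 := PGrp.R.ext (by
        funext k
        exact hx k (by have := hcw k; omega))
      rw [this]
      exact Sg.one_mem
    | succ d ih =>
      intro m hm hcm x hx
      obtain ⟨u, hu, hu1, hu2⟩ := HorGen.B_all 𝒢 hM hc hF hG m hm x.v
      have hui : SuppGe w m (u⁻¹).v := by
        intro k hk
        simp [hu1 k hk]
      have h1 : u⁻¹ * x ∈ Sg := by
        refine ih (m + 1) (by omega) (by omega) _ fun k hk => ?_
        rw [mul_lead 𝒢 u⁻¹ x hui hx k (by omega)]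
        rcases Nat.lt_or_ge (w k) m with hlt | hge
        · rw [hui k hlt, hx k hlt, add_zero]
        · rw [PGrp.inv_v, Pi.neg_apply, hu2 k (by omega)]
          ring
      have := Sg.mul_mem hu h1
      rwa [mul_inv_cancel_left] at this
  rw [eq_top_iff]
  intro x _
  refine key c 1 le_rfl (by omega) x fun k hk => ?_
  have := 𝒢.one_le_w k
  omega

end Pool.Agent.MPf60e8aP
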