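import Mathlib
import Pool.Agent.Lib.MP_f60e8a_al.P.PDefs
import Pool.Agent.Lib.MP_f60e8a_al.P.Lead

/-!
# Continuous homomorphisms of polynomial groups are linear in the coordinates, and respect the
brackets
-/

open scoped BigOperators commutatorElement

namespace Pool.Agent.MPf60e8aP

open Pool.Agent.MPf60e8a (wordLen sepIndex RF)
open Pool.Agent.MPf60e8aN (Alg NilSub LieLattice BchConst Describes upperNil IsUnipotent lg)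

namespace LieHomPAux

open Filter Topology

/-- Powers of `n⁻¹` beat smaller powers of `n`. -/
theorem pow_tendsto {e d : ℕ} (hed : e + 1 ≤ d) :
    Tendsto (fun n : ℕ => (n : ℝ) ^ e * ((n : ℝ)⁻¹) ^ d) atTop (𝓝 0) := by
  have h1 : Tendsto (fun n : ℕ => ((n : ℝ)⁻¹) ^ (d - e)) atTop (𝓝 0) := by
    have h2 := (tendsto_inv_atTop_nhds_zero_nat (𝕜 := ℝ)).pow (d - e)
    rwa [zero_pow (by omega)] at h2
  refine h1.congr' ?_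
  filter_upwards [eventually_gt_atTop 0] with n hn
  have hn' : (n : ℝ) ≠ 0 := by exact_mod_cast hn.ne'
  obtain ⟨c, rfl⟩ : ∃ c, d = e + c := ⟨d - e, by omega⟩
  rw [Nat.add_sub_cancel_left, pow_add, ← mul_assoc, ← mul_pow, mul_inv_cancel₀ hn', one_pow,
    one_mul]

/-- Monomials of large degree are small at small points. -/
theorem scale_tendsto {h : ℕ} (q : MvPolynomial (Fin h ⊕ Fin h) ℝ) (e : ℕ)
    (hq : ∀ m ∈ q.support, e + 1 ≤ Finsupp.degree m) (x y : Fin h → ℝ) :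
    Tendsto (fun n : ℕ => (n : ℝ) ^ e *
      MvPolynomial.eval (Sum.elim ((n : ℝ)⁻¹ • x) ((n : ℝ)⁻¹ • y)) q) atTop (𝓝 0) := by
  have h0 : ∀ n : ℕ, (n : ℝ) ^ e *
      MvPolynomial.eval (Sum.elim ((n : ℝ)⁻¹ • x) ((n : ℝ)⁻¹ • y)) q =
      ∑ m ∈ q.support, (MvPolynomial.coeff m q * ∏ i ∈ m.support, (Sum.elim x y i) ^ m i) *
        ((n : ℝ) ^ e * ((n : ℝ)⁻¹) ^ (Finsupp.degree m)) := by
    intro n
    rw [MvPolynomial.eval_eq, Finset.mul_sum]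
    refine Finset.sum_congr rfl fun m _ => ?_
    have h1 : ∏ i ∈ m.support, (Sum.elim ((n : ℝ)⁻¹ • x) ((n : ℝ)⁻¹ • y) i) ^ m i =
        ((n : ℝ)⁻¹) ^ (Finsupp.degree m) * ∏ i ∈ m.support, (Sum.elim x y i) ^ m i := by
      rw [Finsupp.degree_apply, ← Finset.prod_pow_eq_pow_sum, ← Finset.prod_mul_distrib]
      refine Finset.prod_congr rfl fun i _ => ?_
      rw [← mul_pow]
      congr 1
      rcases i with i | i <;> simp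
    rw [h1]
    ring
  simp_rw [h0]
  have h2 : (0 : ℝ) = ∑ m ∈ q.support,
      (MvPolynomial.coeff m q * ∏ i ∈ m.support, (Sum.elim x y i) ^ m i) * 0 := by simp
  rw [h2]
  refine tendsto_finsetSum _ fun m hm => ?_
  exact (pow_tendsto (hq m hm)).const_mul _

/-- Mixed monomials have degree at least two. -/
theorem mixed_degree {h : ℕ} {w : Fin h → ℕ} {d : ℕ} {q : MvPolynomial (Fin h ⊕ Fin h) ℝ}
    (hq : MixedLe w d q) : ∀ m ∈ q.support, 1 + 1 ≤ Finsupp.degree m := by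
  intro m hm
  obtain ⟨h1, h2, _⟩ := hq m hm
  rw [LeadAux.degree_eq]
  have h3 := LeadAux.one_le_sum (f := fun i => m (Sum.inl i)) h1
  have h4 := LeadAux.one_le_sum (f := fun i => m (Sum.inr i)) h2
  omega

/-- The product is continuous. -/
theorem continuous_pmul {h : ℕ} (Q : Fin h → MvPolynomial (Fin h ⊕ Fin h) ℝ) :
    Continuous (fun p : (Fin h → ℝ) × (Fin h → ℝ) => pmul Q p.1 p.2) := by
  refine continuous_pi fun k => ?_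
  have h1 : Continuous (fun p : (Fin h → ℝ) × (Fin h → ℝ) =>
      (Sum.elim p.1 p.2 : Fin h ⊕ Fin h → ℝ)) := by
    refine continuous_pi fun i => ?_
    rcases i with i | i
    · exact (continuous_apply i).comp continuous_fst
    · exact (continuous_apply i).comp continuous_snd
  have h2 : Continuous (fun p : (Fin h → ℝ) × (Fin h → ℝ) =>
      MvPolynomial.eval (Sum.elim p.1 p.2) (Q k)) := (MvPolynomial.continuous_eval (Q k)).comp h1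
  exact (((continuous_apply k).comp continuous_fst).add
    ((continuous_apply k).comp continuous_snd)).add h2

theorem tendsto_pmul {h : ℕ} (Q : Fin h → MvPolynomial (Fin h ⊕ Fin h) ℝ) {ι : Type*}
    {l : Filter ι} {a b : ι → Fin h → ℝ} {x y : Fin h → ℝ} (ha : Tendsto a l (𝓝 x))
    (hb : Tendsto b l (𝓝 y)) : Tendsto (fun j => pmul Q (a j) (b j)) l (𝓝 (pmul Q x y)) :=
  ((continuous_pmul Q).tendsto (x, y)).comp (ha.prodMk_nhds hb)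

section

variable {h₁ h₂ : ℕ} {w₁ : Fin h₁ → ℕ} {w₂ : Fin h₂ → ℕ} {𝒢₁ : PGrp w₁} {𝒢₂ : PGrp w₂}
  {F : 𝒢₁.R → 𝒢₂.R} {K : ℝ}

theorem continuous_of_lim (hF : LimMap 𝒢₁ 𝒢₂ F K) :
    Continuous (fun x : Fin h₁ → ℝ => (F ⟨x⟩).v) := by
  rw [continuous_iff_continuousAt]
  intro x
  have ht : Tendsto (fun a : Fin h₁ → ℝ => ((⟨x⟩ : 𝒢₁.R)⁻¹ * ⟨a⟩ : 𝒢₁.R).v) (𝓝 x) (𝓝 0) := by
    have h1 : Tendsto (fun a : Fin h₁ → ℝ => pmul 𝒢₁.Q (-x) a) (𝓝 x)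
        (𝓝 (pmul 𝒢₁.Q (-x) x)) := tendsto_pmul 𝒢₁.Q tendsto_const_nhds tendsto_id
    rw [𝒢₁.neg_pmul] at h1
    exact h1
  have ht2 : Tendsto (fun a : Fin h₁ → ℝ => ((F ⟨x⟩)⁻¹ * F ⟨a⟩ : 𝒢₂.R).v) (𝓝 x) (𝓝 0) := by
    rw [tendsto_pi_nhds]
    intro k
    rw [Metric.tendsto_nhds]
    intro ε hε
    have hK := hF.K_pos
    obtain ⟨r, hr0, hr1, hr2⟩ : ∃ r : ℝ, 0 < r ∧ K * r ≤ 1 ∧ K * r < ε := by
      refine ⟨min (1 / K) (ε / (2 * K)), by positivity, ?_, ?_⟩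
      · calc K * min (1 / K) (ε / (2 * K)) ≤ K * (1 / K) :=
              mul_le_mul_of_nonneg_left (min_le_left _ _) hK.le
          _ = 1 := by field_simp
      · calc K * min (1 / K) (ε / (2 * K)) ≤ K * (ε / (2 * K)) :=
              mul_le_mul_of_nonneg_left (min_le_right _ _) hK.le
          _ = ε / 2 := by field_simp
          _ < ε := by linarith
    have hev : ∀ᶠ a in 𝓝 x, ∀ k, |((⟨x⟩ : 𝒢₁.R)⁻¹ * ⟨a⟩ : 𝒢₁.R).v k| ≤ r ^ w₁ k := by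
      rw [eventually_all]
      intro j
      have h2 := (tendsto_pi_nhds.mp ht) j
      have h3 : Tendsto (fun a : Fin h₁ → ℝ => |((⟨x⟩ : 𝒢₁.R)⁻¹ * ⟨a⟩ : 𝒢₁.R).v j|) (𝓝 x)
          (𝓝 |(0 : Fin h₁ → ℝ) j|) := h2.abs
      have h4 : |(0 : Fin h₁ → ℝ) j| < r ^ w₁ j := by
        rw [Pi.zero_apply, abs_zero]; positivity
      exact (h3.eventually (gt_mem_nhds h4)).mono fun a ha => le_of_lt ha
    filter_upwards [hev] with a ha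
    have h5 := hF.lip ⟨x⟩ ⟨a⟩ r hr0.le ha k
    rw [Pi.zero_apply, dist_zero_right, Real.norm_eq_abs]
    refine lt_of_le_of_lt h5 (lt_of_le_of_lt ?_ hr2)
    have hw := 𝒢₂.one_le_w k
    calc (K * r) ^ w₂ k ≤ (K * r) ^ 1 := pow_le_pow_of_le_one (by positivity) hr1 hw
      _ = K * r := pow_one _
  have h6 : Tendsto (fun a : Fin h₁ → ℝ => pmul 𝒢₂.Q (F ⟨x⟩).v
      ((F ⟨x⟩)⁻¹ * F ⟨a⟩ : 𝒢₂.R).v) (𝓝 x) (𝓝 (pmul 𝒢₂.Q (F ⟨x⟩).v 0)) :=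
    tendsto_pmul 𝒢₂.Q tendsto_const_nhds ht2
  rw [𝒢₂.pmul_zero] at h6
  have h7 : (fun a : Fin h₁ → ℝ => pmul 𝒢₂.Q (F ⟨x⟩).v ((F ⟨x⟩)⁻¹ * F ⟨a⟩ : 𝒢₂.R).v) =
      fun a : Fin h₁ → ℝ => (F ⟨a⟩).v := by
    funext a
    rw [← PGrp.mul_v, mul_inv_cancel_left]
  rw [h7] at h6
  exact h6

/-- Powers of `⟨x⟩`. -/
theorem mk_pow {h : ℕ} {w : Fin h → ℕ} {𝒢 : PGrp w} (x : Fin h → ℝ) (n : ℕ) :
    (⟨x⟩ : 𝒢.R) ^ n = ⟨(n : ℝ) • x⟩ := PGrp.R.ext (pow_v _ _)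

theorem map_natInv (hmul : ∀ x y, F (x * y) = F x * F y) (x : Fin h₁ → ℝ) {n : ℕ}
    (hn : 0 < n) : F ⟨(n : ℝ)⁻¹ • x⟩ = ⟨(n : ℝ)⁻¹ • (F ⟨x⟩).v⟩ := by
  have hn' : (n : ℝ) ≠ 0 := by exact_mod_cast hn.ne'
  have h1 : (⟨(n : ℝ)⁻¹ • x⟩ : 𝒢₁.R) ^ n = ⟨x⟩ := by
    rw [mk_pow, smul_smul, mul_inv_cancel₀ hn', one_smul]
  have h2 : F ((⟨(n : ℝ)⁻¹ • x⟩ : 𝒢₁.R) ^ n) = (F ⟨(n : ℝ)⁻¹ • x⟩) ^ n :=
    map_pow (MonoidHom.mk' F hmul) _ n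
  rw [h1] at h2
  have h3 : (F ⟨x⟩).v = (n : ℝ) • (F ⟨(n : ℝ)⁻¹ • x⟩).v := by
    rw [h2, pow_v]
  refine PGrp.R.ext ?_
  rw [h3, smul_smul, inv_mul_cancel₀ hn', one_smul]

/-- The product of small elements, to first order. -/
theorem prod_tendsto {h : ℕ} {w : Fin h → ℕ} (𝒢 : PGrp w) (x y : Fin h → ℝ) :
    Tendsto (fun n : ℕ => (((⟨(n : ℝ)⁻¹ • x⟩ : 𝒢.R) * ⟨(n : ℝ)⁻¹ • y⟩) ^ n).v) atTop
      (𝓝 (x + y)) := by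
  rw [tendsto_pi_nhds]
  intro k
  have h1 := scale_tendsto (𝒢.Q k) 1 (mixed_degree (𝒢.mixed k)) x y
  have h2 : Tendsto (fun n : ℕ => x k + y k + (n : ℝ) ^ 1 *
      MvPolynomial.eval (Sum.elim ((n : ℝ)⁻¹ • x) ((n : ℝ)⁻¹ • y)) (𝒢.Q k)) atTop
      (𝓝 (x k + y k + 0)) := h1.const_add _
  rw [add_zero] at h2
  refine h2.congr' ?_
  filter_upwards [eventually_gt_atTop 0] with n hn
  have hn' : (n : ℝ) ≠ 0 := by exact_mod_cast hn.ne'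
  rw [pow_v, Pi.smul_apply, PGrp.mul_v_apply, smul_eq_mul]
  simp only [Pi.smul_apply, smul_eq_mul, pow_one]
  field_simp

/-- The commutator of small elements, to second order. -/
theorem comm_tendsto {h : ℕ} {w : Fin h → ℕ} (𝒢 : PGrp w) {𝔏 : Alg h} {M : ℕ}
    (hc : HasComm 𝒢 𝔏 M) (x y : Fin h → ℝ) :
    Tendsto (fun n : ℕ => (⁅(⟨(n : ℝ)⁻¹ • x⟩ : 𝒢.R), (⟨(n : ℝ)⁻¹ • y⟩ : 𝒢.R)⁆ ^ (n ^ 2)).v) atTop
      (𝓝 ((M : ℝ) • 𝔏.mul x y)) := by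
  obtain ⟨R, _, hR3, hR⟩ := hc
  rw [tendsto_pi_nhds]
  intro k
  have h1 := scale_tendsto (R k) 2 (hR3 k) x y
  have h2 : Tendsto (fun n : ℕ => M * 𝔏.mul x y k + (n : ℝ) ^ 2 *
      MvPolynomial.eval (Sum.elim ((n : ℝ)⁻¹ • x) ((n : ℝ)⁻¹ • y)) (R k)) atTop
      (𝓝 (M * 𝔏.mul x y k + 0)) := h1.const_add _
  rw [add_zero] at h2
  refine h2.congr' ?_
  filter_upwards [eventually_gt_atTop 0] with n hn
  have hn' : (n : ℝ) ≠ 0 := by exact_mod_cast hn.ne'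
  rw [pow_v, Pi.smul_apply, hR, smul_eq_mul]
  have h3 : 𝔏.mul ((n : ℝ)⁻¹ • x) ((n : ℝ)⁻¹ • y) k = ((n : ℝ)⁻¹) ^ 2 * 𝔏.mul x y k := by
    unfold Alg.mul
    rw [Finset.mul_sum]
    refine Finset.sum_congr rfl fun i _ => ?_
    rw [Finset.mul_sum]
    refine Finset.sum_congr rfl fun j _ => ?_
    simp only [Pi.smul_apply, smul_eq_mul]
    ring
  rw [h3]
  push_cast
  field_simp

end

end LieHomPAux

open Filter Topology LieHomPAux in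
/-- A limit map which is a homomorphism is linear in the coordinates and respects the
brackets. -/
theorem exists_lie {h₁ h₂ : ℕ} {w₁ : Fin h₁ → ℕ} {w₂ : Fin h₂ → ℕ} {𝒢₁ : PGrp w₁}
    {𝒢₂ : PGrp w₂} {𝔏₁ : Alg h₁} {𝔏₂ : Alg h₂} {M₁ M₂ : ℕ} (hc₁ : HasComm 𝒢₁ 𝔏₁ M₁)
    (hc₂ : HasComm 𝒢₂ 𝔏₂ M₂) {F : 𝒢₁.R → 𝒢₂.R} {K : ℝ} (hF : LimMap 𝒢₁ 𝒢₂ F K)
    (hmul : ∀ x y, F (x * y) = F x * F y) :
    ∃ Φ : (Fin h₁ → ℝ) →ₗ[ℝ] (Fin h₂ → ℝ), Function.Injective Φ ∧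
      ∀ x y, (M₁ : ℝ) • Φ (𝔏₁.mul x y) = (M₂ : ℝ) • 𝔏₂.mul (Φ x) (Φ y) := by
  have hcont := continuous_of_lim hF
  have hadd : ∀ x y : Fin h₁ → ℝ, (F ⟨x + y⟩).v = (F ⟨x⟩).v + (F ⟨y⟩).v := by
    intro x y
    have h1 := (hcont.tendsto (x + y)).comp (prod_tendsto 𝒢₁ x y)
    have h2 := prod_tendsto 𝒢₂ (F ⟨x⟩).v (F ⟨y⟩).v
    refine tendsto_nhds_unique h1 (h2.congr' ?_)
    filter_upwards [eventually_gt_atTop 0] with n hn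
    have h3 : F (((⟨(n : ℝ)⁻¹ • x⟩ : 𝒢₁.R) * ⟨(n : ℝ)⁻¹ • y⟩) ^ n) =
        (F ⟨(n : ℝ)⁻¹ • x⟩ * F ⟨(n : ℝ)⁻¹ • y⟩) ^ n := by
      rw [← hmul]
      exact map_pow (MonoidHom.mk' F hmul) _ n
    rw [map_natInv hmul x hn, map_natInv hmul y hn] at h3
    rw [← h3]
    rfl
  have hcomm : ∀ x y : Fin h₁ → ℝ, (F ⟨(M₁ : ℝ) • 𝔏₁.mul x y⟩).v =
      (M₂ : ℝ) • 𝔏₂.mul (F ⟨x⟩).v (F ⟨y⟩).v := by
    intro x y
    have h1 := (hcont.tendsto ((M₁ : ℝ) • 𝔏₁.mul x y)).comp (comm_tendsto 𝒢₁ hc₁ x y)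
    have h2 := comm_tendsto 𝒢₂ hc₂ (F ⟨x⟩).v (F ⟨y⟩).v
    refine tendsto_nhds_unique h1 (h2.congr' ?_)
    filter_upwards [eventually_gt_atTop 0] with n hn
    have h3 : F (⁅(⟨(n : ℝ)⁻¹ • x⟩ : 𝒢₁.R), (⟨(n : ℝ)⁻¹ • y⟩ : 𝒢₁.R)⁆ ^ (n ^ 2)) =
        ⁅F ⟨(n : ℝ)⁻¹ • x⟩, F ⟨(n : ℝ)⁻¹ • y⟩⁆ ^ (n ^ 2) := by
      have h4 := map_pow (MonoidHom.mk' F hmul)
        ⁅(⟨(n : ℝ)⁻¹ • x⟩ : 𝒢₁.R), (⟨(n : ℝ)⁻¹ • y⟩ : 𝒢₁.R)⁆ (n ^ 2)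
      rw [map_commutatorElement] at h4
      exact h4
    rw [map_natInv hmul x hn, map_natInv hmul y hn] at h3
    rw [← h3]
    rfl
  let f : (Fin h₁ → ℝ) →+ (Fin h₂ → ℝ) := AddMonoidHom.mk' (fun x => (F ⟨x⟩).v) hadd
  have hfc : Continuous f := hcont
  let Φ : (Fin h₁ → ℝ) →L[ℝ] (Fin h₂ → ℝ) := f.toRealLinearMap hfc
  have hΦ : ∀ x, Φ x = (F ⟨x⟩).v := fun x => rfl
  refine ⟨Φ.toLinearMap, ?_, ?_⟩
  · intro x y hxy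
    have h1 : (F ⟨x⟩).v = (F ⟨y⟩).v := hxy
    have h2 : F ⟨x⟩ = F ⟨y⟩ := PGrp.R.ext h1
    have h3 := hF.colip ⟨x⟩ ⟨y⟩ 0 le_rfl (by
      intro k
      rw [h2, inv_mul_cancel]
      simp [PGrp.one_v]
      )
    have h4 : ((⟨x⟩ : 𝒢₁.R)⁻¹ * ⟨y⟩ : 𝒢₁.R) = 1 := by
      refine PGrp.R.ext ?_
      funext k
      have h5 := h3 k
      rw [mul_zero, zero_pow (by have := 𝒢₁.one_le_w k; omega)] at h5
      rw [PGrp.one_v, Pi.zero_apply]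
      exact abs_nonpos_iff.mp h5
    have h6 : (⟨x⟩ : 𝒢₁.R) = ⟨y⟩ := inv_mul_eq_one.mp h4
    exact congrArg PGrp.R.v h6
  · intro x y
    have h1 := hcomm x y
    have h2 : Φ ((M₁ : ℝ) • 𝔏₁.mul x y) = (M₁ : ℝ) • Φ (𝔏₁.mul x y) := map_smul Φ _ _
    show (M₁ : ℝ) • Φ (𝔏₁.mul x y) = (M₂ : ℝ) • 𝔏₂.mul (Φ x) (Φ y)
    rw [← h2, hΦ, hΦ, hΦ]
    exact h1

end Pool.Agent.MPf60e8aP
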