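import Mathlib
import Pool.Agent.Lib.MP_f60e8a_al.P.PDefs
import Pool.Agent.Lib.MP_f60e8a_al.P.Lead
import Pool.Agent.Lib.MP_f60e8a_al.Word

/-!
# Distorted elements
-/

open scoped BigOperators commutatorElement

namespace Pool.Agent.MPf60e8aP

open Pool.Agent.MPf60e8a (wordLen sepIndex RF wordLen_one wordLen_mul_le wordLen_inv
  wordLen_zpow_le)
open Pool.Agent.MPf60e8aN (Alg)

namespace LowAAux

variable {G : Type*} [Group G] {S : Finset G} {h : ℕ} {w : Fin h → ℕ} {𝒢 : PGrp w}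

/-- The element `g` is supported in weights at least `m`, with weight `m` part `z`. -/
def Lev (γ : GMap G 𝒢) (m : ℕ) (g : G) (z : Fin h → ℤ) : Prop :=
  (∀ i, w i < m → γ.ξ g i = 0) ∧ ∀ i, w i = m → γ.ξ g i = z i

theorem Lev.supp {γ : GMap G 𝒢} {m : ℕ} {g : G} {z : Fin h → ℤ} (hg : Lev γ m g z) :
    SuppGe w m (γ.hom g).v := by
  intro k hk
  rw [GMap.hom_v, hg.1 k hk, Int.cast_zero]

theorem xi_eq {γ : GMap G 𝒢} {g : G} {i : Fin h} {n : ℤ} (hn : (γ.hom g).v i = (n : ℝ)) :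
    γ.ξ g i = n := by
  rw [GMap.hom_v] at hn
  exact_mod_cast hn

theorem lev_one (γ : GMap G 𝒢) (m : ℕ) : Lev γ m 1 0 := by
  have : ∀ i, γ.ξ 1 i = 0 := fun i => xi_eq (by rw [map_one, PGrp.one_v]; simp)
  exact ⟨fun i _ => this i, fun i _ => this i⟩

theorem lev_mul {γ : GMap G 𝒢} {m : ℕ} (hm : 1 ≤ m) {g g' : G} {z z' : Fin h → ℤ}
    (hg : Lev γ m g z) (hg' : Lev γ m g' z') : Lev γ m (g * g') (z + z') := by
  have key : ∀ i, w i ≤ m → γ.ξ (g * g') i = γ.ξ g i + γ.ξ g' i := by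
    intro i hi
    refine xi_eq ?_
    rw [map_mul, mul_lead 𝒢 _ _ hg.supp hg'.supp i (by omega), GMap.hom_v, GMap.hom_v]
    push_cast
    rfl
  refine ⟨fun i hi => ?_, fun i hi => ?_⟩
  · rw [key i hi.le, hg.1 i hi, hg'.1 i hi, add_zero]
  · rw [key i hi.le, hg.2 i hi, hg'.2 i hi, Pi.add_apply]

theorem lev_inv {γ : GMap G 𝒢} {m : ℕ} {g : G} {z : Fin h → ℤ}
    (hg : Lev γ m g z) : Lev γ m g⁻¹ (-z) := by
  have key : ∀ i, γ.ξ g⁻¹ i = - γ.ξ g i := by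
    intro i
    refine xi_eq ?_
    rw [map_inv, PGrp.inv_v, Pi.neg_apply, GMap.hom_v]
    push_cast
    rfl
  refine ⟨fun i hi => ?_, fun i hi => ?_⟩
  · rw [key i, hg.1 i hi, neg_zero]
  · rw [key i, hg.2 i hi, Pi.neg_apply]

theorem lev_pow {γ : GMap G 𝒢} {m : ℕ} (hm : 1 ≤ m) {g : G} {z : Fin h → ℤ}
    (hg : Lev γ m g z) (n : ℕ) : Lev γ m (g ^ n) ((n : ℤ) • z) := by
  induction n with
  | zero => simpa using lev_one γ m
  | succ n ih =>
    have := lev_mul hm ih hg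
    rw [pow_succ]
    convert this using 1
    push_cast
    rw [add_smul, one_smul]

theorem lev_zpow {γ : GMap G 𝒢} {m : ℕ} (hm : 1 ≤ m) {g : G} {z : Fin h → ℤ}
    (hg : Lev γ m g z) (n : ℤ) : Lev γ m (g ^ n) (n • z) := by
  rcases Int.eq_nat_or_neg n with ⟨k, hk | hk⟩
  · rw [hk, zpow_natCast]
    exact lev_pow hm hg k
  · rw [hk, zpow_neg, zpow_natCast, neg_smul]
    exact lev_inv (lev_pow hm hg k)

/-- The weight `m + 1` part of a commutator. -/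
theorem lev_comm {γ : GMap G 𝒢} {𝔏 : Alg h} {M : ℕ} (hc : HasComm 𝒢 𝔏 M)
    (hF : Filtered w 𝔏) {m : ℕ} (hm : 1 ≤ m) {g g' : G} {z z' : Fin h → ℤ} {p q : ℤ}
    {i₀ j₀ : Fin h} (hi₀ : w i₀ = 1) (hj₀ : w j₀ = m)
    (hz : z = p • Pi.single i₀ 1) (hz' : z' = q • Pi.single j₀ 1)
    (hg : Lev γ 1 g z) (hg' : Lev γ m g' z') :
    Lev γ (m + 1) ⁅g, g'⁆ (fun k => M * p * q * (gr w 𝔏).c i₀ j₀ k) := by
  have hcl := comm_lead 𝒢 hc hF le_rfl hm (γ.hom g) (γ.hom g') hg.supp hg'.supp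
  refine ⟨fun i hi => ?_, fun k hk => ?_⟩
  · refine xi_eq ?_
    rw [map_commutatorElement, (hcl i).1 (by omega)]
    simp
  · refine xi_eq ?_
    rw [map_commutatorElement, (hcl k).2 (by omega)]
    unfold Alg.mul
    have h1 : ∑ i, ∑ j, ((gr w 𝔏).c i j k : ℝ) * (γ.hom g).v i * (γ.hom g').v j =
        ((gr w 𝔏).c i₀ j₀ k : ℝ) * (γ.hom g).v i₀ * (γ.hom g').v j₀ := by
      rw [Finset.sum_eq_single i₀, Finset.sum_eq_single j₀]
      · intro j _ hj
        by_cases hjm : w j = m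
        · rw [GMap.hom_v (g := g'), hg'.2 j hjm, hz']
          simp [hj]
        · rcases lt_or_gt_of_ne hjm with h2 | h2
          · rw [GMap.hom_v (g := g'), hg'.1 j h2]
            simp
          · have : (gr w 𝔏).c i₀ j k = 0 := by
              unfold gr
              simp only
              rw [if_neg]
              omega
            rw [this]
            simp
      · intro h3
        exact absurd (Finset.mem_univ _) h3
      · intro i _ hi
        refine Finset.sum_eq_zero fun j _ => ?_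
        by_cases hi1 : w i = 1
        · rw [GMap.hom_v (g := g), hg.2 i hi1, hz]
          simp [hi]
        · have h4 := 𝒢.one_le_w i
          by_cases hjm : w j < m
          · rw [GMap.hom_v (g := g'), hg'.1 j hjm]
            simp
          · have : (gr w 𝔏).c i j k = 0 := by
              unfold gr
              simp only
              rw [if_neg]
              omega
            rw [this]
            simp
      · intro h3
        exact absurd (Finset.mem_univ _) h3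
    rw [h1, GMap.hom_v, GMap.hom_v, hg.2 i₀ hi₀, hg'.2 j₀ hj₀, hz, hz']
    simp only [Pi.smul_apply, Pi.single_eq_same, smul_eq_mul, mul_one]
    push_cast
    ring

variable (S) in
/-- The multiples of `x` in weight `m` are attained by distorted elements. -/
def Dist (γ : GMap G 𝒢) (m : ℕ) (x : Fin h → ℤ) : Prop :=
  ∃ C : ℝ, 0 < C ∧ ∀ r a : ℤ, 1 ≤ r → |a| ≤ r ^ m →
    ∃ u : G, (wordLen S u : ℝ) ≤ C * r ∧ Lev γ m u (a • x)

theorem dist_zero (γ : GMap G 𝒢) (m : ℕ) : Dist S γ m 0 := by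
  refine ⟨1, one_pos, fun r a hr _ => ⟨1, ?_, ?_⟩⟩
  · rw [wordLen_one]
    have : (1 : ℝ) ≤ r := by exact_mod_cast hr
    simp only [Nat.cast_zero, one_mul]
    linarith
  · rw [smul_zero]
    exact lev_one γ m

theorem dist_add (hS : Subgroup.closure (S : Set G) = ⊤) {γ : GMap G 𝒢} {m : ℕ} (hm : 1 ≤ m)
    {x y : Fin h → ℤ} (hx : Dist S γ m x) (hy : Dist S γ m y) : Dist S γ m (x + y) := by
  obtain ⟨C, hC, hx⟩ := hx
  obtain ⟨C', hC', hy⟩ := hy
  refine ⟨C + C', by positivity, fun r a hr ha => ?_⟩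
  obtain ⟨u, hu1, hu2⟩ := hx r a hr ha
  obtain ⟨u', hu1', hu2'⟩ := hy r a hr ha
  refine ⟨u * u', ?_, ?_⟩
  · have : (wordLen S (u * u') : ℝ) ≤ wordLen S u + wordLen S u' := by
      exact_mod_cast wordLen_mul_le hS u u'
    linarith
  · rw [smul_add]
    exact lev_mul hm hu2 hu2'

theorem dist_zsmul (hS : Subgroup.closure (S : Set G) = ⊤) {γ : GMap G 𝒢} {m : ℕ} (hm : 1 ≤ m)
    {x : Fin h → ℤ} (hx : Dist S γ m x) (q : ℤ) : Dist S γ m (q • x) := by
  obtain ⟨C, hC, hx⟩ := hx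
  refine ⟨(|(q : ℝ)| + 1) * C, by positivity, fun r a hr ha => ?_⟩
  obtain ⟨u, hu1, hu2⟩ := hx r a hr ha
  refine ⟨u ^ q, ?_, ?_⟩
  · have h1 : (wordLen S (u ^ q) : ℝ) ≤ q.natAbs * wordLen S u := by
      exact_mod_cast wordLen_zpow_le hS u q
    have h2 : ((q.natAbs : ℕ) : ℝ) = |(q : ℝ)| := by
      rw [Nat.cast_natAbs, Int.cast_abs]
    rw [h2] at h1
    have h3 : (0 : ℝ) ≤ |(q : ℝ)| := abs_nonneg _
    have h4 : (0 : ℝ) < r := by exact_mod_cast (by omega : 0 < r)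
    have h5 : |(q : ℝ)| * wordLen S u ≤ |(q : ℝ)| * (C * r) := mul_le_mul_of_nonneg_left hu1 h3
    have h6 : 0 < C * r := mul_pos hC h4
    nlinarith
  · have h1 := lev_zpow hm hu2 q
    rwa [smul_comm] at h1

theorem dist_base (hS : Subgroup.closure (S : Set G) = ⊤) (γ : GMap G 𝒢) (k : Fin h) :
    Dist S γ 1 ((γ.n₀ : ℤ) • Pi.single k 1) := by
  obtain ⟨g, hg⟩ := γ.expo (Pi.single k 1)
  have hlev : Lev γ 1 g ((γ.n₀ : ℤ) • Pi.single k 1) := by
    refine ⟨fun i hi => ?_, fun i _ => ?_⟩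
    · have := 𝒢.one_le_w i
      omega
    · rw [hg]
      simp
  refine ⟨wordLen S g + 1, by positivity, fun r a hr ha => ⟨g ^ a, ?_, lev_zpow le_rfl hlev a⟩⟩
  have h1 : (wordLen S (g ^ a) : ℝ) ≤ a.natAbs * wordLen S g := by
    exact_mod_cast wordLen_zpow_le hS g a
  have h2 : ((a.natAbs : ℕ) : ℝ) = |(a : ℝ)| := by
    rw [Nat.cast_natAbs, Int.cast_abs]
  rw [h2] at h1
  have h3 : |(a : ℝ)| ≤ r := by
    rw [pow_one] at ha
    exact_mod_cast ha
  have h4 : (0 : ℝ) ≤ wordLen S g := Nat.cast_nonneg _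
  have h5 : (1 : ℝ) ≤ r := by exact_mod_cast hr
  nlinarith

theorem wordLen_comm_le (hS : Subgroup.closure (S : Set G) = ⊤) (g g' : G) :
    (wordLen S ⁅g, g'⁆ : ℝ) ≤ 2 * wordLen S g + 2 * wordLen S g' := by
  have h1 : wordLen S ⁅g, g'⁆ ≤ wordLen S g + wordLen S g' + wordLen S g + wordLen S g' := by
    rw [commutatorElement_def]
    refine (wordLen_mul_le hS _ _).trans ?_
    rw [wordLen_inv hS]
    refine Nat.add_le_add_right ?_ _
    refine (wordLen_mul_le hS _ _).trans ?_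
    rw [wordLen_inv hS]
    exact Nat.add_le_add_right (wordLen_mul_le hS _ _) _
  have h2 : ((wordLen S ⁅g, g'⁆ : ℕ) : ℝ) ≤
      ((wordLen S g + wordLen S g' + wordLen S g + wordLen S g' : ℕ) : ℝ) := by
    exact_mod_cast h1
  push_cast at h2
  linarith

theorem exists_split {r a : ℤ} (hr : 1 ≤ r) {m : ℕ} (ha : |a| ≤ r ^ (m + 1)) :
    ∃ b b' : ℤ, a = b * r ^ m + b' ∧ |b| ≤ r ∧ |b'| ≤ r ^ m := by
  have hpos : 0 < r ^ m := by positivity
  refine ⟨a / r ^ m, a % r ^ m, ?_, ?_, ?_⟩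
  · have := Int.mul_ediv_add_emod a (r ^ m)
    linarith [this, mul_comm (r ^ m) (a / r ^ m)]
  · rw [abs_le] at ha ⊢
    constructor
    · rw [Int.le_ediv_iff_mul_le hpos]
      rw [pow_succ] at ha
      nlinarith [ha.1]
    · have : a / r ^ m ≤ (r * r ^ m) / r ^ m := Int.ediv_le_ediv hpos (by
        rw [pow_succ] at ha
        nlinarith [ha.2])
      rwa [Int.mul_ediv_cancel _ hpos.ne'] at this
  · have h1 := Int.emod_nonneg a hpos.ne'
    have h2 := Int.emod_lt_of_pos a hpos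
    rw [abs_of_nonneg h1]
    exact h2.le

theorem dist_comm (hS : Subgroup.closure (S : Set G) = ⊤) {γ : GMap G 𝒢} {𝔏 : Alg h} {M : ℕ}
    (hc : HasComm 𝒢 𝔏 M) (hF : Filtered w 𝔏) {m : ℕ} (hm : 1 ≤ m) {p q : ℤ} {i₀ j₀ : Fin h}
    (hi₀ : w i₀ = 1) (hj₀ : w j₀ = m) (hx : Dist S γ 1 (p • Pi.single i₀ 1))
    (hy : Dist S γ m (q • Pi.single j₀ 1)) :
    Dist S γ (m + 1) (fun k => M * p * q * (gr w 𝔏).c i₀ j₀ k) := by
  obtain ⟨C, hC, hx⟩ := hx
  obtain ⟨C', hC', hy⟩ := hy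
  refine ⟨4 * C + 4 * C', by positivity, fun r a hr ha => ?_⟩
  obtain ⟨b, b', hab, hb, hb'⟩ := exists_split hr ha
  have hpos : 0 < r ^ m := by positivity
  obtain ⟨u₁, hu₁, hl₁⟩ := hx r b hr (by rwa [pow_one])
  obtain ⟨u₂, hu₂, hl₂⟩ := hy r (r ^ m) hr (by rw [abs_of_pos hpos])
  obtain ⟨u₃, hu₃, hl₃⟩ := hx r 1 hr (by rw [pow_one, abs_one]; exact hr)
  obtain ⟨u₄, hu₄, hl₄⟩ := hy r b' hr hb'
  refine ⟨⁅u₁, u₂⁆ * ⁅u₃, u₄⁆, ?_, ?_⟩
  · have h1 : (wordLen S (⁅u₁, u₂⁆ * ⁅u₃, u₄⁆) : ℝ) ≤ wordLen S ⁅u₁, u₂⁆ + wordLen S ⁅u₃, u₄⁆ := by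
      exact_mod_cast wordLen_mul_le hS _ _
    have h2 := wordLen_comm_le hS u₁ u₂
    have h3 := wordLen_comm_le hS u₃ u₄
    linarith
  · have e1 := lev_comm (p := b * p) (q := r ^ m * q) hc hF hm hi₀ hj₀ (by rw [mul_smul])
      (by rw [mul_smul]) hl₁ hl₂
    have e2 := lev_comm (p := 1 * p) (q := b' * q) hc hF hm hi₀ hj₀ (by rw [mul_smul])
      (by rw [mul_smul]) hl₃ hl₄
    have e3 := lev_mul (by omega) e1 e2
    convert e3 using 1
    funext k
    simp only [Pi.smul_apply, Pi.add_apply, smul_eq_mul]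
    rw [hab]
    ring

/-- Clearing denominators. -/
theorem dist_span (hS : Subgroup.closure (S : Set G) = ⊤) {γ : GMap G 𝒢} {m : ℕ} (hm : 1 ≤ m)
    {s : Set (Fin h → ℚ)}
    (hs : ∀ z ∈ s, ∃ n : ℕ, 0 < n ∧ ∃ x : Fin h → ℤ, (∀ k, (n : ℚ) * z k = x k) ∧
      Dist S γ m x) (z : Fin h → ℚ) (hz : z ∈ Submodule.span ℚ s) :
    ∃ n : ℕ, 0 < n ∧ ∃ x : Fin h → ℤ, (∀ k, (n : ℚ) * z k = x k) ∧ Dist S γ m x := by
  induction hz using Submodule.span_induction with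
  | mem z hz => exact hs z hz
  | zero => exact ⟨1, one_pos, 0, fun k => by simp, dist_zero γ m⟩
  | add z z' _ _ ih ih' =>
    obtain ⟨n, hn, x, hx, hd⟩ := ih
    obtain ⟨n', hn', x', hx', hd'⟩ := ih'
    refine ⟨n * n', by positivity, (n' : ℤ) • x + (n : ℤ) • x', fun k => ?_,
      dist_add hS hm (dist_zsmul hS hm hd _) (dist_zsmul hS hm hd' _)⟩
    simp only [Pi.add_apply, Pi.smul_apply, smul_eq_mul]
    push_cast
    rw [← hx k, ← hx' k]
    ring
  | smul q z _ ih =>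
    obtain ⟨n, hn, x, hx, hd⟩ := ih
    refine ⟨n * q.den, Nat.mul_pos hn q.den_pos, q.num • x, fun k => ?_, dist_zsmul hS hm hd _⟩
    simp only [Pi.smul_apply, smul_eq_mul]
    push_cast
    rw [← hx k]
    have h1 : (q.den : ℚ) * q = q.num := by
      rw [mul_comm]
      exact Rat.mul_den_eq_num q
    calc (n : ℚ) * q.den * (q * z k) = n * ((q.den : ℚ) * q) * z k := by ring
      _ = _ := by rw [h1]; ring

theorem dist_all (hS : Subgroup.closure (S : Set G) = ⊤) {γ : GMap G 𝒢} {𝔏 : Alg h} {M : ℕ}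
    (hM : 0 < M) (hc : HasComm 𝒢 𝔏 M) (hF : Filtered w 𝔏) (hG : Generated w (gr w 𝔏))
    (m : ℕ) (hm : 1 ≤ m) : ∀ k, w k = m → ∃ D : ℕ, 0 < D ∧
      Dist S γ m ((D : ℤ) • Pi.single k 1) := by
  induction m, hm using Nat.le_induction with
  | base => exact fun k _ => ⟨γ.n₀, γ.n₀_pos, dist_base hS γ k⟩
  | succ m hm ih =>
    intro k hk
    have h1 := hG k (by omega)
    obtain ⟨n, hn, x, hx, hd⟩ := dist_span (γ := γ) (m := m + 1) hS (by omega) (by
      rintro z ⟨i, j, hi, hj, rfl⟩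
      obtain ⟨D, hD, hDist⟩ := ih j (by omega)
      refine ⟨M * γ.n₀ * D, Nat.mul_pos (Nat.mul_pos hM γ.n₀_pos) hD, _, ?_,
        dist_comm hS hc hF hm hi (by omega : w j = m) (dist_base hS γ i) hDist⟩
      intro k
      push_cast
      rfl) _ h1
    refine ⟨n, hn, ?_⟩
    convert hd using 1
    funext i
    have h2 := hx i
    have h3 : ((n * (Pi.single k 1 : Fin h → ℤ) i : ℤ) : ℚ) = x i := by
      rw [← h2]
      by_cases hi : i = k
      · subst hi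
        simp
      · simp [hi]
    have h4 : (n * (Pi.single k 1 : Fin h → ℤ) i : ℤ) = x i := by exact_mod_cast h3
    rw [← h4]
    simp

end LowAAux

open LowAAux in
theorem exists_distorted {G : Type*} [Group G] {S : Finset G}
    (hS : Subgroup.closure (S : Set G) = ⊤) {h : ℕ} {w : Fin h → ℕ} {𝒢 : PGrp w}
    (γ : GMap G 𝒢) {𝔏 : Alg h} {M : ℕ} (hM : 0 < M) (hc : HasComm 𝒢 𝔏 M)
    (hF : Filtered w 𝔏) (hG : Generated w (gr w 𝔏)) (m : ℕ) (hm : 1 ≤ m) :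
    ∃ (D : ℕ) (C : ℝ), 0 < D ∧ 0 < C ∧ ∀ (k : Fin h), w k = m → ∀ (r a : ℤ), 1 ≤ r →
      |a| ≤ r ^ m → ∃ u : G, (wordLen S u : ℝ) ≤ C * r ∧
        (∀ i, w i < m → γ.ξ u i = 0) ∧
        ∀ i, w i = m → γ.ξ u i = if i = k then a * D else 0 := by
  have h1 : ∀ k, ∃ D : ℕ, 0 < D ∧ (w k = m → Dist S γ m ((D : ℤ) • Pi.single k 1)) := by
    intro k
    by_cases hk : w k = m
    · obtain ⟨D, hD, hd⟩ := dist_all hS (γ := γ) hM hc hF hG m hm k hk
      exact ⟨D, hD, fun _ => hd⟩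
    · exact ⟨1, one_pos, fun h => absurd h hk⟩
  choose D hD hd using h1
  have h2 : ∀ k, w k = m → Dist S γ m (((∏ j, D j : ℕ) : ℤ) • Pi.single k 1) := by
    intro k hk
    have h3 := dist_zsmul hS hm (hd k hk) ((∏ j ∈ Finset.univ.erase k, D j : ℕ) : ℤ)
    convert h3 using 1
    rw [← mul_smul]
    congr 1
    rw [← Nat.cast_mul, Finset.prod_erase_mul _ _ (Finset.mem_univ k)]
  have h3 : ∀ k, ∃ C : ℝ, 0 < C ∧ (w k = m → ∀ r a : ℤ, 1 ≤ r → |a| ≤ r ^ m →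
      ∃ u : G, (wordLen S u : ℝ) ≤ C * r ∧
        Lev γ m u (a • (((∏ j, D j : ℕ) : ℤ) • Pi.single k 1))) := by
    intro k
    by_cases hk : w k = m
    · obtain ⟨C, hC, hd⟩ := h2 k hk
      exact ⟨C, hC, fun _ => hd⟩
    · exact ⟨1, one_pos, fun h => absurd h hk⟩
  choose C hC hdC using h3
  refine ⟨∏ j, D j, 1 + ∑ k, C k, Finset.prod_pos fun j _ => hD j, ?_, ?_⟩
  · have : 0 ≤ ∑ k, C k := Finset.sum_nonneg fun k _ => (hC k).le
    linarith
  · intro k hk r a hr ha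
    obtain ⟨u, hu, hl⟩ := hdC k hk r a hr ha
    refine ⟨u, ?_, hl.1, ?_⟩
    · have h4 : C k ≤ ∑ k, C k := Finset.single_le_sum (fun i _ => (hC i).le) (Finset.mem_univ k)
      have h5 : (1 : ℝ) ≤ r := by exact_mod_cast hr
      nlinarith
    · intro i hi
      rw [hl.2 i hi]
      by_cases hik : i = k
      · subst hik
        simp
      · simp [hik]

end Pool.Agent.MPf60e8aP
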