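import Mathlib
import Pool.Agent.Lib.MP_f60e8a_al.P.PDefs
import Pool.Agent.Lib.MP_f60e8a_al.P.Lead
import Pool.Agent.Lib.MP_f60e8a_al.P.CoordUp
import Pool.Agent.Lib.MP_f60e8a_al.P.LowA
import Pool.Agent.Lib.MP_f60e8a_al.Word

/-!
# The word length is bounded in terms of the coordinates
-/

open scoped BigOperators commutatorElement

namespace Pool.Agent.MPf60e8aP

open Pool.Agent.MPf60e8a (wordLen sepIndex RF wordLen_mul_le wordLen_inv_le)
open Pool.Agent.MPf60e8aN (Alg)

namespace LowB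

variable {G : Type*} [Group G] {h : ℕ} {w : Fin h → ℕ} {𝒢 : PGrp w}

theorem xi_inv (γ : GMap G 𝒢) (g : G) (k : Fin h) : (γ.ξ g⁻¹ k : ℝ) = -(γ.ξ g k : ℝ) := by
  have h1 : (γ.hom g⁻¹).v k = ((γ.hom g)⁻¹).v k := by rw [map_inv]
  exact h1

theorem xi_one (γ : GMap G 𝒢) (k : Fin h) : (γ.ξ 1 k : ℝ) = 0 := by
  have h1 : (γ.hom 1).v k = (1 : 𝒢.R).v k := by rw [map_one]
  exact h1

/-- Elements with bounded coordinates form a finite set. -/
theorem finite_bounded (γ : GMap G 𝒢) (B : ℕ) : {g : G | ∀ k, |γ.ξ g k| ≤ B}.Finite := by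
  have h1 : {g : G | ∀ k, |γ.ξ g k| ≤ B} = γ.ξ ⁻¹' {z | ∀ k, |z k| ≤ B} := rfl
  rw [h1]
  refine Set.Finite.preimage' ?_ ?_
  · have h2 : {z : Fin h → ℤ | ∀ k, |z k| ≤ B} = Set.pi Set.univ (fun _ => Set.Icc (-(B : ℤ)) B) := by
      ext z
      simp only [Set.mem_setOf_eq, Set.mem_pi, Set.mem_univ, true_implies, Set.mem_Icc, abs_le]
    rw [h2]
    exact Set.Finite.pi fun _ => Set.finite_Icc _ _
  · intro z _
    by_cases hz : ∃ g₀, γ.ξ g₀ = z
    · obtain ⟨g₀, hg₀⟩ := hz
      refine (γ.finite.image (fun t => g₀ * t)).subset ?_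
      intro g hg
      have hg' : γ.ξ g = z := hg
      refine ⟨g₀⁻¹ * g, ?_, by simp⟩
      have e1 : γ.hom g = γ.hom g₀ := by
        refine PGrp.R.ext ?_
        funext k
        show (γ.ξ g k : ℝ) = γ.ξ g₀ k
        rw [hg', hg₀]
      have e2 : γ.hom (g₀⁻¹ * g) = 1 := by
        rw [map_mul, map_inv, e1, inv_mul_cancel]
      show γ.ξ (g₀⁻¹ * g) = 0
      funext k
      have e3 : (γ.hom (g₀⁻¹ * g)).v k = 0 := by rw [e2]; rfl
      have e4 : ((γ.ξ (g₀⁻¹ * g) k : ℤ) : ℝ) = 0 := e3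
      exact_mod_cast e4
    · have : γ.ξ ⁻¹' {z} = ∅ := by
        rw [Set.eq_empty_iff_forall_notMem]
        intro g hg
        exact hz ⟨g, hg⟩
      rw [this]
      exact Set.finite_empty

/-- Products of distorted elements. -/
theorem exists_prod {S : Finset G} (hS : Subgroup.closure (S : Set G) = ⊤) (γ : GMap G 𝒢)
    (m D : ℕ) (C : ℝ) (R : ℤ) (hm : 1 ≤ m) (hC : 0 < C) (hR : 1 ≤ R) (b : Fin h → ℤ)
    (hu : ∀ k, w k = m → ∃ u : G, (wordLen S u : ℝ) ≤ C * R ∧ (∀ i, w i < m → γ.ξ u i = 0) ∧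
      ∀ i, w i = m → γ.ξ u i = if i = k then b k * D else 0) (s : Finset (Fin h))
    (hs : ∀ k ∈ s, w k = m) :
    ∃ u : G, (wordLen S u : ℝ) ≤ s.card * (C * R) ∧ (∀ i, w i < m → γ.ξ u i = 0) ∧
      ∀ i, w i = m → γ.ξ u i = if i ∈ s then b i * D else 0 := by
  classical
  induction s using Finset.induction_on with
  | empty =>
    have hz : ∀ k, γ.ξ 1 k = 0 := fun k => by exact_mod_cast xi_one γ k
    refine ⟨1, ?_, fun i _ => hz i, fun i _ => by simpa using hz i⟩
    have : wordLen S (1 : G) ≤ 0 := MPf60e8a.wordLen_le_of_list [] (by simp) (by simp)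
    have h0 : wordLen S (1 : G) = 0 := by omega
    simp [h0]
  | insert k s hk ih =>
    obtain ⟨u, hu1, hu2, hu3⟩ := ih fun k' hk' => hs k' (Finset.mem_insert_of_mem hk')
    obtain ⟨v, hv1, hv2, hv3⟩ := hu k (hs k (Finset.mem_insert_self k s))
    have hsu : SuppGe w m (γ.hom u).v := fun i hi => by
      show (γ.ξ u i : ℝ) = 0
      rw [hu2 i hi, Int.cast_zero]
    have hsv : SuppGe w m (γ.hom v).v := fun i hi => by
      show (γ.ξ v i : ℝ) = 0
      rw [hv2 i hi, Int.cast_zero]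
    have hmul : ∀ i, w i < m + m → γ.ξ (u * v) i = γ.ξ u i + γ.ξ v i := by
      intro i hi
      have e1 := mul_lead 𝒢 (γ.hom u) (γ.hom v) hsu hsv i hi
      rw [← map_mul] at e1
      have e2 : ((γ.ξ (u * v) i : ℤ) : ℝ) = (γ.ξ u i : ℝ) + (γ.ξ v i : ℝ) := e1
      exact_mod_cast e2
    refine ⟨u * v, ?_, ?_, ?_⟩
    · have e1 := wordLen_mul_le hS u v
      have e2 : (wordLen S (u * v) : ℝ) ≤ wordLen S u + wordLen S v := by exact_mod_cast e1
      rw [Finset.card_insert_of_notMem hk]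
      push_cast
      linarith
    · intro i hi
      rw [hmul i (by omega), hu2 i hi, hv2 i hi, add_zero]
    · intro i hi
      rw [hmul i (by omega), hu3 i hi, hv3 i hi]
      by_cases hik : i = k
      · subst hik
        simp [hk]
      · simp [hik]

end LowB

open LowB in
theorem coordLow {G : Type*} [Group G] {S : Finset G}
    (hS : Subgroup.closure (S : Set G) = ⊤) {h : ℕ} {w : Fin h → ℕ} {𝒢 : PGrp w}
    (γ : GMap G 𝒢) {𝔏 : Alg h} {M : ℕ} (hM : 0 < M) (hc : HasComm 𝒢 𝔏 M)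
    (hF : Filtered w 𝔏) (hG : Generated w (gr w 𝔏)) : CoordLow S γ := by
  classical
  obtain ⟨Cu, hCu, hup⟩ := coordUp hS γ
  obtain ⟨Cb, hCb1, hCb⟩ := mul_bound 𝒢
  have key : ∀ m : ℕ, ∃ C : ℝ, 1 ≤ C ∧ ∀ (g : G) (r : ℝ), 1 ≤ r →
      (∀ k, |(γ.ξ g k : ℝ)| ≤ r ^ w k) → ∃ u : G, (wordLen S u : ℝ) ≤ C * r ∧
        (∀ k, w k ≤ m → |(γ.ξ (u⁻¹ * g) k : ℝ)| ≤ C) ∧
        ∀ k, |(γ.ξ (u⁻¹ * g) k : ℝ)| ≤ (C * r) ^ w k := by
    intro m
    induction m with
    | zero =>
      refine ⟨1, le_rfl, fun g r hr hg => ⟨1, ?_, ?_, ?_⟩⟩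
      · have h1 : wordLen S (1 : G) ≤ 0 := MPf60e8a.wordLen_le_of_list [] (by simp) (by simp)
        have h0 : wordLen S (1 : G) = 0 := by omega
        rw [h0]
        push_cast
        linarith
      · intro k hk
        have := 𝒢.one_le_w k
        omega
      · intro k
        rw [inv_one, one_mul, one_mul]
        exact hg k
    | succ m ih =>
      obtain ⟨C, hC1, hC⟩ := ih
      obtain ⟨D, C', hD, hC', hdist⟩ := exists_distorted hS γ hM hc hF hG (m + 1) (by omega)
      -- constants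
      set A : ℝ := h * (C' * (2 * C)) with hA
      have hA0 : 0 ≤ A := by positivity
      set K : ℝ := Cu * (1 + A) + C with hK
      have hK1 : 1 ≤ K := by
        have : 0 ≤ Cu * (1 + A) := by positivity
        linarith
      set E : ℝ := C + A + D + Cb * K with hE
      have hE1 : 1 ≤ E := by
        have e1 : 0 ≤ Cb * K := by positivity
        have e2 : (0 : ℝ) ≤ D := Nat.cast_nonneg D
        linarith
      refine ⟨E, hE1, fun g r hr hg => ?_⟩
      obtain ⟨u, hu1, hu2, hu3⟩ := hC g r hr hg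
      set g' := u⁻¹ * g with hg'
      have hCr : 1 ≤ C * r := by nlinarith
      set R : ℤ := ⌈C * r⌉ with hR
      have hR1 : C * r ≤ R := Int.le_ceil _
      have hR2 : (R : ℝ) ≤ 2 * (C * r) := by
        have := Int.ceil_lt_add_one (C * r)
        linarith
      have hR0 : 1 ≤ R := by
        have : (1 : ℝ) ≤ R := hCr.trans hR1
        exact_mod_cast this
      have hb : ∀ k, w k = m + 1 → |γ.ξ g' k / (D : ℤ)| ≤ R ^ (m + 1) := by
        intro k hk
        have e1 := hu3 k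
        rw [hk] at e1
        have e2 : (|γ.ξ g' k| : ℝ) ≤ (R : ℝ) ^ (m + 1) :=
          e1.trans (pow_le_pow_left₀ (by linarith) hR1 _)
        have e3 : |γ.ξ g' k| ≤ R ^ (m + 1) := by exact_mod_cast e2
        refine le_trans ?_ e3
        exact Int.abs_ediv_le_abs _ _
      obtain ⟨u', hu'1, hu'2, hu'3⟩ := exists_prod hS γ (m + 1) D C' R (by omega) hC' hR0
        (fun k => γ.ξ g' k / (D : ℤ)) (fun k hk => hdist k hk R _ hR0 (hb k hk))
        (Finset.univ.filter fun k => w k = m + 1) (fun k hk => by simpa using hk)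
      have hu'len : (wordLen S u' : ℝ) ≤ A * r := by
        have e1 : ((Finset.univ.filter fun k => w k = m + 1).card : ℝ) ≤ h := by
          have := Finset.card_filter_le (Finset.univ : Finset (Fin h)) (fun k => w k = m + 1)
          rw [Finset.card_fin] at this
          exact_mod_cast this
        calc (wordLen S u' : ℝ) ≤ _ := hu'1
          _ ≤ h * (C' * (2 * (C * r))) := by
            have : (0 : ℝ) ≤ R := by exact_mod_cast (by omega : 0 ≤ R)
            gcongr
          _ = A * r := by rw [hA]; ring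
      have hinv : (u * u')⁻¹ * g = u'⁻¹ * g' := by
        rw [hg', mul_inv_rev, mul_assoc]
      have hsu' : SuppGe w (m + 1) (γ.hom u'⁻¹).v := fun i hi => by
        show (γ.ξ u'⁻¹ i : ℝ) = 0
        rw [xi_inv, hu'2 i hi, Int.cast_zero, neg_zero]
      have hsg' : SuppGe w 1 (γ.hom g').v := fun i hi => by
        have := 𝒢.one_le_w i
        omega
      have hlow : ∀ k, w k < m + 1 + 1 →
          (γ.ξ (u'⁻¹ * g') k : ℝ) = -(γ.ξ u' k : ℝ) + γ.ξ g' k := by
        intro k hk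
        have e1 := mul_lead 𝒢 (γ.hom u'⁻¹) (γ.hom g') hsu' hsg' k hk
        rw [← map_mul] at e1
        have e2 : ((γ.ξ (u'⁻¹ * g') k : ℤ) : ℝ) = (γ.ξ u'⁻¹ k : ℝ) + (γ.ξ g' k : ℝ) := e1
        rw [e2, xi_inv]
      refine ⟨u * u', ?_, ?_, ?_⟩
      · have e1 := wordLen_mul_le hS u u'
        have e2 : (wordLen S (u * u') : ℝ) ≤ wordLen S u + wordLen S u' := by exact_mod_cast e1
        have e3 : (C + A) * r ≤ E * r := by
          refine mul_le_mul_of_nonneg_right ?_ (by linarith)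
          have e4 : 0 ≤ Cb * K := by positivity
          have e5 : (0 : ℝ) ≤ D := Nat.cast_nonneg D
          rw [hE]
          linarith
        nlinarith
      · intro k hk
        rw [hinv, hlow k (by omega)]
        rcases Nat.lt_or_ge (w k) (m + 1) with hlt | hge
        · rw [hu'2 k hlt, Int.cast_zero, neg_zero, zero_add]
          refine (hu2 k (by omega)).trans ?_
          have e4 : 0 ≤ Cb * K := by positivity
          have e5 : (0 : ℝ) ≤ D := Nat.cast_nonneg D
          rw [hE]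
          linarith
        · have hk' : w k = m + 1 := by omega
          rw [hu'3 k hk', if_pos (by simp [hk'])]
          have e1 := Int.emod_add_mul_ediv (γ.ξ g' k) (D : ℤ)
          have hD' : (0 : ℤ) < D := by exact_mod_cast hD
          have e2 := Int.emod_nonneg (γ.ξ g' k) hD'.ne'
          have e3 := Int.emod_lt_of_pos (γ.ξ g' k) hD'
          have e4 : (-((γ.ξ g' k / (D : ℤ) * D : ℤ) : ℝ) + (γ.ξ g' k : ℝ)) =
              ((γ.ξ g' k % (D : ℤ) : ℤ) : ℝ) := by
            have : (γ.ξ g' k : ℤ) = γ.ξ g' k % (D : ℤ) + (D : ℤ) * (γ.ξ g' k / (D : ℤ)) := e1.symm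
            have e5 : (γ.ξ g' k : ℝ) = ((γ.ξ g' k % (D : ℤ) : ℤ) : ℝ) +
                ((D : ℤ) : ℝ) * ((γ.ξ g' k / (D : ℤ) : ℤ) : ℝ) := by exact_mod_cast this
            push_cast at e5 ⊢
            linarith
          rw [e4, abs_of_nonneg (by exact_mod_cast e2)]
          have e6 : ((γ.ξ g' k % (D : ℤ) : ℤ) : ℝ) ≤ D := by exact_mod_cast e3.le
          have e7 : 0 ≤ Cb * K := by positivity
          refine e6.trans ?_
          rw [hE]
          linarith
      · intro k
        rw [hinv]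
        have hKr : 1 ≤ K * r := by nlinarith
        have e1 : ∀ k, |(γ.hom u'⁻¹).v k| ≤ (K * r) ^ w k := by
          intro k
          have e2 : |(γ.hom u'⁻¹).v k| = |(γ.ξ u' k : ℝ)| := by
            show |(γ.ξ u'⁻¹ k : ℝ)| = _
            rw [xi_inv, abs_neg]
          rw [e2]
          refine (hup u' k).trans (pow_le_pow_left₀ (by positivity) ?_ _)
          have e3 : 1 + (wordLen S u' : ℝ) ≤ (1 + A) * r := by nlinarith
          calc Cu * (1 + (wordLen S u' : ℝ)) ≤ Cu * ((1 + A) * r) := by gcongr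
            _ ≤ K * r := by
              rw [hK]
              nlinarith
        have e2 : ∀ k, |(γ.hom g').v k| ≤ (K * r) ^ w k := by
          intro k
          refine (hu3 k).trans (pow_le_pow_left₀ (by linarith) ?_ _)
          have : 0 ≤ Cu * (1 + A) * r := by positivity
          rw [hK]
          nlinarith
        have e3 := hCb (γ.hom u'⁻¹) (γ.hom g') (K * r) hKr e1 e2 k
        rw [← map_mul] at e3
        have e4 : |(γ.ξ (u'⁻¹ * g') k : ℝ)| ≤ (Cb * (K * r)) ^ w k := e3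
        refine e4.trans (pow_le_pow_left₀ (by positivity) ?_ _)
        have e5 : (0 : ℝ) ≤ D := Nat.cast_nonneg D
        have e6 : Cb * K ≤ E := by
          rw [hE]
          linarith
        calc Cb * (K * r) = Cb * K * r := by ring
          _ ≤ E * r := mul_le_mul_of_nonneg_right e6 (by linarith)
  obtain ⟨C, hC1, hC⟩ := key (Finset.univ.sup w)
  -- the finite set
  have hfin := finite_bounded γ ⌈C⌉₊
  obtain ⟨W, hW⟩ := (hfin.image (wordLen S)).bddAbove
  refine ⟨C + W, by positivity, fun g r hr hg => ?_⟩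
  obtain ⟨u, hu1, hu2, _⟩ := hC g r hr hg
  have h1 : wordLen S (u⁻¹ * g) ≤ W := by
    refine hW ⟨u⁻¹ * g, fun k => ?_, rfl⟩
    have e1 := hu2 k (Finset.le_sup (Finset.mem_univ k))
    have e2 : |(γ.ξ (u⁻¹ * g) k : ℝ)| ≤ (⌈C⌉₊ : ℝ) := e1.trans (Nat.le_ceil C)
    exact_mod_cast e2
  have h2 := wordLen_mul_le hS u (u⁻¹ * g)
  rw [mul_inv_cancel_left] at h2
  have h3 : (wordLen S g : ℝ) ≤ wordLen S u + wordLen S (u⁻¹ * g) := by exact_mod_cast h2
  have h4 : (wordLen S (u⁻¹ * g) : ℝ) ≤ W := by exact_mod_cast h1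
  have h5 : (0 : ℝ) ≤ W := Nat.cast_nonneg W
  nlinarith

end Pool.Agent.MPf60e8aP
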