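import Mathlib
import Pool.Agent.Lib.MP_f60e8a_al.P.PDefs
import Pool.Agent.Lib.MP_f60e8a_al.N.EmbB

/-!
# A right-invariant mean on a finitely generated nilpotent group
-/

open scoped BigOperators commutatorElement

namespace Pool.Agent.MPf60e8aP

open Pool.Agent.MPf60e8a (wordLen sepIndex RF Bdd)
open Pool.Agent.MPf60e8aN (Alg)

namespace MeanG

theorem bdd_add {X : Type*} {φ ψ : X → ℝ} (hφ : Bdd φ) (hψ : Bdd ψ) :
    Bdd (fun x => φ x + ψ x) := by
  obtain ⟨C, hC⟩ := hφ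
  obtain ⟨D, hD⟩ := hψ
  exact ⟨C + D, fun x => (abs_add_le _ _).trans (add_le_add (hC x) (hD x))⟩

theorem bdd_smul {X : Type*} {φ : X → ℝ} (c : ℝ) (hφ : Bdd φ) : Bdd (fun x => c * φ x) := by
  obtain ⟨C, hC⟩ := hφ
  refine ⟨|c| * C, fun x => ?_⟩
  rw [abs_mul]
  exact mul_le_mul_of_nonneg_left (hC x) (abs_nonneg c)

theorem bdd_one {X : Type*} : Bdd (fun _ : X => (1 : ℝ)) := ⟨1, fun _ => by simp⟩

theorem bdd_comp {X Y : Type*} {φ : X → ℝ} (f : Y → X) (hφ : Bdd φ) :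
    Bdd (fun y => φ (f y)) := by
  obtain ⟨C, hC⟩ := hφ
  exact ⟨C, fun y => hC _⟩

/-- The averages. -/
noncomputable def avg (φ : ℤ → ℝ) (n : ℕ) : ℝ :=
  (∑ i ∈ Finset.range (n + 1), φ (i : ℤ)) / ((n : ℝ) + 1)

theorem avg_add (φ ψ : ℤ → ℝ) (n : ℕ) :
    avg (fun x => φ x + ψ x) n = avg φ n + avg ψ n := by
  unfold avg
  rw [Finset.sum_add_distrib, add_div]

theorem avg_smul (c : ℝ) (φ : ℤ → ℝ) (n : ℕ) : avg (fun x => c * φ x) n = c * avg φ n := by
  unfold avg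
  rw [← Finset.mul_sum, mul_div_assoc]

theorem avg_nonneg {φ : ℤ → ℝ} (h : ∀ x, 0 ≤ φ x) (n : ℕ) : 0 ≤ avg φ n := by
  unfold avg
  exact div_nonneg (Finset.sum_nonneg fun x _ => h _) (by positivity)

theorem avg_one (n : ℕ) : avg (fun _ => 1) n = 1 := by
  unfold avg
  rw [Finset.sum_const, Finset.card_range, nsmul_eq_mul, mul_one]
  push_cast
  exact div_self (by positivity)

theorem avg_abs {φ : ℤ → ℝ} {C : ℝ} (h : ∀ x, |φ x| ≤ C) (n : ℕ) : |avg φ n| ≤ C := by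
  unfold avg
  have hp : (0 : ℝ) < (n : ℝ) + 1 := by positivity
  rw [abs_div, abs_of_pos hp, div_le_iff₀ hp]
  calc |∑ i ∈ Finset.range (n + 1), φ (i : ℤ)| ≤ ∑ i ∈ Finset.range (n + 1), |φ (i : ℤ)| :=
        Finset.abs_sum_le_sum_abs _ _
    _ ≤ ∑ _i ∈ Finset.range (n + 1), C := Finset.sum_le_sum fun x _ => h _
    _ = C * ((n : ℝ) + 1) := by
        rw [Finset.sum_const, Finset.card_range, nsmul_eq_mul, mul_comm]
        push_cast
        ring

theorem avg_shift {φ : ℤ → ℝ} {C : ℝ} (h : ∀ x, |φ x| ≤ C) (n : ℕ) :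
    |avg (fun i => φ (i + 1)) n - avg φ n| ≤ 2 * C / ((n : ℝ) + 1) := by
  unfold avg
  have hp : (0 : ℝ) < (n : ℝ) + 1 := by positivity
  have h1 : ∑ i ∈ Finset.range (n + 1), φ ((i : ℤ) + 1) -
      ∑ i ∈ Finset.range (n + 1), φ (i : ℤ) = φ ((n : ℤ) + 1) - φ 0 := by
    have := Finset.sum_range_sub (fun i : ℕ => φ (i : ℤ)) (n + 1)
    rw [← Finset.sum_sub_distrib]
    push_cast at this
    exact this
  rw [← sub_div, h1, abs_div, abs_of_pos hp]
  refine div_le_div_of_nonneg_right ?_ hp.le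
  calc |φ ((n : ℤ) + 1) - φ 0| ≤ |φ ((n : ℤ) + 1)| + |φ 0| := abs_sub _ _
    _ ≤ C + C := add_le_add (h _) (h _)
    _ = 2 * C := by ring

/-- An invariant mean on the integers. -/
theorem exists_meanZ : ∃ L : (ℤ → ℝ) → ℝ,
    (∀ φ ψ, Bdd φ → Bdd ψ → L (fun x => φ x + ψ x) = L φ + L ψ) ∧
    (∀ (c : ℝ) φ, Bdd φ → L (fun x => c * φ x) = c * L φ) ∧
    (∀ φ, Bdd φ → (∀ x, 0 ≤ φ x) → 0 ≤ L φ) ∧
    L (fun _ => 1) = 1 ∧
    (∀ φ (k : ℤ), Bdd φ → L (fun x => φ (x + k)) = L φ) := by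
  classical
  let U : Filter ℕ := (Filter.hyperfilter ℕ : Filter ℕ)
  have : U.NeBot := (Filter.hyperfilter ℕ).neBot'
  let L : (ℤ → ℝ) → ℝ := fun φ => Filter.limUnder U (avg φ)
  have hlim : ∀ φ, Bdd φ → Filter.Tendsto (avg φ) U (nhds (L φ)) := by
    rintro φ ⟨C, hC⟩
    apply tendsto_nhds_limUnder
    have hmem : ∀ r, avg φ r ∈ Set.Icc (-C) C := fun r => abs_le.mp (avg_abs hC r)
    obtain ⟨x, _, hx⟩ := (isCompact_Icc (a := -C) (b := C)).ultrafilter_le_nhds
      ((Filter.hyperfilter ℕ).map (avg φ)) (by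
        rw [Filter.le_principal_iff, Ultrafilter.mem_coe, Ultrafilter.mem_map]
        exact Filter.univ_mem' hmem)
    exact ⟨x, hx⟩
  have hone : ∀ φ, Bdd φ → L (fun x => φ (x + 1)) = L φ := by
    rintro φ ⟨C, hC⟩
    have hb : Bdd (fun x : ℤ => φ (x + 1)) := ⟨C, fun x => hC _⟩
    have h3 := (hlim _ hb).sub (hlim φ ⟨C, hC⟩)
    have h4 : Filter.Tendsto (fun r => avg (fun x => φ (x + 1)) r - avg φ r) U (nhds 0) := by
      have h6 : Filter.Tendsto (fun n : ℕ => 2 * C / ((n : ℝ) + 1)) Filter.atTop (nhds 0) := by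
        refine Filter.Tendsto.const_div_atTop ?_ _
        exact Filter.tendsto_atTop_add_const_right _ _ tendsto_natCast_atTop_atTop
      have h7 : Filter.Tendsto (fun r => avg (fun x => φ (x + 1)) r - avg φ r)
          Filter.atTop (nhds 0) :=
        squeeze_zero_norm (fun r => avg_shift hC r) h6
      exact h7.mono_left Nat.hyperfilter_le_atTop
    exact sub_eq_zero.mp (tendsto_nhds_unique h3 h4)
  refine ⟨L, ?_, ?_, ?_, ?_, ?_⟩
  · rintro φ ψ hφ hψ
    refine tendsto_nhds_unique (hlim _ (bdd_add hφ hψ)) ?_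
    refine ((hlim φ hφ).add (hlim ψ hψ)).congr fun r => ?_
    exact (avg_add φ ψ r).symm
  · rintro c φ hφ
    refine tendsto_nhds_unique (hlim _ (bdd_smul c hφ)) ?_
    refine ((hlim φ hφ).const_mul c).congr fun r => ?_
    exact (avg_smul c φ r).symm
  · rintro φ hφ hpos
    exact ge_of_tendsto' (hlim φ hφ) fun r => avg_nonneg hpos r
  · refine tendsto_nhds_unique (hlim _ bdd_one) ?_
    refine tendsto_const_nhds.congr fun r => ?_
    exact (avg_one r).symm
  · intro φ k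
    induction k using Int.induction_on with
    | zero =>
      intro _
      simp
    | succ i ih =>
      intro hφ
      have h1 := hone (fun x => φ (x + (i : ℤ))) (bdd_comp _ hφ)
      rw [← ih hφ, ← h1]
      congr 1
      funext x
      congr 1
      ring
    | pred i ih =>
      intro hφ
      have h1 := hone (fun x => φ (x + (-(i : ℤ) - 1))) (bdd_comp _ hφ)
      rw [← ih hφ, ← h1]
      congr 1
      funext x
      congr 1
      ring

/-- Means are bounded by the supremum norm. -/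
theorem mean_abs {X : Type*} {M : (X → ℝ) → ℝ}
    (hadd : ∀ φ ψ, Bdd φ → Bdd ψ → M (fun x => φ x + ψ x) = M φ + M ψ)
    (hsmul : ∀ (c : ℝ) φ, Bdd φ → M (fun x => c * φ x) = c * M φ)
    (hpos : ∀ φ, Bdd φ → (∀ x, 0 ≤ φ x) → 0 ≤ M φ)
    (hone : M (fun _ => 1) = 1) {φ : X → ℝ} {C : ℝ} (h : ∀ x, |φ x| ≤ C) : |M φ| ≤ C := by
  have hφ : Bdd φ := ⟨C, h⟩
  have h1 : ∀ c : ℝ, M (fun x => C * 1 + c * φ x) = C + c * M φ := by
    intro c
    rw [hadd _ _ (bdd_smul C bdd_one) (bdd_smul c hφ), hsmul C _ bdd_one, hsmul c φ hφ, hone,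
      mul_one]
  have h2 : ∀ c : ℝ, Bdd (fun x => C * 1 + c * φ x) := fun c =>
    bdd_add (bdd_smul C bdd_one) (bdd_smul c hφ)
  have h3 := hpos _ (h2 1) (fun x => by
    have := (abs_le.mp (h x)).1
    linarith)
  have h4 := hpos _ (h2 (-1)) (fun x => by
    have := (abs_le.mp (h x)).2
    linarith)
  rw [h1] at h3 h4
  exact abs_le.mpr ⟨by linarith, by linarith⟩

theorem finite_case (G : Type*) [Group G] [Finite G] : HasMeanG G := by
  classical
  have := Fintype.ofFinite G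
  have hc : (0 : ℝ) < (Fintype.card G : ℝ) := by
    exact_mod_cast Fintype.card_pos
  refine ⟨fun φ => (∑ x, φ x) / (Fintype.card G : ℝ), ?_, ?_, ?_, ?_, ?_⟩
  · intro φ ψ _ _
    beta_reduce
    rw [Finset.sum_add_distrib, add_div]
  · intro c φ _
    beta_reduce
    rw [← Finset.mul_sum, mul_div_assoc]
  · intro φ _ h
    exact div_nonneg (Finset.sum_nonneg fun x _ => h x) hc.le
  · simp only [Finset.sum_const, Finset.card_univ, nsmul_eq_mul, mul_one]
    exact div_self hc.ne'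
  · intro φ g _
    simp only
    congr 1
    exact Equiv.sum_comp (Equiv.mulRight g) φ

theorem step_case (G : Type*) [Group G] (τ : G →* Multiplicative ℤ)
    (hτ : Function.Surjective τ) (hK : HasMeanG τ.ker) : HasMeanG G := by
  classical
  obtain ⟨M, hadd, hsmul, hpos, hone, hinv⟩ := hK
  obtain ⟨L, ladd, lsmul, lpos, lone, linv⟩ := exists_meanZ
  obtain ⟨t, ht⟩ := hτ (Multiplicative.ofAdd 1)
  let Φ : (G → ℝ) → ℤ → ℝ := fun φ i => M (fun k : τ.ker => φ ((k : G) * t ^ i))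
  have hΦb : ∀ φ, Bdd φ → Bdd (Φ φ) := by
    rintro φ ⟨C, hC⟩
    exact ⟨C, fun i => mean_abs hadd hsmul hpos hone fun k => hC _⟩
  have hb : ∀ φ : G → ℝ, Bdd φ → ∀ i : ℤ, Bdd (fun k : τ.ker => φ ((k : G) * t ^ i)) :=
    fun φ hφ i => bdd_comp (fun k : τ.ker => (k : G) * t ^ i) hφ
  refine ⟨fun φ => L (Φ φ), ?_, ?_, ?_, ?_, ?_⟩
  · intro φ ψ hφ hψ
    have h1 : Φ (fun x => φ x + ψ x) = fun i => Φ φ i + Φ ψ i := by
      funext i
      exact hadd _ _ (hb φ hφ i) (hb ψ hψ i)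
    show L (Φ (fun x => φ x + ψ x)) = L (Φ φ) + L (Φ ψ)
    rw [h1]
    exact ladd _ _ (hΦb φ hφ) (hΦb ψ hψ)
  · intro c φ hφ
    have h1 : Φ (fun x => c * φ x) = fun i => c * Φ φ i := by
      funext i
      exact hsmul c _ (hb φ hφ i)
    show L (Φ (fun x => c * φ x)) = c * L (Φ φ)
    rw [h1]
    exact lsmul c _ (hΦb φ hφ)
  · intro φ hφ h
    exact lpos _ (hΦb φ hφ) fun i => hpos _ (hb φ hφ i) fun k => h _
  · have h1 : Φ (fun _ => 1) = fun _ => 1 := by
      funext i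
      exact hone
    show L (Φ (fun _ => 1)) = 1
    rw [h1]
    exact lone
  · intro φ g hφ
    have h1 : Φ (fun x => φ (x * g)) = fun i => Φ φ (i + (τ g).toAdd) := by
      funext i
      have hk : t ^ i * g * (t ^ (i + (τ g).toAdd))⁻¹ ∈ τ.ker := by
        rw [MonoidHom.mem_ker, map_mul, map_mul, map_inv, map_zpow, map_zpow, ht]
        apply Multiplicative.toAdd.injective
        simp
      have h2 := hinv (fun k : τ.ker => φ ((k : G) * t ^ (i + (τ g).toAdd)))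
        ⟨t ^ i * g * (t ^ (i + (τ g).toAdd))⁻¹, hk⟩ (hb φ hφ _)
      show M (fun k : τ.ker => φ ((k : G) * t ^ i * g)) =
        M (fun k : τ.ker => φ ((k : G) * t ^ (i + (τ g).toAdd)))
      rw [← h2]
      congr 1
      funext k
      congr 1
      push_cast
      group
    show L (Φ (fun x => φ (x * g))) = L (Φ φ)
    rw [h1]
    exact linv (Φ φ) _ (hΦb φ hφ)

end MeanG

/-- There is a right-invariant mean on every finitely generated nilpotent group. -/
theorem exists_meanG.{u} (G : Type u) [Group G] [Group.FG G] [Group.IsNilpotent G] :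
    HasMeanG G :=
  Pool.Agent.MPf60e8aN.nilpotent_induction (fun G _ => HasMeanG G)
    (fun G _ _ => MeanG.finite_case G)
    (fun G _ _ _ τ hτ _ hK => MeanG.step_case G τ hτ hK) G

end Pool.Agent.MPf60e8aP
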