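import Mathlib
import Pool.Agent.Lib.MP_f60e8a_al.N.ExpLog
import Pool.Agent.Lib.MP_f60e8a_al.N.Comm
import Pool.Agent.Lib.MP_f60e8a_al.P.PDefs

/-!
# Module P2 FGRP: the polynomial group law of a Lie lattice
-/

open scoped BigOperators commutatorElement

namespace Pool.Agent.MPf60e8aP

open Pool.Agent.MPf60e8a (wordLen sepIndex RF)
open Pool.Agent.MPf60e8aN (Alg NilSub LieLattice BchConst Describes upperNil IsUnipotent lg)

namespace PLaw

/-! ### Strictly upper triangular matrices -/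

/-- Strictly upper triangular matrices over a ring. -/
def upR (R : Type) [CommRing R] [Algebra ℚ R] (N : ℕ) :
    NilSub (Matrix (Fin N) (Fin N) R) N where
  S := { carrier := {x | ∀ i j, j ≤ i → x i j = 0}
         zero_mem' := fun i j _ => rfl
         add_mem' := fun {x y} hx hy i j hij => by
           rw [Matrix.add_apply, hx i j hij, hy i j hij, add_zero]
         smul_mem' := fun c x hx i j hij => by
           rw [Matrix.smul_apply, hx i j hij, smul_zero] }
  mul_mem := fun x hx y hy i j hij => by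
    rw [Matrix.mul_apply]
    refine Finset.sum_eq_zero fun k _ => ?_
    rcases le_or_gt k i with hk | hk
    · rw [hx i k hk, zero_mul]
    · rw [hy k j (hij.trans hk.le), mul_zero]
  nil := fun l hl hlen => by
    have key : ∀ l : List (Matrix (Fin N) (Fin N) R),
        (∀ x ∈ l, ∀ i j : Fin N, j ≤ i → x i j = 0) →
        ∀ i j : Fin N, (j : ℕ) < i + l.length → l.prod i j = 0 := by
      intro l
      induction l with
      | nil =>
        intro _ i j hij
        rw [List.prod_nil, Matrix.one_apply, if_neg]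
        rintro rfl
        simp at hij
      | cons x l ih =>
        intro h i j hij
        rw [List.prod_cons, Matrix.mul_apply]
        refine Finset.sum_eq_zero fun k _ => ?_
        rcases le_or_gt k i with hk | hk
        · rw [h x List.mem_cons_self i k hk, zero_mul]
        · rw [ih (fun y hy => h y (List.mem_cons_of_mem _ hy)) k j, mul_zero]
          have : (i : ℕ) < k := hk
          rw [List.length_cons] at hij
          omega
    ext i j
    rw [key l hl i j (by have := j.2; omega), Matrix.zero_apply]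

theorem mem_upR {R : Type} [CommRing R] [Algebra ℚ R] {N : ℕ} {x : Matrix (Fin N) (Fin N) R} :
    x ∈ (upR R N).S ↔ ∀ i j, j ≤ i → x i j = 0 := Iff.rfl

section T

variable {N M h : ℕ} {L : AddSubgroup (Matrix (Fin N) (Fin N) ℚ)}
  (e : Module.Basis (Fin h) ℤ L) (R : Type) [CommRing R] [Algebra ℚ R]

/-- The basis vectors over `R`. -/
noncomputable def emb (i : Fin h) : Matrix (Fin N) (Fin N) R :=
  (algebraMap ℚ R).mapMatrix (e i : Matrix (Fin N) (Fin N) ℚ)

variable {R}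

/-- Linear combinations of the basis vectors. -/
noncomputable def T (x : Fin h → R) : Matrix (Fin N) (Fin N) R := ∑ i, x i • emb e R i

theorem T_add (x y : Fin h → R) : T e (x + y) = T e x + T e y := by
  simp [T, add_smul, Finset.sum_add_distrib]

theorem T_neg (x : Fin h → R) : T e (-x) = - T e x := by
  simp [T]

theorem T_zero : T e (0 : Fin h → R) = 0 := by
  simp [T]

theorem T_smul (c : R) (x : Fin h → R) : T e (c • x) = c • T e x := by
  simp [T, Finset.smul_sum, smul_smul]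

theorem T_smulQ (c : ℚ) (x : Fin h → R) : T e (c • x) = c • T e x := by
  simp [T, Finset.smul_sum]

theorem T_mem (hL : LieLattice (upperNil N) M L) (x : Fin h → R) :
    T e x ∈ (upR R N).S := by
  rw [mem_upR]
  intro i j hij
  unfold T
  rw [Matrix.sum_apply]
  refine Finset.sum_eq_zero fun k _ => ?_
  have h1 : (e k : Matrix (Fin N) (Fin N) ℚ) i j = 0 := hL.le _ (e k).2 i j hij
  rw [Matrix.smul_apply]
  have h2 : emb e R k i j = algebraMap ℚ R ((e k : Matrix (Fin N) (Fin N) ℚ) i j) := rfl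
  rw [h2, h1, map_zero, smul_zero]

theorem T_isNilpotent (hL : LieLattice (upperNil N) M L) (x : Fin h → R) :
    IsNilpotent (T e x) := (upR R N).isNilpotent (T_mem e hL x)

variable {R' : Type} [CommRing R'] [Algebra ℚ R']

theorem map_T (φ : R →+* R') (x : Fin h → R) :
    φ.mapMatrix (T e x) = T e (fun i => φ (x i)) := by
  unfold T
  rw [map_sum]
  refine Finset.sum_congr rfl fun i _ => ?_
  ext a b
  have h1 : φ (algebraMap ℚ R ((e i : Matrix (Fin N) (Fin N) ℚ) a b)) =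
      algebraMap ℚ R' ((e i : Matrix (Fin N) (Fin N) ℚ) a b) := by
    rw [← RingHom.comp_apply]
    congr 1
    exact Subsingleton.elim _ _
  show φ (x i * algebraMap ℚ R ((e i : Matrix (Fin N) (Fin N) ℚ) a b)) =
    φ (x i) * algebraMap ℚ R' ((e i : Matrix (Fin N) (Fin N) ℚ) a b)
  rw [map_mul, h1]

theorem emb_br {𝔏 : Alg h} (h𝔏 : Describes M e 𝔏) (i j : Fin h) :
    emb e R i * emb e R j - emb e R j * emb e R i =
      ∑ k, ((M : R) * (𝔏.c i j k : R)) • emb e R k := by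
  have h1 := congrArg (algebraMap ℚ R).mapMatrix (h𝔏 i j)
  rw [map_sub, map_mul, map_mul] at h1
  unfold emb
  rw [h1, map_nsmul, map_sum, Finset.smul_sum]
  refine Finset.sum_congr rfl fun k _ => ?_
  rw [map_zsmul, mul_smul, Nat.cast_smul_eq_nsmul, Int.cast_smul_eq_zsmul]

theorem T_br {𝔏 : Alg h} (h𝔏 : Describes M e 𝔏) (x y : Fin h → R) :
    T e x * T e y - T e y * T e x = T e ((M : R) • 𝔏.mul x y) := by
  have h1 : T e x * T e y = ∑ i, ∑ j, (x i * y j) • (emb e R i * emb e R j) := by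
    unfold T
    rw [Finset.sum_mul_sum]
    refine Finset.sum_congr rfl fun i _ => Finset.sum_congr rfl fun j _ => ?_
    rw [smul_mul_smul_comm]
  have h2 : T e y * T e x = ∑ i, ∑ j, (x i * y j) • (emb e R j * emb e R i) := by
    unfold T
    rw [Finset.sum_mul_sum, Finset.sum_comm]
    refine Finset.sum_congr rfl fun i _ => Finset.sum_congr rfl fun j _ => ?_
    rw [smul_mul_smul_comm, mul_comm]
  rw [h1, h2, ← Finset.sum_sub_distrib]
  have h3 : T e ((M : R) • 𝔏.mul x y) =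
      ∑ i, ∑ j, ∑ k, ((M : R) * ((𝔏.c i j k : R) * x i * y j)) • emb e R k := by
    unfold T Alg.mul
    simp only [Pi.smul_apply, smul_eq_mul, Finset.mul_sum, Finset.sum_smul]
    rw [Finset.sum_comm]
    refine Finset.sum_congr rfl fun i _ => ?_
    rw [Finset.sum_comm]
  rw [h3]
  refine Finset.sum_congr rfl fun i _ => ?_
  rw [← Finset.sum_sub_distrib]
  refine Finset.sum_congr rfl fun j _ => ?_
  rw [← smul_sub, emb_br e h𝔏, Finset.smul_sum]
  refine Finset.sum_congr rfl fun k _ => ?_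
  rw [smul_smul]
  congr 1
  ring

/-- Over the rational numbers, the basis is linearly independent. -/
theorem T_injQ {x : Fin h → ℚ} (hx : ∑ i, x i • (e i : Matrix (Fin N) (Fin N) ℚ) = 0) :
    x = 0 := by
  have h1 : LinearIndependent ℤ (fun i => (e i : Matrix (Fin N) (Fin N) ℚ)) := by
    have := e.linearIndependent.map' (L.subtype.toIntLinearMap) (by
      rw [LinearMap.ker_eq_bot]
      exact Subtype.val_injective)
    exact this
  have h2 : LinearIndependent ℚ (fun i => (e i : Matrix (Fin N) (Fin N) ℚ)) :=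
    (LinearIndependent.iff_fractionRing ℤ ℚ).mp h1
  rw [Fintype.linearIndependent_iff] at h2
  funext i
  exact h2 x hx i

/-- Coordinate functionals. -/
theorem exists_coord : ∃ D : Fin h → Fin N → Fin N → ℚ, ∀ i j,
    ∑ a, ∑ b, D j a b * (e i : Matrix (Fin N) (Fin N) ℚ) a b = if i = j then 1 else 0 := by
  obtain ⟨g, hg⟩ := LinearMap.exists_leftInverse_of_injective
    (Fintype.linearCombination ℚ (fun i => (e i : Matrix (Fin N) (Fin N) ℚ))) (by
      rw [LinearMap.ker_eq_bot']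
      intro x hx
      rw [Fintype.linearCombination_apply] at hx
      exact T_injQ e hx)
  refine ⟨fun j a b => g (Matrix.single a b 1) j, fun i j => ?_⟩
  have h1 : g (e i : Matrix (Fin N) (Fin N) ℚ) = Pi.single i 1 := by
    have h2 := congrArg (fun f => f (Pi.single i 1)) hg
    simp only [LinearMap.comp_apply, LinearMap.id_apply] at h2
    rw [Fintype.linearCombination_apply_single, one_smul] at h2
    exact h2
  have h3 : (e i : Matrix (Fin N) (Fin N) ℚ) =
      ∑ a, ∑ b, (e i : Matrix (Fin N) (Fin N) ℚ) a b • Matrix.single a b (1 : ℚ) := by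
    conv_lhs => rw [Matrix.matrix_eq_sum_single (e i : Matrix (Fin N) (Fin N) ℚ)]
    refine Finset.sum_congr rfl fun a _ => Finset.sum_congr rfl fun b _ => ?_
    rw [Matrix.smul_single, smul_eq_mul, mul_one]
  have h4 : g (e i : Matrix (Fin N) (Fin N) ℚ) j =
      ∑ a, ∑ b, g (Matrix.single a b 1) j * (e i : Matrix (Fin N) (Fin N) ℚ) a b := by
    conv_lhs => rw [h3]
    simp only [map_sum, map_smul, Finset.sum_apply, Pi.smul_apply, smul_eq_mul, mul_comm]
  rw [← h4, h1, Pi.single_apply]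
  simp only [eq_comm]

theorem T_inj {x y : Fin h → R} (hxy : T e x = T e y) : x = y := by
  obtain ⟨D, hD⟩ := exists_coord e
  have key : ∀ (z : Fin h → R) (j : Fin h),
      ∑ a, ∑ b, algebraMap ℚ R (D j a b) * T e z a b = z j := by
    intro z j
    have h1 : ∀ a b, T e z a b =
        ∑ i, z i * algebraMap ℚ R ((e i : Matrix (Fin N) (Fin N) ℚ) a b) := by
      intro a b
      unfold T
      rw [Matrix.sum_apply]
      rfl
    simp only [h1, Finset.mul_sum]
    have h2 : ∑ a, ∑ b, ∑ i, algebraMap ℚ R (D j a b) *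
        (z i * algebraMap ℚ R ((e i : Matrix (Fin N) (Fin N) ℚ) a b)) =
        ∑ i, z i * algebraMap ℚ R
          (∑ a, ∑ b, D j a b * (e i : Matrix (Fin N) (Fin N) ℚ) a b) := by
      simp only [map_sum, map_mul, Finset.mul_sum]
      have h3 : ∀ a, ∑ b, ∑ i, algebraMap ℚ R (D j a b) *
          (z i * algebraMap ℚ R ((e i : Matrix (Fin N) (Fin N) ℚ) a b)) =
          ∑ i, ∑ b, algebraMap ℚ R (D j a b) *
          (z i * algebraMap ℚ R ((e i : Matrix (Fin N) (Fin N) ℚ) a b)) := fun a =>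
        Finset.sum_comm
      simp only [h3]
      rw [Finset.sum_comm]
      refine Finset.sum_congr rfl fun i _ => Finset.sum_congr rfl fun a _ =>
        Finset.sum_congr rfl fun b _ => ?_
      ring
    rw [h2]
    simp only [hD]
    simp
  funext j
  rw [← key x j, ← key y j, hxy]

theorem expT_inj (hL : LieLattice (upperNil N) M L) {x y : Fin h → R}
    (hxy : IsNilpotent.exp (T e x) = IsNilpotent.exp (T e y)) : x = y := by
  apply T_inj e
  have h1 := congrArg lg hxy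
  rwa [MPf60e8aN.lg_exp (T_isNilpotent e hL x), MPf60e8aN.lg_exp (T_isNilpotent e hL y)] at h1

end T

/-! ### Supports -/

section Supp

variable {h : ℕ} (w : Fin h → ℕ)

/-- Monomials allowed in the `k`-th coordinate. -/
def Ok (d : ℕ) (k : Fin h) (m : Fin h ⊕ Fin h →₀ ℕ) : Prop :=
  (∃ i, m (Sum.inl i) ≠ 0) ∧ (∃ i, m (Sum.inr i) ≠ 0) ∧
    Finsupp.weight (Sum.elim w w) m ≤ w k ∧ d ≤ Finsupp.degree m

variable {w}

theorem Ok.mono {d d' : ℕ} (hd : d ≤ d') {k : Fin h} {m : Fin h ⊕ Fin h →₀ ℕ} (hm : Ok w d' k m) :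
    Ok w d k m := ⟨hm.1, hm.2.1, hm.2.2.1, hd.trans hm.2.2.2⟩

theorem Ok.single_add {d : ℕ} {i j k : Fin h} {m : Fin h ⊕ Fin h →₀ ℕ} (hm : Ok w d j m)
    (s : Fin h ⊕ Fin h) (hs : Sum.elim w w s = w i) (hw : w i + w j ≤ w k) :
    Ok w (d + 1) k (Finsupp.single s 1 + m) := by
  obtain ⟨⟨a, ha⟩, ⟨b, hb⟩, h3, h4⟩ := hm
  refine ⟨⟨a, ?_⟩, ⟨b, ?_⟩, ?_, ?_⟩
  · rw [Finsupp.add_apply]
    omega
  · rw [Finsupp.add_apply]
    omega
  · rw [map_add, Finsupp.weight_single, one_smul, hs]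
    omega
  · rw [map_add, Finsupp.degree_single]
    omega

variable (w)

/-- Polynomials with allowed monomials. -/
noncomputable def okS (d : ℕ) (k : Fin h) : Submodule ℚ (MvPolynomial (Fin h ⊕ Fin h) ℚ) where
  carrier := {p | ∀ m ∈ p.support, Ok w d k m}
  zero_mem' := by
    intro m hm
    simp at hm
  add_mem' := by
    intro p q hp hq m hm
    rcases Finset.mem_union.mp (MvPolynomial.support_add hm) with h1 | h1
    · exact hp m h1
    · exact hq m h1
  smul_mem' := by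
    intro c p hp m hm
    exact hp m (MvPolynomial.support_smul hm)

variable {w}

theorem mem_okS {d : ℕ} {k : Fin h} {p : MvPolynomial (Fin h ⊕ Fin h) ℚ} :
    p ∈ okS w d k ↔ ∀ m ∈ p.support, Ok w d k m := Iff.rfl

theorem okS_mono {d d' : ℕ} (hd : d ≤ d') {k : Fin h} : okS w d' k ≤ okS w d k :=
  fun _ hp m hm => (hp m hm).mono hd

theorem X_mul_mem {d : ℕ} {i j k : Fin h} {p : MvPolynomial (Fin h ⊕ Fin h) ℚ}
    (hp : p ∈ okS w d j) (s : Fin h ⊕ Fin h) (hs : Sum.elim w w s = w i)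
    (hw : w i + w j ≤ w k) : MvPolynomial.X s * p ∈ okS w (d + 1) k := by
  intro m hm
  rw [MvPolynomial.support_X_mul, Finset.mem_map] at hm
  obtain ⟨m', hm', rfl⟩ := hm
  exact (hp m' hm').single_add s hs hw

theorem XX_mem {i j k : Fin h} (hw : w i + w j ≤ w k) :
    (MvPolynomial.X (Sum.inl i) * MvPolynomial.X (Sum.inr j) :
      MvPolynomial (Fin h ⊕ Fin h) ℚ) ∈ okS w 2 k := by
  intro m hm
  rw [MvPolynomial.support_X_mul, Finset.mem_map] at hm
  obtain ⟨m', hm', rfl⟩ := hm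
  rw [MvPolynomial.support_X, Finset.mem_singleton] at hm'
  subst hm'
  rw [addLeftEmbedding_apply]
  refine ⟨⟨i, ?_⟩, ⟨j, ?_⟩, ?_, ?_⟩
  · rw [Finsupp.add_apply, Finsupp.single_eq_same]
    omega
  · rw [Finsupp.add_apply, Finsupp.single_eq_same]
    omega
  · rw [map_add, Finsupp.weight_single, Finsupp.weight_single, one_smul, one_smul]
    exact hw
  · rw [map_add, Finsupp.degree_single, Finsupp.degree_single]

variable {𝔏 : Alg h} (hF : Filtered w 𝔏) (M : ℕ)

include hF in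
theorem mulX_ok {d : ℕ} {q : Fin h → MvPolynomial (Fin h ⊕ Fin h) ℚ}
    (hq : ∀ k, q k ∈ okS w d k) (s : Fin h → Fin h ⊕ Fin h) (hs : ∀ i, Sum.elim w w (s i) = w i)
    (k : Fin h) :
    ((M : MvPolynomial (Fin h ⊕ Fin h) ℚ) • 𝔏.mul (fun i => MvPolynomial.X (s i)) q) k ∈
      okS w (d + 1) k := by
  rw [Pi.smul_apply, Nat.cast_smul_eq_nsmul]
  refine Submodule.smul_of_tower_mem _ M ?_
  unfold Alg.mul
  refine Submodule.sum_mem _ fun i _ => Submodule.sum_mem _ fun j _ => ?_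
  by_cases hc : 𝔏.c i j k = 0
  · rw [hc, Int.cast_zero, zero_mul, zero_mul]
    exact Submodule.zero_mem _
  · rw [mul_assoc, ← zsmul_eq_mul]
    exact Submodule.smul_of_tower_mem _ _ (X_mul_mem (hq j) (s i) (hs i) (hF i j k hc))

include hF in
theorem XX_ok (k : Fin h) :
    ((M : MvPolynomial (Fin h ⊕ Fin h) ℚ) • 𝔏.mul (fun i => MvPolynomial.X (Sum.inl i))
      (fun i => MvPolynomial.X (Sum.inr i))) k ∈ okS w 2 k := by
  rw [Pi.smul_apply, Nat.cast_smul_eq_nsmul]
  refine Submodule.smul_of_tower_mem _ M ?_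
  unfold Alg.mul
  refine Submodule.sum_mem _ fun i _ => Submodule.sum_mem _ fun j _ => ?_
  by_cases hc : 𝔏.c i j k = 0
  · rw [hc, Int.cast_zero, zero_mul, zero_mul]
    exact Submodule.zero_mem _
  · rw [mul_assoc, ← zsmul_eq_mul]
    exact Submodule.smul_of_tower_mem _ _ (XX_mem (hF i j k hc))

theorem mixed_of_ok {d : ℕ} {k : Fin h} {p : MvPolynomial (Fin h ⊕ Fin h) ℚ}
    (hp : p ∈ okS w d k) : MixedLe w (w k) (MvPolynomial.map (algebraMap ℚ ℝ) p) := by
  intro m hm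
  obtain ⟨h1, h2, h3, _⟩ := hp m (MvPolynomial.support_map_subset _ _ hm)
  exact ⟨h1, h2, h3⟩

theorem degree_of_ok {d : ℕ} {k : Fin h} {p : MvPolynomial (Fin h ⊕ Fin h) ℚ}
    (hp : p ∈ okS w d k) : ∀ m ∈ (MvPolynomial.map (algebraMap ℚ ℝ) p).support,
      d ≤ Finsupp.degree m := by
  intro m hm
  exact (hp m (MvPolynomial.support_map_subset _ _ hm)).2.2.2

end Supp

/-! ### The generic product and commutator -/

section Gen

variable {N M h : ℕ} {L : AddSubgroup (Matrix (Fin N) (Fin N) ℚ)}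
  (e : Module.Basis (Fin h) ℤ L) {𝔏 : Alg h} (w : Fin h → ℕ)

/-- Combinations with allowed coefficients. -/
noncomputable def EE (d : ℕ) :
    AddSubgroup (Matrix (Fin N) (Fin N) (MvPolynomial (Fin h ⊕ Fin h) ℚ)) where
  carrier := {a | ∃ q : Fin h → MvPolynomial (Fin h ⊕ Fin h) ℚ,
    (∀ k, q k ∈ okS w d k) ∧ a = T e q}
  zero_mem' := ⟨0, fun k => Submodule.zero_mem _, (T_zero e).symm⟩
  add_mem' := by
    rintro _ _ ⟨p, hp, rfl⟩ ⟨q, hq, rfl⟩
    exact ⟨p + q, fun k => Submodule.add_mem _ (hp k) (hq k), (T_add e p q).symm⟩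
  neg_mem' := by
    rintro _ ⟨p, hp, rfl⟩
    exact ⟨-p, fun k => Submodule.neg_mem _ (hp k), (T_neg e p).symm⟩

theorem EE_div {d n : ℕ} (hn : 0 < n)
    {a : Matrix (Fin N) (Fin N) (MvPolynomial (Fin h ⊕ Fin h) ℚ)} (ha : n • a ∈ EE e w d) :
    ∃ q : Fin h → MvPolynomial (Fin h ⊕ Fin h) ℚ, (∀ k, q k ∈ okS w d k) ∧ a = T e q := by
  obtain ⟨q, hq, hqa⟩ := ha
  refine ⟨((n : ℚ)⁻¹) • q, fun k => Submodule.smul_mem _ _ (hq k), ?_⟩
  rw [T_smulQ, ← hqa, ← Nat.cast_smul_eq_nsmul ℚ, smul_smul, inv_mul_cancel₀, one_smul]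
  exact_mod_cast hn.ne'

variable {w} (h𝔏 : Describes M e 𝔏) (hF : Filtered w 𝔏)

include h𝔏 hF in
theorem EE_br {d : ℕ} (s : Fin h → Fin h ⊕ Fin h) (hs : ∀ i, Sum.elim w w (s i) = w i) :
    ∀ a ∈ EE e w d, T e (fun i => (MvPolynomial.X (s i) : MvPolynomial (Fin h ⊕ Fin h) ℚ)) * a -
      a * T e (fun i => (MvPolynomial.X (s i) : MvPolynomial (Fin h ⊕ Fin h) ℚ)) ∈
        EE e w (d + 1) := by
  rintro _ ⟨q, hq, rfl⟩
  exact ⟨_, mulX_ok hF M hq s hs, T_br e h𝔏 _ _⟩

theorem EE_mono {d d' : ℕ} (hd : d ≤ d')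
    {a : Matrix (Fin N) (Fin N) (MvPolynomial (Fin h ⊕ Fin h) ℚ)} (ha : a ∈ EE e w d') :
    a ∈ EE e w d := by
  obtain ⟨q, hq, hqa⟩ := ha
  exact ⟨q, fun k => okS_mono hd (hq k), hqa⟩

include h𝔏 hF in
theorem EE_uv : T e (fun i => (MvPolynomial.X (Sum.inl i) : MvPolynomial (Fin h ⊕ Fin h) ℚ)) *
      T e (fun i => (MvPolynomial.X (Sum.inr i) : MvPolynomial (Fin h ⊕ Fin h) ℚ)) -
    T e (fun i => (MvPolynomial.X (Sum.inr i) : MvPolynomial (Fin h ⊕ Fin h) ℚ)) *
      T e (fun i => (MvPolynomial.X (Sum.inl i) : MvPolynomial (Fin h ⊕ Fin h) ℚ)) ∈ EE e w 2 :=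
  ⟨_, XX_ok hF M, T_br e h𝔏 _ _⟩

/-- Evaluation. -/
noncomputable def ev (x y : Fin h → ℝ) : MvPolynomial (Fin h ⊕ Fin h) ℚ →+* ℝ :=
  MvPolynomial.eval₂Hom (algebraMap ℚ ℝ) (Sum.elim x y)

theorem ev_eq (x y : Fin h → ℝ) (p : MvPolynomial (Fin h ⊕ Fin h) ℚ) :
    ev x y p = MvPolynomial.eval (Sum.elim x y) (MvPolynomial.map (algebraMap ℚ ℝ) p) := by
  unfold ev
  rw [MvPolynomial.coe_eval₂Hom, MvPolynomial.eval₂_eq_eval_map]

theorem ev_inl (x y : Fin h → ℝ) (i : Fin h) : ev x y (MvPolynomial.X (Sum.inl i)) = x i := by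
  simp [ev]

theorem ev_inr (x y : Fin h → ℝ) (i : Fin h) : ev x y (MvPolynomial.X (Sum.inr i)) = y i := by
  simp [ev]

variable (hM : BchConst N M) (hL : LieLattice (upperNil N) M L)

include h𝔏 hF hM hL in
theorem exists_law : ∃ Q : Fin h → MvPolynomial (Fin h ⊕ Fin h) ℝ,
    (∀ k, MixedLe w (w k) (Q k)) ∧ ∀ x y : Fin h → ℝ,
      IsNilpotent.exp (T e x) * IsNilpotent.exp (T e y) =
        IsNilpotent.exp (T e (pmul Q x y)) := by
  obtain ⟨a, ha, haE, hexp⟩ := hM.2 _ (upR (MvPolynomial (Fin h ⊕ Fin h) ℚ) N)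
    (T e (fun i => MvPolynomial.X (Sum.inl i))) (T e (fun i => MvPolynomial.X (Sum.inr i)))
    (T_mem e hL _) (T_mem e hL _) (EE e w 2) (EE_uv e h𝔏 hF)
    (fun a ha => EE_mono e (Nat.le_succ _) (EE_br e h𝔏 hF Sum.inl (fun _ => rfl) a ha))
    (fun a ha => EE_mono e (Nat.le_succ _) (EE_br e h𝔏 hF Sum.inr (fun _ => rfl) a ha))
  obtain ⟨q, hq, rfl⟩ := EE_div e w hM.1 haE
  refine ⟨fun k => MvPolynomial.map (algebraMap ℚ ℝ) (q k), fun k => mixed_of_ok (hq k),
    fun x y => ?_⟩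
  rw [← T_add, ← T_add] at hexp
  have h1 := congrArg (ev x y).mapMatrix hexp
  rw [map_mul, IsNilpotent.map_exp (T_isNilpotent e hL _), IsNilpotent.map_exp
    (T_isNilpotent e hL _), IsNilpotent.map_exp (T_isNilpotent e hL _), map_T, map_T, map_T] at h1
  simp only [ev_inl, ev_inr] at h1
  rw [h1]
  congr 2
  funext k
  simp only [Pi.add_apply, map_add, ev_inl, ev_inr, ev_eq x y (q k)]
  rfl

include h𝔏 hF hM hL in
theorem exists_commLaw : ∃ Q : Fin h → MvPolynomial (Fin h ⊕ Fin h) ℝ,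
    (∀ k, MixedLe w (w k) (Q k)) ∧ (∀ k, ∀ m ∈ (Q k).support, 3 ≤ Finsupp.degree m) ∧
    ∀ x y : Fin h → ℝ,
      IsNilpotent.exp (T e x) * IsNilpotent.exp (T e y) * IsNilpotent.exp (T e (-x)) *
        IsNilpotent.exp (T e (-y)) = IsNilpotent.exp (T e (fun k => M * 𝔏.mul x y k +
          MvPolynomial.eval (Sum.elim x y) (Q k))) := by
  obtain ⟨a, ha, ⟨j, haE⟩, hexp⟩ := MPf60e8aN.exists_comm
    (upR (MvPolynomial (Fin h ⊕ Fin h) ℚ) N) hM
    (T e (fun i => MvPolynomial.X (Sum.inl i))) (T e (fun i => MvPolynomial.X (Sum.inr i)))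
    (T_mem e hL _) (T_mem e hL _) (EE e w 3)
    (EE_br e h𝔏 hF Sum.inl (fun _ => rfl) _ (EE_uv e h𝔏 hF))
    (EE_br e h𝔏 hF Sum.inr (fun _ => rfl) _ (EE_uv e h𝔏 hF))
    (fun a ha => EE_mono e (Nat.le_succ _) (EE_br e h𝔏 hF Sum.inl (fun _ => rfl) a ha))
    (fun a ha => EE_mono e (Nat.le_succ _) (EE_br e h𝔏 hF Sum.inr (fun _ => rfl) a ha))
  obtain ⟨q, hq, rfl⟩ := EE_div e w
    (pow_pos (Nat.mul_pos (Nat.factorial_pos N) hM.1) j) haE
  refine ⟨fun k => MvPolynomial.map (algebraMap ℚ ℝ) (q k), fun k => mixed_of_ok (hq k),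
    fun k => degree_of_ok (hq k), fun x y => ?_⟩
  rw [T_br e h𝔏, ← T_add, ← T_neg, ← T_neg] at hexp
  have h1 := congrArg (ev x y).mapMatrix hexp
  rw [map_mul, map_mul, map_mul, IsNilpotent.map_exp (T_isNilpotent e hL _), IsNilpotent.map_exp
    (T_isNilpotent e hL _), IsNilpotent.map_exp (T_isNilpotent e hL _), IsNilpotent.map_exp
    (T_isNilpotent e hL _), IsNilpotent.map_exp (T_isNilpotent e hL _), map_T, map_T, map_T,
    map_T, map_T] at h1
  simp only [Pi.neg_apply, map_neg, ev_inl, ev_inr] at h1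
  have h2 : T e (-x) = T e (fun i => -x i) := rfl
  have h3 : T e (-y) = T e (fun i => -y i) := rfl
  rw [h2, h3, h1]
  congr 2
  funext k
  simp only [Pi.add_apply, map_add, ev_eq x y (q k)]
  congr 1
  simp only [Pi.smul_apply, smul_eq_mul, Alg.mul, map_mul, map_sum, ev_inl, ev_inr, map_natCast,
    map_intCast]

end Gen

end PLaw

open PLaw in
/-- The group law of a Lie lattice in the coordinates of a basis. -/
theorem exists_pgrp {N M h : ℕ} (hM : BchConst N M)
    {L : AddSubgroup (Matrix (Fin N) (Fin N) ℚ)} (hL : LieLattice (upperNil N) M L)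
    (e : Module.Basis (Fin h) ℤ L) (𝔏 : Alg h) (h𝔏 : Describes M e 𝔏) (w : Fin h → ℕ)
    (hw : ∀ i, 1 ≤ w i) (hF : Filtered w 𝔏) :
    ∃ 𝒢 : PGrp w, HasComm 𝒢 𝔏 M ∧ ∀ x y z : Fin h → ℤ,
      IsNilpotent.exp (∑ i, x i • (e i : Matrix (Fin N) (Fin N) ℚ)) *
        IsNilpotent.exp (∑ i, y i • (e i : Matrix (Fin N) (Fin N) ℚ)) =
        IsNilpotent.exp (∑ i, z i • (e i : Matrix (Fin N) (Fin N) ℚ)) →
      pmul 𝒢.Q (fun i => (x i : ℝ)) (fun i => (y i : ℝ)) = fun i => (z i : ℝ) := by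
  obtain ⟨Q, hQ, hmul⟩ := exists_law e h𝔏 hF hM hL
  obtain ⟨R, hR, hR3, hcomm⟩ := exists_commLaw e h𝔏 hF hM hL
  let 𝒢 : PGrp w :=
    { Q := Q
      one_le_w := hw
      mixed := hQ
      assoc := fun x y z => by
        apply expT_inj e hL
        rw [← hmul, ← hmul, ← hmul, ← hmul, mul_assoc]
      smul_smul := fun s t x => by
        apply expT_inj e hL
        rw [← hmul, T_smul, T_smul, T_smul, add_smul, ← IsNilpotent.exp_add_of_commute]
        · exact ((Commute.refl _).smul_left s).smul_right t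
        · rw [← T_smul]
          exact T_isNilpotent e hL _
        · rw [← T_smul]
          exact T_isNilpotent e hL _ }
  refine ⟨𝒢, ⟨R, hR, hR3, fun x y k => ?_⟩, fun x y z hxyz => ?_⟩
  · have h1 : ⁅x, y⁆.v = fun k => M * 𝔏.mul x.v y.v k +
        MvPolynomial.eval (Sum.elim x.v y.v) (R k) := by
      apply expT_inj e hL
      rw [← hcomm, commutatorElement_def]
      have h2 : (x * y * x⁻¹ * y⁻¹).v = pmul Q (pmul Q (pmul Q x.v y.v) (-x.v)) (-y.v) := rfl
      rw [h2, ← hmul, ← hmul, ← hmul]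
    rw [h1]
  · apply expT_inj e hL
    have h2 : 𝒢.Q = Q := rfl
    rw [h2, ← hmul]
    have h3 : ∀ x : Fin h → ℤ, (algebraMap ℚ ℝ).mapMatrix
        (∑ i, x i • (e i : Matrix (Fin N) (Fin N) ℚ)) = T e (fun i => (x i : ℝ)) := by
      intro x
      rw [map_sum]
      unfold T emb
      refine Finset.sum_congr rfl fun i _ => ?_
      rw [map_zsmul, Int.cast_smul_eq_zsmul]
    have h4 : ∀ x : Fin h → ℤ, IsNilpotent (∑ i, x i • (e i : Matrix (Fin N) (Fin N) ℚ)) := by
      intro x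
      refine (upperNil N).isNilpotent ?_
      refine Submodule.sum_mem _ fun i _ => ?_
      exact Submodule.smul_of_tower_mem _ _ (hL.le _ (e i).2)
    have h5 := congrArg (algebraMap ℚ ℝ).mapMatrix hxyz
    rw [map_mul, IsNilpotent.map_exp (h4 x), IsNilpotent.map_exp (h4 y),
      IsNilpotent.map_exp (h4 z), h3, h3, h3] at h5
    exact h5

end Pool.Agent.MPf60e8aP
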