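import Mathlib
import Pool.Agent.Lib.MP_f60e8a_al.P.PDefs

/-!
# One-dimensional graded centre: `dnum = h`
-/

open scoped BigOperators commutatorElement

namespace Pool.Agent.MPf60e8aP

open Pool.Agent.MPf60e8a (wordLen sepIndex RF)
open Pool.Agent.MPf60e8aN (Alg NilSub LieLattice BchConst Describes upperNil IsUnipotent lg)

namespace UniA

/-- Supported in weights at least `a`, complex version. -/
def Sup {h : ℕ} (w : Fin h → ℕ) (a : ℕ) (x : Fin h → ℂ) : Prop := ∀ k, w k < a → x k = 0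

/-- The part of weight `a`. -/
def lead {h : ℕ} (w : Fin h → ℕ) (a : ℕ) (x : Fin h → ℂ) : Fin h → ℂ :=
  fun k => if w k = a then x k else 0

theorem exists_max {h : ℕ} (w : Fin h → ℕ) (P : (Fin h → ℂ) → Prop)
    (hP : ∃ x, P x) (h0 : ∀ x, P x → x ≠ 0) :
    ∃ a x, P x ∧ Sup w a x ∧ ∀ y, P y → ¬ Sup w (a + 1) y := by
  classical
  obtain ⟨x₀, hx₀⟩ := hP
  let b : ℕ := ∑ i, w i
  have hb : ∀ a x, P x → Sup w a x → a ≤ b := by
    intro a x hx hs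
    by_contra hlt
    push Not at hlt
    refine h0 x hx (funext fun k => hs k ?_)
    have : w k ≤ b := Finset.single_le_sum (f := w) (fun i _ => Nat.zero_le _) (Finset.mem_univ k)
    omega
  let Q : ℕ → Prop := fun a => ∃ x, P x ∧ Sup w a x
  have hQ0 : Q 0 := ⟨x₀, hx₀, fun k hk => absurd hk (Nat.not_lt_zero _)⟩
  have hQ : Q (Nat.findGreatest Q b) := Nat.findGreatest_spec (Nat.zero_le b) hQ0
  obtain ⟨x, hx, hs⟩ := hQ
  refine ⟨Nat.findGreatest Q b, x, hx, hs, fun y hy hsy => ?_⟩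
  have h1 : Nat.findGreatest Q b + 1 ≤ b := hb _ y hy hsy
  have h2 : Nat.findGreatest Q b + 1 ≤ Nat.findGreatest Q b :=
    Nat.le_findGreatest h1 ⟨y, hy, hsy⟩
  omega

theorem sup_mul {h : ℕ} {𝔏 : Alg h} {w : Fin h → ℕ} (hF : Filtered w 𝔏) (hw : ∀ i, 1 ≤ w i)
    {a : ℕ} {x : Fin h → ℂ} (hx : Sup w a x) (u : Fin h → ℂ) : Sup w (a + 1) (𝔏.mul x u) := by
  intro k hk
  unfold Alg.mul
  refine Finset.sum_eq_zero fun i _ => Finset.sum_eq_zero fun j _ => ?_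
  by_cases hc : 𝔏.c i j k = 0
  · simp [hc]
  · have h1 := hF i j k hc
    have h2 := hw j
    have h3 : x i = 0 := hx i (by omega)
    simp [h3]

theorem ideal_center {h : ℕ} {𝔏 : Alg h} {w : Fin h → ℕ} (hF : Filtered w 𝔏)
    (hw : ∀ i, 1 ≤ w i) {J : Submodule ℂ (Fin h → ℂ)} (hJ : 𝔏.IsIdeal J) (hne : J ≠ ⊥) :
    ∃ x ∈ J, x ≠ 0 ∧ x ∈ center ℂ 𝔏 := by
  obtain ⟨x₀, hx₀, hx₀'⟩ := Submodule.exists_mem_ne_zero_of_ne_bot hne
  obtain ⟨a, x, ⟨hxJ, hx0⟩, hs, hmax⟩ := exists_max w (fun x => x ∈ J ∧ x ≠ 0)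
    ⟨x₀, hx₀, hx₀'⟩ (fun x hx => hx.2)
  refine ⟨x, hxJ, hx0, fun u => ?_⟩
  by_contra hne'
  exact hmax _ ⟨(hJ x hxJ u).1, hne'⟩ (sup_mul hF hw hs u)

theorem mul_single {h : ℕ} (𝔏 : Alg h) (x : Fin h → ℂ) (j k : Fin h) :
    𝔏.mul x (Pi.single j 1) k = ∑ i, (𝔏.c i j k : ℂ) * x i := by
  classical
  unfold Alg.mul
  refine Finset.sum_congr rfl fun i _ => ?_
  rw [Finset.sum_eq_single j]
  · simp
  · intro b _ hb
    simp [Pi.single_apply, hb]
  · intro hj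
    exact absurd (Finset.mem_univ j) hj

theorem lead_mem {h : ℕ} {𝔏 : Alg h} {w : Fin h → ℕ} (hF : Filtered w 𝔏)
    {a : ℕ} {x : Fin h → ℂ} (hx : x ∈ center ℂ 𝔏) (hs : Sup w a x) :
    lead w a x ∈ center ℂ (gr w 𝔏) := by
  intro u
  funext k
  unfold Alg.mul
  rw [Finset.sum_comm]
  refine Finset.sum_eq_zero fun j _ => ?_
  rw [← Finset.sum_mul]
  have key : ∑ i, (((gr w 𝔏).c i j k : ℤ) : ℂ) * lead w a x i = 0 := by
    by_cases hk : w k = a + w j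
    · have h1 : 𝔏.mul x (Pi.single j 1) k = 0 := congrFun (hx (Pi.single j 1)) k
      rw [mul_single] at h1
      rw [← h1]
      refine Finset.sum_congr rfl fun i _ => ?_
      simp only [gr, lead]
      by_cases hi : w i = a
      · simp [hi, hk]
      · rcases lt_or_gt_of_ne hi with hlt | hgt
        · simp [hs i hlt]
        · have hc : 𝔏.c i j k = 0 := by
            by_contra hc
            have := hF i j k hc
            omega
          simp [hc]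
    · refine Finset.sum_eq_zero fun i _ => ?_
      simp only [gr, lead]
      by_cases hi : w i = a
      · rw [hi, if_neg hk]
        simp
      · simp [hi]
  rw [key, zero_mul]

theorem lead_ne {h : ℕ} {w : Fin h → ℕ} {a : ℕ} {x : Fin h → ℂ} (hs : Sup w a x)
    (hn : ¬ Sup w (a + 1) x) : ∃ k, w k = a ∧ lead w a x k ≠ 0 := by
  unfold Sup at hn
  push Not at hn
  obtain ⟨k, hk, hxk⟩ := hn
  have hka : w k = a := by
    by_contra hne
    exact hxk (hs k (by omega))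
  exact ⟨k, hka, by simpa [lead, hka] using hxk⟩

theorem center_le_one {h : ℕ} {𝔏 : Alg h} {w : Fin h → ℕ} (hF : Filtered w 𝔏)
    (hc : Module.finrank ℂ (center ℂ (gr w 𝔏)) ≤ 1) (hne : center ℂ 𝔏 ≠ ⊥) :
    ∃ v ∈ center ℂ 𝔏, v ≠ 0 ∧ ∀ y ∈ center ℂ 𝔏, ∃ c : ℂ, y = c • v := by
  obtain ⟨x₀, hx₀, hx₀'⟩ := Submodule.exists_mem_ne_zero_of_ne_bot hne
  obtain ⟨a, v, ⟨hv, hv0⟩, hsv, hmaxv⟩ := exists_max w (fun x => x ∈ center ℂ 𝔏 ∧ x ≠ 0)
    ⟨x₀, hx₀, hx₀'⟩ (fun x hx => hx.2)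
  refine ⟨v, hv, hv0, fun y hy => ?_⟩
  by_contra hcon
  obtain ⟨b, z, ⟨hz, hzn⟩, hsz, hmaxz⟩ := exists_max w
    (fun x => x ∈ center ℂ 𝔏 ∧ ¬ ∃ c : ℂ, x = c • v) ⟨y, hy, hcon⟩ (fun x hx h0 => hx.2 ⟨0, by
      rw [h0, zero_smul]⟩)
  obtain ⟨k, hk, hvk⟩ := lead_ne hsv (hmaxv v ⟨hv, hv0⟩)
  obtain ⟨l, hl, hzl⟩ := lead_ne hsz (hmaxz z ⟨hz, hzn⟩)
  have hv' := lead_mem hF hv hsv
  have hz' := lead_mem hF hz hsz
  have hdim := finrank_le_one_iff.mp hc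
  obtain ⟨⟨g, hg⟩, hgen⟩ := hdim
  obtain ⟨c₁, hc₁⟩ := hgen ⟨_, hv'⟩
  obtain ⟨c₂, hc₂⟩ := hgen ⟨_, hz'⟩
  have e1 : c₁ • g = lead w a v := congrArg Subtype.val hc₁
  have e2 : c₂ • g = lead w b z := congrArg Subtype.val hc₂
  have hc1 : c₁ ≠ 0 := by
    rintro rfl
    rw [zero_smul] at e1
    exact hvk (by rw [← e1]; rfl)
  have e3 : lead w b z = (c₂ / c₁) • lead w a v := by
    rw [← e1, ← e2, smul_smul, div_mul_cancel₀ _ hc1]
  have hab : b = a := by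
    have h1 := congrFun e3 l
    rw [Pi.smul_apply] at h1
    by_contra hne'
    have h2 : lead w a v l = 0 := by
      simp [lead, hl, hne']
    rw [h2, smul_zero] at h1
    exact hzl h1
  subst hab
  refine hmaxz (z - (c₂ / c₁) • v) ⟨Submodule.sub_mem _ hz (Submodule.smul_mem _ _ hv), ?_⟩ ?_
  · rintro ⟨c, hc'⟩
    exact hzn ⟨c + c₂ / c₁, by rw [add_smul, ← hc']; abel⟩
  · intro i hi
    rcases lt_or_eq_of_le (Nat.lt_succ_iff.mp hi) with hlt | heq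
    · simp [hsz i hlt, hsv i hlt]
    · have h1 := congrFun e3 i
      simp only [lead, heq, if_true, Pi.smul_apply] at h1
      rw [Pi.sub_apply, Pi.smul_apply, h1, sub_self]

end UniA

open UniA in
theorem dnum_of_center {h : ℕ} (𝔏 : Alg h) (w : Fin h → ℕ) (hF : Filtered w 𝔏)
    (hw : ∀ i, 1 ≤ w i) (hc : Module.finrank ℂ (center ℂ (gr w 𝔏)) ≤ 1) : 𝔏.dnum = h := by
  classical
  have hmem : h ∈ {d : ℕ | sInf {J : Submodule ℂ (Fin h → ℂ) | 𝔏.IsIdeal J ∧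
      Module.finrank ℂ ((Fin h → ℂ) ⧸ J) ≤ d} = ⊥} := by
    refine le_bot_iff.mp (sInf_le ⟨?_, ?_⟩)
    · intro x hx y
      rw [Submodule.mem_bot] at hx
      subst hx
      constructor
      · rw [Submodule.mem_bot]
        funext k
        simp [Alg.mul]
      · rw [Submodule.mem_bot]
        funext k
        simp [Alg.mul]
    · have := Submodule.finrank_quotient_add_finrank (⊥ : Submodule ℂ (Fin h → ℂ))
      rw [Module.finrank_fin_fun] at this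
      omega
  refine le_antisymm (Nat.sInf_le hmem) (le_csInf ⟨h, hmem⟩ fun d hd => ?_)
  by_contra hlt
  push Not at hlt
  have hne : ∀ J : Submodule ℂ (Fin h → ℂ), Module.finrank ℂ ((Fin h → ℂ) ⧸ J) ≤ d → J ≠ ⊥ := by
    rintro J hJ rfl
    have := Submodule.finrank_quotient_add_finrank (⊥ : Submodule ℂ (Fin h → ℂ))
    rw [Module.finrank_fin_fun, finrank_bot] at this
    omega
  have htop : (⊤ : Submodule ℂ (Fin h → ℂ)) ≠ ⊥ := by
    refine hne ⊤ ?_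
    have := Submodule.finrank_quotient_add_finrank (⊤ : Submodule ℂ (Fin h → ℂ))
    rw [Module.finrank_fin_fun, finrank_top, Module.finrank_fin_fun] at this
    omega
  obtain ⟨x₁, _, hx₁0, hx₁⟩ := ideal_center hF hw (J := ⊤)
    (fun x _ y => ⟨Submodule.mem_top, Submodule.mem_top⟩) htop
  have hcne : center ℂ 𝔏 ≠ ⊥ := by
    intro h0
    rw [h0, Submodule.mem_bot] at hx₁
    exact hx₁0 hx₁
  obtain ⟨v, hv, hv0, hgen⟩ := center_le_one hF hc hcne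
  have hall : v ∈ sInf {J : Submodule ℂ (Fin h → ℂ) | 𝔏.IsIdeal J ∧
      Module.finrank ℂ ((Fin h → ℂ) ⧸ J) ≤ d} := by
    rw [Submodule.mem_sInf]
    rintro J ⟨hJ, hJd⟩
    obtain ⟨x, hxJ, hx0, hxc⟩ := ideal_center hF hw hJ (hne J hJd)
    obtain ⟨c, rfl⟩ := hgen x hxc
    have hc0 : c ≠ 0 := by
      rintro rfl
      exact hx0 (zero_smul _ _)
    have := J.smul_mem c⁻¹ hxJ
    rwa [smul_smul, inv_mul_cancel₀ hc0, one_smul] at this
  rw [Set.mem_ofPred_eq] at hd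
  rw [hd, Submodule.mem_bot] at hall
  exact hv0 hall

end Pool.Agent.MPf60e8aP
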