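import Mathlib
import Pool.Agent.Lib.MP_f60e8a_al.P.Adapted
import Pool.Agent.Lib.MP_f60e8a_al.P.PLaw
import Pool.Agent.Lib.MP_f60e8a_al.P.GrLimit
import Pool.Agent.Lib.MP_f60e8a_al.P.Lead
import Pool.Agent.Lib.MP_f60e8a_al.P.CoordUp
import Pool.Agent.Lib.MP_f60e8a_al.P.LowA
import Pool.Agent.Lib.MP_f60e8a_al.P.LowB
import Pool.Agent.Lib.MP_f60e8a_al.P.HorGen
import Pool.Agent.Lib.MP_f60e8a_al.P.MeanG
import Pool.Agent.Lib.MP_f60e8a_al.P.EnergyG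
import Pool.Agent.Lib.MP_f60e8a_al.P.BlowP
import Pool.Agent.Lib.MP_f60e8a_al.P.DerivP
import Pool.Agent.Lib.MP_f60e8a_al.P.LieHomP
import Pool.Agent.Lib.MP_f60e8a_al.P.DnumIso
import Pool.Agent.Lib.MP_f60e8a_al.P.CarnA
import Pool.Agent.Lib.MP_f60e8a_al.P.CarnB
import Pool.Agent.Lib.MP_f60e8a_al.P.UniA
import Pool.Agent.Lib.MP_f60e8a_al.P.UniB
import Pool.Agent.Lib.MP_f60e8a_al.P.CenterF
import Pool.Agent.Lib.MP_f60e8a_al.P.Class2
import Pool.Agent.Lib.MP_f60e8a_al.N.FinalN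
import Pool.Agent.Lib.MP_f60e8a_al.Final

/-!
# Assembly: Pansu's theorem for finitely generated nilpotent groups and the residual finiteness
growth
-/

open scoped BigOperators commutatorElement

namespace Pool.Agent.MPf60e8aP.FinalP

open Pool.Agent.MPf60e8a
open Pool.Agent.MPf60e8aN

/-- The coordinates of a unipotent representation. -/
theorem exists_gmap {G : Type*} [Group G] {N M h : ℕ}
    (φ : G →* (Matrix (Fin N) (Fin N) ℚ)ˣ) (hφ : IsUnipotent φ) (hker : Finite φ.ker)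
    {L : AddSubgroup (Matrix (Fin N) (Fin N) ℚ)} (hL : LieLattice (upperNil N) M L)
    (hlog : ∀ g, lg (φ g : Matrix (Fin N) (Fin N) ℚ) ∈ L) (n₀ : ℕ) (hn₀ : 0 < n₀)
    (hin : ∀ x ∈ L, ∃ g : G, (φ g : Matrix (Fin N) (Fin N) ℚ) = IsNilpotent.exp (n₀ • x))
    (e : Module.Basis (Fin h) ℤ L) {w : Fin h → ℕ} (𝒢 : PGrp w)
    (h𝒢 : ∀ x y z : Fin h → ℤ,
      IsNilpotent.exp (∑ i, x i • (e i : Matrix (Fin N) (Fin N) ℚ)) *
        IsNilpotent.exp (∑ i, y i • (e i : Matrix (Fin N) (Fin N) ℚ)) =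
        IsNilpotent.exp (∑ i, z i • (e i : Matrix (Fin N) (Fin N) ℚ)) →
      pmul 𝒢.Q (fun i => (x i : ℝ)) (fun i => (y i : ℝ)) = fun i => (z i : ℝ)) :
    Nonempty (GMap G 𝒢) := by
  have hT : ∀ g, ∃ x : Fin h → ℤ, LowerN.T e x = lg (φ g : Matrix (Fin N) (Fin N) ℚ) :=
    fun g => LowerN.exists_T e (hlog g)
  choose ξ hξ using hT
  have hexp : ∀ g, IsNilpotent.exp (LowerN.T e (ξ g)) = (φ g : Matrix (Fin N) (Fin N) ℚ) := by
    intro g
    rw [hξ]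
    exact exp_lg ((upperNil N).isNilpotent (hφ g))
  refine ⟨⟨ξ, ?_, ?_, n₀, hn₀, ?_⟩⟩
  · intro g g'
    refine (h𝒢 _ _ _ ?_).symm
    have h1 := hexp g
    have h2 := hexp g'
    have h3 := hexp (g * g')
    rw [LowerN.T_apply] at h1 h2 h3
    rw [h1, h2, h3, map_mul, Units.val_mul]
  · have h1 : {g : G | ξ g = 0} ⊆ (φ.ker : Set G) := by
      intro g hg
      have h2 := hexp g
      rw [show ξ g = 0 from hg, map_zero, IsNilpotent.exp_zero] at h2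
      exact (MonoidHom.mem_ker).mpr (Units.ext h2.symm)
    exact (Set.toFinite (φ.ker : Set G)).subset h1
  · intro x
    obtain ⟨g, hg⟩ := hin _ (LowerN.T_mem e x)
    refine ⟨g, LowerN.T_injective e ?_⟩
    rw [hξ, hg, map_nsmul]
    refine lg_exp ((upperNil N).isNilpotent ?_)
    exact (upperNil N).S.smul_of_tower_mem n₀ (hL.le _ (LowerN.T_mem e x))

/-- The data attached to a group. -/
structure PData (G : Type*) [Group G] (S : Finset G) (d : ℕ) where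
  h : ℕ
  w : Fin h → ℕ
  𝔏 : Alg h
  M : ℕ
  𝒢 : PGrp w
  𝒢' : PGrp w
  γ : GMap G 𝒢
  M_pos : 0 < M
  one_le : ∀ i, 1 ≤ w i
  filtered : Filtered w 𝔏
  generated : Generated w (gr w 𝔏)
  comm : HasComm 𝒢 𝔏 M
  comm' : HasComm 𝒢' (gr w 𝔏) M
  lim : GrLim 𝒢 𝒢'
  up : CoordUp S γ
  low : CoordLow S γ
  dnum_eq : d = 𝔏.dnum
  carnot : CarnotType G → d = (gr w 𝔏).dnum
  uni : UniCentral G → Module.finrank ℚ (center ℚ (gr w 𝔏)) ≤ 1
  class2 : Finite ((⊤ : Subgroup G).lowerCentralSeries 2) → ∀ k, w k ≤ 2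

theorem exists_data {G : Type*} [Group G] [Group.IsNilpotent G] {S : Finset G}
    (hS : Subgroup.closure (S : Set G) = ⊤) {N : ℕ}
    (φ : G →* (Matrix (Fin N) (Fin N) ℚ)ˣ) (hφ : IsUnipotent φ) (hker : Finite φ.ker) :
    Nonempty (PData G S (malcevNumber φ)) := by
  have hFG : Group.FG G := ⟨⟨S, hS⟩⟩
  obtain ⟨M, hM⟩ := exists_bchConst N
  obtain ⟨L, hL, hLfg, hlog, n₀, hn₀, hin⟩ := exists_lattice (upperNil N) hM φ hφ
  obtain ⟨h, e, 𝔏, w, h𝔏, hw, hF, hG⟩ := exists_adapted (upperNil N) hM.1 hL hLfg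
  obtain ⟨𝒢, hc, h𝒢⟩ := exists_pgrp hM hL e 𝔏 h𝔏 w hw hF
  obtain ⟨𝒢', hlim, hc'⟩ := exists_lim 𝒢 𝔏 M hc hF
  obtain ⟨γ⟩ := exists_gmap φ hφ hker hL hlog n₀ hn₀ hin e 𝒢 h𝒢
  have heq := malcevNumber_eq hM.1 φ hφ hL hlog n₀ hn₀ hin e 𝔏 h𝔏
  refine ⟨⟨h, w, 𝔏, M, 𝒢, 𝒢', γ, hM.1, hw, hF, hG, hc, hc', hlim, coordUp hS γ,
    coordLow hS γ hM.1 hc hF hG, heq, ?_, ?_, ?_⟩⟩
  · intro hC
    obtain ⟨n, Ψ, hn, hΨ, hn'⟩ :=
      carnot_endo hM φ hφ hker hL hlog n₀ hn₀ hin e 𝔏 h𝔏 hC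
    obtain ⟨Φ, hΦ⟩ := carnot_iso 𝔏 w hw hF hG n hn Ψ hΨ hn'
    rw [heq]
    refine (dnum_congr (gr w 𝔏) 𝔏 Φ 1 1 one_pos one_pos fun x y => ?_).symm
    rw [hΦ]
  · intro hU
    exact center_of_uniCentral γ hM.1 hc hF hG hU
  · intro hfin k
    exact weight_le_two γ hM.1 hc hF hG hfin k

theorem gr_graded {h : ℕ} (w : Fin h → ℕ) (𝔏 : Alg h) : Graded w (gr w 𝔏) := by
  intro i j k hne
  by_contra hcon
  exact hne (if_neg hcon)

theorem gr_filtered {h : ℕ} (w : Fin h → ℕ) (𝔏 : Alg h) : Filtered w (gr w 𝔏) :=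
  fun i j k hne => (gr_graded w 𝔏 i j k hne).ge

theorem gr_gr {h : ℕ} (w : Fin h → ℕ) (𝔏 : Alg h) : gr w (gr w 𝔏) = gr w 𝔏 := by
  unfold gr
  congr 1
  funext i j k
  by_cases hk : w k = w i + w j
  · simp [hk]
  · simp [hk]

/-- A quasi-isometric embedding gives an injective linear map of the graded Lie algebras. -/
theorem exists_phi {G H : Type*} [Group G] [Group H] [Group.IsNilpotent G]
    [Group.IsNilpotent H] {S : Finset G} {T : Finset H}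
    (hS : Subgroup.closure (S : Set G) = ⊤) (hT : Subgroup.closure (T : Set H) = ⊤)
    {d₁ d₂ : ℕ} (D₁ : PData G S d₁) (D₂ : PData H T d₂) (f : G → H) (K : ℕ)
    (hf : QIE S T f K) :
    ∃ Φ : (Fin D₁.h → ℝ) →ₗ[ℝ] (Fin D₂.h → ℝ), Function.Injective Φ ∧
      ∀ x y, (D₁.M : ℝ) • Φ ((gr D₁.w D₁.𝔏).mul x y) =
        (D₂.M : ℝ) • (gr D₂.w D₂.𝔏).mul (Φ x) (Φ y) := by
  have hFG : Group.FG G := ⟨⟨S, hS⟩⟩
  obtain ⟨F, K', hF⟩ := exists_limMap hS hT D₁.lim D₂.lim D₁.γ D₂.γ D₁.up D₁.low D₂.up D₂.low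
    (exists_baseG (exists_meanG G) D₂.h) f K hf
  have hgen : Subgroup.closure {x : D₁.𝒢'.R | Horiz D₁.w x.v} = ⊤ := by
    refine horiz_gen D₁.𝒢' D₁.M_pos D₁.comm' (gr_filtered _ _) ?_
    rw [gr_gr]
    exact D₁.generated
  exact exists_lie D₁.comm' D₂.comm' hF (limMap_hom D₁.lim.homog D₂.lim.homog hgen hF)

/-- A quasi-inverse. -/
theorem exists_inverse {G H : Type*} [Group G] [Group H] {S : Finset G} {T : Finset H}
    (hT : Subgroup.closure (T : Set H) = ⊤) (f : G → H) (K : ℕ)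
    (hf : QIE S T f K) (hcoarse : ∀ z, ∃ x, wordLen T ((f x)⁻¹ * z) ≤ K) :
    ∃ (f' : H → G) (K' : ℕ), QIE T S f' K' := by
  choose f' hf' using hcoarse
  refine ⟨f', 2 * K * K + 3 * K, ?_, ?_⟩
  · intro z w
    have h1 := hf.2 (f' z) (f' w)
    have h2 : wordLen T ((f (f' z))⁻¹ * f (f' w)) ≤ wordLen T (z⁻¹ * w) + 2 * K := by
      have h3 := wordLen_triangle hT (f (f' z)) z (f (f' w))
      have h4 := wordLen_triangle hT z w (f (f' w))
      have h5 := hf' z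
      have h6 := hf' w
      rw [wordLen_inv_mul_comm hT] at h6
      omega
    have h3 : K * wordLen T ((f (f' z))⁻¹ * f (f' w)) ≤
        K * (wordLen T (z⁻¹ * w) + 2 * K) := Nat.mul_le_mul_left K h2
    have h4 : K * wordLen T (z⁻¹ * w) ≤ (2 * K * K + 3 * K) * wordLen T (z⁻¹ * w) :=
      Nat.mul_le_mul_right _ (by nlinarith)
    nlinarith
  · intro z w
    have h1 := hf.1 (f' z) (f' w)
    have h2 : wordLen T (z⁻¹ * w) ≤ wordLen T ((f (f' z))⁻¹ * f (f' w)) + 2 * K := by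
      have h3 := wordLen_triangle hT z (f (f' z)) w
      have h4 := wordLen_triangle hT (f (f' z)) (f (f' w)) w
      have h5 := hf' z
      have h6 := hf' w
      rw [wordLen_inv_mul_comm hT] at h5
      omega
    have h4 : K * wordLen S ((f' z)⁻¹ * f' w) ≤
        (2 * K * K + 3 * K) * wordLen S ((f' z)⁻¹ * f' w) :=
      Nat.mul_le_mul_right _ (by nlinarith)
    nlinarith

/-- Pansu's theorem: the graded Lie algebras of quasi-isometric finitely generated nilpotent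
groups are isomorphic. -/
theorem pansu {G H : Type*} [Group G] [Group H] [Group.IsNilpotent G]
    [Group.IsNilpotent H] {S : Finset G} {T : Finset H}
    (hS : Subgroup.closure (S : Set G) = ⊤) (hT : Subgroup.closure (T : Set H) = ⊤)
    {d₁ d₂ : ℕ} (D₁ : PData G S d₁) (D₂ : PData H T d₂) (f : G → H) (K : ℕ)
    (hf : QIE S T f K) (hcoarse : ∀ z, ∃ x, wordLen T ((f x)⁻¹ * z) ≤ K) :
    D₁.h = D₂.h ∧ ∃ Φ : (Fin D₁.h → ℝ) ≃ₗ[ℝ] (Fin D₂.h → ℝ),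
      ∀ x y, (D₁.M : ℝ) • Φ ((gr D₁.w D₁.𝔏).mul x y) =
        (D₂.M : ℝ) • (gr D₂.w D₂.𝔏).mul (Φ x) (Φ y) := by
  obtain ⟨f', K', hf'⟩ := exists_inverse hT f K hf hcoarse
  obtain ⟨Φ, hΦ, hΦ'⟩ := exists_phi hS hT D₁ D₂ f K hf
  obtain ⟨Ψ, hΨ, _⟩ := exists_phi hT hS D₂ D₁ f' K' hf'
  have hh : D₁.h = D₂.h := by
    have h1 := LinearMap.finrank_le_finrank_of_injective hΦ
    have h2 := LinearMap.finrank_le_finrank_of_injective hΨ
    simp only [Module.finrank_fintype_fun_eq_card, Fintype.card_fin] at h1 h2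
    omega
  refine ⟨hh, LinearEquiv.ofInjectiveOfFinrankEq Φ hΦ (by simp [hh]), fun x y => ?_⟩
  exact hΦ' x y

/-- The types of groups. -/
def GoodPair (G H : Type*) [Group G] [Group H] : Prop :=
  (CarnotType G ∧ CarnotType H) ∨ UniCentral G ∨ UniCentral H ∨
    Finite ((⊤ : Subgroup G).lowerCentralSeries 2) ∨
    Finite ((⊤ : Subgroup H).lowerCentralSeries 2)

/-- Consequence: equality of the exponents. -/
theorem exponent_eq {G H : Type*} [Group G] [Group H] [Group.IsNilpotent G]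
    [Group.IsNilpotent H] {S : Finset G} {T : Finset H}
    (hS : Subgroup.closure (S : Set G) = ⊤) (hT : Subgroup.closure (T : Set H) = ⊤)
    {d₁ d₂ : ℕ} (D₁ : PData G S d₁) (D₂ : PData H T d₂) (f : G → H) (K : ℕ)
    (hf : QIE S T f K) (hcoarse : ∀ z, ∃ x, wordLen T ((f x)⁻¹ * z) ≤ K)
    (hty : GoodPair G H) : d₁ = d₂ := by
  obtain ⟨hh, Φ, hΦ⟩ := pansu hS hT D₁ D₂ f K hf hcoarse
  have hgr := dnum_congr _ _ Φ D₁.M D₂.M D₁.M_pos D₂.M_pos hΦ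
  have hcen := center_congr _ _ Φ D₁.M D₂.M D₁.M_pos D₂.M_pos hΦ
  rw [finrank_center ℝ, finrank_center ℝ] at hcen
  have huni : Module.finrank ℚ (center ℚ (gr D₁.w D₁.𝔏)) ≤ 1 → d₁ = d₂ := by
    intro h1
    rw [D₁.dnum_eq, D₂.dnum_eq, dnum_of_center D₁.𝔏 D₁.w D₁.filtered D₁.one_le
      (by rw [finrank_center ℂ]; exact h1), dnum_of_center D₂.𝔏 D₂.w D₂.filtered D₂.one_le
      (by rw [finrank_center ℂ, ← hcen]; exact h1), hh]
  have hcl : (∀ k, D₁.w k ≤ 2) → (∀ k, D₂.w k ≤ 2) → d₁ = d₂ := by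
    intro h1 h2
    rw [gr_eq_of_le_two D₁.𝔏 D₁.filtered D₁.one_le h1,
      gr_eq_of_le_two D₂.𝔏 D₂.filtered D₂.one_le h2] at hgr
    rw [D₁.dnum_eq, D₂.dnum_eq, hgr]
  rcases hty with ⟨h1, h2⟩ | h1 | h1 | h1 | h1
  · rw [D₁.carnot h1, D₂.carnot h2, hgr]
  · exact huni (D₁.uni h1)
  · exact huni (by rw [hcen]; exact D₂.uni h1)
  · have h2 := D₁.class2 h1
    exact hcl h2 (weight_transfer D₁.𝔏 D₂.𝔏 Φ D₁.M D₂.M D₂.M_pos hΦ D₁.one_le h2
      D₂.generated)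
  · have h2 := D₂.class2 h1
    have hΦ' : ∀ x y, (D₂.M : ℝ) • Φ.symm ((gr D₂.w D₂.𝔏).mul x y) =
        (D₁.M : ℝ) • (gr D₁.w D₁.𝔏).mul (Φ.symm x) (Φ.symm y) := by
      intro x y
      have e1 := hΦ (Φ.symm x) (Φ.symm y)
      rw [Φ.apply_symm_apply, Φ.apply_symm_apply] at e1
      apply Φ.injective
      rw [map_smul, map_smul, Φ.apply_symm_apply, e1]
    exact hcl (weight_transfer D₂.𝔏 D₁.𝔏 Φ.symm D₂.M D₁.M D₁.M_pos hΦ' D₂.one_le h2
      D₁.generated) h2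

theorem infinite_of_pos {G' : Type*} [Group G'] {S' : Finset G'} {d : ℕ} (D : PData G' S' d)
    (h0 : 0 < D.h) : Infinite G' := by
  rw [← not_finite_iff_infinite]
  intro hfin
  obtain ⟨g, hg⟩ := D.γ.expo (fun _ => 1)
  obtain ⟨n, hn, hgn⟩ := isOfFinOrder_iff_pow_eq_one.mp (isOfFinOrder_of_finite g)
  have h1 : D.γ.hom (g ^ n) = 1 := by rw [hgn, map_one]
  rw [map_pow] at h1
  have h2 := congrArg PGrp.R.v h1
  rw [pow_v] at h2
  have h3 := congrFun h2 ⟨0, h0⟩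
  simp only [Pi.smul_apply, GMap.hom_v, hg, PGrp.one_v, Pi.zero_apply, smul_eq_mul,
    mul_eq_zero, Nat.cast_eq_zero] at h3
  rcases h3 with h3 | h3
  · omega
  · have := D.γ.n₀_pos
    simp at h3
    omega

/-- The main theorem. -/
theorem main {G H : Type*} [Group G] [Group H] [Nontrivial G] [Nontrivial H]
    [Group.IsNilpotent G] [Group.IsNilpotent H] {S : Finset G} {T : Finset H}
    (hS : Subgroup.closure (S : Set G) = ⊤) (hT : Subgroup.closure (T : Set H) = ⊤)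
    (f : G → H) (K : ℕ) (hf : QIE S T f K) (hcoarse : ∀ z, ∃ x, wordLen T ((f x)⁻¹ * z) ≤ K)
    (hty : GoodPair G H) :
    (∃ C : ℕ, 0 < C ∧ ∀ n, RF S n ≤ C * RF T (C * n)) ∧
    (∃ C : ℕ, 0 < C ∧ ∀ n, RF T n ≤ C * RF S (C * n)) := by
  have hFG : Group.FG G := ⟨⟨S, hS⟩⟩
  have hFH : Group.FG H := ⟨⟨T, hT⟩⟩
  obtain ⟨N₁, φ₁, hφ₁, hk₁⟩ := FinalN.hasRep G
  obtain ⟨N₂, φ₂, hφ₂, hk₂⟩ := FinalN.hasRep H
  obtain ⟨D₁⟩ := exists_data hS φ₁ hφ₁ hk₁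
  obtain ⟨D₂⟩ := exists_data hT φ₂ hφ₂ hk₂
  have hh := (pansu hS hT D₁ D₂ f K hf hcoarse).1
  have hd := exponent_eq hS hT D₁ D₂ f K hf hcoarse hty
  -- finiteness
  have hfin₁ : D₁.h = 0 → Finite G := by
    intro h0
    have h1 : (Set.univ : Set G).Finite := by
      refine D₁.γ.finite.subset fun g _ => ?_
      funext i
      exact absurd i.2 (by omega)
    exact Set.finite_univ_iff.mp h1
  have hfin₂ : D₂.h = 0 → Finite H := by
    intro h0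
    have h1 : (Set.univ : Set H).Finite := by
      refine D₂.γ.finite.subset fun g _ => ?_
      funext i
      exact absurd i.2 (by omega)
    exact Set.finite_univ_iff.mp h1
  rcases Nat.eq_zero_or_pos D₁.h with h0 | hpos
  · have := hfin₁ h0
    have := hfin₂ (hh ▸ h0)
    exact ⟨Final.dominated_of_finite hS hT, Final.dominated_of_finite hT hS⟩
  · have : Infinite G := infinite_of_pos D₁ hpos
    have : Infinite H := infinite_of_pos D₂ (hh ▸ hpos)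
    obtain ⟨_, ⟨A₁, hA₁, up₁⟩, B₁, hB₁, low₁⟩ := FinalN.bounds hS φ₁ hφ₁ hk₁
    obtain ⟨_, ⟨A₂, hA₂, up₂⟩, B₂, hB₂, low₂⟩ := FinalN.bounds hT φ₂ hφ₂ hk₂
    rw [hd] at up₁ low₁
    exact ⟨Final.dominated_of_bounds hS hT _ A₁ B₂ hA₁ hB₂ up₁ low₂,
      Final.dominated_of_bounds hT hS _ A₂ B₁ hA₂ hB₁ up₂ low₁⟩

end Pool.Agent.MPf60e8aP.FinalP
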